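/-
MP_12179d_EZ : measure zero implies finitely many orbits of gaps.  Definitions.

Everything concerns a system `A : Sys` (finitely generated group `A.G` of lifts of C² circle diffeomorphisms, exceptional
minimal set `A.L`, see Pool/Agent/H42/EM/Defs.lean) and a gap J = (a, b) of A.L which is longest in its orbit.
VERTICES are the gaps g J, g ∈ A.G (mod ℤ); `rho g` = |g J| / |J| ≤ 1.  A path 1 = w 0, w 1, ..., w n = T^k g of the
Cayley graph (left multiplication by generators, `Sys.Path`) has the cost ∑ rho (w i); `Cst g κ`: there is a path with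
cost ≤ κ.  W = supremum over all vertices of the distance from J.  r = scale at which everything of cost ≤ 100 W is
controlled (nearly affine on K = [a - 40 r, b + 40 r]).
-/
import Mathlib
import Pool.Agent.H42.EM.Mxd
import Pool.Agent.H42.EM.Fix
import Pool.Agent.H42.EM.Fam

set_option autoImplicit false

namespace Pool.Agent.H42.EM

open Set

/-- a small constant -/
noncomputable def eps : ℝ := 1 / 10 ^ 8

/-- relative length of the image of the gap `(a, b)` -/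
noncomputable def rho (a b : ℝ) (g : Equiv.Perm ℝ) : ℝ := (g b - g a) / (b - a)

/-- `g` is (mod translations) the end of a path starting at `1` of cost at most `κ` -/
def Sys.Cst (A : Sys) (a b : ℝ) (g : Equiv.Perm ℝ) (κ : ℝ) : Prop :=
  ∃ (n : ℕ) (w : ℕ → Equiv.Perm ℝ) (k : ℤ), A.Path n w ∧ w n = T ^ k * g ∧
    ∑ i ∈ Finset.range (n + 1), rho a b (w i) ≤ κ

/-- `g` is controlled on `K = [a - 40 r, b + 40 r]` -/
def Ctl (a b r : ℝ) (g : Equiv.Perm ℝ) : Prop :=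
  ∀ u ∈ Icc (a - 40 * r) (b + 40 * r), ∀ v ∈ Icc (a - 40 * r) (b + 40 * r),
    |Real.log (deriv (⇑g) u) - Real.log (deriv (⇑g) v)| ≤ eps / (100 * r) * |u - v|

/-- a gap longest in its orbit, together with a scale of full control -/
structure Gp (A : Sys) where
  a : ℝ
  b : ℝ
  r : ℝ
  W : ℝ
  B : ℝ
  gap : IsGap A.L a b
  longest : ∀ g ∈ A.G, g b - g a ≤ b - a
  hr : 0 < r
  hr1 : r ≤ 1 / 1000
  hJ : b - a ≤ eps * r
  hW : 1000 ≤ W
  hB : 1 ≤ B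
  hBs : ∀ s ∈ A.S, ∀ x, deriv (⇑s) x ≤ B
  ctl : ∀ g ∈ A.G, A.Cst a b g (100 * W) → Ctl a b r g
  rep : ∀ g ∈ A.G, ∃ h ∈ A.G, h a = g a ∧ h b = g b ∧ A.Cst a b h (101 / 100 * W)

variable {A : Sys}

/-- relative length for the gap of `P` -/
noncomputable abbrev Gp.rh (P : Gp A) (g : Equiv.Perm ℝ) : ℝ := rho P.a P.b g

/-- cost for the gap of `P` -/
abbrev Gp.C (P : Gp A) (g : Equiv.Perm ℝ) (κ : ℝ) : Prop := A.Cst P.a P.b g κ

/-- `h` is a loop at the gap `(a, b)` of cost at most `κ` -/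
def Gp.Lop (P : Gp A) (h : Equiv.Perm ℝ) (κ : ℝ) : Prop :=
  h ∈ A.G ∧ h P.a = P.a ∧ h P.b = P.b ∧ P.C h κ

/-- normalised distance of the vertex `g` from the base vertex -/
noncomputable def Gp.E (P : Gp A) (g : Equiv.Perm ℝ) : ℝ :=
  sInf {κ | ∃ h ∈ A.G, h P.a = g P.a ∧ h P.b = g P.b ∧ P.C h κ} / P.W

/-- the loop of an edge, for a choice `rp` of representatives -/
def lp (rp : Equiv.Perm ℝ → Equiv.Perm ℝ) (s g : Equiv.Perm ℝ) : Equiv.Perm ℝ :=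
  (rp (s * g))⁻¹ * (s * rp g)

/-- choice of representatives of the vertices -/
structure Rp (P : Gp A) where
  rp : Equiv.Perm ℝ → Equiv.Perm ℝ
  mem : ∀ g ∈ A.G, rp g ∈ A.G
  ha : ∀ g ∈ A.G, rp g P.a = g P.a
  hb : ∀ g ∈ A.G, rp g P.b = g P.b
  cst : ∀ g ∈ A.G, P.C (rp g) (101 / 100 * P.W)
  rT : ∀ (j : ℤ), ∀ g ∈ A.G, rp (T ^ j * g) = T ^ j * rp g
  congr : ∀ g ∈ A.G, ∀ h ∈ A.G, g P.a = h P.a → rp g = rp h
  clos : ∀ g ∈ A.G, ∃ k ∈ Subgroup.closure {l | ∃ g' ∈ A.G, ∃ s ∈ A.S, l = lp rp s g'}, g = rp g * k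

/-- representatives, a free loop `f` on the right of the gap, and the consequences of the crossing lemma -/
structure Fd (P : Gp A) extends Rp P where
  f : Equiv.Perm ℝ
  v : ℝ
  hf : P.Lop f (21 / 10 * P.W)
  hvL : v ∈ A.L
  hv1 : P.b + 8 * P.r < v
  hv2 : v < P.b + 9 * P.r
  free : ∀ t ∈ Ioc P.b v, f t < t
  dsp : ∀ g ∈ A.G, ∀ s ∈ A.S, ∀ t ∈ Ioc P.b v, (f ^ 4) t < lp rp s g t ∧ (f ^ 4) t < (lp rp s g)⁻¹ t
  dd : ∀ g ∈ A.G, ∀ g' ∈ A.G, P.C g (3 * P.W) → P.C g' (3 * P.W) → g P.b ≤ g' P.a →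
    g' P.a < g (P.b + 7 * P.r) → g P.b < g' (P.a - 7 * P.r)

/-- `z` is an ancestor of `y`: `y` lies in the right shadow of `z` -/
def Fd.Anc {P : Gp A} (F : Fd P) (y z : Equiv.Perm ℝ) : Prop :=
  z ∈ A.G ∧ z P.b ≤ y P.a ∧ y P.a < F.rp z (P.b + P.r)

/-- the closest ancestor -/
def Fd.Par {P : Gp A} (F : Fd P) (y z : Equiv.Perm ℝ) : Prop :=
  F.Anc y z ∧ ∀ z', F.Anc y z' → z' P.b ≤ z P.b

/-- `n` is the depth of the point `t ∈ (b, b + r)` -/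
def Fd.Dep {P : Gp A} (F : Fd P) (t : ℝ) (n : ℕ) : Prop :=
  (F.f ^ (n + 1)) (P.b + P.r) ≤ t ∧ t < (F.f ^ n) (P.b + P.r)

/-- the value attached to the vertex `y` -/
def Fd.Hat {P : Gp A} (F : Fd P) (y : Equiv.Perm ℝ) (e : ℝ) : Prop :=
  ((¬ ∃ z, F.Anc y z) ∧ e = P.E y) ∨
  ∃ z n, F.Par y z ∧ F.Dep (((F.rp z)⁻¹ * y) P.a) n ∧ e = P.E ((F.f ^ n)⁻¹ * ((F.rp z)⁻¹ * y))

/-- `o` is a letter not contained in a shadow (of radius `θ r`) of another letter -/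
def Fd.Prim {P : Gp A} (F : Fd P) (θ : ℝ) (o : Equiv.Perm ℝ) : Prop :=
  o ∈ A.G ∧ P.b < o P.a ∧ o P.a < P.b + 2 * P.r ∧
    ∀ u ∈ A.G, P.b ≤ u P.a → u P.b ≤ o P.a → F.rp u (P.b + θ * P.r) ≤ o P.a

/-- outer letters -/
def Fd.Out {P : Gp A} (F : Fd P) (o : Equiv.Perm ℝ) : Prop :=
  F.Prim (9 / 10) o ∧ (F.f ^ 5) (P.b + P.r) ≤ o P.a ∧ (F.f ^ 5) (o P.a) < P.b + P.r

/-- a cluster of primitive letters of total mass `≥ 5000 S`, with values in `[e - 10 S, e + 10 S]` -/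
def Fd.Clu {P : Gp A} (F : Fd P) (e S : ℝ) : Prop :=
  0 < S ∧ ∃ O : Finset (Equiv.Perm ℝ), (∀ o ∈ O, F.Prim (9 / 10) o) ∧
    (∀ o ∈ O, ∀ o' ∈ O, o P.a = o' P.a → o = o') ∧ (∀ o ∈ O, |P.E o - e| ≤ 10 * S) ∧
    5000 * S ≤ ∑ o ∈ O, P.rh o

end Pool.Agent.H42.EM
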