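/-
CS1 : basic facts on costs (definitions in Def.lean; all elementary).

PROOFS.
* rho_T : (T^k * g) x = g x + k (T_zpow).   rh_pos: g strictly increasing (A.good hg).mono, P.a < P.b (P.gap.1).
  rh_le: P.longest.   rh_one: div_self.
* b_congr: (g a, g b) and (h a, h b) are gaps (IsGap.image), the second translated by k is the gap (h a + k, h b + k)
  (IsGap.add_int); equal left endpoints give equal right endpoints (IsGap.eq_of_left).
* Cst.mem: w n ∈ A.G (Path.mem) and T^k ∈ A.G.     mono: trivial.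
* cst_one: n = 0, w = fun _ => 1, k = 0.    cst_T: T^j * g with path ending at T^k * g: T^k * g = T^(k-j) * (T^j * g).
* cst_step: extend the path by w (n+1) = s * w n (use fun i => if i ≤ n then w i else s * w n); s * T^k = T^k * s
  (Good.commT for s ∈ G); rho of the last vertex = rho (s * g) by rho_T.
* one_le: all terms are ≥ 0 (w i ∈ G), the term i = 0 is rho 1 = 1.    rh_le_cst: the term i = n is rho (T^k g) = rho g.
* cst_prefix: the path restricted to i ≤ n steps (Path.mono), sum over a smaller range, k = 0.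
-/
import Pool.Agent.H42.EZ.Def

set_option autoImplicit false

namespace Pool.Agent.H42.EM

open Set

variable {A : Sys}

lemma Sys.Cst.mono {a b κ κ' : ℝ} {g : Equiv.Perm ℝ} (h : A.Cst a b g κ) (hκ : κ ≤ κ') :
    A.Cst a b g κ' := by
  obtain ⟨n, w, k, h1, h2, h3⟩ := h
  exact ⟨n, w, k, h1, h2, h3.trans hκ⟩

lemma Sys.Cst.mem {a b κ : ℝ} {g : Equiv.Perm ℝ} (h : A.Cst a b g κ) : g ∈ A.G := by
  obtain ⟨n, w, k, h1, h2, h3⟩ := h
  have h4 := h1.mem le_rfl
  rw [h2] at h4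
  exact (Subgroup.mul_mem_cancel_left _ (A.Tz_mem k)).1 h4

lemma rho_T (a b : ℝ) (k : ℤ) (g : Equiv.Perm ℝ) : rho a b (T ^ k * g) = rho a b g := by
  unfold rho
  rw [Equiv.Perm.mul_apply, Equiv.Perm.mul_apply, T_zpow, T_zpow]
  congr 1
  ring

lemma Gp.ab (P : Gp A) : P.a < P.b := P.gap.1

lemma Gp.rh_pos (P : Gp A) {g : Equiv.Perm ℝ} (hg : g ∈ A.G) : 0 < P.rh g := by
  unfold Gp.rh rho
  have h1 := (A.good hg).mono P.ab
  have h2 := P.ab
  exact div_pos (by linarith) (by linarith)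

lemma Gp.rh_le (P : Gp A) {g : Equiv.Perm ℝ} (hg : g ∈ A.G) : P.rh g ≤ 1 := by
  unfold Gp.rh rho
  have h2 := P.ab
  rw [div_le_one (by linarith)]
  exact P.longest g hg

lemma Gp.rh_one (P : Gp A) : P.rh 1 = 1 := by
  unfold Gp.rh rho
  have h2 := P.ab
  rw [Equiv.Perm.one_apply, Equiv.Perm.one_apply]
  exact div_self (by linarith)

/-- length of the image -/
lemma Gp.rh_mul (P : Gp A) (g : Equiv.Perm ℝ) : g P.b - g P.a = P.rh g * (P.b - P.a) := by
  unfold Gp.rh rho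
  have h2 := P.ab
  have h3 : P.b - P.a ≠ 0 := by linarith
  rw [div_mul_cancel₀ _ h3]

lemma Gp.rh_congr (P : Gp A) {g h : Equiv.Perm ℝ} (ha : g P.a = h P.a) (hb : g P.b = h P.b) :
    P.rh g = P.rh h := by
  unfold Gp.rh rho
  rw [ha, hb]

lemma Gp.b_congr (P : Gp A) {g h : Equiv.Perm ℝ} (hg : g ∈ A.G) (hh : h ∈ A.G) {k : ℤ}
    (e : g P.a = h P.a + k) : g P.b = h P.b + k := by
  have h1 := P.gap.image A hg
  have h2 := (P.gap.image A hh).add_int A k
  rw [e] at h1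
  exact h1.eq_of_left h2

/-- two gaps of the orbit: equal or separated -/
lemma Gp.sep_or (P : Gp A) {g h : Equiv.Perm ℝ} (hg : g ∈ A.G) (hh : h ∈ A.G) :
    (g P.a = h P.a ∧ g P.b = h P.b) ∨ g P.b ≤ h P.a ∨ h P.b ≤ g P.a := by
  have h1 := P.gap.image A hg
  have h2 := P.gap.image A hh
  rcases h1.eq_or h2 with h3 | h3 | h3
  · left
    refine ⟨h3, ?_⟩
    have h4 := P.b_congr hg hh (k := 0) (by simpa using h3)
    simpa using h4
  · exact Or.inr (Or.inl h3)
  · exact Or.inr (Or.inr h3)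

/-- no gap of the orbit begins at the right end of another one -/
lemma Gp.lt_of_le (P : Gp A) {g h : Equiv.Perm ℝ} (hg : g ∈ A.G) (hh : h ∈ A.G)
    (h1 : g P.b ≤ h P.a) : g P.b < h P.a := by
  refine lt_of_le_of_ne h1 fun he => ?_
  have h2 := P.gap.image A hg
  have h3 := P.gap.image A hh
  have h4 := A.accR_of_gap h2
  have h5 : 0 < h P.b - h P.a := by linarith [h3.1]
  obtain ⟨t, ht, htL⟩ := h4 _ h5
  refine h3.2.2.2 t ⟨?_, ?_⟩ htL
  · rw [← he]; exact ht.1
  · have := ht.2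
    linarith

lemma Gp.cst_one (P : Gp A) : P.C 1 1 := by
  refine ⟨0, fun _ => 1, 0, ⟨rfl, fun i hi => absurd hi (Nat.not_lt_zero i)⟩, by simp, ?_⟩
  have h1 := P.rh_one
  unfold Gp.rh at h1
  simp [h1]

lemma Gp.cst_T (P : Gp A) {g : Equiv.Perm ℝ} {κ : ℝ} (h : P.C g κ) (k : ℤ) : P.C (T ^ k * g) κ := by
  obtain ⟨n, w, j, h1, h2, h3⟩ := h
  refine ⟨n, w, j - k, h1, ?_, h3⟩
  rw [h2, ← mul_assoc, ← zpow_add]
  congr 2
  ring

lemma Cs1_ext {n : ℕ} {w : ℕ → Equiv.Perm ℝ} (hw : A.Path n w)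
    {s : Equiv.Perm ℝ} (hs : s ∈ A.S) :
    A.Path (n + 1) (fun i => if i ≤ n then w i else s * w n) := by
  refine ⟨by simp [hw.1], ?_⟩
  intro i hi
  rcases Nat.lt_or_ge i n with h | h
  · obtain ⟨t, ht, he⟩ := hw.2 i h
    refine ⟨t, ht, ?_⟩
    simp only [if_pos (show i + 1 ≤ n by omega), if_pos (show i ≤ n by omega)]
    exact he
  · have hi' : i = n := by omega
    subst hi'
    refine ⟨s, hs, ?_⟩
    simp only [if_neg (show ¬ i + 1 ≤ i by omega), if_pos le_rfl]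

lemma Gp.cst_step (P : Gp A) {g s : Equiv.Perm ℝ} {κ : ℝ} (hs : s ∈ A.S) (h : P.C g κ) :
    P.C (s * g) (κ + P.rh (s * g)) := by
  obtain ⟨n, w, k, h1, h2, h3⟩ := h
  have hcomm : s * w n = T ^ k * (s * g) := by
    rw [h2, ← mul_assoc, ← mul_assoc, (A.good (A.S_mem hs)).commT k]
  refine ⟨n + 1, fun i => if i ≤ n then w i else s * w n, k, Cs1_ext h1 hs, ?_, ?_⟩
  · simp only [if_neg (show ¬ n + 1 ≤ n by omega)]
    exact hcomm
  · rw [Finset.sum_range_succ]
    simp only [if_neg (show ¬ n + 1 ≤ n by omega)]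
    rw [hcomm, rho_T]
    refine add_le_add (le_trans (le_of_eq ?_) h3) le_rfl
    refine Finset.sum_congr rfl fun i hi => ?_
    have : i ≤ n := by
      have := Finset.mem_range.1 hi
      omega
    simp only [if_pos this]

lemma Gp.one_le (P : Gp A) {g : Equiv.Perm ℝ} {κ : ℝ} (h : P.C g κ) : 1 ≤ κ := by
  obtain ⟨n, w, k, h1, h2, h3⟩ := h
  refine le_trans ?_ h3
  have h4 : rho P.a P.b (w 0) = 1 := by
    rw [h1.1]
    exact P.rh_one
  rw [← h4]
  refine Finset.single_le_sum (f := fun i => rho P.a P.b (w i)) (fun i hi => ?_)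
    (Finset.mem_range.2 (Nat.succ_pos n))
  have : i ≤ n := by
    have := Finset.mem_range.1 hi
    omega
  exact (P.rh_pos (h1.mem this)).le

lemma Gp.rh_le_cst (P : Gp A) {g : Equiv.Perm ℝ} {κ : ℝ} (h : P.C g κ) : P.rh g ≤ κ := by
  obtain ⟨n, w, k, h1, h2, h3⟩ := h
  refine le_trans ?_ h3
  have h4 : P.rh g = rho P.a P.b (w n) := by
    rw [h2, rho_T]
  rw [h4]
  refine Finset.single_le_sum (f := fun i => rho P.a P.b (w i)) (fun i hi => ?_)
    (Finset.mem_range.2 (Nat.lt_succ_self n))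
  have : i ≤ n := by
    have := Finset.mem_range.1 hi
    omega
  exact (P.rh_pos (h1.mem this)).le

lemma Gp.cst_prefix (P : Gp A) {n : ℕ} {w : ℕ → Equiv.Perm ℝ} {κ : ℝ} (hw : A.Path n w)
    (hs : ∑ i ∈ Finset.range (n + 1), rho P.a P.b (w i) ≤ κ) {i : ℕ} (hi : i ≤ n) :
    P.C (w i) κ := by
  refine ⟨i, w, 0, hw.mono hi, by simp, le_trans ?_ hs⟩
  refine Finset.sum_le_sum_of_subset_of_nonneg ?_ ?_
  · intro j hj
    have := Finset.mem_range.1 hj
    exact Finset.mem_range.2 (by omega)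
  · intro j hj _
    have : j ≤ n := by
      have := Finset.mem_range.1 hj
      omega
    exact (P.rh_pos (hw.mem this)).le

end Pool.Agent.H42.EM
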