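/-
CTK : control of elements of small cost.

PROOF of ctl_cst.  K = [α, β], α := a - 40 r, β := b + 40 r, β - α ≤ 81 r.  Path w, w n = T^k g, ∑_{i ≤ n} rho (w i) ≤ 100 W (Cst).
 `ctrl` (EM/Ctr) with E := 1/2 and c i := 2 * rho (w i) * (81 * r): if Osc (w i) α β (1/2) then w_i β - w_i α ≤ e^(1/2) * ((w_i b - w_i a)/(b - a)) (β - α)
 ≤ 2 rho (w i) 81 r (osc_ratio with (u', v') = (a, b); e^(1/2) ≤ 2).   Sums: M ∑_{l < i} c l ≤ M * 162 r * 100 W = 16200 M (r W) = 16200/20000 eps ≤ 1/2.
 So Osc (w i) α β (1/2) for all i ≤ n, and |w_l u - w_l v| ≤ 2 rho (w l) |u - v| for u, v ∈ K (osc_ratio).  lip_path: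
 |log (w n)'(u) - log (w n)'(v)| ≤ M ∑_{l<n} 2 rho (w l) |u - v| ≤ 200 M W |u - v| = eps/(100 r) |u - v|  (r W = eps/(20000 M)).
 (w n)' = g' (w n = T^k g).
PROOF of dist_le: min_path (EM/Pth) for Z = {a, b} and g: a path w, Eqv Z (w n) g, and w i, w j (i < j ≤ n) not Eqv on Z, i.e. the gaps (w i a, w i b) are pairwise
 not congruent mod ℤ (equal left endpoints mod ℤ would give equal right endpoints: IsGap.add_int, eq_of_left).  h := T^k * w n with k such that h a = g a, h b = g b.
 Injectivity of i ↦ w i on range (n+1) (i ≠ j → w i ≠ w j); the hypothesis hδ for the Finset image gives ∑ (w i b - w i a) ≤ δ.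
-/
import Pool.Agent.H42.EZ.Cs1
import Pool.Agent.H42.EM.Ctr

set_option autoImplicit false

namespace Pool.Agent.H42.EM

open Set

theorem ctl_cst {A : Sys} {M : ℝ} (hM : A.LipS M) (hM1 : 1 ≤ M) {a b r W : ℝ} (hab : a < b)
    (hr : 0 < r) (hJ : b - a ≤ eps * r) (hW : 0 < W) (hrW : r * W = eps / (20000 * M))
    (hlong : ∀ g ∈ A.G, g b - g a ≤ b - a) {g : Equiv.Perm ℝ} (hg : g ∈ A.G)
    (hc : A.Cst a b g (100 * W)) : Ctl a b r g := by
  obtain ⟨n, w, k, hw, hwn, hsum⟩ := hc
  have heps : (0 : ℝ) < eps := by unfold eps; norm_num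
  have heps1 : eps ≤ 1 / 2 := by unfold eps; norm_num
  have hba : 0 < b - a := by linarith
  have hbar : b - a ≤ r := hJ.trans (by nlinarith)
  have hM0 : 0 < M := by linarith
  set α := a - 40 * r with hα
  set β := b + 40 * r with hβ
  have hαβ : α ≤ β := by rw [hα, hβ]; linarith
  have hαβr : β - α ≤ 81 * r := by rw [hα, hβ]; linarith
  have haK : a ∈ Icc α β := ⟨by rw [hα]; linarith, by rw [hβ]; linarith⟩
  have hbK : b ∈ Icc α β := ⟨by rw [hα]; linarith, by rw [hβ]; linarith⟩
  have hgood : ∀ i, i ≤ n → Good (w i) := fun i hi => A.good (hw.mem hi)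
  have hrho : ∀ i, i ≤ n → 0 ≤ rho a b (w i) := fun i hi =>
    div_nonneg (by linarith [(hgood i hi).mono hab]) hba.le
  have he2 : Real.exp (1 / 2) ≤ 2 := by
    have h1 : Real.exp (1 / 2) ^ 2 = Real.exp 1 := by
      rw [← Real.exp_nat_mul]; norm_num
    have h2 := Real.exp_one_lt_d9
    have h3 := Real.exp_pos (1 / 2)
    nlinarith
  -- comparison of lengths
  have hcmp : ∀ i, i ≤ n → Osc (w i) α β (1 / 2) → ∀ u ∈ Icc α β, ∀ v ∈ Icc α β, u ≤ v →
      w i v - w i u ≤ 2 * rho a b (w i) * (v - u) := by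
    intro i hi ho u hu v hv huv
    have h1 := osc_ratio (hgood i hi) ho hu hv huv haK hbK hab.le
    have h2 : 0 ≤ (w i b - w i a) * (v - u) :=
      mul_nonneg (by linarith [(hgood i hi).mono hab]) (by linarith)
    have h3 : (w i v - w i u) * (b - a) ≤ 2 * ((w i b - w i a) * (v - u)) :=
      h1.trans (mul_le_mul_of_nonneg_right he2 h2)
    have h4 : 2 * rho a b (w i) * (v - u) = 2 * ((w i b - w i a) * (v - u)) / (b - a) := by
      unfold rho; field_simp
    rw [h4, le_div_iff₀ hba]
    exact h3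
  have hpart : ∀ i, i ≤ n → ∑ l ∈ Finset.range i, rho a b (w l) ≤ 100 * W := by
    intro i hi
    refine le_trans (Finset.sum_le_sum_of_subset_of_nonneg ?_ ?_) hsum
    · intro l hl
      simp only [Finset.mem_range] at hl ⊢
      omega
    · intro l hl _
      exact hrho l (by simp only [Finset.mem_range] at hl; omega)
  have hMrW : M * (r * W) = eps / 20000 := by
    rw [hrW]; field_simp
  have hosc := ctrl hM hw hαβ (fun i => 2 * rho a b (w i) * (81 * r)) (E := 1 / 2)
    (fun i hi ho => by
      have h1 := hcmp i hi.le ho α ⟨le_rfl, hαβ⟩ β ⟨hαβ, le_rfl⟩ hαβ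
      have h2 := hrho i hi.le
      nlinarith) (fun i hi => by
      have h1 := hpart i hi
      have h2 : ∑ l ∈ Finset.range i, 2 * rho a b (w l) * (81 * r) =
          162 * r * ∑ l ∈ Finset.range i, rho a b (w l) := by
        rw [Finset.mul_sum]
        exact Finset.sum_congr rfl fun l _ => by ring
      rw [h2]
      have h3 : M * (162 * r * ∑ l ∈ Finset.range i, rho a b (w l)) ≤
          M * (162 * r * (100 * W)) := by
        refine mul_le_mul_of_nonneg_left ?_ hM0.le
        exact mul_le_mul_of_nonneg_left h1 (by positivity)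
      refine h3.trans ?_
      have h4 : M * (162 * r * (100 * W)) = 16200 * (M * (r * W)) := by ring
      rw [h4, hMrW]
      linarith)
  have hder : ∀ x, deriv (⇑(w n)) x = deriv (⇑g) x := by
    intro x
    have hT : (⇑(T ^ k) : ℝ → ℝ) = fun y => y + (k : ℝ) := by
      funext y; exact T_zpow k y
    rw [hwn, (Good.zpowT k).deriv_mul (A.good hg), hT, deriv_add_const]
    simp
  intro u hu v hv
  have h1 := lip_path hM hw le_rfl u v
  rw [hder, hder] at h1
  have h2 : ∑ l ∈ Finset.range n, |w l u - w l v| ≤ 2 * (100 * W) * |u - v| := by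
    have h3 : ∀ l ∈ Finset.range n, |w l u - w l v| ≤ 2 * rho a b (w l) * |u - v| := by
      intro l hl
      have hl' : l ≤ n := (Finset.mem_range.1 hl).le
      rcases le_total u v with huv | huv
      · have h4 := hcmp l hl' (hosc l hl') u hu v hv huv
        have h5 := (hgood l hl').mono.monotone huv
        rw [abs_sub_comm (w l u), abs_sub_comm u, abs_of_nonneg (by linarith),
          abs_of_nonneg (by linarith)]
        exact h4
      · have h4 := hcmp l hl' (hosc l hl') v hv u hu huv
        have h5 := (hgood l hl').mono.monotone huv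
        rw [abs_of_nonneg (by linarith), abs_of_nonneg (by linarith)]
        exact h4
    refine (Finset.sum_le_sum h3).trans ?_
    rw [← Finset.sum_mul, ← Finset.mul_sum]
    exact mul_le_mul_of_nonneg_right (mul_le_mul_of_nonneg_left (hpart n le_rfl) (by norm_num))
      (abs_nonneg _)
  refine h1.trans ((mul_le_mul_of_nonneg_left h2 hM0.le).trans (le_of_eq ?_))
  have h6 : M * W = eps / (20000 * r) := by
    rw [eq_div_iff (by positivity)]
    linarith
  have h7 : M * (2 * (100 * W) * |u - v|) = 200 * (M * W) * |u - v| := by ring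
  rw [h7, h6]
  field_simp
  ring

theorem dist_le {A : Sys} {a b δ : ℝ} (hgap : IsGap A.L a b)
    (hδ : ∀ s : Finset (Equiv.Perm ℝ), (∀ g ∈ s, g ∈ A.G) →
      (∀ g ∈ s, ∀ h ∈ s, g ≠ h → ∀ k : ℤ, g a ≠ h a + k) → ∑ g ∈ s, (g b - g a) ≤ δ)
    {g : Equiv.Perm ℝ} (hg : g ∈ A.G) :
    ∃ h ∈ A.G, h a = g a ∧ h b = g b ∧ A.Cst a b h (δ / (b - a)) := by
  classical
  obtain ⟨n, w, hw, ⟨k, hk⟩, hmin⟩ := A.min_path {a, b} hg
  have hba : 0 < b - a := by linarith [hgap.1]
  have hka := hk a (by simp)
  have hkb := hk b (by simp)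
  -- distinct vertices
  have hne : ∀ i j, i < j → j ≤ n → ∀ m : ℤ, w i a ≠ w j a + m := by
    intro i j hij hj m he
    refine hmin i j hij hj ⟨m, fun z hz => ?_⟩
    rcases hz with rfl | hz
    · exact he
    · rw [mem_singleton_iff] at hz
      subst hz
      have g1 := hgap.image A (hw.mem (i := i) (by omega))
      have g2 := (hgap.image A (hw.mem hj)).add_int A m
      rw [← he] at g2
      exact g1.eq_of_left g2
  have hinj : ∀ i ∈ Finset.range (n + 1), ∀ j ∈ Finset.range (n + 1), w i = w j → i = j := by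
    intro i hi j hj he
    simp only [Finset.mem_range] at hi hj
    rcases lt_trichotomy i j with h | h | h
    · exact absurd (by rw [he]; simp) (hne i j h (by omega) 0)
    · exact h
    · exact absurd (by rw [he]; simp) (hne j i h (by omega) 0)
  refine ⟨T ^ (-k) * w n, mul_mem (A.Tz_mem _) (hw.mem le_rfl), ?_, ?_, n, w, k, hw, ?_, ?_⟩
  · rw [Equiv.Perm.mul_apply, T_zpow, hka]
    push_cast
    ring
  · rw [Equiv.Perm.mul_apply, T_zpow, hkb]
    push_cast
    ring
  · rw [← mul_assoc, ← zpow_add]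
    simp
  · have h1 := hδ ((Finset.range (n + 1)).image w) (by
      intro g hg
      obtain ⟨i, hi, rfl⟩ := Finset.mem_image.1 hg
      exact hw.mem (by simp only [Finset.mem_range] at hi; omega)) (by
      intro g hg h hh hgh m
      obtain ⟨i, hi, rfl⟩ := Finset.mem_image.1 hg
      obtain ⟨j, hj, rfl⟩ := Finset.mem_image.1 hh
      simp only [Finset.mem_range] at hi hj
      rcases lt_trichotomy i j with h | h | h
      · exact hne i j h (by omega) m
      · exact absurd (by rw [h]) hgh
      · intro he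
        refine hne j i h (by omega) (-m) ?_
        rw [he]
        push_cast
        ring)
    rw [Finset.sum_image hinj] at h1
    unfold rho
    rw [← Finset.sum_div]
    exact div_le_div_of_nonneg_right h1 hba.le

end Pool.Agent.H42.EM
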