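/-
BLD : construction of the data `Gp` for gaps which are longest in their orbit and short.

PROOF.  M ≥ 1 with LipS M (exists_lip; LipS is monotone in M).  B := exp M: for s ∈ S and x there is ξ ∈ (x, x+1) with s'(ξ) = s(x+1) - s(x) = 1 (Good.mvt), so
 log s'(x) ≤ M.  c0 := eps/(20000 M) ≤ 1.  δ := eps c0.  gap_tail for ε := δ gives ρ; ρ0 := min ρ (eps c0 / 1000).
 Let (a, b) be as in the statement.  Orbit sums: for s as in hδ of dist_le, all g b - g a ≤ b - a ≤ ρ, gap_tail with ι = Perm ℝ: sums ≤ δ.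
 D g := sInf {κ | ∃ h ∈ G, h a = g a, h b = g b, Cst a b h κ}, 0 < 1 ≤ κ for all such κ (the term i = 0 is 1), D g ≤ δ/(b-a) (dist_le), D g ≥ 1.
 Dm := sSup (D '' G) (bounded by δ/(b-a), nonempty), W := max Dm 1000, r := c0 / W.
 hr1: r ≤ c0/1000.  hJ: (b - a) W ≤ eps c0: (b-a) 1000 ≤ ρ0 1000 ≤ eps c0 and (b-a) Dm ≤ δ.   rep: D g ≤ Dm ≤ W < 101/100 W, so some κ < 101/100 W in the set
 (exists_lt_of_csInf_lt), Cst.mono.   ctl: ctl_cst.
 far: if Dm ≥ 1000: W = Dm, exists g with D g > 99/100 Dm (exists_lt_of_lt_csSup), E g = D g / W ≥ 99/100.  If Dm < 1000: W = 1000, r = c0/1000.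
-/
import Pool.Agent.H42.EZ.Ctk

set_option autoImplicit false

namespace Pool.Agent.H42.EM

open Set

private lemma Bld_eps : 0 < eps ∧ eps ≤ 1 := by
  unfold eps
  constructor <;> norm_num

private lemma Bld_one_le {A : Sys} {a b κ : ℝ} (hab : a < b) {g : Equiv.Perm ℝ}
    (h : A.Cst a b g κ) : 1 ≤ κ := by
  obtain ⟨n, w, k, hw, hwn, hs⟩ := h
  refine le_trans ?_ hs
  have h1 : rho a b (w 0) = 1 := by
    rw [hw.1]
    unfold rho
    rw [Equiv.Perm.one_apply, Equiv.Perm.one_apply]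
    exact div_self (by linarith)
  rw [← h1]
  refine Finset.single_le_sum (f := fun i => rho a b (w i)) (fun i hi => ?_)
    (Finset.mem_range.2 (Nat.succ_pos n))
  have h2 : w i ∈ A.G := hw.mem (by have := Finset.mem_range.1 hi; omega)
  have h3 := (A.good h2).mono hab
  show 0 ≤ (w i b - w i a) / (b - a)
  exact div_nonneg (by linarith) (by linarith)

private lemma Bld_deriv {A : Sys} {M : ℝ} (hM : A.LipS M) {s : Equiv.Perm ℝ} (hs : s ∈ A.S)
    (x : ℝ) : deriv (⇑s) x ≤ Real.exp M := by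
  have hg := A.good (A.S_mem hs)
  obtain ⟨ξ, hξ, he⟩ := hg.mvt (show x < x + 1 by linarith)
  have h1 : deriv (⇑s) ξ = 1 := by
    rw [hg.2.2 x] at he
    linarith
  have h2 := hM.2 s hs x ξ
  rw [h1, Real.log_one, sub_zero] at h2
  have h3 : |x - ξ| ≤ 1 := by
    rw [abs_le]
    constructor <;> linarith [hξ.1, hξ.2]
  have h4 : Real.log (deriv (⇑s) x) ≤ M := by
    calc Real.log (deriv (⇑s) x) ≤ |Real.log (deriv (⇑s) x)| := le_abs_self _
      _ ≤ M * |x - ξ| := h2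
      _ ≤ M * 1 := mul_le_mul_of_nonneg_left h3 hM.1
      _ = M := mul_one M
  calc deriv (⇑s) x = Real.exp (Real.log (deriv (⇑s) x)) := (Real.exp_log (hg.pos x)).symm
    _ ≤ Real.exp M := Real.exp_le_exp.2 h4

theorem exists_Gp (A : Sys) {M : ℝ} (hM : A.LipS M) (hM1 : 1 ≤ M) : ∃ ρ0 > 0, ∀ a b : ℝ,
    IsGap A.L a b → (∀ g ∈ A.G, g b - g a ≤ b - a) → b - a ≤ ρ0 →
    ∃ P : Gp A, P.a = a ∧ P.b = b ∧ P.B = Real.exp M ∧ P.r * P.W = eps / (20000 * M) ∧
      ((∃ g ∈ A.G, 99 / 100 ≤ P.E g) ∨ P.r = eps / (20000 * M) / 1000) := by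
  obtain ⟨hep, hep1⟩ := Bld_eps
  obtain ⟨c0, hc0def⟩ : ∃ c0, c0 = eps / (20000 * M) := ⟨_, rfl⟩
  have hc0 : 0 < c0 := by rw [hc0def]; positivity
  have hc01 : c0 ≤ 1 := by
    rw [hc0def, div_le_one (by positivity)]
    nlinarith
  obtain ⟨ρ, hρ, htail⟩ := gap_tail A (ε := eps * c0) (by positivity)
  rw [← hc0def]
  refine ⟨min ρ (eps * c0 / 1000), lt_min hρ (by positivity), fun a b hgap hlong hab => ?_⟩
  have hlt : a < b := hgap.1
  have hba : 0 < b - a := by linarith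
  have hab1 : b - a ≤ ρ := hab.trans (min_le_left _ _)
  have hab2 : b - a ≤ eps * c0 / 1000 := hab.trans (min_le_right _ _)
  have hδ : ∀ s : Finset (Equiv.Perm ℝ), (∀ g ∈ s, g ∈ A.G) →
      (∀ g ∈ s, ∀ h ∈ s, g ≠ h → ∀ k : ℤ, g a ≠ h a + k) →
      ∑ g ∈ s, (g b - g a) ≤ eps * c0 := by
    intro s hs hd
    exact htail s (fun g => g a) (fun g => g b) (fun g hg => hgap.image A (hs g hg)) hd
      (fun g hg => (hlong g (hs g hg)).trans hab1)
  obtain ⟨Ds, hDs⟩ : ∃ Ds : Equiv.Perm ℝ → Set ℝ, Ds = fun g =>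
    {κ | ∃ h ∈ A.G, h a = g a ∧ h b = g b ∧ A.Cst a b h κ} := ⟨_, rfl⟩
  have hD1 : ∀ g ∈ A.G, eps * c0 / (b - a) ∈ Ds g := by
    intro g hg
    rw [hDs]
    exact dist_le hgap hδ hg
  have hD2 : ∀ g, ∀ κ ∈ Ds g, 1 ≤ κ := by
    intro g κ hκ
    rw [hDs] at hκ
    obtain ⟨h, -, -, -, hc⟩ := hκ
    exact Bld_one_le hlt hc
  have hD3 : ∀ g ∈ A.G, sInf (Ds g) ≤ eps * c0 / (b - a) := fun g hg =>
    csInf_le ⟨1, fun κ hκ => hD2 g κ hκ⟩ (hD1 g hg)
  obtain ⟨Dm, hDm⟩ : ∃ Dm, Dm = sSup ((fun g => sInf (Ds g)) '' (A.G : Set (Equiv.Perm ℝ))) :=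
    ⟨_, rfl⟩
  have hbdd : BddAbove ((fun g => sInf (Ds g)) '' (A.G : Set (Equiv.Perm ℝ))) := by
    refine ⟨eps * c0 / (b - a), ?_⟩
    rintro _ ⟨g, hg, rfl⟩
    exact hD3 g hg
  have hne : ((fun g => sInf (Ds g)) '' (A.G : Set (Equiv.Perm ℝ))).Nonempty :=
    ⟨_, 1, one_mem A.G, rfl⟩
  have hDm1 : Dm ≤ eps * c0 / (b - a) := by
    rw [hDm]
    refine csSup_le hne ?_
    rintro _ ⟨g, hg, rfl⟩
    exact hD3 g hg
  have hDm2 : ∀ g ∈ A.G, sInf (Ds g) ≤ Dm := by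
    intro g hg
    rw [hDm]
    exact le_csSup hbdd ⟨g, hg, rfl⟩
  obtain ⟨W, hWdef⟩ : ∃ W, W = max Dm 1000 := ⟨_, rfl⟩
  have hW : 1000 ≤ W := by rw [hWdef]; exact le_max_right _ _
  have hWD : Dm ≤ W := by rw [hWdef]; exact le_max_left _ _
  have hW0 : 0 < W := by linarith
  have hJ0 : (b - a) * W ≤ eps * c0 := by
    rw [hWdef]
    rcases max_choice Dm 1000 with h | h
    · rw [h]
      rw [le_div_iff₀ hba] at hDm1
      linarith
    · rw [h]
      linarith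
  have hr : 0 < c0 / W := div_pos hc0 hW0
  have hJ : b - a ≤ eps * (c0 / W) := by
    rw [← mul_div_assoc, le_div_iff₀ hW0]
    exact hJ0
  have hrW : c0 / W * W = c0 := div_mul_cancel₀ c0 hW0.ne'
  refine ⟨{ a := a
            b := b
            r := c0 / W
            W := W
            B := Real.exp M
            gap := hgap
            longest := hlong
            hr := hr
            hr1 := ?_
            hJ := hJ
            hW := hW
            hB := Real.one_le_exp (by linarith)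
            hBs := fun s hs x => Bld_deriv hM hs x
            ctl := fun g hg hc => ctl_cst hM hM1 hlt hr hJ hW0 (by rw [hrW, hc0def]) hlong hg hc
            rep := ?_ }, rfl, rfl, rfl, hrW, ?_⟩
  · rw [div_le_iff₀ hW0]
    linarith
  · intro g hg
    have h1 : sInf (Ds g) < 101 / 100 * W := by
      have := hDm2 g hg
      linarith
    obtain ⟨κ, hκ, hκ2⟩ := exists_lt_of_csInf_lt ⟨_, hD1 g hg⟩ h1
    rw [hDs] at hκ
    obtain ⟨h, hh, h2, h3, h4⟩ := hκ
    exact ⟨h, hh, h2, h3, h4.mono hκ2.le⟩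
  · rcases lt_or_ge Dm 1000 with h | h
    · right
      show c0 / W = c0 / 1000
      rw [hWdef, max_eq_right h.le]
    · left
      have hWm : W = Dm := by rw [hWdef, max_eq_left h]
      have h1 : 99 / 100 * Dm < sSup ((fun g => sInf (Ds g)) '' (A.G : Set (Equiv.Perm ℝ))) := by
        rw [← hDm]
        linarith
      obtain ⟨_, ⟨g, hg, rfl⟩, h2⟩ := exists_lt_of_lt_csSup hne h1
      refine ⟨g, hg, ?_⟩
      have h3 : 99 / 100 ≤ sInf (Ds g) / W := by
        rw [le_div_iff₀ hW0, hWm]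
        exact h2.le
      rw [hDs] at h3
      exact h3

end Pool.Agent.H42.EM
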