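/-
CMP : composition of controlled elements.

PROOFS.  K = [a - 40 r, b + 40 r].
* aff: hc gives Osc g (a - 40 r) (b + 40 r) (81/100 * eps): |u - v| ≤ 80 r + (b - a) ≤ 81 r.  Mean value theorem on [u, v]
  and on [a, b]: g v - g u = g'(ξ) (v - u), g b - g a = g'(ζ) (b - a), so rh g = g'(ζ) and g'(ξ) / g'(ζ) ∈ [e^-eps, e^eps].
* ratio: aff for u = x a, v = x b, divided by b - a.
* comp: path w (n steps, w n = T^k x) for x, path v (m steps, v m = T^j g) for g.  New path: w i for i ≤ n, then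
  v (i - n) * w n for i ≥ n (v 0 = 1).  v i * T^k * x = T^k * (v i * x), end = T^k T^j g x.  Cost: κ' plus
  ∑_{i ≤ m} rho (v i * x) (drop i = 0), each ≤ 1001/1000 rho (v i) rho x by ratio, because v i is controlled:
  P.C (v i) κ (cst_prefix), κ ≤ 100 W, P.ctl.
* back: path u (n steps, u n = T^k g x) for g * x, v as before.  New path: u i for i ≤ n, then continue with
  v (m - i) * (v m)⁻¹ * u n for i = 0..m (for i = 0 this is u n; consecutive ones differ by the inverse of a generator,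
  s ∈ A.S → s⁻¹ ∈ A.S); (v m)⁻¹ * u n = g⁻¹ T^-j T^k g x = T^(k-j) x, so vertex i is T^(k-j) * (v (m-i) * x) and the end is
  T^(k-j) * x.  Same cost estimate.
* Lop.mul: as comp, but with rho (v i * h) = rho (v i) exactly (h fixes a and b).   Lop.inv: reversed path
  w (n - i) * (w n)⁻¹ (with h = T^-k w n: (w n)⁻¹ = h⁻¹ T^-k), rho (w (n-i) * (w n)⁻¹) = rho (w (n-i) * h⁻¹) = rho (w (n-i)).
* ctl_of, ctl_lop: P.ctl with mono.
-/
import Pool.Agent.H42.EZ.Cs1

set_option autoImplicit false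

namespace Pool.Agent.H42.EM

open Set

variable {A : Sys}

lemma eps_pos : 0 < eps := by unfold eps; positivity

lemma Gp.ctl_of (P : Gp A) {g : Equiv.Perm ℝ} {κ : ℝ} (hc : P.C g κ) (hκ : κ ≤ 100 * P.W) :
    Ctl P.a P.b P.r g := P.ctl g hc.mem (hc.mono hκ)

lemma Cmp_exp : Real.exp (81 / 100 * eps) ≤ 1001 / 1000 := by
  have h1 : |81 / 100 * eps| ≤ 1 := by
    unfold eps
    rw [abs_of_nonneg (by positivity)]
    norm_num
  have h2 := Real.abs_exp_sub_one_le h1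
  have h3 := (abs_le.1 h2).2
  rw [abs_of_nonneg (by have := eps_pos; positivity)] at h3
  have h4 : 2 * (81 / 100 * eps) ≤ 1 / 1000 := by
    unfold eps
    norm_num
  linarith

lemma Cmp_osc (P : Gp A) {g : Equiv.Perm ℝ} (hc : Ctl P.a P.b P.r g) :
    Osc g (P.a - 40 * P.r) (P.b + 40 * P.r) (81 / 100 * eps) := by
  intro u hu v hv
  refine (hc u hu v hv).trans ?_
  have hr := P.hr
  have hJ := P.hJ
  have he := eps_pos
  have he1 : eps ≤ 1 := by
    unfold eps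
    norm_num
  have h1 : |u - v| ≤ 81 * P.r := by
    have h2 : P.b - P.a ≤ P.r := by nlinarith
    rw [abs_le]
    constructor <;> linarith [hu.1, hu.2, hv.1, hv.2]
  calc eps / (100 * P.r) * |u - v| ≤ eps / (100 * P.r) * (81 * P.r) :=
        mul_le_mul_of_nonneg_left h1 (by positivity)
    _ = 81 / 100 * eps := by
        field_simp

lemma Gp.aff (P : Gp A) {g : Equiv.Perm ℝ} (hg : g ∈ A.G) (hc : Ctl P.a P.b P.r g) {u v : ℝ}
    (hu : P.a - 40 * P.r ≤ u) (huv : u ≤ v) (hv : v ≤ P.b + 40 * P.r) :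
    999 / 1000 * P.rh g * (v - u) ≤ g v - g u ∧ g v - g u ≤ 1001 / 1000 * P.rh g * (v - u) := by
  have hr := P.hr
  have hab := P.ab
  have ho := Cmp_osc P hc
  have hgg := A.good hg
  have hu' : u ∈ Icc (P.a - 40 * P.r) (P.b + 40 * P.r) := ⟨hu, huv.trans hv⟩
  have hv' : v ∈ Icc (P.a - 40 * P.r) (P.b + 40 * P.r) := ⟨hu.trans huv, hv⟩
  have ha' : P.a ∈ Icc (P.a - 40 * P.r) (P.b + 40 * P.r) := ⟨by linarith, by linarith⟩
  have hb' : P.b ∈ Icc (P.a - 40 * P.r) (P.b + 40 * P.r) := ⟨by linarith, by linarith⟩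
  have h1 := osc_ratio hgg ho hu' hv' huv ha' hb' hab.le
  have h2 := osc_ratio hgg ho ha' hb' hab.le hu' hv' huv
  rw [P.rh_mul g] at h1 h2
  have he := Cmp_exp
  have hba : 0 < P.b - P.a := by linarith
  have hrh := P.rh_pos hg
  have h3 : 0 ≤ v - u := by linarith
  have h4 : g u ≤ g v := hgg.mono.monotone huv
  have h5 : 0 ≤ P.rh g * (v - u) := by positivity
  have h6 : 0 ≤ g v - g u := by linarith
  constructor
  · have h7 : P.rh g * (v - u) ≤ Real.exp (81 / 100 * eps) * (g v - g u) := by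
      have h8 : P.rh g * (v - u) * (P.b - P.a) ≤
          Real.exp (81 / 100 * eps) * (g v - g u) * (P.b - P.a) := by linarith
      exact le_of_mul_le_mul_right h8 hba
    have h9 : Real.exp (81 / 100 * eps) * (g v - g u) ≤ 1001 / 1000 * (g v - g u) :=
      mul_le_mul_of_nonneg_right he h6
    nlinarith
  · have h7 : g v - g u ≤ Real.exp (81 / 100 * eps) * (P.rh g * (v - u)) := by
      have h8 : (g v - g u) * (P.b - P.a) ≤
          Real.exp (81 / 100 * eps) * (P.rh g * (v - u)) * (P.b - P.a) := by linarith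
      exact le_of_mul_le_mul_right h8 hba
    have h9 : Real.exp (81 / 100 * eps) * (P.rh g * (v - u)) ≤ 1001 / 1000 * (P.rh g * (v - u)) :=
      mul_le_mul_of_nonneg_right he h5
    linarith

lemma Gp.ratio (P : Gp A) {g x : Equiv.Perm ℝ} (hg : g ∈ A.G) (hc : Ctl P.a P.b P.r g)
    (hx : x ∈ A.G) (h1 : P.a - 40 * P.r ≤ x P.a) (h2 : x P.b ≤ P.b + 40 * P.r) :
    999 / 1000 * P.rh g * P.rh x ≤ P.rh (g * x) ∧ P.rh (g * x) ≤ 1001 / 1000 * P.rh g * P.rh x := by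
  have hab := P.ab
  have hba : 0 < P.b - P.a := by linarith
  have h3 : x P.a ≤ x P.b := (A.good hx).mono.monotone hab.le
  have h4 := P.aff hg hc h1 h3 h2
  rw [P.rh_mul x] at h4
  have h5 := P.rh_mul (g * x)
  rw [Equiv.Perm.mul_apply, Equiv.Perm.mul_apply] at h5
  rw [h5] at h4
  constructor
  · have h6 : 999 / 1000 * P.rh g * P.rh x * (P.b - P.a) ≤ P.rh (g * x) * (P.b - P.a) := by
      linarith [h4.1]
    exact le_of_mul_le_mul_right h6 hba
  · have h6 : P.rh (g * x) * (P.b - P.a) ≤ 1001 / 1000 * P.rh g * P.rh x * (P.b - P.a) := by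
      linarith [h4.2]
    exact le_of_mul_le_mul_right h6 hba

/-- concatenation of paths -/
lemma Cmp_cat {n m : ℕ} {w q : ℕ → Equiv.Perm ℝ} (hw : A.Path n w) (hq0 : q 0 = w n)
    (hq : ∀ i, i < m → ∃ s ∈ A.S, q (i + 1) = s * q i) :
    ∃ z : ℕ → Equiv.Perm ℝ, A.Path (n + m) z ∧ z (n + m) = q m ∧ ∀ a b : ℝ,
      ∑ i ∈ Finset.range (n + m + 1), rho a b (z i) =
        ∑ i ∈ Finset.range (n + 1), rho a b (w i) + ∑ i ∈ Finset.range m, rho a b (q (i + 1)) := by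
  obtain ⟨z, hz⟩ : ∃ z : ℕ → Equiv.Perm ℝ, z = fun i => if i ≤ n then w i else q (i - n) := ⟨_, rfl⟩
  have hz1 : ∀ i, i ≤ n → z i = w i := by
    intro i hi
    rw [hz]
    simp only [if_pos hi]
  have hz2 : ∀ i, z (n + i) = q i := by
    intro i
    rcases Nat.eq_zero_or_pos i with h | h
    · subst h
      rw [hq0]
      exact hz1 n le_rfl
    · rw [hz]
      simp only [if_neg (show ¬ n + i ≤ n by omega), Nat.add_sub_cancel_left]
  refine ⟨z, ⟨?_, ?_⟩, hz2 m, ?_⟩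
  · rw [hz1 0 (by omega), hw.1]
  · intro i hi
    rcases lt_or_ge i n with h | h
    · obtain ⟨s, hs, he⟩ := hw.2 i h
      exact ⟨s, hs, by rw [hz1 (i + 1) (by omega), hz1 i (by omega), he]⟩
    · obtain ⟨j, rfl⟩ := Nat.exists_eq_add_of_le h
      obtain ⟨s, hs, he⟩ := hq j (by omega)
      exact ⟨s, hs, by rw [add_assoc, hz2, hz2, he]⟩
  · intro a b
    rw [show n + m + 1 = (n + 1) + m by ring, Finset.sum_range_add]
    congr 1
    · refine Finset.sum_congr rfl fun i hi => ?_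
      rw [hz1 i (by have := Finset.mem_range.1 hi; omega)]
    · refine Finset.sum_congr rfl fun i _ => ?_
      rw [show n + 1 + i = n + (i + 1) by ring, hz2]

/-- the cost of the images of a path -/
lemma Cmp_sum (P : Gp A) {m : ℕ} {v : ℕ → Equiv.Perm ℝ} {x : Equiv.Perm ℝ} {κ : ℝ}
    (hv : A.Path m v) (hs : ∑ i ∈ Finset.range (m + 1), rho P.a P.b (v i) ≤ κ)
    (hκ : κ ≤ 100 * P.W) (hx : x ∈ A.G) (h1 : P.a - 39 * P.r ≤ x P.a)
    (h2 : x P.b ≤ P.b + 39 * P.r) :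
    ∑ i ∈ Finset.range (m + 1), rho P.a P.b (v i * x) ≤ 101 / 100 * P.rh x * κ := by
  have hr := P.hr
  have hx0 := P.rh_pos hx
  have h3 : ∀ i ∈ Finset.range (m + 1), rho P.a P.b (v i * x) ≤
      101 / 100 * P.rh x * rho P.a P.b (v i) := by
    intro i hi
    have hi' : i ≤ m := by have := Finset.mem_range.1 hi; omega
    have h4 := (P.ratio (hv.mem hi') (P.ctl_of (P.cst_prefix hv hs hi') hκ) hx (by linarith)
      (by linarith)).2
    have h5 := P.rh_pos (hv.mem hi')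
    have h6 : 0 < P.rh (v i) * P.rh x := mul_pos h5 hx0
    refine h4.trans ?_
    nlinarith
  refine (Finset.sum_le_sum h3).trans ?_
  rw [← Finset.mul_sum]
  exact mul_le_mul_of_nonneg_left hs (by positivity)

lemma Cmp_inv_mem {s : Equiv.Perm ℝ} (hs : s ∈ A.S) : s⁻¹ ∈ A.S := by
  obtain ⟨i, rfl | rfl⟩ := hs
  · exact ⟨i, Or.inr rfl⟩
  · exact ⟨i, Or.inl (inv_inv _)⟩

lemma Gp.comp (P : Gp A) {g x : Equiv.Perm ℝ} {κ κ' : ℝ} (hg : P.C g κ) (hκ : κ ≤ 100 * P.W)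
    (hx : P.C x κ') (h1 : P.a - 39 * P.r ≤ x P.a) (h2 : x P.b ≤ P.b + 39 * P.r) :
    P.C (g * x) (κ' + 101 / 100 * P.rh x * κ) := by
  have hgG := hg.mem
  have hxG := hx.mem
  obtain ⟨m, v, j, hv, hvm, hvs⟩ := hg
  obtain ⟨n, w, k, hw, hwn, hws⟩ := hx
  obtain ⟨z, hz, hze, hzs⟩ := Cmp_cat (m := m) (q := fun i => v i * w n) hw
    (by simp only [hv.1, one_mul]) (fun i hi => by
      obtain ⟨s, hs, he⟩ := hv.2 i hi
      exact ⟨s, hs, by rw [he, mul_assoc]⟩)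
  refine ⟨n + m, z, j + k, hz, ?_, ?_⟩
  · rw [hze, hvm, hwn, zpow_add, mul_assoc, mul_assoc, ← mul_assoc g, ← (A.good hgG).commT k,
      mul_assoc]
  · rw [hzs]
    refine add_le_add hws ?_
    have h3 : ∀ i ∈ Finset.range m, rho P.a P.b (v (i + 1) * w n) =
        rho P.a P.b (v (i + 1) * x) := by
      intro i hi
      have hi' : i + 1 ≤ m := Finset.mem_range.1 hi
      rw [hwn, ← mul_assoc, ← (A.good (hv.mem hi')).commT k, mul_assoc, rho_T]
    rw [Finset.sum_congr rfl h3]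
    refine le_trans ?_ (Cmp_sum P hv hvs hκ hxG h1 h2)
    rw [Finset.sum_range_succ']
    have h4 : 0 ≤ rho P.a P.b (v 0 * x) := (P.rh_pos (mul_mem (hv.mem (Nat.zero_le m)) hxG)).le
    linarith

lemma Gp.back (P : Gp A) {g x : Equiv.Perm ℝ} {κ κ' : ℝ} (hg : P.C g κ) (hκ : κ ≤ 100 * P.W)
    (hx : P.C (g * x) κ') (h1 : P.a - 39 * P.r ≤ x P.a) (h2 : x P.b ≤ P.b + 39 * P.r) :
    P.C x (κ' + 101 / 100 * P.rh x * κ) := by
  have hgG := hg.mem
  have hxG : x ∈ A.G := by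
    have h3 := mul_mem (inv_mem hgG) hx.mem
    rwa [inv_mul_cancel_left] at h3
  obtain ⟨m, v, j, hv, hvm, hvs⟩ := hg
  obtain ⟨n, w, k, hw, hwn, hws⟩ := hx
  have hend : (v m)⁻¹ * w n = T ^ (k - j) * x := by
    rw [hvm, hwn, mul_inv_rev, mul_assoc, ← mul_assoc ((T ^ j)⁻¹), ← zpow_neg, ← zpow_add,
      ← mul_assoc (T ^ (-j + k)), (A.good hgG).commT, mul_assoc g, inv_mul_cancel_left]
    congr 2
    ring
  obtain ⟨z, hz, hze, hzs⟩ := Cmp_cat (m := m) (q := fun i => v (m - i) * ((v m)⁻¹ * w n)) hw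
    (by simp only [Nat.sub_zero, mul_inv_cancel_left]) (fun i hi => by
      obtain ⟨s, hs, he⟩ := hv.2 (m - (i + 1)) (by omega)
      rw [show m - (i + 1) + 1 = m - i by omega] at he
      exact ⟨s⁻¹, Cmp_inv_mem hs, by rw [he, mul_assoc s, inv_mul_cancel_left]⟩)
  refine ⟨n + m, z, k - j, hz, ?_, ?_⟩
  · rw [hze, Nat.sub_self, hv.1, one_mul, hend]
  · rw [hzs]
    refine add_le_add hws ?_
    have h3 : ∀ i ∈ Finset.range m, rho P.a P.b (v (m - (i + 1)) * ((v m)⁻¹ * w n)) =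
        rho P.a P.b (v (m - 1 - i) * x) := by
      intro i hi
      have hi' : i + 1 ≤ m := Finset.mem_range.1 hi
      rw [hend, ← mul_assoc, ← (A.good (hv.mem (show m - (i + 1) ≤ m by omega))).commT (k - j),
        mul_assoc, rho_T, show m - (i + 1) = m - 1 - i by omega]
    rw [Finset.sum_congr rfl h3, Finset.sum_range_reflect (fun i => rho P.a P.b (v i * x))]
    refine le_trans ?_ (Cmp_sum P hv hvs hκ hxG h1 h2)
    rw [Finset.sum_range_succ]
    have h4 : 0 ≤ rho P.a P.b (v m * x) := (P.rh_pos (mul_mem (hv.mem le_rfl) hxG)).le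
    linarith

lemma Gp.Lop.mono {P : Gp A} {h : Equiv.Perm ℝ} {κ κ' : ℝ} (hh : P.Lop h κ) (hκ : κ ≤ κ') :
    P.Lop h κ' := ⟨hh.1, hh.2.1, hh.2.2.1, hh.2.2.2.mono hκ⟩

lemma Gp.Lop.one (P : Gp A) : P.Lop 1 1 := ⟨one_mem _, rfl, rfl, P.cst_one⟩

lemma Gp.Lop.mul {P : Gp A} {g h : Equiv.Perm ℝ} {κ κ' : ℝ} (hg : P.Lop g κ) (hh : P.Lop h κ') :
    P.Lop (g * h) (κ + κ') := by
  obtain ⟨hgG, hga, hgb, m, v, j, hv, hvm, hvs⟩ := hg
  obtain ⟨hhG, hha, hhb, n, w, k, hw, hwn, hws⟩ := hh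
  refine ⟨mul_mem hgG hhG, by rw [Equiv.Perm.mul_apply, hha, hga],
    by rw [Equiv.Perm.mul_apply, hhb, hgb], ?_⟩
  obtain ⟨z, hz, hze, hzs⟩ := Cmp_cat (m := m) (q := fun i => v i * w n) hw
    (by simp only [hv.1, one_mul]) (fun i hi => by
      obtain ⟨s, hs, he⟩ := hv.2 i hi
      exact ⟨s, hs, by rw [he, mul_assoc]⟩)
  refine ⟨n + m, z, j + k, hz, ?_, ?_⟩
  · rw [hze, hvm, hwn, zpow_add, mul_assoc, mul_assoc, ← mul_assoc g, ← (A.good hgG).commT k,
      mul_assoc]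
  · rw [hzs, add_comm κ κ']
    refine add_le_add hws ?_
    have h3 : ∀ i ∈ Finset.range m, rho P.a P.b (v (i + 1) * w n) = rho P.a P.b (v (i + 1)) := by
      intro i hi
      have hi' : i + 1 ≤ m := Finset.mem_range.1 hi
      rw [hwn, ← mul_assoc, ← (A.good (hv.mem hi')).commT k, mul_assoc, rho_T]
      unfold rho
      rw [Equiv.Perm.mul_apply, Equiv.Perm.mul_apply, hha, hhb]
    rw [Finset.sum_congr rfl h3]
    refine le_trans ?_ hvs
    rw [Finset.sum_range_succ']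
    have h4 : 0 ≤ rho P.a P.b (v 0) := (P.rh_pos (hv.mem (Nat.zero_le m))).le
    linarith

lemma Gp.Lop.inv {P : Gp A} {h : Equiv.Perm ℝ} {κ : ℝ} (hh : P.Lop h κ) : P.Lop h⁻¹ κ := by
  obtain ⟨hhG, hha, hhb, n, w, k, hw, hwn, hws⟩ := hh
  have hia : h⁻¹ P.a = P.a := by
    rw [Equiv.Perm.inv_eq_iff_eq, hha]
  have hib : h⁻¹ P.b = P.b := by
    rw [Equiv.Perm.inv_eq_iff_eq, hhb]
  have hgi := (A.good hhG).inv
  refine ⟨inv_mem hhG, hia, hib, n, fun i => w (n - i) * (w n)⁻¹, -k, ⟨?_, ?_⟩, ?_, ?_⟩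
  · simp only [Nat.sub_zero, mul_inv_cancel]
  · intro i hi
    obtain ⟨s, hs, he⟩ := hw.2 (n - (i + 1)) (by omega)
    rw [show n - (i + 1) + 1 = n - i by omega] at he
    refine ⟨s⁻¹, Cmp_inv_mem hs, ?_⟩
    simp only
    rw [he, mul_assoc s, inv_mul_cancel_left]
  · simp only [Nat.sub_self]
    rw [hw.1, one_mul, hwn, mul_inv_rev, ← zpow_neg, hgi.commT]
  · have h3 : ∀ i ∈ Finset.range (n + 1), rho P.a P.b (w (n - i) * (w n)⁻¹) =
        rho P.a P.b (w (n + 1 - 1 - i)) := by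
      intro i hi
      rw [hwn, mul_inv_rev, ← zpow_neg, ← hgi.commT, ← mul_assoc,
        ← (A.good (hw.mem (show n - i ≤ n by omega))).commT, mul_assoc, rho_T,
        show n + 1 - 1 - i = n - i by omega]
      unfold rho
      rw [Equiv.Perm.mul_apply, Equiv.Perm.mul_apply, hia, hib]
    rw [Finset.sum_congr rfl h3, Finset.sum_range_reflect (fun i => rho P.a P.b (w i))]
    exact hws

end Pool.Agent.H42.EM
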