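/-
RPS : choice of representatives of the vertices, and the loops of the edges.

PROOF of exists_Rp (compare the end of Pool/Agent/H42/EM/Lps.lean, same construction).
 base : ℝ → Perm ℝ,  base y = if y = Int.fract P.a then T ^ (-⌊P.a⌋) else if h : ∃ w ∈ A.G, w a = y ∧ C w (101/100 W)
 then h.choose else 1;   rp g := T ^ ⌊g P.a⌋ * base (Int.fract (g P.a)).
 For g ∈ A.G there is h as in P.rep; T ^ (-⌊g a⌋) * h maps a to fract (g a), so base (fract (g a)) a = fract (g a)
 (in the first case: fract (g a) = fract a and T^(-⌊a⌋) a = fract a), and it has cost ≤ 101/100 W (for T^j: cst_one, cst_T,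
 1 ≤ 101/100 W).  rp g a = g a; rp g b = g b by b_congr with k = 0.  rT: floor (x + j) = floor x + j.  congr: clear.
 rp 1 = 1.
 clos: A.exists_path (EM/Pth) gives a path w with w n = T^k * g or similar; by induction on i, w i = rp (w i) * k_i with
 k_i ∈ closure of the loops: w (i+1) = s * w i = s * rp (w i) * k_i = rp (s * w i) * lp rp s (w i) * k_i.  Then use rT.
PROOF of Rp.lop: lp fixes a and b (rp g a = g a etc.).  rp (s g) * lp = s * rp g has cost ≤ 101/100 W + rho (s * rp g)
 ≤ 101/100 W + 1 (cst_step, rh_le); back with g := rp (s g), x := lp (x a = a, x b = b, rho x = 1):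
 cost ≤ 101/100 W + 1 + 101/100 * 1 * (101/100 W) ≤ 21/10 W.
-/
import Pool.Agent.H42.EZ.Cmp

set_option autoImplicit false

namespace Pool.Agent.H42.EM

open Set

variable {A : Sys}

theorem exists_Rp (P : Gp A) : Nonempty (Rp P) := by
  classical
  have hW := P.hW
  set base : ℝ → Equiv.Perm ℝ := fun y =>
    if y = Int.fract P.a then T ^ (-⌊P.a⌋) else
      if h : ∃ w ∈ A.G, w P.a = y ∧ P.C w (101 / 100 * P.W) then h.choose else 1 with hbase
  have hex : ∀ g ∈ A.G, ∃ w ∈ A.G, w P.a = Int.fract (g P.a) ∧ P.C w (101 / 100 * P.W) := by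
    intro g hg
    obtain ⟨h, hh, ha, _, hc⟩ := P.rep g hg
    refine ⟨T ^ (-⌊g P.a⌋) * h, Subgroup.mul_mem _ (A.Tz_mem _) hh, ?_, P.cst_T hc _⟩
    rw [Equiv.Perm.mul_apply, T_zpow, ha, Int.fract]
    push_cast
    ring
  have hone : P.C 1 (101 / 100 * P.W) := P.cst_one.mono (by linarith)
  have hbase_spec : ∀ g ∈ A.G, base (Int.fract (g P.a)) ∈ A.G ∧
      base (Int.fract (g P.a)) P.a = Int.fract (g P.a) ∧
      P.C (base (Int.fract (g P.a))) (101 / 100 * P.W) := by
    intro g hg
    by_cases h : Int.fract (g P.a) = Int.fract P.a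
    · have h1 : base (Int.fract (g P.a)) = T ^ (-⌊P.a⌋) := by
        simp only [hbase]
        rw [if_pos h]
      rw [h1]
      refine ⟨A.Tz_mem _, ?_, ?_⟩
      · rw [T_zpow, h, Int.fract]
        push_cast
        ring
      · have := P.cst_T hone (-⌊P.a⌋)
        rwa [mul_one] at this
    · have h1 : base (Int.fract (g P.a)) = (hex g hg).choose := by
        simp only [hbase]
        rw [if_neg h, dif_pos (hex g hg)]
      rw [h1]
      have := (hex g hg).choose_spec
      exact ⟨this.1, this.2.1, this.2.2⟩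
  set rp : Equiv.Perm ℝ → Equiv.Perm ℝ := fun g => T ^ ⌊g P.a⌋ * base (Int.fract (g P.a)) with hrp
  have hG : ∀ g ∈ A.G, rp g ∈ A.G := fun g hg =>
    Subgroup.mul_mem _ (A.Tz_mem _) (hbase_spec g hg).1
  have hA : ∀ g ∈ A.G, rp g P.a = g P.a := by
    intro g hg
    simp only [hrp]
    rw [Equiv.Perm.mul_apply, T_zpow, (hbase_spec g hg).2.1]
    exact Int.fract_add_floor _
  have hB : ∀ g ∈ A.G, rp g P.b = g P.b := by
    intro g hg
    have := P.b_congr (hG g hg) hg (k := 0) (by rw [hA g hg]; simp)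
    simpa using this
  have hC : ∀ g ∈ A.G, P.C (rp g) (101 / 100 * P.W) := fun g hg =>
    P.cst_T (hbase_spec g hg).2.2 _
  have hT : ∀ (j : ℤ) (g : Equiv.Perm ℝ), rp (T ^ j * g) = T ^ j * rp g := by
    intro j g
    simp only [hrp]
    have h1 : (T ^ j * g) P.a = g P.a + j := by rw [Equiv.Perm.mul_apply, T_zpow]
    rw [h1, Int.floor_add_intCast, Int.fract_add_intCast, add_comm, zpow_add, mul_assoc]
  have h1 : rp 1 = 1 := by
    simp only [hrp, hbase]
    have : (1 : Equiv.Perm ℝ) P.a = P.a := rfl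
    rw [this, if_pos rfl, ← zpow_add]
    simp
  refine ⟨⟨rp, hG, hA, hB, hC, fun j g _ => hT j g, ?_, ?_⟩⟩
  · intro g _ h _ e
    simp only [hrp]
    rw [e]
  · intro g hg
    obtain ⟨n, w, k, hw, rfl⟩ := A.exists_path hg
    have hind : ∀ i, i ≤ n → ∃ κ ∈ Subgroup.closure {l | ∃ g' ∈ A.G, ∃ s ∈ A.S, l = lp rp s g'},
        w i = rp (w i) * κ := by
      intro i
      induction i with
      | zero =>
        intro _
        refine ⟨1, Subgroup.one_mem _, ?_⟩
        rw [hw.1, h1]
        rfl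
      | succ i ih =>
        intro hi
        obtain ⟨κ, hκ, e⟩ := ih (by omega)
        obtain ⟨s, hs, e'⟩ := hw.2 i (by omega)
        have hwi : w i ∈ A.G := hw.mem (by omega)
        refine ⟨lp rp s (w i) * κ, Subgroup.mul_mem _
          (Subgroup.subset_closure ⟨w i, hwi, s, hs, rfl⟩) hκ, ?_⟩
        rw [e']
        unfold lp
        calc s * w i = s * (rp (w i) * κ) := by rw [← e]
          _ = _ := by group
    obtain ⟨κ, hκ, e⟩ := hind n le_rfl
    refine ⟨κ, hκ, ?_⟩
    rw [hT, mul_assoc, ← e]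

lemma Rp.lop {P : Gp A} (R : Rp P) {s g : Equiv.Perm ℝ} (hg : g ∈ A.G) (hs : s ∈ A.S) :
    P.Lop (lp R.rp s g) (21 / 10 * P.W) := by
  have hW := P.hW
  have hr := P.hr
  have hsG := A.S_mem hs
  have hsg : s * g ∈ A.G := Subgroup.mul_mem _ hsG hg
  have hrg := R.mem g hg
  have hrsg := R.mem _ hsg
  have hG : lp R.rp s g ∈ A.G :=
    Subgroup.mul_mem _ (Subgroup.inv_mem _ hrsg) (Subgroup.mul_mem _ hsG hrg)
  have ha : lp R.rp s g P.a = P.a := by
    unfold lp
    rw [Equiv.Perm.mul_apply, Equiv.Perm.inv_eq_iff_eq, R.ha _ hsg, Equiv.Perm.mul_apply,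
      R.ha _ hg]
    rfl
  have hb : lp R.rp s g P.b = P.b := by
    unfold lp
    rw [Equiv.Perm.mul_apply, Equiv.Perm.inv_eq_iff_eq, R.hb _ hsg, Equiv.Perm.mul_apply,
      R.hb _ hg]
    rfl
  have hrh : P.rh (lp R.rp s g) = 1 := by
    rw [← P.rh_one]
    exact P.rh_congr (by rw [ha]; rfl) (by rw [hb]; rfl)
  have hc1 : P.C (s * R.rp g) (101 / 100 * P.W + 1) :=
    (P.cst_step hs (R.cst g hg)).mono (by
      have := P.rh_le (Subgroup.mul_mem _ hsG hrg)
      linarith)
  have hc2 : P.C (R.rp (s * g) * lp R.rp s g) (101 / 100 * P.W + 1) := by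
    have e : R.rp (s * g) * lp R.rp s g = s * R.rp g := by
      unfold lp
      group
    rw [e]
    exact hc1
  have hc3 := P.back (R.cst _ hsg) (by linarith) hc2 (by rw [ha]; linarith) (by rw [hb]; linarith)
  rw [hrh] at hc3
  exact ⟨hG, ha, hb, hc3.mono (by linarith)⟩

end Pool.Agent.H42.EM
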