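/-
CFN : the loops have no common fixed point on the right of the gap.   (Compare EM/Cnf.lean.)

PROOF.  Suppose lp R.rp s g p = p for all g ∈ G, s ∈ S.  Then every k in the closure of the loops fixes p, and k b = b (Rp.lop).
 Apply finite_index (EM/Fix) with α = b (∈ L), β = p; L ∩ (b, p) ≠ ∅: Sys.accR_of_gap.  Let η > 0.  If g ∈ G and
 η ≤ g p - g b, write g = rp g * k (R.clos): g p = rp g p, g b = rp g b, so by Gp.aff (rp g has cost 101/100 W, controlled)
 η ≤ 1001/1000 rho (rp g) (p - b), so rp g b - rp g a = rho (rp g) (b - a) ≥ η' := η (b - a) / (2 (p - b)).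
 gap_finset_right (EM/Fam) for η' gives the finite set F for the right endpoints g b of the gaps (g a, g b).
-/
import Pool.Agent.H42.EZ.Rps

set_option autoImplicit false

namespace Pool.Agent.H42.EM

open Set

variable {A : Sys}

lemma Rp.move {P : Gp A} (R : Rp P) {p : ℝ} (hp : P.b < p) (hp' : p ≤ P.b + 39 * P.r) :
    ∃ g ∈ A.G, ∃ s ∈ A.S, lp R.rp s g p ≠ p := by
  by_contra hcon
  push Not at hcon
  have hfix : ∀ k ∈ Subgroup.closure {l | ∃ g' ∈ A.G, ∃ s ∈ A.S, l = lp R.rp s g'}, k p = p := by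
    intro k hk
    induction hk using Subgroup.closure_induction with
    | mem y hy =>
      obtain ⟨g', hg', s, hs, rfl⟩ := hy
      exact hcon g' hg' s hs
    | one => rfl
    | mul a b _ _ ha hb => rw [Equiv.Perm.mul_apply, hb, ha]
    | inv a _ ha => rw [Equiv.Perm.inv_eq_iff_eq, ha]
  have hab := P.ab
  have hr := P.hr
  have hW := P.hW
  have hpb : 0 < p - P.b := by linarith
  have hba : 0 < P.b - P.a := by linarith
  refine finite_index A P.gap.2.2.1 hp ?_ fun η hη => ?_
  · obtain ⟨t, ht, htL⟩ := A.accR_of_gap P.gap (p - P.b) hpb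
    exact ⟨t, ⟨ht.1, by linarith [ht.2]⟩, htL⟩
  obtain ⟨F, hF⟩ := gap_finset_right A (η := η * (P.b - P.a) / (2 * (p - P.b))) (by positivity)
  refine ⟨F, fun g hg hgη => ?_⟩
  obtain ⟨k, hk, e⟩ := R.clos g hg
  have hgp : g p = R.rp g p := by
    conv_lhs => rw [e]
    rw [Equiv.Perm.mul_apply, hfix k hk]
  have hgb := R.hb g hg
  have h1 := (P.aff (R.mem g hg) (P.ctl_of (R.cst g hg) (by linarith)) (u := P.b) (v := p)
    (by linarith) hp.le (by linarith)).2
  rw [hgp, ← hgb] at hgη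
  have h2 : η ≤ 1001 / 1000 * P.rh (R.rp g) * (p - P.b) := hgη.trans h1
  have hrh := P.rh_pos (R.mem g hg)
  obtain ⟨q, hq, l, hl⟩ := hF (R.rp g P.a) (R.rp g P.b) (P.gap.image A (R.mem g hg)) (by
    rw [P.rh_mul (R.rp g), div_le_iff₀ (by positivity)]
    have h3 := mul_le_mul_of_nonneg_right h2 hba.le
    have h4 : 0 < P.rh (R.rp g) * (p - P.b) * (P.b - P.a) := by positivity
    nlinarith)
  exact ⟨q, hq, l, by rw [← hgb, hl]⟩

end Pool.Agent.H42.EM
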