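/-
FPW : powers of the free loop f.

PROOFS.  f ∈ A.G fixes a and b (F.hf : Lop), f t < t on (b, v], strictly increasing and continuous (A.good).  P.b + 8 P.r < v < P.b + 9 P.r.
* fG, fa, fb, fmono, f_gt: induction.   f_le, f_lt, f_anti: induction, (F.f ^ (n+1)) t = F.f ((F.f ^ n) t).
* finv_gt, finv_ge: apply F.f ^ n.
* exists_dep: exists_down (EM/Itr) or: the smallest n with (f^(n+1)) (b+r) ≤ t; it exists since otherwise the decreasing
  sequence (f^n) (b+r) > t > b converges to a fixed point of f in (b, b + r].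
* dep_unique: if n < m then t < f^m (b+r) ≤ f^(n+1) (b+r) ≤ t.    dep_up: apply (f^n)⁻¹.
* X_le: Gp.Lop.disp (κ = 21/10 W ≤ 100 W).   X_lip: f t - f s ∈ [e^-eps (t - s), e^eps (t - s)] (Lop.lo, Lop.up), exp_eps.
* down_ge: by induction (f^n) t - b ≥ (1 - 2 eps)^n (t - b), (1 - 2 eps)^20 ≥ 99/100 (Bernoulli: 1 - 40 eps).
* up_le: t := b + 101/100 (s - b) ≤ b + 8 r; (f^n) t - b ≥ (1 - 40 eps) * 101/100 (s - b) ≥ s - b, so (f^n)⁻¹ s ≤ t.
-/
import Pool.Agent.H42.EZ.Nid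
import Pool.Agent.H42.EM.Itr

set_option autoImplicit false

namespace Pool.Agent.H42.EM

open Set

variable {A : Sys} {P : Gp A}

lemma Fpw_ia (g : Equiv.Perm ℝ) (x : ℝ) : g⁻¹ (g x) = x := g.symm_apply_apply x

lemma Fd.fG (F : Fd P) (n : ℕ) : F.f ^ n ∈ A.G := Subgroup.pow_mem _ F.hf.1 n

lemma Fd.fa (F : Fd P) (n : ℕ) : (F.f ^ n) P.a = P.a := by
  induction n with
  | zero => rfl
  | succ n ih => rw [ITR_pow_succ_apply, F.hf.2.1, ih]

lemma Fd.fb (F : Fd P) (n : ℕ) : (F.f ^ n) P.b = P.b := by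
  induction n with
  | zero => rfl
  | succ n ih => rw [ITR_pow_succ_apply, F.hf.2.2.1, ih]

lemma Fd.fmono (F : Fd P) (n : ℕ) : StrictMono (⇑(F.f ^ n)) := (A.good (F.fG n)).mono

lemma Fd.f_gt (F : Fd P) (n : ℕ) {t : ℝ} (h : P.b < t) : P.b < (F.f ^ n) t := by
  have h1 := F.fmono n h
  rwa [F.fb n] at h1

lemma Fd.f_ge (F : Fd P) (n : ℕ) {t : ℝ} (h : P.b ≤ t) : P.b ≤ (F.f ^ n) t := by
  have h1 := (F.fmono n).monotone h
  rwa [F.fb n] at h1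

lemma Fpw_invmono (F : Fd P) (n : ℕ) : StrictMono (⇑((F.f ^ n)⁻¹)) :=
  (A.good (Subgroup.inv_mem _ (F.fG n))).mono

lemma Fpw_invb (F : Fd P) (n : ℕ) : (F.f ^ n)⁻¹ P.b = P.b := by
  rw [Equiv.Perm.inv_eq_iff_eq]
  exact (F.fb n).symm

lemma Fd.finv_gt (F : Fd P) (n : ℕ) {t : ℝ} (h : P.b < t) : P.b < (F.f ^ n)⁻¹ t := by
  have h1 := Fpw_invmono F n h
  rwa [Fpw_invb F n] at h1

lemma Fd.finv_ge (F : Fd P) (n : ℕ) {t : ℝ} (h : P.b ≤ t) : P.b ≤ (F.f ^ n)⁻¹ t := by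
  have h1 := (Fpw_invmono F n).monotone h
  rwa [Fpw_invb F n] at h1

lemma Fpw_f1 (F : Fd P) {t : ℝ} (h1 : P.b ≤ t) (h2 : t ≤ F.v) : F.f t ≤ t := by
  rcases h1.eq_or_lt with h | h
  · rw [← h, F.hf.2.2.1]
  · exact (F.free t ⟨h, h2⟩).le

lemma Fd.f_le (F : Fd P) (n : ℕ) {t : ℝ} (h1 : P.b ≤ t) (h2 : t ≤ F.v) : (F.f ^ n) t ≤ t := by
  induction n with
  | zero => exact le_rfl
  | succ n ih =>
    rw [ITR_pow_succ_apply']
    exact (Fpw_f1 F (F.f_ge n h1) (ih.trans h2)).trans ih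

lemma Fd.f_lt (F : Fd P) {n : ℕ} (hn : 0 < n) {t : ℝ} (h1 : P.b < t) (h2 : t ≤ F.v) :
    (F.f ^ n) t < t := by
  obtain ⟨m, rfl⟩ := Nat.exists_eq_succ_of_ne_zero hn.ne'
  rw [Nat.succ_eq_add_one, ITR_pow_succ_apply']
  have h3 := F.f_le m h1.le h2
  exact (F.free _ ⟨F.f_gt m h1, h3.trans h2⟩).trans_le h3

lemma Fd.f_anti (F : Fd P) {m n : ℕ} (h : m ≤ n) {t : ℝ} (h1 : P.b ≤ t) (h2 : t ≤ F.v) :
    (F.f ^ n) t ≤ (F.f ^ m) t := by
  obtain ⟨k, rfl⟩ := Nat.exists_eq_add_of_le h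
  rw [pow_add]
  exact (F.fmono m).monotone (F.f_le k h1 h2)

lemma Fpw_br (F : Fd P) : P.b < P.b + P.r ∧ P.b + P.r ≤ F.v := by
  have h1 := P.hr
  have h2 := F.hv1
  exact ⟨by linarith, by linarith⟩

lemma Fd.exists_dep (F : Fd P) {t : ℝ} (h1 : P.b < t) (h2 : t < P.b + P.r) : ∃ n, F.Dep t n := by
  obtain ⟨hb1, hb2⟩ := Fpw_br F
  obtain ⟨j, hj1, hj2⟩ := exists_down (A.good F.hf.1) F.hf.2.2.1 F.free h1 h2.le hb2
  rcases hj2.lt_or_eq with h | h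
  · exact ⟨j, hj1.le, h⟩
  · cases j with
    | zero =>
      exfalso
      have h3 : (F.f ^ 0) (P.b + P.r) = P.b + P.r := rfl
      rw [h3] at h
      exact h2.ne h
    | succ n =>
      refine ⟨n, h.ge, ?_⟩
      rw [h, ITR_pow_succ_apply']
      exact F.free _ ⟨F.f_gt n hb1, (F.f_le n hb1.le hb2).trans hb2⟩

lemma Fd.dep_unique (F : Fd P) {t : ℝ} {n m : ℕ} (hn : F.Dep t n) (hm : F.Dep t m) : n = m := by
  obtain ⟨hb1, hb2⟩ := Fpw_br F
  have key : ∀ n m : ℕ, F.Dep t n → F.Dep t m → ¬ n < m := by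
    intro n m hn hm hlt
    have h1 := F.f_anti (m := n + 1) (n := m) hlt hb1.le hb2
    have h2 := hm.2
    have h3 := hn.1
    linarith
  rcases Nat.lt_trichotomy n m with h | h | h
  · exact absurd h (key n m hn hm)
  · exact h
  · exact absurd h (key m n hm hn)

lemma Fd.dep_up (F : Fd P) {t : ℝ} {n : ℕ} (h : F.Dep t n) :
    F.f (P.b + P.r) ≤ (F.f ^ n)⁻¹ t ∧ (F.f ^ n)⁻¹ t < P.b + P.r := by
  constructor
  · have h1 := (Fpw_invmono F n).monotone h.1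
    rw [ITR_pow_succ_apply] at h1
    rwa [Fpw_ia] at h1
  · have h1 := Fpw_invmono F n h.2
    rwa [Fpw_ia] at h1

lemma Fpw_W (P : Gp A) : 21 / 10 * P.W ≤ 100 * P.W := by
  have := P.hW
  linarith

lemma Fd.X_le (F : Fd P) {t : ℝ} (h1 : P.b ≤ t) (h2 : t ≤ P.b + 40 * P.r) :
    t - F.f t ≤ 2 * eps * (t - P.b) := by
  have h3 := F.hf.disp (Fpw_W P) h1 h2
  have h4 := (abs_le.mp h3).1
  linarith

lemma Fd.X_lip (F : Fd P) {s t : ℝ} (hs : P.b ≤ s) (hst : s ≤ t) (ht : t ≤ P.b + 40 * P.r) :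
    |(t - F.f t) - (s - F.f s)| ≤ 11 / 10 * eps * (t - s) := by
  obtain ⟨he1, he2, he3, he4⟩ := exp_eps
  have hr := P.hr
  have hab := P.gap.1
  have h1 := F.hf.lo (Fpw_W P) (u := s) (v := t) (by linarith) hst ht
  have h2 := F.hf.up (Fpw_W P) (u := s) (v := t) (by linarith) hst ht
  have h0 : 0 ≤ t - s := by linarith
  have h3 : (1 - 11 / 10 * eps) * (t - s) ≤ Real.exp (-eps) * (t - s) :=
    mul_le_mul_of_nonneg_right he2 h0
  have h4 : Real.exp eps * (t - s) ≤ (1 + 11 / 10 * eps) * (t - s) :=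
    mul_le_mul_of_nonneg_right he1 h0
  rw [abs_le]
  constructor
  · linarith
  · linarith

lemma Fpw_down (F : Fd P) (n : ℕ) {t : ℝ} (h1 : P.b ≤ t) (h2 : t ≤ P.b + 8 * P.r) :
    (1 - 2 * eps) ^ n * (t - P.b) ≤ (F.f ^ n) t - P.b := by
  have hr := P.hr
  have hv := F.hv1
  have hep : 2 * eps ≤ 1 := by unfold eps; norm_num
  induction n with
  | zero =>
    rw [pow_zero, one_mul]
    exact le_rfl
  | succ n ih =>
    rw [ITR_pow_succ_apply', pow_succ']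
    have h3 := F.f_ge n h1
    have h4 := F.f_le n h1 (by linarith)
    have h5 := F.X_le h3 (by linarith)
    have h6 : (1 - 2 * eps) * ((1 - 2 * eps) ^ n * (t - P.b)) ≤ (1 - 2 * eps) * ((F.f ^ n) t - P.b) :=
      mul_le_mul_of_nonneg_left ih (by linarith)
    rw [mul_assoc]
    linarith

lemma Fpw_down' (F : Fd P) {n : ℕ} (hn : n ≤ 20) {t : ℝ} (h1 : P.b ≤ t) (h2 : t ≤ P.b + 8 * P.r) :
    (1 - 40 * eps) * (t - P.b) ≤ (F.f ^ n) t - P.b := by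
  refine le_trans (mul_le_mul_of_nonneg_right ?_ (by linarith)) (Fpw_down F n h1 h2)
  have hep : 0 < eps := eps_pos
  have hep1 : eps ≤ 1 / 100 := by unfold eps; norm_num
  have h3 := one_add_mul_le_pow (a := -(2 * eps)) (by linarith) n
  have h4 : (n : ℝ) ≤ 20 := by exact_mod_cast hn
  have h5 : (n : ℝ) * (2 * eps) ≤ 20 * (2 * eps) := mul_le_mul_of_nonneg_right h4 (by linarith)
  rw [← sub_eq_add_neg] at h3
  linarith

lemma Fd.down_ge (F : Fd P) {n : ℕ} (hn : n ≤ 20) {t : ℝ} (h1 : P.b ≤ t) (h2 : t ≤ P.b + 8 * P.r) :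
    99 / 100 * (t - P.b) ≤ (F.f ^ n) t - P.b := by
  refine le_trans (mul_le_mul_of_nonneg_right ?_ (by linarith)) (Fpw_down' F hn h1 h2)
  unfold eps
  norm_num

lemma Fd.up_le (F : Fd P) {n : ℕ} (hn : n ≤ 20) {s : ℝ} (h1 : P.b ≤ s) (h2 : s ≤ P.b + 7 * P.r) :
    (F.f ^ n)⁻¹ s ≤ P.b + 101 / 100 * (s - P.b) := by
  have hr := P.hr
  have h3 := Fpw_down' F hn (t := P.b + 101 / 100 * (s - P.b)) (by linarith) (by linarith)
  have h4 : 1 ≤ (1 - 40 * eps) * (101 / 100) := by unfold eps; norm_num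
  have h5 : 1 * (s - P.b) ≤ (1 - 40 * eps) * (101 / 100) * (s - P.b) :=
    mul_le_mul_of_nonneg_right h4 (by linarith)
  have h6 : s ≤ (F.f ^ n) (P.b + 101 / 100 * (s - P.b)) := by
    have e : (1 - 40 * eps) * (P.b + 101 / 100 * (s - P.b) - P.b) =
      (1 - 40 * eps) * (101 / 100) * (s - P.b) := by ring
    rw [e] at h3
    linarith
  have h7 := (Fpw_invmono F n).monotone h6
  rwa [Fpw_ia] at h7

end Pool.Agent.H42.EM
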