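/-
CLA : the orbit of a point under a loop k of very small displacement.

PROOFS.  X t := t - f t > 0 on (b, v].
* korb: induction on m: |k^(i+1) t - k^i t| ≤ 13 eps X (k^i t) ≤ 13 eps * 101/100 X t, since |k^i t - t| ≤ X t / 100 and |X s - X t| ≤ 11/10 eps |s - t|
  (X_lip).  (k^i t ≤ t + X t ≤ b + 3r: X t ≤ 2 eps * 2r; b < k^i t since k fixes b.)  |k^m t - t| ≤ m * 1313/100 eps X t ≤ X t / 100 for m ≤ 10^4:
  prove the sharper |k^m t - t| ≤ m * (14 eps) X t by induction, using m * 14 eps ≤ 14/10000 ≤ 1/100.
* korb_ne: k^m t = k^m' t with m < m' gives k^(m' - m) t = t (injectivity); if t < k t then t < k^j t for j ≥ 1 (k increasing), similarly if k t < t.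
-/
import Pool.Agent.H42.EZ.Fpw

set_option autoImplicit false

namespace Pool.Agent.H42.EM

open Set

variable {A : Sys} {P : Gp A}

/-- small displacement -/
def Fd.Sd (F : Fd P) (k : Equiv.Perm ℝ) : Prop :=
  P.Lop k (50 * P.W) ∧ ∀ t, P.b < t → t ≤ P.b + 3 * P.r → |k t - t| ≤ 13 * eps * (t - F.f t)

lemma Fd.korb (F : Fd P) {k : Equiv.Perm ℝ} (hk : F.Sd k) {t : ℝ} (h1 : P.b < t)
    (h2 : t ≤ P.b + 2 * P.r) {m : ℕ} (hm : m ≤ 10000) :
    |(k ^ m) t - t| ≤ (t - F.f t) / 100 := by
  have hr := P.hr
  have hW := P.hW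
  have hv := F.hv1
  have hep : 0 < eps := eps_pos
  have hep1 : eps ≤ 1 / 10 ^ 8 := le_refl _
  have hX : 0 < t - F.f t := by linarith [F.free t ⟨h1, by linarith⟩]
  have hXr : t - F.f t ≤ P.r := by
    have h3 := F.X_le h1.le (by linarith)
    have h4 : 2 * eps * (t - P.b) ≤ 1 / 2 * (t - P.b) :=
      mul_le_mul_of_nonneg_right (by linarith) (by linarith)
    linarith
  set X := t - F.f t with hXd
  have hkm : StrictMono (⇑k) := (A.good hk.1.1).mono
  have hkb : k P.b = P.b := hk.1.2.2.1
  have hgt : ∀ i : ℕ, P.b < (k ^ i) t := by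
    intro i
    induction i with
    | zero => exact h1
    | succ i ih =>
      rw [ITR_pow_succ_apply']
      have := hkm ih
      rwa [hkb] at this
  have key : ∀ i : ℕ, i ≤ 10000 → |(k ^ i) t - t| ≤ i * (14 * eps) * X := by
    intro i
    induction i with
    | zero =>
      intro _
      simp
    | succ i ih =>
      intro hi
      have h3 := ih (by omega)
      have hi' : (i : ℝ) ≤ 10000 := by
        have : i ≤ 10000 := by omega
        exact_mod_cast this
      have h4 : (i : ℝ) * (14 * eps) * X ≤ 10000 * (14 * eps) * X :=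
        mul_le_mul_of_nonneg_right (mul_le_mul_of_nonneg_right hi' (by positivity)) hX.le
      have h5 : 10000 * (14 * eps) * X ≤ 1 / 100 * X :=
        mul_le_mul_of_nonneg_right (by linarith) hX.le
      rw [ITR_pow_succ_apply']
      set s := (k ^ i) t with hs
      have h6 : |s - t| ≤ 1 / 100 * X := h3.trans (h4.trans h5)
      have h7 := abs_le.mp h6
      have h8 : P.b < s := hgt i
      have h9 := hk.2 s h8 (by linarith)
      have h10 : s - F.f s ≤ 101 / 100 * X := by
        have h11 : |(s - F.f s) - (t - F.f t)| ≤ 11 / 10 * eps * |s - t| := by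
          rcases le_total s t with hst | hst
          · have := F.X_lip h8.le hst (by linarith)
            rw [abs_sub_comm, abs_sub_comm s t, abs_of_nonneg (by linarith : 0 ≤ t - s)]
            exact this
          · have := F.X_lip h1.le hst (by linarith)
            rw [abs_of_nonneg (by linarith : 0 ≤ s - t)]
            exact this
        have h12 : 11 / 10 * eps * |s - t| ≤ 1 * |s - t| :=
          mul_le_mul_of_nonneg_right (by linarith) (abs_nonneg _)
        have h13 := (abs_le.mp h11).2
        linarith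
      have h14 : 13 * eps * (s - F.f s) ≤ 13 * eps * (101 / 100 * X) :=
        mul_le_mul_of_nonneg_left h10 (by positivity)
      have h15 : |k s - t| ≤ |k s - s| + |s - t| := by
        have e : k s - t = (k s - s) + (s - t) := by ring
        rw [e]
        exact abs_add_le _ _
      push_cast
      nlinarith
  have h3 := key m hm
  have hm' : (m : ℝ) ≤ 10000 := by exact_mod_cast hm
  have h4 : (m : ℝ) * (14 * eps) * X ≤ 10000 * (14 * eps) * X :=
    mul_le_mul_of_nonneg_right (mul_le_mul_of_nonneg_right hm' (by positivity)) hX.le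
  have h5 : 10000 * (14 * eps) * X ≤ 1 / 100 * X :=
    mul_le_mul_of_nonneg_right (by linarith) hX.le
  linarith

lemma korb_ne {k : Equiv.Perm ℝ} (hk : StrictMono (⇑k)) {t : ℝ} (h : k t ≠ t) {m m' : ℕ}
    (hm : m ≠ m') : (k ^ m) t ≠ (k ^ m') t := by
  have hpm : ∀ j : ℕ, StrictMono (⇑(k ^ j)) := by
    intro j
    induction j with
    | zero => exact strictMono_id
    | succ j ih =>
      intro x y hxy
      rw [ITR_pow_succ_apply', ITR_pow_succ_apply']
      exact hk (ih hxy)
  have key : ∀ j : ℕ, 0 < j → (k ^ j) t ≠ t := by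
    intro j hj
    rcases lt_or_gt_of_ne h with hlt | hgt
    · have h1 : ∀ i : ℕ, (k ^ (i + 1)) t < t := by
        intro i
        induction i with
        | zero =>
          rw [zero_add, pow_one]
          exact hlt
        | succ i ih =>
          rw [ITR_pow_succ_apply]
          exact (hpm (i + 1) hlt).trans ih
      obtain ⟨i, rfl⟩ := Nat.exists_eq_succ_of_ne_zero hj.ne'
      exact (h1 i).ne
    · have h1 : ∀ i : ℕ, t < (k ^ (i + 1)) t := by
        intro i
        induction i with
        | zero =>
          rw [zero_add, pow_one]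
          exact hgt
        | succ i ih =>
          rw [ITR_pow_succ_apply]
          exact ih.trans (hpm (i + 1) hgt)
      obtain ⟨i, rfl⟩ := Nat.exists_eq_succ_of_ne_zero hj.ne'
      exact (h1 i).ne'
  have key2 : ∀ n n' : ℕ, n < n' → (k ^ n) t ≠ (k ^ n') t := by
    intro n n' hn he
    obtain ⟨j, rfl⟩ := Nat.exists_eq_add_of_lt hn
    rw [show n + j + 1 = n + (j + 1) by ring, pow_add, Equiv.Perm.mul_apply] at he
    exact key (j + 1) (Nat.succ_pos j) ((k ^ n).injective he).symm
  rcases lt_or_gt_of_ne hm with h1 | h1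
  · exact key2 m m' h1
  · exact (key2 m' m h1).symm

end Pool.Agent.H42.EM
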