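/-
DIS : comparison of the sizes of f^n x and f^n y for neighbouring x, y.

PROOF.  Mean value theorem for f^n on [x a, x b] and [y a, y b]: rh (f^n x) = (f^n)'(ζ) rh x, rh (f^n y) = (f^n)'(ξ) rh y with
 ζ ∈ (x a, x b), ξ ∈ (y a, y b).  log (f^n)'(ξ) - log (f^n)'(ζ) = ∑_{i<n} (log f'(f^i ξ) - log f'(f^i ζ)) (ITR_log_pow), and
 Lop.nid for f: each term is ≤ eps/(100 r) |f^i ξ - f^i ζ| (all points in [b, b + 8r] ⊆ K).  Since f^10 ζ ≤ f^10 (x b) ≤ y a ≤ ξ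
 and f^10 ξ ≤ ζ: |f^i ξ - f^i ζ| ≤ (f^i ξ - f^(i+10) ξ) + (f^i ζ - f^(i+10) ζ).  The sums telescope:
 ∑_{i<n} (f^i ξ - f^(i+10) ξ) ≤ 10 (ξ - b) ≤ 80 r.  (By induction on n: ∑_{i<n} (c_i - c_{i+10}) ≤ ∑_{j<10} c_j - 10 b for a decreasing
 sequence c_i ≥ b; prove it as ∑_{i<n} (c_i - c_{i+10}) = ∑_{j<10} (c_j - c_{n+j}).)  Total ≤ eps/(100 r) * 160 r ≤ 2 eps;
 e^(2 eps) ≤ 1001/1000.
-/
import Pool.Agent.H42.EZ.Fpw

set_option autoImplicit false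

namespace Pool.Agent.H42.EM

open Set

variable {A : Sys} {P : Gp A}

private lemma Dis_tel (c : ℕ → ℝ) (n : ℕ) :
    ∑ i ∈ Finset.range n, (c i - c (i + 10)) = ∑ j ∈ Finset.range 10, (c j - c (n + j)) := by
  induction n with
  | zero => simp
  | succ n ih =>
    rw [Finset.sum_range_succ, ih]
    simp only [Finset.sum_range_succ, Finset.sum_range_zero]
    simp only [show n + 1 + 0 = n + 1 by ring, show n + 1 + 1 = n + 2 by ring,
      show n + 1 + 2 = n + 3 by ring, show n + 1 + 3 = n + 4 by ring,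
      show n + 1 + 4 = n + 5 by ring, show n + 1 + 5 = n + 6 by ring,
      show n + 1 + 6 = n + 7 by ring, show n + 1 + 7 = n + 8 by ring,
      show n + 1 + 8 = n + 9 by ring, show n + 1 + 9 = n + 10 by ring, add_zero]
    ring

private lemma Dis_tel_le (c : ℕ → ℝ) (b : ℝ) (hc : ∀ i, c i ≤ c 0) (hb : ∀ i, b ≤ c i) (n : ℕ) :
    ∑ i ∈ Finset.range n, (c i - c (i + 10)) ≤ 10 * (c 0 - b) := by
  rw [Dis_tel]
  calc ∑ j ∈ Finset.range 10, (c j - c (n + j)) ≤ ∑ _j ∈ Finset.range 10, (c 0 - b) :=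
        Finset.sum_le_sum fun j _ => by linarith [hc j, hb (n + j)]
    _ = 10 * (c 0 - b) := by
      rw [Finset.sum_const, Finset.card_range, nsmul_eq_mul]
      norm_num

private lemma Dis_abs (F : Fd P) {ξ ζ : ℝ} (hξ : P.b ≤ ξ) (hξ' : ξ ≤ P.b + 8 * P.r)
    (hζ : P.b ≤ ζ) (hζ' : ζ ≤ P.b + 8 * P.r) (h1 : (F.f ^ 10) ξ ≤ ζ) (h2 : (F.f ^ 10) ζ ≤ ξ)
    (i : ℕ) : |(F.f ^ i) ξ - (F.f ^ i) ζ| ≤
      ((F.f ^ i) ξ - (F.f ^ (i + 10)) ξ) + ((F.f ^ i) ζ - (F.f ^ (i + 10)) ζ) := by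
  have hv := F.hv1
  have h3 : (F.f ^ (i + 10)) ξ ≤ (F.f ^ i) ζ := by
    rw [pow_add, Equiv.Perm.mul_apply]
    exact (F.fmono i).monotone h1
  have h4 : (F.f ^ (i + 10)) ζ ≤ (F.f ^ i) ξ := by
    rw [pow_add, Equiv.Perm.mul_apply]
    exact (F.fmono i).monotone h2
  have h5 := F.f_anti (m := i) (n := i + 10) (by omega) hξ (by linarith)
  have h6 := F.f_anti (m := i) (n := i + 10) (by omega) hζ (by linarith)
  rw [abs_le]
  constructor <;> linarith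

private lemma Dis_deriv (F : Fd P) {ξ ζ : ℝ} (hξ : P.b ≤ ξ) (hξ' : ξ ≤ P.b + 8 * P.r)
    (hζ : P.b ≤ ζ) (hζ' : ζ ≤ P.b + 8 * P.r) (h1 : (F.f ^ 10) ξ ≤ ζ) (h2 : (F.f ^ 10) ζ ≤ ξ)
    (n : ℕ) : deriv (⇑(F.f ^ n)) ξ ≤ 1001 / 1000 * deriv (⇑(F.f ^ n)) ζ := by
  have hr := P.hr
  have hv := F.hv1
  have hab := P.gap.1
  have hJ := P.hJ
  have hep : 0 < eps := eps_pos
  have hW := P.hW
  have hfg : F.f ∈ A.G := F.hf.1
  have hgood := A.good hfg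
  have hn := (F.hf.nid (by linarith)).2
  have hin : ∀ t, P.b ≤ t → t ≤ P.b + 8 * P.r → ∀ i : ℕ,
      (F.f ^ i) t ∈ Icc (P.a - 40 * P.r) (P.b + 40 * P.r) := by
    intro t ht ht' i
    have e1 := F.f_ge i ht
    have e2 := F.f_le i ht (by linarith)
    exact ⟨by linarith, by linarith⟩
  have hsum : Real.log (deriv (⇑(F.f ^ n)) ξ) - Real.log (deriv (⇑(F.f ^ n)) ζ) ≤ 2 * eps := by
    rw [ITR_log_pow hgood, ITR_log_pow hgood, ← Finset.sum_sub_distrib]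
    have hA := Dis_tel_le (fun i => (F.f ^ i) ξ) P.b (fun i => by
      have := F.f_le i hξ (by linarith)
      simpa using this) (fun i => F.f_ge i hξ) n
    have hB := Dis_tel_le (fun i => (F.f ^ i) ζ) P.b (fun i => by
      have := F.f_le i hζ (by linarith)
      simpa using this) (fun i => F.f_ge i hζ) n
    have hC : ∑ i ∈ Finset.range n, (Real.log (deriv (⇑F.f) ((F.f ^ i) ξ)) -
        Real.log (deriv (⇑F.f) ((F.f ^ i) ζ))) ≤
        ∑ i ∈ Finset.range n, eps / (100 * P.r) * (((F.f ^ i) ξ - (F.f ^ (i + 10)) ξ) +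
          ((F.f ^ i) ζ - (F.f ^ (i + 10)) ζ)) := by
      refine Finset.sum_le_sum fun i _ => ?_
      have h3 := hn _ (hin ξ hξ hξ' i) _ (hin ζ hζ hζ' i)
      have h4 := Dis_abs F hξ hξ' hζ hζ' h1 h2 i
      have h5 : 0 ≤ eps / (100 * P.r) := by positivity
      calc Real.log (deriv (⇑F.f) ((F.f ^ i) ξ)) - Real.log (deriv (⇑F.f) ((F.f ^ i) ζ))
          ≤ |Real.log (deriv (⇑F.f) ((F.f ^ i) ξ)) - Real.log (deriv (⇑F.f) ((F.f ^ i) ζ))| :=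
            le_abs_self _
        _ ≤ _ := h3
        _ ≤ _ := mul_le_mul_of_nonneg_left h4 h5
    rw [← Finset.mul_sum, Finset.sum_add_distrib] at hC
    simp only [pow_zero, Equiv.Perm.coe_one, id_eq] at hA hB
    refine hC.trans ?_
    have h5 : 0 ≤ eps / (100 * P.r) := by positivity
    have h6 : eps / (100 * P.r) * (160 * P.r) = 16 / 10 * eps := by
      field_simp
      norm_num
    have h7 := mul_le_mul_of_nonneg_left (show
      (∑ i ∈ Finset.range n, ((F.f ^ i) ξ - (F.f ^ (i + 10)) ξ) +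
        ∑ i ∈ Finset.range n, ((F.f ^ i) ζ - (F.f ^ (i + 10)) ζ)) ≤ 160 * P.r by linarith) h5
    linarith
  have hp1 := (ITR_good_pow hgood n).pos ξ
  have hp2 := (ITR_good_pow hgood n).pos ζ
  have h8 : Real.log (deriv (⇑(F.f ^ n)) ξ) ≤
      Real.log (Real.exp (2 * eps) * deriv (⇑(F.f ^ n)) ζ) := by
    rw [Real.log_mul (Real.exp_pos _).ne' hp2.ne', Real.log_exp]
    linarith
  have h9 := (Real.log_le_log_iff hp1 (mul_pos (Real.exp_pos _) hp2)).1 h8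
  have h10 : Real.exp (2 * eps) ≤ 1001 / 1000 := by
    have e1 := exp_eps.1
    have e2 := Real.exp_pos eps
    rw [two_mul, Real.exp_add]
    have e3 : eps = 1 / 10 ^ 8 := rfl
    have e4 : Real.exp eps ≤ 1 + 1 / 10 ^ 7 := by
      rw [e3] at e1 ⊢
      norm_num at e1 ⊢
      linarith
    calc Real.exp eps * Real.exp eps ≤ (1 + 1 / 10 ^ 7) * (1 + 1 / 10 ^ 7) :=
          mul_le_mul e4 e4 e2.le (by norm_num)
      _ ≤ 1001 / 1000 := by norm_num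
  exact h9.trans (mul_le_mul_of_nonneg_right h10 hp2.le)

theorem Fd.cmp_down (F : Fd P) {x y : Equiv.Perm ℝ} (hx : x ∈ A.G) (hy : y ∈ A.G)
    (hxa : P.b ≤ x P.a) (hya : P.b ≤ y P.a) (hxb : x P.b ≤ P.b + 8 * P.r)
    (hyb : y P.b ≤ P.b + 8 * P.r) (h1 : (F.f ^ 10) (x P.b) ≤ y P.a)
    (h2 : (F.f ^ 10) (y P.b) ≤ x P.a) (n : ℕ) :
    P.rh (F.f ^ n * y) * P.rh x ≤ 1001 / 1000 * (P.rh (F.f ^ n * x) * P.rh y) := by
  have hab := P.gap.1
  have hgood := ITR_good_pow (A.good F.hf.1) n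
  have hx' := (A.good hx).mono hab
  have hy' := (A.good hy).mono hab
  obtain ⟨ξ, hξ, he1⟩ := hgood.mvt hy'
  obtain ⟨ζ, hζ, he2⟩ := hgood.mvt hx'
  have hd : deriv (⇑(F.f ^ n)) ξ ≤ 1001 / 1000 * deriv (⇑(F.f ^ n)) ζ := by
    refine Dis_deriv F (by linarith [hξ.1]) (by linarith [hξ.2]) (by linarith [hζ.1])
      (by linarith [hζ.2]) ?_ ?_ n
    · have := (F.fmono 10) hξ.2
      linarith [hζ.1]
    · have := (F.fmono 10) hζ.2
      linarith [hξ.1]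
  have hx0 : 0 < P.rh x := P.rh_pos hx
  have hy0 : 0 < P.rh y := P.rh_pos hy
  have e1 : P.rh (F.f ^ n * y) = deriv (⇑(F.f ^ n)) ξ * P.rh y := by
    show ((F.f ^ n) (y P.b) - (F.f ^ n) (y P.a)) / (P.b - P.a) =
      deriv (⇑(F.f ^ n)) ξ * ((y P.b - y P.a) / (P.b - P.a))
    rw [he1, mul_div_assoc]
  have e2 : P.rh (F.f ^ n * x) = deriv (⇑(F.f ^ n)) ζ * P.rh x := by
    show ((F.f ^ n) (x P.b) - (F.f ^ n) (x P.a)) / (P.b - P.a) =
      deriv (⇑(F.f ^ n)) ζ * ((x P.b - x P.a) / (P.b - P.a))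
    rw [he2, mul_div_assoc]
  rw [e1, e2]
  have h3 := mul_le_mul_of_nonneg_right hd (mul_pos hx0 hy0).le
  calc deriv (⇑(F.f ^ n)) ξ * P.rh y * P.rh x = deriv (⇑(F.f ^ n)) ξ * (P.rh x * P.rh y) := by ring
    _ ≤ _ := h3
    _ = _ := by ring

end Pool.Agent.H42.EM
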