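/-
PAR : ancestors and the closest ancestor.

PROOFS.
* anc_rho: F.dd with g := rp z, g' := rp y (cost ≤ 101/100 W ≤ 3 W): (rp z) b ≤ (rp y) a < (rp z) (b + r) ≤ (rp z) (b + 7r), so
  z b < (rp y) (a - 7r) and y a - z b ≥ 0.999 * 7 r rh y (aff for rp y), y a - z b < (rp z)(b+r) - (rp z) b ≤ 1.001 r rh z.
* anc_congr: (rp z = rp z' by F.congr, z b = z' b by b_congr.)    anc_congr_left: y a = y' a.
* exists_par: all ancestors z' of y have rh z' ≥ 6 rh y > 0 and y a - 2 ≤ z' a (y a < (rp z')(b+r), (rp z') (b+r) - z' b ≤ 1.001 r ≤ 1,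
  z' b - z' a ≤ 1) and z' a ≤ y a.  The gaps (z' a, z' b) with these properties are finitely many: gap_finset (EM/Fam) gives a finite set
  containing all left endpoints mod ℤ of gaps of length ≥ 6 rh y (b - a), and only finitely many integer translates of a point are in
  [y a - 2, y a].  So z' b takes finitely many values; take the ancestor with z' b maximal.
* par_unique: z b ≤ z' b ≤ z b; equal right endpoints: IsGap.eq_of_right.    par_congr: from anc_congr.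
* let_pos: x := (rp z)⁻¹ * y.  (rp z) b = z b ≤ y a < (rp z) (b + r): apply (rp z)⁻¹: b ≤ x a < b + r; b < x a by lt_of_le (1, x).
  x b - x a = rh x (b - a) ≤ eps r.  E: y = rp z * x, E_comp with κ = 101/100 W: 101/100 * 101/100 ≤ 103/100.
* let_C: (rp z) * ((rp z)⁻¹ * rp y) = rp y, Gp.back: 101/100 W + 101/100 * 1 * 101/100 W ≤ 21/10 W (rh ≤ 1).
* anc_one: anc_rho gives rh z ≥ 6 rh 1 = 6 > 1.
* let_rho: rho_eps: x b ≤ b + 2 r, x a - b ≤ r.
-/
import Pool.Agent.H42.EZ.Emv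

set_option autoImplicit false

namespace Pool.Agent.H42.EM

open Set

variable {A : Sys} {P : Gp A}

private lemma Par_W (P : Gp A) : 0 < P.W := lt_of_lt_of_le (by norm_num) P.hW

private lemma Par_ctl (F : Fd P) {z : Equiv.Perm ℝ} (hz : z ∈ A.G) :
    Ctl P.a P.b P.r (F.rp z) :=
  P.ctl_of (F.cst z hz) (by linarith [Par_W P])

private lemma Par_rh (F : Fd P) {z : Equiv.Perm ℝ} (hz : z ∈ A.G) : P.rh (F.rp z) = P.rh z :=
  P.rh_congr (F.ha z hz) (F.hb z hz)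

lemma Fd.anc_rho (F : Fd P) {y z : Equiv.Perm ℝ} (hy : y ∈ A.G) (h : F.Anc y z) :
    6 * P.rh y ≤ P.rh z := by
  obtain ⟨hz, h1, h2⟩ := h
  have hr := P.hr
  have hab := P.ab
  have hW := Par_W P
  have hmz := (A.good (F.mem z hz)).mono
  have h3 : F.rp z (P.b + P.r) < F.rp z (P.b + 7 * P.r) := hmz (by linarith)
  have h4 := F.dd (F.rp z) (F.mem z hz) (F.rp y) (F.mem y hy)
    ((F.cst z hz).mono (by linarith)) ((F.cst y hy).mono (by linarith))
    (by rw [F.hb z hz, F.ha y hy]; exact h1) (by rw [F.ha y hy]; linarith)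
  have h5 := (P.aff (F.mem y hy) (Par_ctl F hy) (u := P.a - 7 * P.r) (v := P.a)
    (by linarith) (by linarith) (by linarith)).1
  have h6 := (P.aff (F.mem z hz) (Par_ctl F hz) (u := P.b) (v := P.b + P.r)
    (by linarith) (by linarith) (by linarith)).2
  rw [Par_rh F hy] at h5
  rw [Par_rh F hz] at h6
  rw [F.ha y hy] at h5
  have h7 : 6993 / 1000 * P.rh y * P.r ≤ 1001 / 1000 * P.rh z * P.r := by linarith
  have h8 := le_of_mul_le_mul_right h7 hr
  have h9 := P.rh_pos hy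
  linarith

lemma Fd.anc_congr (F : Fd P) {y z z' : Equiv.Perm ℝ} (hz' : z' ∈ A.G) (e : z P.a = z' P.a)
    (h : F.Anc y z) : F.Anc y z' := by
  obtain ⟨hz, h1, h2⟩ := h
  have eb : z P.b = z' P.b := by
    have := P.b_congr hz hz' (k := 0) (by simpa using e)
    simpa using this
  refine ⟨hz', by rw [← eb]; exact h1, ?_⟩
  rw [← F.congr z hz z' hz' e]
  exact h2

lemma Fd.par_congr (F : Fd P) {y z z' : Equiv.Perm ℝ} (hz' : z' ∈ A.G) (e : z P.a = z' P.a)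
    (h : F.Par y z) : F.Par y z' := by
  have eb : z P.b = z' P.b := by
    have := P.b_congr h.1.1 hz' (k := 0) (by simpa using e)
    simpa using this
  refine ⟨F.anc_congr hz' e h.1, fun z'' h'' => ?_⟩
  rw [← eb]
  exact h.2 z'' h''

theorem Fd.exists_par (F : Fd P) {y : Equiv.Perm ℝ} (hy : y ∈ A.G) (h : ∃ z, F.Anc y z) :
    ∃ z, F.Par y z := by
  have hr := P.hr
  have hr1 := P.hr1
  have hab := P.ab
  have hba : 0 < P.b - P.a := by linarith
  have hη : 0 < 6 * P.rh y * (P.b - P.a) := by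
    have := P.rh_pos hy
    positivity
  obtain ⟨Q, -, hQ⟩ := gap_finset A hη
  have hfin : {t | ∃ z, F.Anc y z ∧ z P.a = t}.Finite := by
    refine (Q.finite_toSet.biUnion (t := fun q => (fun k : ℤ => q + (k : ℝ)) ''
      Set.Icc ⌊y P.a - 2 - q⌋ ⌈y P.a - q⌉) fun q _ => (Set.finite_Icc _ _).image _).subset ?_
    rintro t ⟨z, hz, rfl⟩
    have hrho := F.anc_rho hy hz
    obtain ⟨hzG, h1, h2⟩ := hz
    have g1 := P.gap.image A hzG
    have hlen : 6 * P.rh y * (P.b - P.a) ≤ z P.b - z P.a := by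
      rw [P.rh_mul z]
      exact mul_le_mul_of_nonneg_right hrho hba.le
    obtain ⟨q, hq, k, hk⟩ := hQ _ _ g1 hlen
    have h3 : z P.a < z P.b := g1.1
    have h4 := g1.len_le_one A
    have h5 := (P.aff (F.mem z hzG) (Par_ctl F hzG) (u := P.b) (v := P.b + P.r)
      (by linarith) (by linarith) (by linarith)).2
    rw [Par_rh F hzG, F.hb z hzG] at h5
    have h6 := P.rh_le hzG
    have h7 : P.rh z * P.r ≤ 1 * P.r := mul_le_mul_of_nonneg_right h6 hr.le
    simp only [Set.mem_iUnion, Set.mem_image, Set.mem_Icc]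
    refine ⟨q, hq, k, ⟨?_, ?_⟩, hk.symm⟩
    · have h8 : y P.a - 2 - q ≤ (k : ℝ) := by linarith
      exact_mod_cast (Int.floor_le _).trans h8
    · have h8 : (k : ℝ) ≤ y P.a - q := by linarith
      exact_mod_cast h8.trans (Int.le_ceil _)
  obtain ⟨t, ⟨z, hz, hzt⟩, hmax⟩ := Set.exists_max_image _ id hfin
    (by obtain ⟨z, hz⟩ := h; exact ⟨z P.a, z, hz, rfl⟩)
  refine ⟨z, hz, fun z' hz' => ?_⟩
  have h1 : z' P.a ≤ z P.a := by
    have := hmax (z' P.a) ⟨z', hz', rfl⟩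
    rw [id, id, ← hzt] at this
    exact this
  have h2 : z P.a < z P.b := (A.good hz.1).mono hab
  rcases P.sep_or hz'.1 hz.1 with h3 | h3 | h3
  · exact h3.2.le
  · linarith
  · have h4 : z' P.a < z' P.b := (A.good hz'.1).mono hab
    linarith

lemma Fd.par_unique (F : Fd P) {y z z' : Equiv.Perm ℝ} (h : F.Par y z) (h' : F.Par y z') :
    z P.a = z' P.a := by
  have e : z P.b = z' P.b := le_antisymm (h'.2 z h.1) (h.2 z' h'.1)
  have g1 := P.gap.image A h.1.1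
  have g2 := P.gap.image A h'.1.1
  rw [← e] at g2
  exact g1.eq_of_right g2

lemma Fd.let_pos (F : Fd P) {y z : Equiv.Perm ℝ} (hy : y ∈ A.G) (h : F.Anc y z) :
    (F.rp z)⁻¹ * y ∈ A.G ∧ P.b < ((F.rp z)⁻¹ * y) P.a ∧ ((F.rp z)⁻¹ * y) P.a < P.b + P.r ∧
      ((F.rp z)⁻¹ * y) P.b ≤ P.b + 2 * P.r ∧
      |P.E y - P.E ((F.rp z)⁻¹ * y)| ≤ 103 / 100 * P.rh ((F.rp z)⁻¹ * y) := by
  obtain ⟨hz, h1, h2⟩ := h
  have hr := P.hr
  have hab := P.ab
  have hW := Par_W P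
  have hx : (F.rp z)⁻¹ * y ∈ A.G := mul_mem (inv_mem (F.mem z hz)) hy
  have hmz := (A.good (F.mem z hz)).mono
  have e : F.rp z * ((F.rp z)⁻¹ * y) = y := mul_inv_cancel_left _ _
  have ea : F.rp z (((F.rp z)⁻¹ * y) P.a) = y P.a := by
    rw [← Equiv.Perm.mul_apply, e]
  have h3 : P.b ≤ ((F.rp z)⁻¹ * y) P.a := by
    rw [← hmz.le_iff_le, ea, F.hb z hz]
    exact h1
  have h4 : P.b < ((F.rp z)⁻¹ * y) P.a := P.lt_of_le (g := 1) (one_mem _) hx h3
  have h5 : ((F.rp z)⁻¹ * y) P.a < P.b + P.r := by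
    rw [← hmz.lt_iff_lt, ea]
    exact h2
  have h6 : ((F.rp z)⁻¹ * y) P.b ≤ P.b + 2 * P.r := by
    have h7 := P.rh_mul ((F.rp z)⁻¹ * y)
    have h8 := P.rh_le hx
    have h9 : P.rh ((F.rp z)⁻¹ * y) * (P.b - P.a) ≤ 1 * (P.b - P.a) :=
      mul_le_mul_of_nonneg_right h8 (by linarith)
    have h10 := P.hJ
    have h11 : eps * P.r ≤ P.r := by
      have : eps ≤ 1 := by unfold eps; norm_num
      nlinarith
    linarith
  refine ⟨hx, h4, h5, h6, ?_⟩
  have h7 := P.E_comp (F.cst z hz) (by linarith) hx (by linarith) (by linarith)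
  rw [e] at h7
  refine h7.trans ?_
  rw [div_le_iff₀ hW]
  have h8 := P.rh_pos hx
  have h9 : 0 ≤ P.rh ((F.rp z)⁻¹ * y) * P.W := by positivity
  linarith

lemma Fd.let_C (F : Fd P) {z u : Equiv.Perm ℝ} (hz : z ∈ A.G) (hu : u ∈ A.G)
    (h1 : P.a - 39 * P.r ≤ ((F.rp z)⁻¹ * u) P.a) (h2 : ((F.rp z)⁻¹ * u) P.b ≤ P.b + 39 * P.r) :
    P.C ((F.rp z)⁻¹ * F.rp u) (21 / 10 * P.W) := by
  have hW := Par_W P
  have hx : (F.rp z)⁻¹ * F.rp u ∈ A.G := mul_mem (inv_mem (F.mem z hz)) (F.mem u hu)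
  have ea : ((F.rp z)⁻¹ * F.rp u) P.a = ((F.rp z)⁻¹ * u) P.a := by
    rw [Equiv.Perm.mul_apply, Equiv.Perm.mul_apply, F.ha u hu]
  have eb : ((F.rp z)⁻¹ * F.rp u) P.b = ((F.rp z)⁻¹ * u) P.b := by
    rw [Equiv.Perm.mul_apply, Equiv.Perm.mul_apply, F.hb u hu]
  have h3 := P.back (x := (F.rp z)⁻¹ * F.rp u) (F.cst z hz) (by linarith)
    (by rw [mul_inv_cancel_left]; exact F.cst u hu) (by rw [ea]; exact h1) (by rw [eb]; exact h2)
  refine h3.mono ?_
  have h4 := P.rh_le hx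
  have h5 : P.rh ((F.rp z)⁻¹ * F.rp u) * P.W ≤ 1 * P.W := mul_le_mul_of_nonneg_right h4 hW.le
  linarith

lemma Fd.anc_one (F : Fd P) (z : Equiv.Perm ℝ) : ¬ F.Anc 1 z := by
  intro h
  have h1 := F.anc_rho (one_mem _) h
  have h2 := P.rh_le h.1
  rw [P.rh_one] at h1
  linarith

lemma Fd.let_rho (F : Fd P) {y z : Equiv.Perm ℝ} (hy : y ∈ A.G) (h : F.Anc y z) :
    P.rh ((F.rp z)⁻¹ * y) ≤ eps := by
  obtain ⟨hx, h1, h2, h3, -⟩ := F.let_pos hy h
  have hr := P.hr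
  have h4 := F.rho_eps hx h1.le (by linarith)
  have h5 := P.rh_pos hx
  have he := eps_pos
  have h6 : 3 * P.rh ((F.rp z)⁻¹ * y) * P.r ≤ eps * P.r := by
    refine h4.trans (mul_le_mul_of_nonneg_left (by linarith) he.le)
  have h7 := le_of_mul_le_mul_right h6 hr
  linarith

end Pool.Agent.H42.EM
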