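/-
PRM : primitive letters.

PROOFS.
* Prim.mono: rp u is increasing.
* par_prim: x := (rp z)⁻¹ * y; membership, b < x a < b + 2r: let_pos.  Let u ∈ G, b ≤ u a, u b ≤ x a and suppose
  x a < rp u (b + 99/100 r).  u' := rp z * u ∈ G, u' b ≤ y a (apply rp z; rp z (x a) = y a), z b ≤ u' a.  λ := (rp u')⁻¹ * (rp z * rp u)
  is a loop: rp z * rp u has cost ≤ 101/100 W + 101/100 * 1 * 101/100 W (Gp.comp), loop_of: λ is Lop (4 W).
  λ (b + 99/100 r) ≤ b + 99/100 r + 2 eps r < b + r (Lop.disp).  So y a = rp z (x a) < rp z (rp u (b + 99/100 r)) = rp u' (λ (b + 99/100 r))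
  < rp u' (b + r), i.e. Anc y u', so u' b ≤ z b by maximality, but z b ≤ u' a < u' b.  Contradiction.
* prim_f: o := f^n * x: b < o a ≤ x a < b + 2r (f_gt, f_le).  u ∈ G, b ≤ u a, u b ≤ o a: u' := (f^n)⁻¹ * u: b ≤ u' a (finv_ge), u' b ≤ x a.
  Prim: rp u' (b + θ r) ≤ x a, so (f^n) (rp u' (b + θ r)) ≤ o a.  omega for u' (f^n * u' = u; u' b < b + 2r): ω := (rp u)⁻¹ * (f^n * rp u')
  is a loop of cost ≤ 5 W, and rp u (ω (b + θ r)) ≤ o a, ω (b + θ r) ≥ b + θ r - 2 eps θ r ≥ b + (θ - 1/100) r.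
* prim_finv: o := (f^n)⁻¹ * x, given o a < b + 2r.  u ∈ G, b ≤ u a, u b ≤ o a: u' := f^n * u, b ≤ u' a, u' b ≤ x a, rp u' (b + θ r) ≤ x a,
  (f^n)⁻¹ (rp u' (b + θ r)) ≤ o a.  ω := (rp u')⁻¹ * (f^n * rp u) (omega for u), (f^n)⁻¹ * rp u' = rp u * ω⁻¹, ω⁻¹ is a loop (Lop.inv).
-/
import Pool.Agent.H42.EZ.Par

set_option autoImplicit false

namespace Pool.Agent.H42.EM

open Set

variable {A : Sys} {P : Gp A}

lemma Fd.Prim.mono {F : Fd P} {θ θ' : ℝ} {o : Equiv.Perm ℝ} (h : F.Prim θ o) (hθ : θ' ≤ θ) :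
    F.Prim θ' o := by
  obtain ⟨h1, h2, h3, h4⟩ := h
  refine ⟨h1, h2, h3, fun u hu hu1 hu2 => le_trans ?_ (h4 u hu hu1 hu2)⟩
  refine (A.good (F.mem u hu)).mono.monotone ?_
  have := mul_le_mul_of_nonneg_right hθ P.hr.le
  linarith

theorem Fd.par_prim (F : Fd P) {y z : Equiv.Perm ℝ} (hy : y ∈ A.G) (h : F.Par y z) :
    F.Prim (99 / 100) ((F.rp z)⁻¹ * y) := by
  obtain ⟨hx, h1, h2, h3, -⟩ := F.let_pos hy h.1
  have hr := P.hr
  have hr1 := P.hr1
  have hW := P.hW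
  have hab := P.ab
  have hz : z ∈ A.G := h.1.1
  refine ⟨hx, h1, by linarith, fun u hu hu1 hu2 => ?_⟩
  by_contra hcon
  rw [not_le] at hcon
  have hmz := (A.good (F.mem z hz)).mono
  have ea : F.rp z (((F.rp z)⁻¹ * y) P.a) = y P.a := by
    rw [← Equiv.Perm.mul_apply, mul_inv_cancel_left]
  have hu' : F.rp z * u ∈ A.G := mul_mem (F.mem z hz) hu
  have hm' := (A.good (F.mem (F.rp z * u) hu')).mono
  have huab : u P.a < u P.b := (A.good hu).mono hab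
  have e1 : (F.rp z * u) P.b ≤ y P.a := by
    rw [← ea, Equiv.Perm.mul_apply]
    exact hmz.monotone hu2
  have e2 : z P.b ≤ (F.rp z * u) P.a := by
    rw [← F.hb z hz, Equiv.Perm.mul_apply]
    exact hmz.monotone hu1
  have e3 : (F.rp z * u) P.a < (F.rp z * u) P.b := (A.good hu').mono hab
  -- the loop
  have c1 : P.C (F.rp z * F.rp u) (3 * P.W) := by
    refine Sys.Cst.mono (P.comp (F.cst z hz) (by linarith) (F.cst u hu) ?_ ?_) ?_
    · rw [F.ha u hu]; linarith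
    · rw [F.hb u hu]; linarith
    · have h4 := P.rh_le (F.mem u hu)
      have h5 : P.rh (F.rp u) * P.W ≤ 1 * P.W :=
        mul_le_mul_of_nonneg_right h4 (by linarith)
      linarith
  have hl := F.toRp.loop_of (u := F.rp z * u) c1 hu' (by
    rw [Equiv.Perm.mul_apply, Equiv.Perm.mul_apply, F.ha u hu])
  have hd := hl.disp (u := P.b + 99 / 100 * P.r) (by linarith) (by linarith) (by linarith)
  have hd2 := (abs_le.1 hd).2
  have hd3 : ((F.rp (F.rp z * u))⁻¹ * (F.rp z * F.rp u)) (P.b + 99 / 100 * P.r) < P.b + P.r := by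
    have h6 : 2 * eps * (P.b + 99 / 100 * P.r - P.b) ≤ 1 / 1000 * P.r := by
      unfold eps
      linarith
    linarith
  have e4 : F.rp (F.rp z * u) (((F.rp (F.rp z * u))⁻¹ * (F.rp z * F.rp u)) (P.b + 99 / 100 * P.r)) =
      F.rp z (F.rp u (P.b + 99 / 100 * P.r)) := by
    rw [← Equiv.Perm.mul_apply, mul_inv_cancel_left, Equiv.Perm.mul_apply]
  have e5 := hm' hd3
  rw [e4] at e5
  have e6 := hmz hcon
  rw [ea] at e6
  have hanc : F.Anc y (F.rp z * u) := ⟨hu', e1, e6.trans e5⟩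
  have := h.2 _ hanc
  linarith

theorem Fd.prim_f (F : Fd P) {θ : ℝ} {x : Equiv.Perm ℝ} (h : F.Prim θ x) (h1 : 1 / 2 ≤ θ)
    (h2 : θ ≤ 1) (n : ℕ) : F.Prim (θ - 1 / 100) (F.f ^ n * x) := by
  obtain ⟨hx, hx1, hx2, hx3⟩ := h
  have hr := P.hr
  have hr1 := P.hr1
  have hW := P.hW
  have hab := P.ab
  have hv := F.hv1
  have hle : (F.f ^ n) (x P.a) ≤ x P.a := F.f_le n hx1.le (by linarith)
  refine ⟨mul_mem (F.fG n) hx, ?_, ?_, fun u hu hu1 hu2 => ?_⟩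
  · rw [Equiv.Perm.mul_apply]
    exact F.f_gt n hx1
  · rw [Equiv.Perm.mul_apply]
    linarith
  · rw [Equiv.Perm.mul_apply] at hu2 ⊢
    have hu' : (F.f ^ n)⁻¹ * u ∈ A.G := mul_mem (inv_mem (F.fG n)) hu
    have g1 : P.b ≤ ((F.f ^ n)⁻¹ * u) P.a := by
      rw [Equiv.Perm.mul_apply]
      exact F.finv_ge n hu1
    have g2 : ((F.f ^ n)⁻¹ * u) P.b ≤ x P.a := by
      rw [← (F.fmono n).le_iff_le, ← Equiv.Perm.mul_apply, mul_inv_cancel_left]
      exact hu2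
    have g3 := hx3 _ hu' g1 g2
    have g4 := (F.fmono n).monotone g3
    have om := F.omega hu' g1 (by linarith) n
    rw [mul_inv_cancel_left] at om
    have hθr : 1 / 2 * P.r ≤ θ * P.r := mul_le_mul_of_nonneg_right h1 hr.le
    have hθr2 : θ * P.r ≤ 1 * P.r := mul_le_mul_of_nonneg_right h2 hr.le
    have hd := om.disp (u := P.b + θ * P.r) (by linarith) (by linarith) (by linarith)
    have hd2 := (abs_le.1 hd).1
    have hd3 : P.b + (θ - 1 / 100) * P.r ≤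
        ((F.rp u)⁻¹ * (F.f ^ n * F.rp ((F.f ^ n)⁻¹ * u))) (P.b + θ * P.r) := by
      have h6 : 2 * eps * (P.b + θ * P.r - P.b) ≤ 1 / 1000 * P.r := by
        unfold eps
        linarith
      linarith
    have e5 := (A.good (F.mem u hu)).mono.monotone hd3
    have e4 : F.rp u (((F.rp u)⁻¹ * (F.f ^ n * F.rp ((F.f ^ n)⁻¹ * u))) (P.b + θ * P.r)) =
        (F.f ^ n) (F.rp ((F.f ^ n)⁻¹ * u) (P.b + θ * P.r)) := by
      rw [← Equiv.Perm.mul_apply, mul_inv_cancel_left, Equiv.Perm.mul_apply]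
    rw [e4] at e5
    exact e5.trans g4

theorem Fd.prim_finv (F : Fd P) {θ : ℝ} {x : Equiv.Perm ℝ} (h : F.Prim θ x) (h1 : 1 / 2 ≤ θ)
    (h2 : θ ≤ 1) {n : ℕ} (hn : ((F.f ^ n)⁻¹ * x) P.a < P.b + 2 * P.r) :
    F.Prim (θ - 1 / 100) ((F.f ^ n)⁻¹ * x) := by
  obtain ⟨hx, hx1, hx2, hx3⟩ := h
  have hr := P.hr
  have hr1 := P.hr1
  have hW := P.hW
  have hab := P.ab
  have hv := F.hv1
  refine ⟨mul_mem (inv_mem (F.fG n)) hx, ?_, hn, fun u hu hu1 hu2 => ?_⟩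
  · rw [Equiv.Perm.mul_apply]
    exact F.finv_gt n hx1
  · have hu' : F.f ^ n * u ∈ A.G := mul_mem (F.fG n) hu
    have g1 : P.b ≤ (F.f ^ n * u) P.a := by
      rw [Equiv.Perm.mul_apply]
      exact F.f_ge n hu1
    have g2 : (F.f ^ n * u) P.b ≤ x P.a := by
      have e := (F.fmono n).monotone hu2
      rwa [← Equiv.Perm.mul_apply, ← Equiv.Perm.mul_apply, mul_inv_cancel_left] at e
    have g3 := hx3 _ hu' g1 g2
    have om := (F.omega hu hu1 (by linarith) n).inv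
    have hθr : 1 / 2 * P.r ≤ θ * P.r := mul_le_mul_of_nonneg_right h1 hr.le
    have hθr2 : θ * P.r ≤ 1 * P.r := mul_le_mul_of_nonneg_right h2 hr.le
    have hd := om.disp (u := P.b + θ * P.r) (by linarith) (by linarith) (by linarith)
    have hd2 := (abs_le.1 hd).1
    have hd3 : P.b + (θ - 1 / 100) * P.r ≤
        ((F.rp (F.f ^ n * u))⁻¹ * (F.f ^ n * F.rp u))⁻¹ (P.b + θ * P.r) := by
      have h6 : 2 * eps * (P.b + θ * P.r - P.b) ≤ 1 / 1000 * P.r := by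
        unfold eps
        linarith
      linarith
    have e5 := (A.good (mul_mem (F.fG n) (F.mem u hu))).mono.monotone hd3
    have e4 : (F.f ^ n * F.rp u) (((F.rp (F.f ^ n * u))⁻¹ * (F.f ^ n * F.rp u))⁻¹
        (P.b + θ * P.r)) = F.rp (F.f ^ n * u) (P.b + θ * P.r) := by
      rw [mul_inv_rev, inv_inv, ← Equiv.Perm.mul_apply, mul_inv_cancel_left]
    rw [e4, Equiv.Perm.mul_apply] at e5
    have e6 := e5.trans g3
    have e7 : (F.f ^ n) (((F.f ^ n)⁻¹ * x) P.a) = x P.a := by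
      rw [← Equiv.Perm.mul_apply, mul_inv_cancel_left]
    rw [← (F.fmono n).le_iff_le, e7]
    exact e6

end Pool.Agent.H42.EM
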