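/-
PRK : images of primitive letters under powers of a loop k.

PROOFS.
* lop_pow: induction: (1 - 2 eps)^m (t - b) ≤ k^m t - b ≤ (1 + 2 eps)^m (t - b) as long as the points stay below b + 40 r (Lop.disp), and
  (1 + 2 eps)^10000 ≤ 1 + 3/10000 etc. (e.g. show by induction for m ≤ 10000: |(k^m) t - t| ≤ 3 eps m (t - b)).
* prim_k: o' := k^m * o.  b < o' a (k fixes b, increasing) and o' a < b + 2r by lop_pow.  Let u ∈ G, b ≤ u a, u b ≤ o' a, u' := (k^m)⁻¹ * u:
  b ≤ u' a, u' b ≤ o a.  Prim: rp u' (b + θ r) ≤ o a, hence (k^m) (rp u' (b + θ r)) ≤ o' a.  ω := (rp u)⁻¹ * (k^m * rp u'), fixes a and b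
  (k^m * u' = u).  Claim: ω (b + θ r) ≥ b + (θ - 1/20) r.  Then rp u (b + (θ - 1/20) r) ≤ rp u (ω (b + θ r)) ≤ o' a, as wanted.
  (a) k (u' a) = u' a.  Then k fixes u' a and u' b (b_congr), u a = u' a, rp u = rp u' (F.congr).  λ := (rp u')⁻¹ * (k * rp u'):
   k * rp u' has cost ≤ 101/100 W + 101/100 * rh u' * 50 W (Gp.comp), rh u' ≤ 1/3 (rho_le, u' a - b ≤ 2r), loop_of: λ is Lop (20 W), and
   ω = λ^m (conjugation of a power).  lop_pow for λ.
  (b) k (u' a) ≠ u' a.  All u_i := k^i * u', i ≤ m, are moved by k (k^i is injective), their positions are in (b, b + 2r] (between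
   ... u_i b ≤ (k^i o) a, lop_pow), and rh u_i ≤ eps (rho_mov: 3 rh r ≤ eps * 2 r).  k^m * rp u' has cost ≤ 101/100 W + m * 101/100 eps * 50 W
   ≤ 102/100 W (induction, Gp.comp with g := k, x := k^i * rp u'), so ω is Lop (3 W) (loop_of) and |ω t - t| ≤ 2 eps (t - b).
-/
import Pool.Agent.H42.EZ.Prm

set_option autoImplicit false

namespace Pool.Agent.H42.EM

open Set

variable {A : Sys} {P : Gp A}

lemma Prk_fb {k : Equiv.Perm ℝ} {κ : ℝ} (hk : P.Lop k κ) (n : ℕ) : (k ^ n) P.b = P.b := by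
  induction n with
  | zero => rfl
  | succ n ih => rw [ITR_pow_succ_apply, hk.2.2.1, ih]

lemma Prk_mono {k : Equiv.Perm ℝ} {κ : ℝ} (hk : P.Lop k κ) (n : ℕ) : StrictMono (⇑(k ^ n)) :=
  (A.good (Subgroup.pow_mem _ hk.1 n)).mono

lemma Prk_ge {k : Equiv.Perm ℝ} {κ : ℝ} (hk : P.Lop k κ) (n : ℕ) {t : ℝ} (h : P.b ≤ t) :
    P.b ≤ (k ^ n) t := by
  have h1 := (Prk_mono hk n).monotone h
  rwa [Prk_fb hk n] at h1

lemma Prk_pow {k : Equiv.Perm ℝ} {κ : ℝ} (hk : P.Lop k κ) (hκ : κ ≤ 100 * P.W) {t : ℝ}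
    (h1 : P.b ≤ t) (h2 : t ≤ P.b + 20 * P.r) (m : ℕ) (hm : m ≤ 10000) :
    |(k ^ m) t - t| ≤ 3 / 10 ^ 8 * m * (t - P.b) := by
  have hr := P.hr
  induction m with
  | zero => simp
  | succ m ih =>
    have h3 := ih (by omega)
    have hm' : (m : ℝ) ≤ 10000 := by
      have : m ≤ 10000 := by omega
      exact_mod_cast this
    have h4 : 3 / 10 ^ 8 * (m : ℝ) * (t - P.b) ≤ 1 / 1000 * (t - P.b) := by
      refine mul_le_mul_of_nonneg_right ?_ (by linarith)
      linarith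
    have h5 := abs_le.1 h3
    have h6 := Prk_ge hk m h1
    have h7 : (k ^ m) t ≤ P.b + 40 * P.r := by linarith [h5.2]
    have h8 := hk.disp hκ h6 h7
    have hs : (k ^ (m + 1)) t = k ((k ^ m) t) := by
      rw [pow_succ', Equiv.Perm.mul_apply]
    have h9 : 2 * eps * ((k ^ m) t - P.b) ≤ 3 / 10 ^ 8 * (t - P.b) := by
      unfold eps
      linarith [h5.2]
    rw [hs]
    have h10 := abs_sub_le (k ((k ^ m) t)) ((k ^ m) t) t
    have h11 : 3 / 10 ^ 8 * ((m + 1 : ℕ) : ℝ) * (t - P.b) =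
        3 / 10 ^ 8 * (m : ℝ) * (t - P.b) + 3 / 10 ^ 8 * (t - P.b) := by
      rw [Nat.cast_add, Nat.cast_one]
      ring
    rw [h11]
    linarith

lemma Gp.lop_pow {k : Equiv.Perm ℝ} {κ : ℝ} (hk : P.Lop k κ) (hκ : κ ≤ 100 * P.W) {t : ℝ}
    (h1 : P.b ≤ t) (h2 : t ≤ P.b + 20 * P.r) {m : ℕ} (hm : m ≤ 10000) :
    |(k ^ m) t - t| ≤ 1 / 1000 * (t - P.b) := by
  refine (Prk_pow hk hκ h1 h2 m hm).trans (mul_le_mul_of_nonneg_right ?_ (by linarith))
  have hm' : (m : ℝ) ≤ 10000 := by exact_mod_cast hm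
  linarith

lemma Prk_conj (g k : Equiv.Perm ℝ) (m : ℕ) : (g⁻¹ * (k * g)) ^ m = g⁻¹ * (k ^ m * g) := by
  induction m with
  | zero => simp
  | succ m ih =>
    rw [pow_succ', ih, pow_succ']
    group

lemma Prk_cost (F : Fd P) {k u : Equiv.Perm ℝ} (hk : P.Lop k (50 * P.W)) (hu : u ∈ A.G)
    {m : ℕ} (hpos : ∀ i, i ≤ m → P.b ≤ (k ^ i * u) P.a ∧ (k ^ i * u) P.b ≤ P.b + 39 * P.r ∧
      P.rh (k ^ i * u) ≤ eps) (i : ℕ) (hi : i ≤ m) :
    P.C (k ^ i * F.rp u) (101 / 100 * P.W + i * (101 / 100 * eps * (50 * P.W))) := by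
  have hW := P.hW
  have hr := P.hr
  have hab := P.ab
  induction i with
  | zero =>
    have := F.cst u hu
    simpa using this
  | succ i ih =>
    have h3 := ih (by omega)
    obtain ⟨p1, p2, p3⟩ := hpos i (by omega)
    have ea : (k ^ i * F.rp u) P.a = (k ^ i * u) P.a := by
      rw [Equiv.Perm.mul_apply, Equiv.Perm.mul_apply, F.ha u hu]
    have eb : (k ^ i * F.rp u) P.b = (k ^ i * u) P.b := by
      rw [Equiv.Perm.mul_apply, Equiv.Perm.mul_apply, F.hb u hu]
    have h4 := P.comp hk.2.2.2 (by linarith) h3 (by rw [ea]; linarith) (by rw [eb]; linarith)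
    rw [P.rh_congr ea eb] at h4
    have e : k ^ (i + 1) * F.rp u = k * (k ^ i * F.rp u) := by
      rw [pow_succ', mul_assoc]
    rw [e]
    refine h4.mono ?_
    have h5 : P.rh (k ^ i * u) * (50 * P.W) ≤ eps * (50 * P.W) :=
      mul_le_mul_of_nonneg_right p3 (by linarith)
    push_cast
    linarith

lemma Prk_omega (F : Fd P) {k u u' : Equiv.Perm ℝ} (hk : P.Lop k (50 * P.W)) {m : ℕ}
    (hm : m ≤ 10000) (hu' : u' ∈ A.G) (e : u = k ^ m * u') (h1 : P.b ≤ u' P.a)
    (h2 : u' P.b ≤ P.b + 3 / 2 * P.r) {t : ℝ} (ht1 : P.b ≤ t) (ht2 : t ≤ P.b + P.r) :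
    t - 1 / 20 * P.r ≤ ((F.rp u)⁻¹ * (k ^ m * F.rp u')) t := by
  have hW := P.hW
  have hr := P.hr
  have hab := P.ab
  have hu : u ∈ A.G := by
    rw [e]
    exact mul_mem (pow_mem hk.1 m) hu'
  have hlt : u' P.a < u' P.b := (A.good hu').mono hab
  have eau : u P.a = (k ^ m) (u' P.a) := by rw [e, Equiv.Perm.mul_apply]
  by_cases hfix : k (u' P.a) = u' P.a
  · -- the letter is fixed by `k`
    have hfm : ∀ i : ℕ, (k ^ i) (u' P.a) = u' P.a := by
      intro i
      induction i with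
      | zero => rfl
      | succ i ih => rw [ITR_pow_succ_apply, hfix, ih]
    have hrp : F.rp u = F.rp u' := F.congr u hu u' hu' (by rw [eau, hfm])
    have ea : F.rp u' P.a = u' P.a := F.ha u' hu'
    have eb : F.rp u' P.b = u' P.b := F.hb u' hu'
    have h3 := P.comp hk.2.2.2 (by linarith) (F.cst u' hu') (by rw [ea]; linarith)
      (by rw [eb]; linarith)
    rw [P.rh_congr ea eb] at h3
    have h4 := F.rho_le hu' h1 (by linarith)
    have h5 : P.rh u' ≤ 1 / 3 := by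
      by_contra hcon
      push Not at hcon
      have h6 : 1 / 3 * P.r < P.rh u' * P.r := mul_lt_mul_of_pos_right hcon hr
      linarith
    have h6 : P.rh u' * (50 * P.W) ≤ 1 / 3 * (50 * P.W) :=
      mul_le_mul_of_nonneg_right h5 (by linarith)
    have h7 : P.C (k * F.rp u') (19 * P.W) := h3.mono (by linarith)
    have h8 := F.toRp.loop_of (u := u') h7 hu' (by rw [Equiv.Perm.mul_apply, ea, hfix])
    have h9 := Gp.lop_pow h8 (by linarith) ht1 (by linarith) hm
    rw [Prk_conj] at h9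
    rw [hrp]
    have h10 := (abs_le.1 h9).1
    linarith
  · -- the letter is moved by `k`
    have hpos : ∀ i, i ≤ m → P.b ≤ (k ^ i * u') P.a ∧ (k ^ i * u') P.b ≤ P.b + 39 * P.r ∧
        P.rh (k ^ i * u') ≤ eps := by
      intro i hi
      have p1 : P.b ≤ (k ^ i * u') P.a := by
        rw [Equiv.Perm.mul_apply]
        exact Prk_ge hk i h1
      have p2 : (k ^ i * u') P.b ≤ P.b + 2 * P.r := by
        rw [Equiv.Perm.mul_apply]
        have h3 := Gp.lop_pow hk (by linarith) (t := u' P.b) (by linarith) (by linarith)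
          (m := i) (by omega)
        have h4 := (abs_le.1 h3).2
        linarith
      have hG : k ^ i * u' ∈ A.G := mul_mem (pow_mem hk.1 i) hu'
      have p3 : k ((k ^ i * u') P.a) ≠ (k ^ i * u') P.a := by
        rw [Equiv.Perm.mul_apply]
        intro h3
        have h4 : k ((k ^ i) (u' P.a)) = (k ^ i) (k (u' P.a)) := by
          have h5 : k * k ^ i = k ^ i * k := by rw [← pow_succ, ← pow_succ']
          have h6 := congrArg (fun g : Equiv.Perm ℝ => g (u' P.a)) h5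
          simpa only [Equiv.Perm.mul_apply] using h6
        rw [h4] at h3
        exact hfix ((k ^ i).injective h3)
      have h5 := F.rho_mov hk (by linarith) hG p1 (by linarith) p3
      have h6 : (k ^ i * u') P.a < (k ^ i * u') P.b := (A.good hG).mono hab
      refine ⟨p1, by linarith, ?_⟩
      have he := eps_pos
      have h7 : eps * ((k ^ i * u') P.a - P.b) ≤ eps * (2 * P.r) :=
        mul_le_mul_of_nonneg_left (by linarith) he.le
      by_contra hcon
      push Not at hcon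
      have h8 : eps * P.r < P.rh (k ^ i * u') * P.r := mul_lt_mul_of_pos_right hcon hr
      have h9 : 0 < eps * P.r := mul_pos he hr
      linarith
    have h3 := Prk_cost F hk hu' hpos m le_rfl
    have hm' : (m : ℝ) ≤ 10000 := by exact_mod_cast hm
    have h4 : P.C (k ^ m * F.rp u') (102 / 100 * P.W) := by
      refine h3.mono ?_
      have h5 : (m : ℝ) * (101 / 100 * eps * (50 * P.W)) ≤
          10000 * (101 / 100 * eps * (50 * P.W)) := by
        refine mul_le_mul_of_nonneg_right hm' ?_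
        have he := eps_pos
        have : 0 ≤ P.W := by linarith
        positivity
      have h6 : 10000 * (101 / 100 * eps * (50 * P.W)) ≤ 1 / 100 * P.W := by
        unfold eps
        linarith
      linarith
    have h5 := F.toRp.loop_of (u := u) h4 hu (by rw [Equiv.Perm.mul_apply, F.ha u' hu', eau])
    have h6 := h5.disp (by linarith) ht1 (by linarith)
    have h7 := (abs_le.1 h6).1
    have h8 : 2 * eps * (t - P.b) ≤ 1 / 20 * P.r := by
      unfold eps
      linarith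
    linarith

theorem Fd.prim_k (F : Fd P) {k o : Equiv.Perm ℝ} {θ : ℝ} (hk : P.Lop k (50 * P.W)) {m : ℕ}
    (hm : m ≤ 10000) (h : F.Prim θ o) (ho : o P.a < P.b + 3 / 2 * P.r) (h1 : 1 / 2 ≤ θ)
    (h2 : θ ≤ 1) : F.Prim (θ - 1 / 20) (k ^ m * o) := by
  have hW := P.hW
  have hr := P.hr
  have hab := P.ab
  obtain ⟨hoG, ho1, ho2, ho3⟩ := h
  have hkG : k ^ m ∈ A.G := pow_mem hk.1 m
  have hkm := Prk_mono hk m
  refine ⟨mul_mem hkG hoG, ?_, ?_, ?_⟩
  · rw [Equiv.Perm.mul_apply]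
    have h3 := hkm ho1
    rwa [Prk_fb hk m] at h3
  · rw [Equiv.Perm.mul_apply]
    have h3 := Gp.lop_pow hk (by linarith) ho1.le (by linarith) hm
    have h4 := (abs_le.1 h3).2
    linarith
  · intro u hu hu1 hu2
    rw [Equiv.Perm.mul_apply] at hu2 ⊢
    have hu'G : (k ^ m)⁻¹ * u ∈ A.G := mul_mem (inv_mem hkG) hu
    have e : u = k ^ m * ((k ^ m)⁻¹ * u) := (mul_inv_cancel_left _ _).symm
    have ek : ∀ x, (k ^ m) (((k ^ m)⁻¹ * u) x) = u x := by
      intro x
      rw [← Equiv.Perm.mul_apply, mul_inv_cancel_left]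
    have h3 : P.b ≤ ((k ^ m)⁻¹ * u) P.a := by
      rw [← hkm.le_iff_le, ek, Prk_fb hk m]
      exact hu1
    have h4 : ((k ^ m)⁻¹ * u) P.b ≤ o P.a := by
      rw [← hkm.le_iff_le, ek]
      exact hu2
    have h5 := ho3 _ hu'G h3 h4
    have h6 := hkm.monotone h5
    have hθ1 : 1 / 2 * P.r ≤ θ * P.r := mul_le_mul_of_nonneg_right h1 hr.le
    have hθ2 : θ * P.r ≤ 1 * P.r := mul_le_mul_of_nonneg_right h2 hr.le
    have h7 := Prk_omega F hk hm hu'G e h3 (by linarith) (t := P.b + θ * P.r) (by linarith)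
      (by linarith)
    have h8 := ((A.good (F.mem u hu)).mono).monotone h7
    have h9 : F.rp u (((F.rp u)⁻¹ * (k ^ m * F.rp ((k ^ m)⁻¹ * u))) (P.b + θ * P.r)) =
        (k ^ m) (F.rp ((k ^ m)⁻¹ * u) (P.b + θ * P.r)) := by
      rw [← Equiv.Perm.mul_apply, mul_inv_cancel_left, Equiv.Perm.mul_apply]
    rw [h9] at h8
    have h10 : P.b + (θ - 1 / 20) * P.r = P.b + θ * P.r - 1 / 20 * P.r := by ring
    rw [h10]
    exact h8.trans h6

end Pool.Agent.H42.EM
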