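/-
CLB : the letters β = (f^l)⁻¹ k^m f^l α, where k has very small displacement (Fd.Sd), m ≤ 10000.

Here x := f^l * α, t := x a, y := k^m * x, β := (f^l)⁻¹ * y, X := t - f t.  b < t ≤ α a < b + r.
PROOFS.
* clb_pos: korb: |k^m t - t| ≤ X / 100, so f t < k^m t and f (k^m t) < t (X_lip: X (k^m t) ≥ X/2 ...: f (k^m t) = k^m t - X (k^m t) ≤ t + X/100 - 98/100 X < t).
  Apply (f^l)⁻¹ (commutes with f): f (α a) < β a and f (β a) < α a.  β a < f⁻¹ (α a) < f⁻¹ (b + r) ≤ b + 101/100 r (up_le with n = 1).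
  b < β a.  β b = β a + rh β (b - a) ≤ b + 2r.
* clb_rho0: rh y / rh x ∈ [e^(-m eps), e^(m eps)] ⊆ [999/1000, 1001/1000] (induction, Lop.rh_lo, rh_up for k, positions by korb).
  f^l β = y.  Dis (cmp_down) for the pairs (α, β), n = l:  rh y * rh α ≤ 1.001 rh x * rh β and rh x * rh β ≤ 1.001 rh y * rh α.
  Hypotheses of cmp_down: f^10 (β b) ≤ f^9 (β a) (f (β b) ≤ β a since f β is another gap of the orbit, on the left of β: sep_or, f (β a) < β a)
  ≤ f^9 (f⁻¹ (α a)) = f^8 (α a) ≤ α a;  f^10 (α b) ≤ f^9 (α a) ≤ f (α a) < β a.  (f_anti.)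
* clb_rho: cmp_down for n = j and clb_rho0: rh (f^j β) ≤ 1.001 rh (f^j α) rh β / rh α ≤ 1.001 * 1.0021 ..., similarly below.
* clb_prim: α Prim 98/100 → f^l α Prim 97/100 (prim_f) → k^m f^l α Prim 92/100 (prim_k; position < b + r) → β Prim 91/100 (prim_finv) → f^j β Prim 90/100
  (prim_f).
* clb_E: E (k^m x) - E x: m steps, each ≤ 101/100 * 50 * rh (k^i x) ≤ 51 rh x (E_comp with g := k), in total ≤ 510000 rh x (rh (k^i x) ≤ 1.001 rh x).
  S := ∑_{i < l + 10^6} rh (f^i α) ≥ ∑_{l ≤ i < l + 10^6} rh (f^i α) ≥ 10^6 * e^(-10^6 eps) rh x ≥ 98/100 * 10^6 rh x (Lop.rh_lo, induction).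
  E (f^j β) - E β and E (f^l β) - E β: E_pow, ≤ 213/100 * ∑_{i < l + 10^6} rh (f^i β) ≤ 213/100 * 101/100 S each (clb_rho).
  Total ≤ 2 * 2.16 S + 0.53 S ≤ 10 S.
-/
import Pool.Agent.H42.EZ.Cla
import Pool.Agent.H42.EZ.Prk
import Pool.Agent.H42.EZ.Dis

set_option autoImplicit false

namespace Pool.Agent.H42.EM

open Set

variable {A : Sys} {P : Gp A}

private lemma Clb_eps : eps = 1 / 10 ^ 8 := rfl

private lemma Clb_comm (f : Equiv.Perm ℝ) (l : ℕ) (s : ℝ) : f ((f ^ l)⁻¹ s) = (f ^ l)⁻¹ (f s) := by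
  have h : f * (f ^ l)⁻¹ = (f ^ l)⁻¹ * f := (Commute.pow_right (Commute.refl f) l).inv_right.eq
  have := congrArg (fun g : Equiv.Perm ℝ => g s) h
  simpa only [Equiv.Perm.mul_apply] using this

private lemma Clb_invmono (F : Fd P) (l : ℕ) : StrictMono (⇑(F.f ^ l)⁻¹) := by
  have hG : (F.f ^ l)⁻¹ ∈ A.G := A.G.inv_mem (F.fG l)
  exact (A.good hG).mono

/-- auxiliary facts about the position of the orbit of a point under `k` -/
private lemma Clb_orb (F : Fd P) {k : Equiv.Perm ℝ} (hk : F.Sd k) {t : ℝ} (h1 : P.b < t)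
    (h2 : t ≤ P.b + P.r) {m : ℕ} (hm : m ≤ 10000) :
    F.f t < (k ^ m) t ∧ F.f ((k ^ m) t) < t ∧ P.b < (k ^ m) t ∧ (k ^ m) t ≤ P.b + 11 / 10 * P.r := by
  have hr := P.hr
  have hv := F.hv1
  have hko := F.korb hk h1 (by linarith) hm
  have hft : F.f t < t := F.free t ⟨h1, by linarith⟩
  have hfb : P.b < F.f t := by
    have := F.f_gt 1 h1
    simpa using this
  set s := (k ^ m) t with hs
  set X := t - F.f t with hX
  have hXpos : 0 < X := by rw [hX]; linarith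
  have hXr : X ≤ P.r := by rw [hX]; linarith
  obtain ⟨hl, hu⟩ := abs_le.mp hko
  have e1 : F.f t < s := by
    have : F.f t = t - X := by rw [hX]; ring
    rw [this]; linarith
  have hsb : P.b < s := by linarith
  have hsu : s ≤ P.b + 11 / 10 * P.r := by linarith
  refine ⟨e1, ?_, hsb, hsu⟩
  have hfs : F.f s < s := F.free s ⟨hsb, by linarith⟩
  rcases le_or_gt s t with hst | hst
  · linarith
  · have hl := F.X_lip (s := t) (t := s) h1.le hst.le (by linarith)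
    have he : eps = 1 / 10 ^ 8 := rfl
    have hl' := (abs_le.mp hl).1
    have h3 : 11 / 10 * eps * (s - t) ≤ X / 100 := by
      have : 11 / 10 * eps * (s - t) ≤ 11 / 10 * eps * (X / 100) :=
        mul_le_mul_of_nonneg_left hu (by rw [he]; norm_num)
      refine this.trans ?_
      rw [he]
      have : (11 / 10 * (1 / 10 ^ 8 : ℝ)) * (X / 100) = X / 100 * (11 / 10 ^ 9) := by ring
      rw [this]
      have : X / 100 * (11 / 10 ^ 9) ≤ X / 100 * 1 :=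
        mul_le_mul_of_nonneg_left (by norm_num) (by positivity)
      linarith
    linarith

private lemma Clb_mem (F : Fd P) {k α : Equiv.Perm ℝ} (hk : F.Sd k) (hα : α ∈ A.G) (l m : ℕ) :
    (F.f ^ l)⁻¹ * (k ^ m * (F.f ^ l * α)) ∈ A.G :=
  A.G.mul_mem (A.G.inv_mem (F.fG l)) (A.G.mul_mem (A.G.pow_mem hk.1.1 m)
    (A.G.mul_mem (F.fG l) hα))

private lemma Clb_len (P : Gp A) {g : Equiv.Perm ℝ} (hg : g ∈ A.G) :
    g P.b ≤ g P.a + eps * P.r := by
  have h1 := P.longest g hg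
  have h2 := P.hJ
  linarith

private lemma Clb_pos' (F : Fd P) {k α : Equiv.Perm ℝ} (hk : F.Sd k) (hα : α ∈ A.G)
    (hb : P.b < α P.a) (hr : α P.a < P.b + P.r) (l : ℕ) {m : ℕ} (hm : m ≤ 10000) :
    F.f (α P.a) < ((F.f ^ l)⁻¹ * (k ^ m * (F.f ^ l * α))) P.a ∧
      F.f (((F.f ^ l)⁻¹ * (k ^ m * (F.f ^ l * α))) P.a) < α P.a ∧
      P.b < ((F.f ^ l)⁻¹ * (k ^ m * (F.f ^ l * α))) P.a ∧
      ((F.f ^ l)⁻¹ * (k ^ m * (F.f ^ l * α))) P.a < P.b + 11 / 10 * P.r ∧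
      ((F.f ^ l)⁻¹ * (k ^ m * (F.f ^ l * α))) P.b ≤ P.b + 12 / 10 * P.r := by
  have hr0 := P.hr
  have hv := F.hv1
  have ht1 : P.b < (F.f ^ l) (α P.a) := F.f_gt l hb
  have ht2 : (F.f ^ l) (α P.a) ≤ α P.a := F.f_le l hb.le (by linarith)
  obtain ⟨o1, o2, o3, o4⟩ := Clb_orb F hk ht1 (by linarith) hm
  have hmono := Clb_invmono F l
  have eβ : ((F.f ^ l)⁻¹ * (k ^ m * (F.f ^ l * α))) P.a =
      (F.f ^ l)⁻¹ ((k ^ m) ((F.f ^ l) (α P.a))) := by
    simp only [Equiv.Perm.mul_apply]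
  have eα : (F.f ^ l)⁻¹ ((F.f ^ l) (α P.a)) = α P.a := by simp
  have c1 : F.f (α P.a) < ((F.f ^ l)⁻¹ * (k ^ m * (F.f ^ l * α))) P.a := by
    have := hmono o1
    rw [← Clb_comm, eα] at this
    rw [eβ]; exact this
  have c2 : F.f (((F.f ^ l)⁻¹ * (k ^ m * (F.f ^ l * α))) P.a) < α P.a := by
    have := hmono o2
    rw [← Clb_comm, eα] at this
    rw [eβ]; exact this
  have hfα : P.b < F.f (α P.a) := by
    have := F.f_gt 1 hb
    simpa using this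
  have c3 : P.b < ((F.f ^ l)⁻¹ * (k ^ m * (F.f ^ l * α))) P.a := hfα.trans c1
  have c4 : ((F.f ^ l)⁻¹ * (k ^ m * (F.f ^ l * α))) P.a < P.b + 11 / 10 * P.r := by
    have h1 := F.up_le (n := 1) (by norm_num) hb.le (by linarith)
    have hm1 := Clb_invmono F 1
    have h2 := hm1 c2
    rw [pow_one] at h1 h2
    have h3 : F.f⁻¹ (F.f (((F.f ^ l)⁻¹ * (k ^ m * (F.f ^ l * α))) P.a)) =
        ((F.f ^ l)⁻¹ * (k ^ m * (F.f ^ l * α))) P.a := by simp
    rw [h3] at h2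
    nlinarith
  refine ⟨c1, c2, c3, c4, ?_⟩
  have := Clb_len P (Clb_mem F hk hα l m)
  have he : eps = 1 / 10 ^ 8 := rfl
  rw [he] at this
  nlinarith

lemma Fd.clb_pos (F : Fd P) {k α : Equiv.Perm ℝ} (hk : F.Sd k) (hα : α ∈ A.G) (hb : P.b < α P.a)
    (hr : α P.a < P.b + P.r) (l : ℕ) {m : ℕ} (hm : m ≤ 10000) :
    F.f (α P.a) < ((F.f ^ l)⁻¹ * (k ^ m * (F.f ^ l * α))) P.a ∧
      F.f (((F.f ^ l)⁻¹ * (k ^ m * (F.f ^ l * α))) P.a) < α P.a ∧
      P.b < ((F.f ^ l)⁻¹ * (k ^ m * (F.f ^ l * α))) P.a ∧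
      ((F.f ^ l)⁻¹ * (k ^ m * (F.f ^ l * α))) P.a < P.b + 3 / 2 * P.r ∧
      ((F.f ^ l)⁻¹ * (k ^ m * (F.f ^ l * α))) P.b ≤ P.b + 2 * P.r := by
  have hr0 := P.hr
  obtain ⟨c1, c2, c3, c4, c5⟩ := Clb_pos' F hk hα hb hr l hm
  exact ⟨c1, c2, c3, by linarith, by linarith⟩

/-- the sizes of the images of `x` under the powers of `k` -/
private lemma Clb_k (F : Fd P) {k x : Equiv.Perm ℝ} (hk : F.Sd k) (hx : x ∈ A.G)
    (hb : P.b < x P.a) (hr : x P.a ≤ P.b + P.r) : ∀ m : ℕ, m ≤ 10000 →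
    Real.exp (-eps) ^ m * P.rh x ≤ P.rh (k ^ m * x) ∧
      P.rh (k ^ m * x) ≤ Real.exp eps ^ m * P.rh x := by
  intro m
  induction m with
  | zero => intro _; simp
  | succ m ih =>
    intro hm
    obtain ⟨i1, i2⟩ := ih (by omega)
    obtain ⟨o1, o2, o3, o4⟩ := Clb_orb F hk hb hr (show m ≤ 10000 by omega)
    have hr0 := P.hr
    have hW : (0 : ℝ) < P.W := lt_of_lt_of_le (by norm_num) P.hW
    have hG : k ^ m * x ∈ A.G := A.G.mul_mem (A.G.pow_mem hk.1.1 m) hx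
    have hab := P.ab
    have hJ := P.hJ
    have he : eps = 1 / 10 ^ 8 := rfl
    have hpa : (k ^ m * x) P.a = (k ^ m) (x P.a) := rfl
    have hlen := Clb_len P hG
    have q1 : P.a - 40 * P.r ≤ (k ^ m * x) P.a := by rw [hpa]; linarith
    have q2 : (k ^ m * x) P.b ≤ P.b + 40 * P.r := by
      rw [hpa, he] at hlen; nlinarith
    have r1 := hk.1.rh_lo (by linarith) hG q1 q2
    have r2 := hk.1.rh_up (by linarith) hG q1 q2
    have e : k ^ (m + 1) * x = k * (k ^ m * x) := by rw [pow_succ', mul_assoc]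
    rw [e]
    constructor
    · calc Real.exp (-eps) ^ (m + 1) * P.rh x = Real.exp (-eps) * (Real.exp (-eps) ^ m * P.rh x) := by
            rw [pow_succ]; ring
        _ ≤ Real.exp (-eps) * P.rh (k ^ m * x) :=
            mul_le_mul_of_nonneg_left i1 (Real.exp_pos _).le
        _ ≤ _ := r1
    · calc P.rh (k * (k ^ m * x)) ≤ Real.exp eps * P.rh (k ^ m * x) := r2
        _ ≤ Real.exp eps * (Real.exp eps ^ m * P.rh x) :=
            mul_le_mul_of_nonneg_left i2 (Real.exp_pos _).le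
        _ = Real.exp eps ^ (m + 1) * P.rh x := by rw [pow_succ]; ring

private lemma Clb_lo {m N : ℕ} (hm : m ≤ N) : 1 - N * eps ≤ Real.exp (-eps) ^ m := by
  have he := eps_pos
  rw [← Real.exp_nat_mul]
  have h := Real.add_one_le_exp ((m : ℝ) * (-eps))
  have hmN : (m : ℝ) ≤ N := by exact_mod_cast hm
  nlinarith

private lemma Clb_up {m : ℕ} (hm : m ≤ 10000) : Real.exp eps ^ m ≤ 1001 / 1000 := by
  have he := eps_pos
  have he' : eps = 1 / 10 ^ 8 := rfl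
  rw [← Real.exp_nat_mul]
  have hmN : (m : ℝ) ≤ 10000 := by exact_mod_cast hm
  have h1 : Real.exp ((m : ℝ) * eps) ≤ Real.exp (1 / 10 ^ 4) := by
    apply Real.exp_le_exp.mpr
    rw [he']; nlinarith
  refine h1.trans ?_
  have h2 := Real.add_one_le_exp (-(1 / 10 ^ 4) : ℝ)
  have h3 : Real.exp (1 / 10 ^ 4 : ℝ) * Real.exp (-(1 / 10 ^ 4) : ℝ) = 1 := by
    rw [← Real.exp_add]; simp
  have h4 := Real.exp_pos (1 / 10 ^ 4 : ℝ)
  nlinarith

private lemma Clb_k' (F : Fd P) {k x : Equiv.Perm ℝ} (hk : F.Sd k) (hx : x ∈ A.G)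
    (hb : P.b < x P.a) (hr : x P.a ≤ P.b + P.r) {m : ℕ} (hm : m ≤ 10000) :
    999 / 1000 * P.rh x ≤ P.rh (k ^ m * x) ∧ P.rh (k ^ m * x) ≤ 1001 / 1000 * P.rh x := by
  obtain ⟨h1, h2⟩ := Clb_k F hk hx hb hr m hm
  have hp := (P.rh_pos hx).le
  constructor
  · refine le_trans (mul_le_mul_of_nonneg_right ?_ hp) h1
    refine le_trans ?_ (Clb_lo hm)
    have he' : eps = 1 / 10 ^ 8 := rfl
    rw [he']; norm_num
  · exact h2.trans (mul_le_mul_of_nonneg_right (Clb_up hm) hp)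

private lemma Clb_f1 (F : Fd P) {x : Equiv.Perm ℝ} (hx : x ∈ A.G) (hb : P.b < x P.a)
    (hr : x P.a ≤ P.b + 2 * P.r) : F.f (x P.b) ≤ x P.a := by
  have hr0 := P.hr
  have hv := F.hv1
  have hf : F.f ∈ A.G := F.hf.1
  have hfx : F.f (x P.a) < x P.a := F.free _ ⟨hb, by linarith⟩
  have hxm : x P.a < x P.b := (A.good hx).mono P.ab
  have e1 : (F.f * x) P.a = F.f (x P.a) := rfl
  have e2 : (F.f * x) P.b = F.f (x P.b) := rfl
  rcases P.sep_or (A.G.mul_mem hf hx) hx with h | h | h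
  · rw [e1] at h; linarith [h.1]
  · rw [e2] at h; exact h
  · rw [e1] at h; linarith

private lemma Clb_f10 (F : Fd P) {x : Equiv.Perm ℝ} (hx : x ∈ A.G) (hb : P.b < x P.a)
    (hr : x P.a ≤ P.b + 2 * P.r) : (F.f ^ 10) (x P.b) ≤ F.f (x P.a) := by
  have hr0 := P.hr
  have hv := F.hv1
  have h1 := Clb_f1 F hx hb hr
  have h2 : (F.f ^ 10) (x P.b) = (F.f ^ 9) (F.f (x P.b)) := ITR_pow_succ_apply F.f 9 _
  have h3 : (F.f ^ 9) (F.f (x P.b)) ≤ (F.f ^ 9) (x P.a) := (F.fmono 9).monotone h1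
  have h4 := F.f_anti (m := 1) (n := 9) (by norm_num) hb.le (by linarith)
  rw [pow_one] at h4
  rw [h2]; exact h3.trans h4

private lemma Clb_mul_inv (f k α : Equiv.Perm ℝ) (l m : ℕ) :
    f ^ l * ((f ^ l)⁻¹ * (k ^ m * (f ^ l * α))) = k ^ m * (f ^ l * α) := by
  rw [mul_inv_cancel_left]

lemma Fd.clb_rho (F : Fd P) {k α : Equiv.Perm ℝ} (hk : F.Sd k) (hα : α ∈ A.G) (hb : P.b < α P.a)
    (hr : α P.a < P.b + P.r) (l j : ℕ) {m : ℕ} (hm : m ≤ 10000) :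
    99 / 100 * P.rh (F.f ^ j * α) ≤ P.rh (F.f ^ j * ((F.f ^ l)⁻¹ * (k ^ m * (F.f ^ l * α)))) ∧
      P.rh (F.f ^ j * ((F.f ^ l)⁻¹ * (k ^ m * (F.f ^ l * α)))) ≤ 101 / 100 * P.rh (F.f ^ j * α) := by
  have hr0 := P.hr
  have hv := F.hv1
  have he : eps = 1 / 10 ^ 8 := rfl
  obtain ⟨c1, c2, c3, c4, c5⟩ := Clb_pos' F hk hα hb hr l hm
  have hβ := Clb_mem F hk hα l m
  have hfl : F.f ^ l * ((F.f ^ l)⁻¹ * (k ^ m * (F.f ^ l * α))) = k ^ m * (F.f ^ l * α) :=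
    Clb_mul_inv _ _ _ _ _
  generalize hβd : (F.f ^ l)⁻¹ * (k ^ m * (F.f ^ l * α)) = β at *
  have hx : F.f ^ l * α ∈ A.G := A.G.mul_mem (F.fG l) hα
  have hxa : (F.f ^ l * α) P.a = (F.f ^ l) (α P.a) := rfl
  obtain ⟨k1, k2⟩ := Clb_k' F hk hx (by rw [hxa]; exact F.f_gt l hb)
    (by rw [hxa]; exact (F.f_le l hb.le (by linarith)).trans hr.le) hm
  rw [← hfl] at k1 k2
  have hαb : α P.b ≤ P.b + 8 * P.r := by
    have := Clb_len P hα
    rw [he] at this; nlinarith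
  have hβb : β P.b ≤ P.b + 8 * P.r := by linarith
  have g1 : (F.f ^ 10) (α P.b) ≤ β P.a := (Clb_f10 F hα hb (by linarith)).trans c1.le
  have g2 : (F.f ^ 10) (β P.b) ≤ α P.a := (Clb_f10 F hβ c3 (by linarith)).trans c2.le
  have d1 := F.cmp_down hα hβ hb.le c3.le hαb hβb g1 g2
  have d2 := F.cmp_down hβ hα c3.le hb.le hβb hαb g2 g1
  have pα := P.rh_pos hα
  have pβ := P.rh_pos hβ
  have px := P.rh_pos hx
  have pfj := P.rh_pos (A.G.mul_mem (F.fG j) hα)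
  have pfj' := P.rh_pos (A.G.mul_mem (F.fG j) hβ)
  -- sizes of α and β
  have s1 : 998 / 1000 * P.rh α ≤ P.rh β := by
    have h1 := d1 l
    have h2 : 999 / 1000 * P.rh (F.f ^ l * α) * P.rh α ≤ P.rh (F.f ^ l * β) * P.rh α :=
      mul_le_mul_of_nonneg_right k1 pα.le
    have h3 : P.rh (F.f ^ l * α) * (999 / 1000 * P.rh α) ≤
        P.rh (F.f ^ l * α) * (1001 / 1000 * P.rh β) := by nlinarith
    have h4 := le_of_mul_le_mul_left h3 px
    linarith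
  have s2 : P.rh β ≤ 1003 / 1000 * P.rh α := by
    have h1 := d2 l
    have h2 : P.rh (F.f ^ l * β) * P.rh α ≤ 1001 / 1000 * P.rh (F.f ^ l * α) * P.rh α :=
      mul_le_mul_of_nonneg_right k2 pα.le
    have h3 : P.rh (F.f ^ l * α) * P.rh β ≤
        P.rh (F.f ^ l * α) * (1001 / 1000 * (1001 / 1000) * P.rh α) := by nlinarith
    have h4 := le_of_mul_le_mul_left h3 px
    linarith
  constructor
  · have h1 := d2 j
    -- rh (f^j α) rh β ≤ 1.001 rh (f^j β) rh α ≤ 1.001 / 0.998 rh (f^j β) rh β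
    have h2 : P.rh (F.f ^ j * β) * (998 / 1000 * P.rh α) ≤ P.rh (F.f ^ j * β) * P.rh β :=
      mul_le_mul_of_nonneg_left s1 pfj'.le
    have h3 : P.rh β * (99 / 100 * P.rh (F.f ^ j * α)) ≤ P.rh β * P.rh (F.f ^ j * β) := by
      have hp : 0 < P.rh (F.f ^ j * α) * P.rh β := by positivity
      nlinarith
    exact le_of_mul_le_mul_left h3 pβ
  · have h1 := d1 j
    have h2 : P.rh (F.f ^ j * α) * P.rh β ≤ P.rh (F.f ^ j * α) * (1003 / 1000 * P.rh α) :=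
      mul_le_mul_of_nonneg_left s2 pfj.le
    have h3 : P.rh α * P.rh (F.f ^ j * β) ≤ P.rh α * (101 / 100 * P.rh (F.f ^ j * α)) := by
      have hp : 0 < P.rh (F.f ^ j * α) * P.rh α := by positivity
      nlinarith
    exact le_of_mul_le_mul_left h3 pα

lemma Fd.clb_prim (F : Fd P) {k α : Equiv.Perm ℝ} (hk : F.Sd k) (hα : F.Prim (98 / 100) α)
    (hr : α P.a < P.b + P.r) (l j : ℕ) {m : ℕ} (hm : m ≤ 10000) :
    F.Prim (9 / 10) (F.f ^ j * ((F.f ^ l)⁻¹ * (k ^ m * (F.f ^ l * α)))) := by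
  have hr0 := P.hr
  have hv := F.hv1
  have hαG := hα.1
  have hb := hα.2.1
  obtain ⟨c1, c2, c3, c4, c5⟩ := Clb_pos' F hk hαG hb hr l hm
  have p1 := F.prim_f hα (by norm_num) (by norm_num) l
  have hxa : (F.f ^ l * α) P.a = (F.f ^ l) (α P.a) := rfl
  have hle := F.f_le l hb.le (by linarith)
  have p2 := F.prim_k hk.1 hm p1 (by rw [hxa]; linarith) (by norm_num) (by norm_num)
  have p3 := F.prim_finv p2 (by norm_num) (by norm_num) (n := l) (by linarith)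
  have p4 := F.prim_f p3 (by norm_num) (by norm_num) j
  exact p4.mono (by norm_num)

private lemma Clb_Ek (F : Fd P) {k x : Equiv.Perm ℝ} (hk : F.Sd k) (hx : x ∈ A.G)
    (hb : P.b < x P.a) (hr : x P.a ≤ P.b + P.r) : ∀ m : ℕ, m ≤ 10000 →
    |P.E (k ^ m * x) - P.E x| ≤ m * (51 * P.rh x) := by
  intro m
  induction m with
  | zero => intro _; simp
  | succ m ih =>
    intro hm
    have i1 := ih (by omega)
    obtain ⟨o1, o2, o3, o4⟩ := Clb_orb F hk hb hr (show m ≤ 10000 by omega)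
    have hr0 := P.hr
    have hW : (0 : ℝ) < P.W := lt_of_lt_of_le (by norm_num) P.hW
    have hG : k ^ m * x ∈ A.G := A.G.mul_mem (A.G.pow_mem hk.1.1 m) hx
    have hab := P.ab
    have he : eps = 1 / 10 ^ 8 := rfl
    have hpa : (k ^ m * x) P.a = (k ^ m) (x P.a) := rfl
    have hlen := Clb_len P hG
    have q1 : P.a - 39 * P.r ≤ (k ^ m * x) P.a := by rw [hpa]; linarith
    have q2 : (k ^ m * x) P.b ≤ P.b + 39 * P.r := by
      rw [hpa, he] at hlen; nlinarith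
    have r1 := P.E_comp hk.1.2.2.2 (by linarith) hG q1 q2
    have r2 := (Clb_k' F hk hx hb hr (show m ≤ 10000 by omega)).2
    have px := P.rh_pos hx
    have e : k ^ (m + 1) * x = k * (k ^ m * x) := by rw [pow_succ', mul_assoc]
    have r3 : 101 / 100 * P.rh (k ^ m * x) * (50 * P.W) / P.W ≤ 51 * P.rh x := by
      have : 101 / 100 * P.rh (k ^ m * x) * (50 * P.W) / P.W = 101 / 2 * P.rh (k ^ m * x) := by
        field_simp; ring
      rw [this]; nlinarith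
    rw [e]
    have tri : |P.E (k * (k ^ m * x)) - P.E x| ≤ |P.E (k * (k ^ m * x)) - P.E (k ^ m * x)| +
        |P.E (k ^ m * x) - P.E x| := abs_sub_le _ _ _
    push_cast
    linarith

private lemma Clb_S (F : Fd P) {α : Equiv.Perm ℝ} (hα : α ∈ A.G) (hb : P.b < α P.a)
    (hr : α P.a < P.b + P.r) (l : ℕ) :
    98 / 100 * 10 ^ 6 * P.rh (F.f ^ l * α) ≤
      ∑ i ∈ Finset.range (l + 10 ^ 6), P.rh (F.f ^ i * α) := by
  have hr0 := P.hr
  have he : eps = 1 / 10 ^ 8 := rfl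
  have hpos : ∀ i, 0 < P.rh (F.f ^ i * α) := fun i => P.rh_pos (A.G.mul_mem (F.fG i) hα)
  have hαb : α P.b ≤ P.b + 8 * P.r := by
    have := Clb_len P hα
    rw [he] at this; nlinarith
  obtain ⟨x1, x2, x3⟩ := Emv_pos F hα hb.le hαb l
  rw [Finset.sum_range_add]
  have h1 : 0 ≤ ∑ i ∈ Finset.range l, P.rh (F.f ^ i * α) :=
    Finset.sum_nonneg (fun i _ => (hpos i).le)
  have h2 : ∑ i ∈ Finset.range (10 ^ 6), 98 / 100 * P.rh (F.f ^ l * α) ≤
      ∑ i ∈ Finset.range (10 ^ 6), P.rh (F.f ^ (l + i) * α) := by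
    refine Finset.sum_le_sum (fun i hi => ?_)
    have hi' : i ≤ 10 ^ 6 := (Finset.mem_range.mp hi).le
    have e : F.f ^ (l + i) * α = F.f ^ i * (F.f ^ l * α) := by
      rw [add_comm, pow_add, mul_assoc]
    rw [e]
    refine le_trans (mul_le_mul_of_nonneg_right ?_ (hpos l).le) (Emv_rh F x1 x2 x3 i).1
    refine le_trans ?_ (Clb_lo hi')
    rw [he]; norm_num
  have h3 : ∑ i ∈ Finset.range (10 ^ 6), 98 / 100 * P.rh (F.f ^ l * α) =
      98 / 100 * 10 ^ 6 * P.rh (F.f ^ l * α) := by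
    rw [Finset.sum_const, Finset.card_range, nsmul_eq_mul]
    push_cast
    ring
  rw [h3] at h2
  linarith

lemma Fd.clb_E (F : Fd P) {k α : Equiv.Perm ℝ} (hk : F.Sd k) (hα : α ∈ A.G) (hb : P.b < α P.a)
    (hr : α P.a < P.b + P.r) (l j : ℕ) {m : ℕ} (hm : m ≤ 10000) (hj : j ≤ l + 10 ^ 6) :
    |P.E (F.f ^ j * ((F.f ^ l)⁻¹ * (k ^ m * (F.f ^ l * α)))) - P.E (F.f ^ l * α)| ≤
      10 * ∑ i ∈ Finset.range (l + 10 ^ 6), P.rh (F.f ^ i * α) := by
  have hr0 := P.hr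
  have hv := F.hv1
  obtain ⟨c1, c2, c3, c4, c5⟩ := Clb_pos' F hk hα hb hr l hm
  have hβ := Clb_mem F hk hα l m
  have hfl : F.f ^ l * ((F.f ^ l)⁻¹ * (k ^ m * (F.f ^ l * α))) = k ^ m * (F.f ^ l * α) :=
    Clb_mul_inv _ _ _ _ _
  have hrho := fun i => F.clb_rho hk hα hb hr l i hm
  generalize hβd : (F.f ^ l)⁻¹ * (k ^ m * (F.f ^ l * α)) = β at *
  set S := ∑ i ∈ Finset.range (l + 10 ^ 6), P.rh (F.f ^ i * α) with hS
  have hx : F.f ^ l * α ∈ A.G := A.G.mul_mem (F.fG l) hα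
  have hxa : (F.f ^ l * α) P.a = (F.f ^ l) (α P.a) := rfl
  have px := P.rh_pos hx
  have hsum : ∀ n, n ≤ l + 10 ^ 6 →
      213 / 100 * ∑ i ∈ Finset.range n, P.rh (F.f ^ i * β) ≤ 22 / 10 * S := by
    intro n hn
    have h1 : ∑ i ∈ Finset.range n, P.rh (F.f ^ i * β) ≤
        ∑ i ∈ Finset.range (l + 10 ^ 6), P.rh (F.f ^ i * β) := by
      refine Finset.sum_le_sum_of_subset_of_nonneg (Finset.range_mono hn) (fun i _ _ => ?_)
      exact (P.rh_pos (A.G.mul_mem (F.fG i) hβ)).le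
    have h2 : ∑ i ∈ Finset.range (l + 10 ^ 6), P.rh (F.f ^ i * β) ≤ 101 / 100 * S := by
      rw [hS, Finset.mul_sum]
      exact Finset.sum_le_sum (fun i _ => (hrho i).2)
    have h3 : 0 ≤ S := Finset.sum_nonneg
      (fun i _ => (P.rh_pos (A.G.mul_mem (F.fG i) hα)).le)
    have h4 := h1.trans h2
    linarith
  have a1 : |P.E (F.f ^ j * β) - P.E β| ≤ 22 / 10 * S :=
    (F.E_pow hβ c3.le (by linarith) j).trans (hsum j hj)
  have a2 : |P.E (F.f ^ l * β) - P.E β| ≤ 22 / 10 * S :=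
    (F.E_pow hβ c3.le (by linarith) l).trans (hsum l (by omega))
  have a3 := Clb_Ek F hk hx (by rw [hxa]; exact F.f_gt l hb)
    (by rw [hxa]; exact (F.f_le l hb.le (by linarith)).trans hr.le) m hm
  have a4 := Clb_S F hα hb hr l
  rw [← hfl] at a3
  rw [← hS] at a4
  have hm' : (m : ℝ) ≤ 10000 := by exact_mod_cast hm
  have a5 : (m : ℝ) * (51 * P.rh (F.f ^ l * α)) ≤ S := by nlinarith
  have b1 := abs_le.mp a1
  have b2 := abs_le.mp a2
  have b3 := abs_le.mp (a3.trans a5)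
  have hSn : 0 ≤ S := le_trans (abs_nonneg _) (a3.trans a5)
  rw [abs_le]
  constructor <;> linarith [b1.1, b1.2, b2.1, b2.2, b3.1, b3.2]

end Pool.Agent.H42.EM
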