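/-
CLC : the cluster.

PROOF.  β m := (f^l)⁻¹ * (k^m * (f^l * α)), O := image of (m, j) ↦ f^j * β m on range 10000 ×ˢ range (l + 10^6).
 clc_ne: if (f^j * β m) a = (f^j' * β m') a then m = m', j = j': put t := (f^l α) a, t_m := k^m t, so (f^l) (β m a) = t_m.
  If j = j': β m a = β m' a, t_m = t_m', korb_ne.  If j < j' (wlog): β m a = (f^(j'-j)) (β m' a) ≤ f (β m' a) (f_anti), so t_m ≤ f t_m'
  (apply f^l).  korb: t_m ≥ t - X/100, t_m' ≤ t + X/100 and f t_m' = t_m' - X(t_m') with X(t_m') ≥ 98/100 X (X_lip), contradiction (X = t - f t > 0).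
 Prim, |E o - e| ≤ 10 S: clb_prim, clb_E.   ∀ o o', o a = o' a → o = o': clc_ne.
 Mass: ∑_{o ∈ O} rh o = ∑_{m < 10000} ∑_{j < l + 10^6} rh (f^j β m) (injectivity on the product, clc_ne) ≥ 10000 * 99/100 * S ≥ 5000 S.  0 < S.
-/
import Pool.Agent.H42.EZ.Clb

set_option autoImplicit false

namespace Pool.Agent.H42.EM

open Set

variable {A : Sys} {P : Gp A}

private lemma Clc_lt (F : Fd P) {k α : Equiv.Perm ℝ} (hk : F.Sd k) (hα : α ∈ A.G)
    (hb : P.b < α P.a) (hr : α P.a < P.b + P.r) {l : ℕ}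
    {m m' j j' : ℕ} (h1 : m ≤ 10000) (h2 : m' ≤ 10000)
    (e : (F.f ^ j * ((F.f ^ l)⁻¹ * (k ^ m * (F.f ^ l * α)))) P.a =
      (F.f ^ j' * ((F.f ^ l)⁻¹ * (k ^ m' * (F.f ^ l * α)))) P.a) (hjj : j < j') : False := by
  have hP := P.hr
  have hv := F.hv1
  obtain ⟨t, ht⟩ : ∃ t, t = (F.f ^ l) (α P.a) := ⟨_, rfl⟩
  obtain ⟨y, hy⟩ : ∃ y, y = ((F.f ^ l)⁻¹ * (k ^ m * (F.f ^ l * α))) P.a := ⟨_, rfl⟩
  obtain ⟨y', hy'⟩ : ∃ y', y' = ((F.f ^ l)⁻¹ * (k ^ m' * (F.f ^ l * α))) P.a := ⟨_, rfl⟩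
  have ey : (F.f ^ l) y = (k ^ m) t := by
    rw [hy, ht]
    exact (F.f ^ l).apply_symm_apply _
  have ey' : (F.f ^ l) y' = (k ^ m') t := by
    rw [hy', ht]
    exact (F.f ^ l).apply_symm_apply _
  have e' : (F.f ^ j) y = (F.f ^ j') y' := by
    rw [hy, hy']
    exact e
  obtain ⟨-, -, hp3, hp4, -⟩ := F.clb_pos hk hα hb hr l h2
  rw [← hy'] at hp3 hp4
  have hy'v : y' ≤ F.v := by linarith
  obtain ⟨d, hd⟩ := Nat.exists_eq_add_of_lt hjj
  have e2 : y = (F.f ^ (d + 1)) y' := by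
    have h3 : F.f ^ j' = F.f ^ j * F.f ^ (d + 1) := by
      rw [← pow_add, hd]
      congr 1
    rw [h3] at e'
    exact (F.f ^ j).injective e'
  have h4 : y ≤ F.f y' := by
    rw [e2]
    have := F.f_anti (m := 1) (n := d + 1) (by omega) hp3.le hy'v
    rwa [pow_one] at this
  have h5 : (k ^ m) t ≤ F.f ((k ^ m') t) := by
    rw [← ey, ← ey']
    have h6 := (F.fmono l).monotone h4
    rwa [← ITR_pow_succ_apply, ITR_pow_succ_apply'] at h6
  have htb : P.b < t := by rw [ht]; exact F.f_gt l hb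
  have htr : t < P.b + P.r := by
    rw [ht]
    exact (F.f_le l hb.le (by linarith)).trans_lt hr
  have hX : 0 < t - F.f t := by
    have := F.free t ⟨htb, by linarith⟩
    linarith
  have hft : P.b < F.f t := by
    have := F.f_gt 1 htb
    rwa [pow_one] at this
  have k1 := abs_le.1 (F.korb hk htb (by linarith) h1)
  have k2 := abs_le.1 (F.korb hk htb (by linarith) h2)
  obtain ⟨k2a, k2b⟩ := k2
  obtain ⟨k1a, k1b⟩ := k1
  generalize (k ^ m) t = u at *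
  generalize (k ^ m') t = u' at *
  have hub : P.b ≤ u' := by linarith
  have hep : eps ≤ 1 / 10 := by unfold eps; norm_num
  have hep0 := eps_pos
  have hlip : |(u' - F.f u') - (t - F.f t)| ≤ 11 / 10 * eps * |u' - t| := by
    rcases le_total t u' with h | h
    · rw [abs_of_nonneg (sub_nonneg.2 h)]
      exact F.X_lip htb.le h (by linarith)
    · rw [abs_sub_comm, abs_sub_comm u' t, abs_of_nonneg (sub_nonneg.2 h)]
      exact F.X_lip hub h (by linarith)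
  have hab : |u' - t| ≤ (t - F.f t) / 100 := abs_le.2 ⟨by linarith, by linarith⟩
  have h7 : 11 / 10 * eps * |u' - t| ≤ 11 / 10 * (1 / 10) * ((t - F.f t) / 100) := by
    have h8 : (0 : ℝ) ≤ |u' - t| := abs_nonneg _
    calc 11 / 10 * eps * |u' - t| ≤ 11 / 10 * (1 / 10) * |u' - t| := by
          apply mul_le_mul_of_nonneg_right _ h8
          linarith
      _ ≤ _ := by
          apply mul_le_mul_of_nonneg_left hab
          norm_num
  have h9 := (abs_le.1 (hlip.trans h7)).1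
  linarith

lemma Fd.clc_ne (F : Fd P) {k α : Equiv.Perm ℝ} (hk : F.Sd k) (hα : α ∈ A.G) (hb : P.b < α P.a)
    (hr : α P.a < P.b + P.r) {l : ℕ} (hm : k ((F.f ^ l * α) P.a) ≠ (F.f ^ l * α) P.a)
    {m m' j j' : ℕ} (h1 : m ≤ 10000) (h2 : m' ≤ 10000)
    (e : (F.f ^ j * ((F.f ^ l)⁻¹ * (k ^ m * (F.f ^ l * α)))) P.a =
      (F.f ^ j' * ((F.f ^ l)⁻¹ * (k ^ m' * (F.f ^ l * α)))) P.a) : m = m' ∧ j = j' := by
  rcases Nat.lt_trichotomy j j' with h | h | h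
  · exact (Clc_lt F hk hα hb hr h1 h2 e h).elim
  · refine ⟨?_, h⟩
    by_contra hne
    subst h
    have e1 : ((F.f ^ l)⁻¹ * (k ^ m * (F.f ^ l * α))) P.a =
        ((F.f ^ l)⁻¹ * (k ^ m' * (F.f ^ l * α))) P.a := (F.f ^ j).injective e
    have e2 : (k ^ m) ((F.f ^ l * α) P.a) = (k ^ m') ((F.f ^ l * α) P.a) :=
      ((F.f ^ l)⁻¹).injective e1
    exact korb_ne (A.good hk.1.1).mono hm hne e2
  · exact (Clc_lt F hk hα hb hr h2 h1 e.symm h).elim

theorem Fd.clu_of (F : Fd P) {k α : Equiv.Perm ℝ} (hk : F.Sd k) (hα : F.Prim (98 / 100) α)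
    (hr : α P.a < P.b + P.r) {l : ℕ} (hm : k ((F.f ^ l * α) P.a) ≠ (F.f ^ l * α) P.a) :
    F.Clu (P.E (F.f ^ l * α)) (∑ i ∈ Finset.range (l + 10 ^ 6), P.rh (F.f ^ i * α)) := by
  classical
  obtain ⟨hαG, hb, -, -⟩ := id hα
  obtain ⟨N, hN⟩ : ∃ N, N = l + 10 ^ 6 := ⟨_, rfl⟩
  obtain ⟨M, hM⟩ : ∃ M : ℕ, M = 10000 := ⟨_, rfl⟩
  have hN0 : N ≠ 0 := by
    have : 0 < (10 : ℕ) ^ 6 := by positivity
    omega
  have hE := fun (j : ℕ) (hj : j ≤ N) (m : ℕ) (hm' : m ≤ 10000) =>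
    F.clb_E hk hαG hb hr l j hm' (hN ▸ hj)
  rw [← hN] at hE ⊢
  obtain ⟨S, hS⟩ : ∃ S, S = ∑ i ∈ Finset.range N, P.rh (F.f ^ i * α) := ⟨_, rfl⟩
  rw [← hS] at hE ⊢
  have hS0 : 0 < S := by
    rw [hS]
    exact Finset.sum_pos (fun i _ => P.rh_pos (mul_mem (F.fG i) hαG))
      (Finset.nonempty_range_iff.2 hN0)
  obtain ⟨ψ, hψ⟩ : ∃ ψ : ℕ × ℕ → Equiv.Perm ℝ,
    ψ = fun q => F.f ^ q.2 * ((F.f ^ l)⁻¹ * (k ^ q.1 * (F.f ^ l * α))) := ⟨_, rfl⟩
  have hT : ∀ q ∈ (Finset.range M) ×ˢ (Finset.range N), q.1 ≤ 10000 ∧ q.2 ≤ N := by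
    intro q hq
    rw [Finset.mem_product, Finset.mem_range, Finset.mem_range, hM] at hq
    exact ⟨hq.1.le, hq.2.le⟩
  have hinj : ∀ q ∈ (Finset.range M) ×ˢ (Finset.range N),
      ∀ q' ∈ (Finset.range M) ×ˢ (Finset.range N), ψ q P.a = ψ q' P.a → q = q' := by
    intro q hq q' hq' he
    rw [hψ] at he
    obtain ⟨i1, i2⟩ := F.clc_ne hk hαG hb hr hm (hT q hq).1 (hT q' hq').1 he
    exact Prod.ext i1 i2
  refine ⟨hS0, ((Finset.range M) ×ˢ (Finset.range N)).image ψ, ?_, ?_, ?_, ?_⟩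
  · intro o ho
    obtain ⟨q, hq, rfl⟩ := Finset.mem_image.1 ho
    rw [hψ]
    exact F.clb_prim hk hα hr l q.2 (hT q hq).1
  · intro o ho o' ho' hoo
    obtain ⟨q, hq, rfl⟩ := Finset.mem_image.1 ho
    obtain ⟨q', hq', rfl⟩ := Finset.mem_image.1 ho'
    rw [hinj q hq q' hq' hoo]
  · intro o ho
    obtain ⟨q, hq, rfl⟩ := Finset.mem_image.1 ho
    rw [hψ]
    exact hE q.2 (hT q hq).2 q.1 (hT q hq).1
  · rw [Finset.sum_image (fun q hq q' hq' he => hinj q hq q' hq' (by rw [he])),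
      Finset.sum_product, hψ]
    have h3 : ∀ m ∈ Finset.range M, 99 / 100 * S ≤
        ∑ j ∈ Finset.range N, P.rh (F.f ^ j * ((F.f ^ l)⁻¹ * (k ^ m * (F.f ^ l * α)))) := by
      intro m hm'
      rw [hM, Finset.mem_range] at hm'
      rw [hS, Finset.mul_sum]
      exact Finset.sum_le_sum fun j _ => (F.clb_rho hk hαG hb hr l j hm'.le).1
    have h4 := Finset.card_nsmul_le_sum (Finset.range M) _ (99 / 100 * S) h3
    rw [Finset.card_range, nsmul_eq_mul] at h4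
    have h5 : (M : ℝ) = 10000 := by rw [hM]; norm_num
    rw [h5] at h4
    refine le_trans ?_ h4
    linarith

end Pool.Agent.H42.EM
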