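/-
DST : the normalised distance E.

PROOFS.  D g = sInf of D-set (g) := {κ | ∃ h ∈ G, h a = g a, h b = g b, C h κ}, which is bounded below by 1 (one_le) and
contains 101/100 W (P.rep).  E g = D g / W.
* E_congr: if g a = h a + k then g b = h b + k (b_congr) and h' ↦ T^k * h' maps D-set (h) into D-set (g) (cst_T), and back.
* E_one: 1 ∈ D-set (1), so E 1 ≤ 1 / W ≤ 1/1000.
* E_step: if κ ∈ D-set (g) with h, then κ + rho (s h) ∈ D-set (s g) (cst_step), rho (s h) = rho (s g) and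
  s (g b) - s (g a) ≤ B (g b - g a) (mean value theorem, P.hBs).  So E (s g) ≤ E g + B rh g / W.  Conversely with s⁻¹ ∈ S:
  κ ∈ D-set (s g), h ↦ κ + rho (s⁻¹ h) = κ + rho g ∈ D-set (g), rho g ≤ B rho g.
* E_comp: κ₁ ∈ D-set (x) with h: comp gives κ₁ + 101/100 rho x κ ∈ D-set (g * x) (rho h = rho x, (g*h) a = (g*x) a).
  Conversely κ₁ ∈ D-set (g * x) with h: y := g⁻¹ * h has y a = x a, y b = x b, g * y = h, back gives
  κ₁ + 101/100 rho x κ ∈ D-set (x).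
-/
import Pool.Agent.H42.EZ.Cmp

set_option autoImplicit false

namespace Pool.Agent.H42.EM

open Set

variable {A : Sys}

private def Dst_D (P : Gp A) (g : Equiv.Perm ℝ) : Set ℝ :=
  {κ | ∃ h ∈ A.G, h P.a = g P.a ∧ h P.b = g P.b ∧ P.C h κ}

private lemma Dst_E (P : Gp A) (g : Equiv.Perm ℝ) : P.E g = sInf (Dst_D P g) / P.W := rfl

private lemma Dst_W (P : Gp A) : 0 < P.W := lt_of_lt_of_le (by norm_num) P.hW

private lemma Dst_one_le (P : Gp A) {g : Equiv.Perm ℝ} {κ : ℝ} (h : κ ∈ Dst_D P g) : 1 ≤ κ := by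
  obtain ⟨h', _, _, _, hc⟩ := h
  exact P.one_le hc

private lemma Dst_bdd (P : Gp A) (g : Equiv.Perm ℝ) : BddBelow (Dst_D P g) :=
  ⟨1, fun _ h => Dst_one_le P h⟩

private lemma Dst_ne (P : Gp A) {g : Equiv.Perm ℝ} (hg : g ∈ A.G) : (Dst_D P g).Nonempty := by
  obtain ⟨h, hh, h1, h2, h3⟩ := P.rep g hg
  exact ⟨_, h, hh, h1, h2, h3⟩

private lemma Dst_le (P : Gp A) {x y : Equiv.Perm ℝ} {δ : ℝ} (hx : x ∈ A.G)
    (h : ∀ κ ∈ Dst_D P x, κ + δ ∈ Dst_D P y) : sInf (Dst_D P y) ≤ sInf (Dst_D P x) + δ := by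
  have h1 : sInf (Dst_D P y) - δ ≤ sInf (Dst_D P x) := by
    refine le_csInf (Dst_ne P hx) fun κ hκ => ?_
    have := csInf_le (Dst_bdd P y) (h κ hκ)
    linarith
  linarith

private lemma Dst_abs (P : Gp A) {x y : Equiv.Perm ℝ} {δ : ℝ}
    (h1 : sInf (Dst_D P y) ≤ sInf (Dst_D P x) + δ) (h2 : sInf (Dst_D P x) ≤ sInf (Dst_D P y) + δ) :
    |P.E y - P.E x| ≤ δ / P.W := by
  have hW := Dst_W P
  rw [Dst_E, Dst_E, ← sub_div, abs_div, abs_of_pos hW]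
  refine div_le_div_of_nonneg_right ?_ hW.le
  rw [abs_le]
  constructor <;> linarith

private lemma Dst_sub (P : Gp A) {g h : Equiv.Perm ℝ} {k : ℤ} (e : g P.a = h P.a + k)
    (e' : g P.b = h P.b + k) : Dst_D P h ⊆ Dst_D P g := by
  rintro κ ⟨h', hh', h1, h2, h3⟩
  refine ⟨T ^ k * h', A.G.mul_mem (A.G.zpow_mem A.T_mem k) hh', ?_, ?_, P.cst_T h3 k⟩
  · rw [Equiv.Perm.mul_apply, T_zpow, h1, e]
  · rw [Equiv.Perm.mul_apply, T_zpow, h2, e']

private lemma Dst_rh_step (P : Gp A) {g s : Equiv.Perm ℝ} (hg : g ∈ A.G) (hs : s ∈ A.S)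
    (hsG : s ∈ A.G) : P.rh (s * g) ≤ P.B * P.rh g := by
  have hab := P.ab
  have hgab : g P.a < g P.b := (A.good hg).mono hab
  obtain ⟨ξ, _, h1⟩ := (A.good hsG).mvt hgab
  have h2 := P.hBs s hs ξ
  have h3 : s (g P.b) - s (g P.a) ≤ P.B * (g P.b - g P.a) := by
    rw [h1]
    exact mul_le_mul_of_nonneg_right h2 (by linarith)
  have hd : 0 < P.b - P.a := by linarith
  change (s (g P.b) - s (g P.a)) / (P.b - P.a) ≤ P.B * ((g P.b - g P.a) / (P.b - P.a))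
  rw [← mul_div_assoc]
  exact div_le_div_of_nonneg_right h3 hd.le

lemma Gp.E_nonneg (P : Gp A) (g : Equiv.Perm ℝ) : 0 ≤ P.E g := by
  rw [Dst_E]
  refine div_nonneg (Real.sInf_nonneg fun κ hκ => ?_) (Dst_W P).le
  have := Dst_one_le P hκ
  linarith

lemma Gp.E_congr (P : Gp A) {g h : Equiv.Perm ℝ} (hg : g ∈ A.G) (hh : h ∈ A.G) {k : ℤ}
    (e : g P.a = h P.a + k) : P.E g = P.E h := by
  have e' := P.b_congr hg hh e
  have h1 := Dst_sub P e e'
  have h2 : Dst_D P g ⊆ Dst_D P h := by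
    refine Dst_sub P (k := -k) ?_ ?_
    · rw [e]
      push_cast
      ring
    · rw [e']
      push_cast
      ring
  rw [Dst_E, Dst_E, Set.Subset.antisymm h1 h2]

lemma Gp.E_one (P : Gp A) : P.E 1 ≤ 1 / 1000 := by
  have h1 : (1 : ℝ) ∈ Dst_D P 1 := ⟨1, A.G.one_mem, rfl, rfl, P.cst_one⟩
  have h2 := csInf_le (Dst_bdd P 1) h1
  have hW := P.hW
  rw [Dst_E, div_le_div_iff₀ (Dst_W P) (by norm_num)]
  nlinarith

lemma Gp.E_step (P : Gp A) {g s : Equiv.Perm ℝ} (hg : g ∈ A.G) (hs : s ∈ A.S) :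
    |P.E (s * g) - P.E g| ≤ P.B * P.rh g / P.W := by
  have hsG : s ∈ A.G := A.S_mem hs
  have hr := P.rh_pos hg
  refine Dst_abs P ?_ ?_
  · have h1 := Dst_rh_step P hg hs hsG
    have h2 : sInf (Dst_D P (s * g)) ≤ sInf (Dst_D P g) + P.rh (s * g) := by
      refine Dst_le P hg ?_
      rintro κ ⟨h, hh, ha, hb, hc⟩
      have h3 := P.cst_step hs hc
      have h4 : P.rh (s * h) = P.rh (s * g) := by
        refine P.rh_congr ?_ ?_
        · rw [Equiv.Perm.mul_apply, Equiv.Perm.mul_apply, ha]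
        · rw [Equiv.Perm.mul_apply, Equiv.Perm.mul_apply, hb]
      rw [h4] at h3
      refine ⟨s * h, A.G.mul_mem hsG hh, ?_, ?_, h3⟩
      · rw [Equiv.Perm.mul_apply, Equiv.Perm.mul_apply, ha]
      · rw [Equiv.Perm.mul_apply, Equiv.Perm.mul_apply, hb]
    linarith
  · have h1 : P.rh g ≤ P.B * P.rh g := by
      have := P.hB
      nlinarith
    have h2 : sInf (Dst_D P g) ≤ sInf (Dst_D P (s * g)) + P.rh g := by
      refine Dst_le P (A.G.mul_mem hsG hg) ?_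
      rintro κ ⟨h, hh, ha, hb, hc⟩
      have hs' : s⁻¹ ∈ A.S := by
        obtain ⟨i, hi | hi⟩ := hs
        · exact ⟨i, Or.inr (by rw [hi])⟩
        · exact ⟨i, Or.inl (by rw [hi, inv_inv])⟩
      have h3 := P.cst_step hs' hc
      have ea : (s⁻¹ * h) P.a = g P.a := by
        rw [Equiv.Perm.mul_apply, ha, Equiv.Perm.mul_apply]
        simp
      have eb : (s⁻¹ * h) P.b = g P.b := by
        rw [Equiv.Perm.mul_apply, hb, Equiv.Perm.mul_apply]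
        simp
      rw [P.rh_congr ea eb] at h3
      exact ⟨s⁻¹ * h, A.G.mul_mem (A.G.inv_mem hsG) hh, ea, eb, h3⟩
    linarith

lemma Gp.E_comp (P : Gp A) {g x : Equiv.Perm ℝ} {κ : ℝ} (hg : P.C g κ) (hκ : κ ≤ 100 * P.W)
    (hx : x ∈ A.G) (h1 : P.a - 39 * P.r ≤ x P.a) (h2 : x P.b ≤ P.b + 39 * P.r) :
    |P.E (g * x) - P.E x| ≤ 101 / 100 * P.rh x * κ / P.W := by
  have hgG : g ∈ A.G := Sys.Cst.mem hg
  refine Dst_abs P ?_ ?_
  · refine Dst_le P hx ?_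
    rintro κ₁ ⟨h, hh, ha, hb, hc⟩
    have h3 := P.comp hg hκ hc (by rw [ha]; exact h1) (by rw [hb]; exact h2)
    rw [P.rh_congr ha hb] at h3
    refine ⟨g * h, A.G.mul_mem hgG hh, ?_, ?_, h3⟩
    · rw [Equiv.Perm.mul_apply, Equiv.Perm.mul_apply, ha]
    · rw [Equiv.Perm.mul_apply, Equiv.Perm.mul_apply, hb]
  · refine Dst_le P (A.G.mul_mem hgG hx) ?_
    rintro κ₁ ⟨h, hh, ha, hb, hc⟩
    have ea : (g⁻¹ * h) P.a = x P.a := by
      rw [Equiv.Perm.mul_apply, ha, Equiv.Perm.mul_apply]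
      simp
    have eb : (g⁻¹ * h) P.b = x P.b := by
      rw [Equiv.Perm.mul_apply, hb, Equiv.Perm.mul_apply]
      simp
    have hc' : P.C (g * (g⁻¹ * h)) κ₁ := by
      rw [mul_inv_cancel_left]
      exact hc
    have h3 := P.back hg hκ hc' (by rw [ea]; exact h1) (by rw [eb]; exact h2)
    rw [P.rh_congr ea eb] at h3
    exact ⟨g⁻¹ * h, A.G.mul_mem (A.G.inv_mem hgG) hh, ea, eb, h3⟩

end Pool.Agent.H42.EM
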