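/-
SEP : gaps moved by a loop are moved far, relative to their size.

PROOFS.  rp x has cost ≤ 101/100 W (F.cst), the same values at a and b as x (F.ha, F.hb), so rh (rp x) = rh x, and it is
controlled (ctl_of).  [P.a - 7 r, P.a] and [P.b, P.b + 7 r] lie in K.
* sep: x' := h * x, rh x' ≥ e^-eps rh x (Lop.rh_lo), e^-eps ≥ 0.999.
  Case h (x a) > x a: (sep_or for x, h * x) x b ≤ h (x a).  g := rp x, g' := rp (h * x).  If g' a < g (b + 7r), then F.dd gives
   g b < g' (a - 7r), so h (x a) - x a ≥ g' a - g b ≥ g' a - g' (a - 7r) ≥ 0.999 * 7 r * rh x' (aff) ≥ 6 r rh x.  Otherwise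
   h (x a) - x a ≥ g' a - g b ≥ g (b + 7r) - g b ≥ 0.999 * 7 r * rh x.
  Case h (x a) < x a: (h x) b ≤ x a; exchange the roles of x and h * x.
* rho_le: dd with g = 1 (cst_one, 1 ≤ 3 W), g' = rp x: b < (rp x) (a - 7r), x a - b ≥ rp x a - rp x (a - 7 r) ≥ 0.999 * 7 r rh x.
* rho_mov: sep, and |h (x a) - x a| ≤ 2 eps (x a - b) (Lop.disp), divide by 2.
* rho_eps: rho_mov with h = f (x a ≠ b by lt_of_le applied to 1, x; x a ≤ v; F.free).
* sum_rho: induction on n, sep with h = f, x := f^i * x: the positions decrease (f_le): (f^i * x) b ≤ x b ≤ b + 8r,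
  b < (f^i * x) a;  |f (x_i a) - x_i a| = x_i a - f (x_i a).
-/
import Pool.Agent.H42.EZ.Fpw

set_option autoImplicit false

namespace Pool.Agent.H42.EM

open Set

variable {A : Sys} {P : Gp A}

lemma Fd.Sep_rp (F : Fd P) {x : Equiv.Perm ℝ} (hx : x ∈ A.G) {u v : ℝ}
    (hu : P.a - 40 * P.r ≤ u) (huv : u ≤ v) (hv : v ≤ P.b + 40 * P.r) :
    999 / 1000 * P.rh x * (v - u) ≤ F.rp x v - F.rp x u := by
  have hW := P.hW
  have h1 := P.aff (F.mem x hx) (P.ctl_of (F.cst x hx) (by linarith)) hu huv hv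
  rw [P.rh_congr (F.ha x hx) (F.hb x hx)] at h1
  exact h1.1

lemma Fd.Sep_far (F : Fd P) {x y : Equiv.Perm ℝ} (hx : x ∈ A.G) (hy : y ∈ A.G)
    (h : x P.b ≤ y P.a) : 999 / 1000 * P.rh x * (7 * P.r) ≤ y P.a - x P.b ∨
      999 / 1000 * P.rh y * (7 * P.r) ≤ y P.a - x P.b := by
  have hr := P.hr
  have hW := P.hW
  have hab := P.ab
  have hxb := F.hb x hx
  have hya := F.ha y hy
  by_cases h1 : F.rp y P.a < F.rp x (P.b + 7 * P.r)
  · right
    have h2 := F.dd (F.rp x) (F.mem x hx) (F.rp y) (F.mem y hy)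
      ((F.cst x hx).mono (by linarith)) ((F.cst y hy).mono (by linarith))
      (by rw [hxb, hya]; exact h) h1
    have h3 := F.Sep_rp hy (u := P.a - 7 * P.r) (v := P.a) (by linarith) (by linarith) (by linarith)
    rw [hxb] at h2
    rw [hya] at h3
    have h4 : P.a - (P.a - 7 * P.r) = 7 * P.r := by ring
    rw [h4] at h3
    linarith
  · left
    have h3 := F.Sep_rp hx (u := P.b) (v := P.b + 7 * P.r) (by linarith) (by linarith) (by linarith)
    rw [hxb] at h3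
    rw [hya] at h1
    have h4 : P.b + 7 * P.r - P.b = 7 * P.r := by ring
    rw [h4] at h3
    linarith

theorem Fd.sep (F : Fd P) {h x : Equiv.Perm ℝ} {κ : ℝ} (hh : P.Lop h κ) (hκ : κ ≤ 100 * P.W)
    (hx : x ∈ A.G) (h1 : P.b ≤ x P.a) (h2 : x P.b ≤ P.b + 8 * P.r) (hm : h (x P.a) ≠ x P.a) :
    6 * P.rh x * P.r ≤ |h (x P.a) - x P.a| := by
  obtain ⟨he1, he2, he3, he4⟩ := exp_eps
  have hr := P.hr
  have hab := P.ab
  have hy : h * x ∈ A.G := mul_mem hh.1 hx
  have hxm : x P.a ≤ x P.b := (A.good hx).mono.monotone hab.le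
  have hym : (h * x) P.a ≤ (h * x) P.b := (A.good hy).mono.monotone hab.le
  have hya : (h * x) P.a = h (x P.a) := rfl
  have hrx := P.rh_pos hx
  have hlo := hh.rh_lo hκ hx (by linarith) (by linarith)
  have hep : (999 : ℝ) / 1000 ≤ Real.exp (-eps) := by
    refine le_trans ?_ he2
    unfold eps
    norm_num
  have hlo' : 999 / 1000 * P.rh x ≤ P.rh (h * x) :=
    (mul_le_mul_of_nonneg_right hep hrx.le).trans hlo
  have hx6 : 6 * P.rh x * P.r ≤ 999 / 1000 * P.rh x * (7 * P.r) := by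
    nlinarith [mul_pos hrx hr]
  have hy6 : 6 * P.rh x * P.r ≤ 999 / 1000 * P.rh (h * x) * (7 * P.r) := by
    have h3 : 999 / 1000 * P.rh x * P.r ≤ P.rh (h * x) * P.r :=
      mul_le_mul_of_nonneg_right hlo' hr.le
    nlinarith [mul_pos hrx hr]
  rcases P.sep_or hx hy with h3 | h3 | h3
  · exact absurd (hya ▸ h3.1.symm) hm
  · have h4 : h (x P.a) - x P.a ≤ |h (x P.a) - x P.a| := le_abs_self _
    rcases F.Sep_far hx hy h3 with h5 | h5
    · rw [hya] at h5
      linarith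
    · rw [hya] at h5
      linarith
  · have h4 : -(h (x P.a) - x P.a) ≤ |h (x P.a) - x P.a| := neg_le_abs _
    rcases F.Sep_far hy hx h3 with h5 | h5
    · rw [hya] at hym
      linarith
    · rw [hya] at hym
      linarith

theorem Fd.rho_le (F : Fd P) {x : Equiv.Perm ℝ} (hx : x ∈ A.G) (h1 : P.b ≤ x P.a)
    (h2 : x P.a < P.b + 7 * P.r) : 6 * P.rh x * P.r ≤ x P.a - P.b := by
  have hr := P.hr
  have hW := P.hW
  have hab := P.ab
  have hxa := F.ha x hx
  have hrx := P.rh_pos hx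
  have h3 := F.dd 1 (one_mem _) (F.rp x) (F.mem x hx) (P.cst_one.mono (by linarith))
    ((F.cst x hx).mono (by linarith)) (by rw [hxa]; exact h1) (by rw [hxa]; exact h2)
  have h4 := F.Sep_rp hx (u := P.a - 7 * P.r) (v := P.a) (by linarith) (by linarith) (by linarith)
  have h5 : P.a - (P.a - 7 * P.r) = 7 * P.r := by ring
  rw [hxa, h5] at h4
  rw [Equiv.Perm.one_apply] at h3
  nlinarith [mul_pos hrx hr]

theorem Fd.rho_mov (F : Fd P) {h x : Equiv.Perm ℝ} {κ : ℝ} (hh : P.Lop h κ) (hκ : κ ≤ 100 * P.W)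
    (hx : x ∈ A.G) (h1 : P.b ≤ x P.a) (h2 : x P.b ≤ P.b + 8 * P.r) (hm : h (x P.a) ≠ x P.a) :
    3 * P.rh x * P.r ≤ eps * (x P.a - P.b) := by
  have hr := P.hr
  have hab := P.ab
  have hxm : x P.a ≤ x P.b := (A.good hx).mono.monotone hab.le
  have h3 := F.sep hh hκ hx h1 h2 hm
  have h4 := hh.disp hκ h1 (by linarith)
  linarith

lemma Fd.Sep_free (F : Fd P) {x : Equiv.Perm ℝ} (hx : x ∈ A.G) (h1 : P.b ≤ x P.a)
    (h2 : x P.b ≤ P.b + 8 * P.r) : F.f (x P.a) < x P.a := by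
  have hxm : x P.a ≤ x P.b := (A.good hx).mono.monotone P.ab.le
  have h3 : P.b < x P.a := P.lt_of_le (g := 1) (one_mem _) hx h1
  exact F.free _ ⟨h3, by linarith [F.hv1]⟩

theorem Fd.rho_eps (F : Fd P) {x : Equiv.Perm ℝ} (hx : x ∈ A.G) (h1 : P.b ≤ x P.a)
    (h2 : x P.b ≤ P.b + 8 * P.r) : 3 * P.rh x * P.r ≤ eps * (x P.a - P.b) := by
  have hW := P.hW
  exact F.rho_mov F.hf (by linarith) hx h1 h2 (F.Sep_free hx h1 h2).ne

theorem Fd.sum_rho (F : Fd P) {x : Equiv.Perm ℝ} (hx : x ∈ A.G) (h1 : P.b ≤ x P.a)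
    (h2 : x P.b ≤ P.b + 8 * P.r) (n : ℕ) :
    6 * P.r * ∑ i ∈ Finset.range n, P.rh (F.f ^ i * x) ≤ x P.a - (F.f ^ n * x) P.a := by
  have hW := P.hW
  have hr := P.hr
  have hxm : x P.a ≤ x P.b := (A.good hx).mono.monotone P.ab.le
  induction n with
  | zero => simp
  | succ n ih =>
    rw [Finset.sum_range_succ, mul_add]
    have hy : F.f ^ n * x ∈ A.G := mul_mem (F.fG n) hx
    have h3 : P.b ≤ (F.f ^ n * x) P.a := by
      rw [Equiv.Perm.mul_apply]
      exact F.f_ge n h1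
    have h4 : (F.f ^ n * x) P.b ≤ P.b + 8 * P.r := by
      rw [Equiv.Perm.mul_apply]
      refine le_trans (F.f_le n (h1.trans hxm) ?_) h2
      linarith [F.hv1]
    have h5 := F.Sep_free hy h3 h4
    have h6 := F.sep F.hf (by linarith) hy h3 h4 h5.ne
    rw [abs_of_neg (by linarith)] at h6
    have h7 : (F.f ^ (n + 1) * x) P.a = F.f ((F.f ^ n * x) P.a) := by
      rw [pow_succ', mul_assoc, Equiv.Perm.mul_apply]
    rw [h7]
    linarith

end Pool.Agent.H42.EM
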