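/-
VIT : elementary facts on finite families of intervals.   (Pure real analysis, Mathlib only.)

PROOFS.
* disj_len: the intervals Ioo (c i) (d i) are pairwise disjoint and contained in Icc lo hi; measures (see gap_disj in EM/Gap.lean for the same
  statement with hi = lo + 1).
* cover_len: Ioc α β ⊆ ⋃_{p ∈ Q} Icc (p.1 - p.2) (p.1 + p.2), measures (measure_biUnion_finset_le, Real.volume_Ioc, Real.volume_Icc).
* vitali_fin: strong induction on the cardinality of Q.  Q = ∅: R = ∅.  Otherwise let q ∈ Q have maximal p.2 (Finset.exists_max_image),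
  Q' := {p ∈ Q | q.2 + p.2 < |p.1 - q.1|} (smaller, q ∉ Q' since q.2 > 0), R' for Q', R := insert q R'.  For p ∈ Q \ Q':
  |p.1 - q.1| + p.2 ≤ q.2 + p.2 + p.2 ≤ 3 q.2.
-/
import Mathlib

set_option autoImplicit false

namespace Pool.Agent.H42.EM

open Set MeasureTheory

lemma disj_len {ι : Type} (s : Finset ι) (c d : ι → ℝ) {lo hi : ℝ} (hlh : lo ≤ hi)
    (hle : ∀ i ∈ s, c i ≤ d i) (h1 : ∀ i ∈ s, lo ≤ c i) (h2 : ∀ i ∈ s, d i ≤ hi)
    (hd : ∀ i ∈ s, ∀ j ∈ s, i ≠ j → d i ≤ c j ∨ d j ≤ c i) :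
    ∑ i ∈ s, (d i - c i) ≤ hi - lo := by
  have hpd : (s : Set ι).PairwiseDisjoint fun i => Ioo (c i) (d i) := by
    intro i hi j hj hij
    rw [Function.onFun, Set.disjoint_left]
    intro x hx hx'
    rcases hd i hi j hj hij with h | h
    · exact absurd hx.2 (not_lt.2 (h.trans hx'.1.le))
    · exact absurd hx'.2 (not_lt.2 (h.trans hx.1.le))
  have hsub : (⋃ i ∈ s, Ioo (c i) (d i)) ⊆ Icc lo hi := by
    intro x hx
    simp only [mem_iUnion] at hx
    obtain ⟨i, hi, hx⟩ := hx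
    exact ⟨(h1 i hi).trans hx.1.le, hx.2.le.trans (h2 i hi)⟩
  have hm := measure_mono (μ := volume) hsub
  rw [measure_biUnion_finset hpd fun i _ => measurableSet_Ioo, Real.volume_Icc] at hm
  simp only [Real.volume_Ioo] at hm
  rw [← ENNReal.ofReal_sum_of_nonneg fun i hi => by linarith [hle i hi]] at hm
  exact (ENNReal.ofReal_le_ofReal_iff (by linarith)).1 hm

lemma cover_len {Q : Finset (ℝ × ℝ)} {α β : ℝ} (hαβ : α ≤ β) (h0 : ∀ p ∈ Q, 0 ≤ p.2)
    (h : ∀ t, α < t → t ≤ β → ∃ p ∈ Q, |t - p.1| ≤ p.2) : β - α ≤ ∑ p ∈ Q, 2 * p.2 := by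
  have hsub : Ioc α β ⊆ ⋃ p ∈ Q, Icc (p.1 - p.2) (p.1 + p.2) := by
    intro t ht
    obtain ⟨p, hp, hpt⟩ := h t ht.1 ht.2
    simp only [mem_iUnion]
    rw [abs_le] at hpt
    exact ⟨p, hp, by linarith, by linarith⟩
  have hm := (measure_mono (μ := volume) hsub).trans (measure_biUnion_finset_le Q _)
  rw [Real.volume_Ioc] at hm
  simp only [Real.volume_Icc] at hm
  rw [← ENNReal.ofReal_sum_of_nonneg fun p hp => by linarith [h0 p hp]] at hm
  have h3 : ∑ p ∈ Q, (p.1 + p.2 - (p.1 - p.2)) = ∑ p ∈ Q, 2 * p.2 :=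
    Finset.sum_congr rfl fun p _ => by ring
  rw [h3] at hm
  exact (ENNReal.ofReal_le_ofReal_iff (Finset.sum_nonneg fun p hp => by
    linarith [h0 p hp])).1 hm

lemma vitali_fin (Q : Finset (ℝ × ℝ)) (h0 : ∀ p ∈ Q, 0 < p.2) :
    ∃ R ⊆ Q, (∀ p ∈ R, ∀ q ∈ R, p ≠ q → p.2 + q.2 < |p.1 - q.1|) ∧
      ∀ p ∈ Q, ∃ q ∈ R, |p.1 - q.1| + p.2 ≤ 3 * q.2 := by
  classical
  induction hn : Q.card using Nat.strong_induction_on generalizing Q with
  | _ n ih =>
    subst hn
    rcases Q.eq_empty_or_nonempty with rfl | hne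
    · exact ⟨∅, Finset.Subset.refl _, by simp, by simp⟩
    · obtain ⟨q, hq, hmax⟩ := Finset.exists_max_image Q (fun p => p.2) hne
      set Q' := Q.filter fun p => q.2 + p.2 < |p.1 - q.1| with hQ'
      have hqQ' : q ∉ Q' := by
        rw [hQ', Finset.mem_filter]
        rintro ⟨_, h1⟩
        rw [sub_self, abs_zero] at h1
        linarith [h0 q hq]
      have hsub : Q' ⊆ Q := Finset.filter_subset _ _
      have hcard : Q'.card < Q.card :=
        Finset.card_lt_card ⟨hsub, fun h => hqQ' (h hq)⟩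
      obtain ⟨R, hR, h1, h2⟩ := ih _ hcard Q' (fun p hp => h0 p (hsub hp)) rfl
      have hsep : ∀ p ∈ R, q.2 + p.2 < |p.1 - q.1| := fun p hp =>
        (Finset.mem_filter.1 (hR hp)).2
      refine ⟨insert q R, ?_, ?_, ?_⟩
      · exact Finset.insert_subset hq (hR.trans hsub)
      · intro p hp p' hp' hpp'
        rw [Finset.mem_insert] at hp hp'
        rcases hp with rfl | hp
        · rcases hp' with rfl | hp'
          · exact absurd rfl hpp'
          · rw [abs_sub_comm]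
            exact hsep p' hp'
        · rcases hp' with rfl | hp'
          · rw [add_comm]
            exact hsep p hp
          · exact h1 p hp p' hp' hpp'
      · intro p hp
        by_cases hpQ : p ∈ Q'
        · obtain ⟨q', hq', h3⟩ := h2 p hpQ
          exact ⟨q', Finset.mem_insert_of_mem hq', h3⟩
        · refine ⟨q, Finset.mem_insert_self _ _, ?_⟩
          have h3 : |p.1 - q.1| ≤ q.2 + p.2 := by
            by_contra hc
            exact hpQ (Finset.mem_filter.2 ⟨hp, not_le.1 hc⟩)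
          have h4 := hmax p hp
          linarith

end Pool.Agent.H42.EM
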