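/-
PCK : packing of primitive letters.

PROOFS.  For o ∈ O put c o := o b, d o := rp o (b + 9/10 r).  d o - c o ≥ 0.999 * 9/10 r rh o (aff for rp o, cost 101/100 W; (rp o) b = o b).
 For o ≠ o' in O: o a ≠ o' a, so o b ≤ o' a or o' b ≤ o a (sep_or); in the first case Prim (9/10) o' with u := o (b ≤ o a) gives d o ≤ o' a ≤ c o'.
* pck: b ≤ c o; rh o ≤ 1/3 (rho_le: 6 rh r ≤ o a - b < 2r), d o ≤ o b + 1.001 * 9/10 r / 3, o b ≤ o a + eps r: d o ≤ b + 5/2 r.  disj_len with
  lo = b, hi = b + 5/2 r: 0.899 r ∑ rh o ≤ 5/2 r.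
* pck_out: lo := (f^5) (b + r), hi := (f^5)⁻¹ (b + r) + eps r.  c o ≥ o a ≥ lo.  o a < (f^5)⁻¹ (b + r).  rho_eps: rh o ≤ eps * 2/3 (o a - b < 2r), so
  d o ≤ o a + eps² r + 1.001 * 9/10 * 2/3 eps r ≤ o a + eps r.  hi - lo: (b + r) - (f^5)(b + r) ≤ 5 * 2 eps r (X_le, five times, points in [b, b + r]),
  (f^5)⁻¹ (b + r) - (b + r) ≤ 5 * 2 eps * 101/100 r (the points (f^i)⁻¹ (b + r), i ≤ 5, are ≤ b + 101/100 r by up_le).  So hi - lo ≤ 22 eps r and
  0.899 r ∑ rh o ≤ 22 eps r.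
-/
import Pool.Agent.H42.EZ.Vit
import Pool.Agent.H42.EZ.Sep

set_option autoImplicit false

namespace Pool.Agent.H42.EM

open Set

variable {A : Sys} {P : Gp A}

lemma Fd.Pck_up (F : Fd P) {x : Equiv.Perm ℝ} (hx : x ∈ A.G) {u v : ℝ}
    (hu : P.a - 40 * P.r ≤ u) (huv : u ≤ v) (hv : v ≤ P.b + 40 * P.r) :
    F.rp x v - F.rp x u ≤ 1001 / 1000 * P.rh x * (v - u) := by
  have hW := P.hW
  have h1 := P.aff (F.mem x hx) (P.ctl_of (F.cst x hx) (by linarith)) hu huv hv
  rw [P.rh_congr (F.ha x hx) (F.hb x hx)] at h1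
  exact h1.2

lemma Fd.Pck_main (F : Fd P) (O : Finset (Equiv.Perm ℝ)) (h : ∀ o ∈ O, F.Prim (9 / 10) o)
    (hne : ∀ o ∈ O, ∀ o' ∈ O, o P.a = o' P.a → o = o') {lo hi : ℝ} (hlh : lo ≤ hi)
    (hlo : ∀ o ∈ O, lo ≤ o P.b) (hhi : ∀ o ∈ O, F.rp o (P.b + 9 / 10 * P.r) ≤ hi) :
    899 / 1000 * P.r * ∑ o ∈ O, P.rh o ≤ hi - lo := by
  have hr := P.hr
  have hab := P.ab
  have h1 : ∀ o ∈ O, 899 / 1000 * P.r * P.rh o ≤ F.rp o (P.b + 9 / 10 * P.r) - o P.b := by
    intro o ho
    have hoG := (h o ho).1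
    have h2 := F.Sep_rp hoG (u := P.b) (v := P.b + 9 / 10 * P.r) (by linarith) (by linarith)
      (by linarith)
    rw [F.hb o hoG] at h2
    have h3 := P.rh_pos hoG
    have h4 : 0 < P.rh o * P.r := mul_pos h3 hr
    nlinarith
  have h2 := disj_len O (fun o => o P.b) (fun o => F.rp o (P.b + 9 / 10 * P.r)) hlh
    (fun o ho => by
      have h3 := h1 o ho
      have h4 : 0 < 899 / 1000 * P.r * P.rh o := by
        have := P.rh_pos (h o ho).1
        positivity
      linarith) hlo hhi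
    (fun o ho o' ho' hoo' => by
      have hoG := (h o ho).1
      have hoG' := (h o' ho').1
      have m1 : o P.a ≤ o P.b := (A.good hoG).mono.monotone hab.le
      have m2 : o' P.a ≤ o' P.b := (A.good hoG').mono.monotone hab.le
      rcases P.sep_or hoG hoG' with h3 | h3 | h3
      · exact absurd (hne o ho o' ho' h3.1) hoo'
      · left
        have := (h o' ho').2.2.2 o hoG (h o ho).2.1.le h3
        linarith
      · right
        have := (h o ho).2.2.2 o' hoG' (h o' ho').2.1.le h3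
        linarith)
  rw [Finset.mul_sum]
  exact (Finset.sum_le_sum h1).trans h2

lemma Fd.Pck_d (F : Fd P) {o : Equiv.Perm ℝ} (h : F.Prim (9 / 10) o) :
    o P.b ≤ o P.a + P.rh o * (eps * P.r) ∧
      F.rp o (P.b + 9 / 10 * P.r) ≤ o P.b + 901 / 1000 * (P.rh o * P.r) := by
  have hr := P.hr
  have hab := P.ab
  have hoG := h.1
  have h3 := P.rh_pos hoG
  have h4 : 0 < P.rh o * P.r := mul_pos h3 hr
  constructor
  · have h1 := P.rh_mul o
    have h2 := mul_le_mul_of_nonneg_left P.hJ h3.le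
    linarith
  · have h2 := F.Pck_up hoG (u := P.b) (v := P.b + 9 / 10 * P.r) (by linarith) (by linarith)
      (by linarith)
    rw [F.hb o hoG] at h2
    nlinarith

lemma Fd.Pck_drop (F : Fd P) {t : ℝ} (h1 : P.b ≤ t) (h2 : t ≤ P.b + 8 * P.r) (n : ℕ) :
    t - (F.f ^ n) t ≤ n * (2 * eps * (t - P.b)) := by
  have hr := P.hr
  have hv := F.hv1
  have hep := eps_pos
  induction n with
  | zero => simp
  | succ n ih =>
    rw [ITR_pow_succ_apply']
    have h3 := F.f_ge n h1
    have h4 := F.f_le n h1 (by linarith)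
    have h5 := F.X_le h3 (by linarith)
    have h6 : 2 * eps * ((F.f ^ n) t - P.b) ≤ 2 * eps * (t - P.b) :=
      mul_le_mul_of_nonneg_left (by linarith) (by linarith)
    rw [Nat.cast_succ]
    linarith

theorem Fd.pck (F : Fd P) (O : Finset (Equiv.Perm ℝ)) (h : ∀ o ∈ O, F.Prim (9 / 10) o)
    (hne : ∀ o ∈ O, ∀ o' ∈ O, o P.a = o' P.a → o = o') : ∑ o ∈ O, P.rh o ≤ 4 := by
  have hr := P.hr
  have hab := P.ab
  have hep := eps_pos
  have hep1 : eps ≤ 1 / 10 ^ 8 := le_refl _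
  have hmain := F.Pck_main O h hne (lo := P.b) (hi := P.b + 5 / 2 * P.r) (by linarith)
    (fun o ho => by
      have m1 : o P.a ≤ o P.b := (A.good (h o ho).1).mono.monotone hab.le
      linarith [(h o ho).2.1])
    (fun o ho => by
      have hp := h o ho
      obtain ⟨h1, h2⟩ := F.Pck_d hp
      have h3 := F.rho_le hp.1 hp.2.1.le (by linarith [hp.2.2.1])
      have h4 := P.rh_pos hp.1
      have h5 : P.rh o * P.r ≤ 1 / 3 * P.r := by linarith [hp.2.2.1]
      have h6 : P.rh o * (eps * P.r) ≤ 1 / 100 * P.r := by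
        have h7 : P.rh o * (eps * P.r) = eps * (P.rh o * P.r) := by ring
        rw [h7]
        have h8 : eps * (P.rh o * P.r) ≤ 1 / 100 * (P.rh o * P.r) :=
          mul_le_mul_of_nonneg_right (by linarith) (by positivity)
        linarith
      linarith [hp.2.2.1])
  have h1 : P.b + 5 / 2 * P.r - P.b = 899 / 1000 * P.r * (2500 / 899) := by ring
  rw [h1] at hmain
  have h2 := le_of_mul_le_mul_left hmain (by positivity)
  linarith

theorem Fd.pck_out (F : Fd P) (O : Finset (Equiv.Perm ℝ)) (h : ∀ o ∈ O, F.Out o)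
    (hne : ∀ o ∈ O, ∀ o' ∈ O, o P.a = o' P.a → o = o') : ∑ o ∈ O, P.rh o ≤ 30 * eps := by
  have hr := P.hr
  have hab := P.ab
  have hv := F.hv1
  have hep := eps_pos
  have hep1 : eps ≤ 1 / 10 ^ 8 := le_refl _
  have her : 0 < eps * P.r := mul_pos hep hr
  set s := (F.f ^ 5)⁻¹ (P.b + P.r) with hs
  have hsf : (F.f ^ 5) s = P.b + P.r := by rw [hs]; simp
  have hsb : P.b ≤ s := F.finv_ge 5 (by linarith)
  have hs1 : s ≤ P.b + 101 / 100 * P.r := by
    have := F.up_le (n := 5) (by norm_num) (s := P.b + P.r) (by linarith) (by linarith)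
    linarith
  have hs2 : P.b + P.r ≤ s := by
    rw [← hsf]
    exact F.f_le 5 hsb (by linarith)
  have hlo2 : (F.f ^ 5) (P.b + P.r) ≤ P.b + P.r := F.f_le 5 (by linarith) (by linarith)
  have hmain := F.Pck_main O (fun o ho => (h o ho).1) hne (lo := (F.f ^ 5) (P.b + P.r))
    (hi := s + eps * P.r) (by linarith)
    (fun o ho => by
      have m1 : o P.a ≤ o P.b := (A.good (h o ho).1.1).mono.monotone hab.le
      linarith [(h o ho).2.1])
    (fun o ho => by
      have hp := (h o ho).1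
      obtain ⟨h1, h2⟩ := F.Pck_d hp
      have h4 := P.rh_pos hp.1
      have h6 : P.rh o * (eps * P.r) ≤ 1 * (eps * P.r) :=
        mul_le_mul_of_nonneg_right (P.rh_le hp.1) her.le
      have h7 : eps * P.r ≤ 1 / 100 * P.r := mul_le_mul_of_nonneg_right (by linarith) hr.le
      have h3 := F.rho_eps hp.1 hp.2.1.le (by linarith [hp.2.2.1])
      have h5 : P.rh o * P.r ≤ 2 / 3 * (eps * P.r) := by
        have h8 : eps * (o P.a - P.b) ≤ eps * (2 * P.r) :=
          mul_le_mul_of_nonneg_left (by linarith [hp.2.2.1]) hep.le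
        linarith
      have h9 : P.rh o * (eps * P.r) ≤ 1 / 100 * (eps * P.r) := by
        have h10 : P.rh o * (eps * P.r) = eps * (P.rh o * P.r) := by ring
        rw [h10]
        have h11 : eps * (P.rh o * P.r) ≤ 1 / 100 * (P.rh o * P.r) :=
          mul_le_mul_of_nonneg_right (by linarith) (by positivity)
        linarith
      have h12 : o P.a < s := by
        have h13 := Fpw_invmono F 5 (h o ho).2.2
        rw [Fpw_ia] at h13
        exact h13
      linarith)
  have d1 := F.Pck_drop (t := P.b + P.r) (by linarith) (by linarith) 5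
  have d2 := F.Pck_drop (t := s) hsb (by linarith) 5
  rw [hsf] at d2
  have d3 : eps * (s - P.b) ≤ eps * (101 / 100 * P.r) :=
    mul_le_mul_of_nonneg_left (by linarith) hep.le
  have h1 : s + eps * P.r - (F.f ^ 5) (P.b + P.r) ≤ 22 * (eps * P.r) := by
    rw [show ((5 : ℕ) : ℝ) = 5 by norm_num] at d1 d2
    nlinarith
  have h2 : 899 / 1000 * P.r * ∑ o ∈ O, P.rh o ≤ 899 / 1000 * P.r * (30 * eps) := by
    have h3 : 899 / 1000 * P.r * (30 * eps) = 26970 / 1000 * (eps * P.r) := by ring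
    rw [h3]
    linarith
  exact le_of_mul_le_mul_left h2 (by positivity)

end Pool.Agent.H42.EM
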