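/-
CNO : the total length of the windows.

PROOFS.
* win_out: choose o_p for p ∈ Q.  If o_p a = o_q a then p = q (E_congr with k = 0, rh_congr, b_congr).  O := image of p ↦ o_p (injective),
  ∑_{p ∈ Q} 2 p.2 = ∑_{o ∈ O} 60 rh o ≤ 60 * 30 eps (pck_out).
* win_top: choose y_p.  If y_p a = y_q a + k then p = q (E_congr; rh: b_congr), so the image s of p ↦ y_p satisfies the hypotheses of htop and the map is
  injective: ∑ 2 p.2 = 2 B / W ∑_{y ∈ s} rh y ≤ 2/100.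
* win_clu: vitali_fin gives R ⊆ Q.  For p ∈ R choose S_p, O_p (p.2 = 10 S_p > 0).  If o ∈ O_p, o' ∈ O_q, o a = o' a, then E o = E o' (E_congr),
  |p.1 - q.1| ≤ 10 S_p + 10 S_q = p.2 + q.2, so p = q (and then o = o').  O := R.biUnion O_p: pck gives ∑_{o ∈ O} rh o ≤ 4, and
  ∑_{o ∈ O} rh o = ∑_{p ∈ R} ∑_{o ∈ O_p} rh o (Finset.sum_biUnion, the O_p are pairwise disjoint) ≥ ∑ 5000 S_p = 500 ∑_{p ∈ R} p.2.
  Q' := image of p ↦ (p.1, 3 p.2) on R.  ∑_{Q'} 2 p.2 ≤ ∑_{p ∈ R} 6 p.2 ≤ 24/500 ≤ 6/100.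
-/
import Pool.Agent.H42.EZ.Pck
import Pool.Agent.H42.EZ.Dst

set_option autoImplicit false

namespace Pool.Agent.H42.EM

open Set

variable {A : Sys} {P : Gp A}

private lemma Cno_b (P : Gp A) {g h : Equiv.Perm ℝ} (hg : g ∈ A.G) (hh : h ∈ A.G) {k : ℤ}
    (e : g P.a = h P.a + k) : P.E g = P.E h ∧ P.rh g = P.rh h := by
  refine ⟨P.E_congr hg hh e, ?_⟩
  have e' := P.b_congr hg hh e
  show (g P.b - g P.a) / (P.b - P.a) = (h P.b - h P.a) / (P.b - P.a)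
  rw [e, e']
  congr 1
  ring

lemma Fd.win_out (F : Fd P) (Q : Finset (ℝ × ℝ))
    (h : ∀ p ∈ Q, ∃ o, F.Out o ∧ p.1 = P.E o ∧ p.2 = 30 * P.rh o) :
    ∑ p ∈ Q, 2 * p.2 ≤ 1 / 1000 := by
  classical
  choose! o ho using h
  have hG : ∀ p ∈ Q, o p ∈ A.G := fun p hp => (ho p hp).1.1.1
  have key : ∀ p ∈ Q, ∀ q ∈ Q, (o p) P.a = (o q) P.a → p = q := by
    intro p hp q hq e
    obtain ⟨e1, e2⟩ := Cno_b P (hG p hp) (hG q hq) (k := 0) (by rw [e]; simp)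
    refine Prod.ext ?_ ?_
    · rw [(ho p hp).2.1, (ho q hq).2.1, e1]
    · rw [(ho p hp).2.2, (ho q hq).2.2, e2]
  have h1 : ∑ p ∈ Q, 2 * p.2 = 60 * ∑ x ∈ Q.image o, P.rh x := by
    rw [Finset.sum_image (fun p hp q hq e => key p hp q hq (by rw [e])), Finset.mul_sum]
    refine Finset.sum_congr rfl fun p hp => ?_
    rw [(ho p hp).2.2]
    ring
  have h2 := F.pck_out (Q.image o) (by
    intro x hx
    obtain ⟨p, hp, rfl⟩ := Finset.mem_image.1 hx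
    exact (ho p hp).1) (by
    intro x hx y hy e
    obtain ⟨p, hp, rfl⟩ := Finset.mem_image.1 hx
    obtain ⟨q, hq, rfl⟩ := Finset.mem_image.1 hy
    rw [key p hp q hq e])
  rw [h1]
  have h3 : 60 * (30 * eps) ≤ 1 / 1000 := by unfold eps; norm_num
  linarith

lemma Fd.win_top (F : Fd P)
    (htop : ∀ s : Finset (Equiv.Perm ℝ), (∀ y ∈ s, y ∈ A.G ∧ ¬ ∃ z, F.Anc y z) →
      (∀ y ∈ s, ∀ y' ∈ s, y ≠ y' → ∀ k : ℤ, y P.a ≠ y' P.a + k) →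
      ∑ y ∈ s, P.rh y ≤ P.W / (100 * P.B))
    (Q : Finset (ℝ × ℝ))
    (h : ∀ p ∈ Q, ∃ y ∈ A.G, (¬ ∃ z, F.Anc y z) ∧ p.1 = P.E y ∧ p.2 = P.B * P.rh y / P.W) :
    ∑ p ∈ Q, 2 * p.2 ≤ 2 / 100 := by
  classical
  have hW : 0 < P.W := lt_of_lt_of_le (by norm_num) P.hW
  have hB : 0 < P.B := lt_of_lt_of_le (by norm_num) P.hB
  choose! y hy hna hy1 hy2 using h
  have key : ∀ p ∈ Q, ∀ q ∈ Q, ∀ k : ℤ, (y p) P.a = (y q) P.a + k → p = q := by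
    intro p hp q hq k e
    obtain ⟨e1, e2⟩ := Cno_b P (hy p hp) (hy q hq) e
    refine Prod.ext ?_ ?_
    · rw [hy1 p hp, hy1 q hq, e1]
    · rw [hy2 p hp, hy2 q hq, e2]
  have h1 : ∑ p ∈ Q, 2 * p.2 = 2 * P.B / P.W * ∑ x ∈ Q.image y, P.rh x := by
    rw [Finset.sum_image (fun p hp q hq e => key p hp q hq 0 (by rw [e]; simp)), Finset.mul_sum]
    refine Finset.sum_congr rfl fun p hp => ?_
    rw [hy2 p hp]
    ring
  have h2 := htop (Q.image y) (by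
    intro x hx
    obtain ⟨p, hp, rfl⟩ := Finset.mem_image.1 hx
    exact ⟨hy p hp, hna p hp⟩) (by
    intro x hx x' hx' hne k e
    obtain ⟨p, hp, rfl⟩ := Finset.mem_image.1 hx
    obtain ⟨q, hq, rfl⟩ := Finset.mem_image.1 hx'
    exact hne (by rw [key p hp q hq k e]))
  rw [h1]
  calc 2 * P.B / P.W * ∑ x ∈ Q.image y, P.rh x ≤ 2 * P.B / P.W * (P.W / (100 * P.B)) :=
        mul_le_mul_of_nonneg_left h2 (by positivity)
    _ = 2 / 100 := by field_simp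

lemma Fd.win_clu (F : Fd P) (Q : Finset (ℝ × ℝ))
    (h : ∀ p ∈ Q, ∃ S, F.Clu p.1 S ∧ p.2 = 10 * S) :
    ∃ Q' : Finset (ℝ × ℝ), (∀ p ∈ Q', 0 ≤ p.2) ∧
      (∀ t : ℝ, (∃ p ∈ Q, |t - p.1| ≤ p.2) → ∃ p ∈ Q', |t - p.1| ≤ p.2) ∧
      ∑ p ∈ Q', 2 * p.2 ≤ 6 / 100 := by
  classical
  choose! S hS hS2 using h
  have hS0 : ∀ p ∈ Q, 0 < S p := fun p hp => (hS p hp).1
  have hO : ∀ p ∈ Q, ∃ O : Finset (Equiv.Perm ℝ), (∀ o ∈ O, F.Prim (9 / 10) o) ∧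
      (∀ o ∈ O, ∀ o' ∈ O, o P.a = o' P.a → o = o') ∧ (∀ o ∈ O, |P.E o - p.1| ≤ 10 * S p) ∧
      5000 * S p ≤ ∑ o ∈ O, P.rh o := fun p hp => (hS p hp).2
  choose! O hO1 hO2 hO3 hO4 using hO
  obtain ⟨R, hRQ, hR1, hR2⟩ := vitali_fin Q (fun p hp => by
    rw [hS2 p hp]
    have := hS0 p hp
    positivity)
  have hsep : ∀ p ∈ R, ∀ q ∈ R, ∀ o ∈ O p, ∀ o' ∈ O q, o P.a = o' P.a → p = q := by
    intro p hp q hq o ho o' ho' e
    by_contra hne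
    have h1 := hR1 p hp q hq hne
    have h2 := (Cno_b P (hO1 p (hRQ hp) o ho).1 (hO1 q (hRQ hq) o' ho').1 (k := 0)
      (by rw [e]; simp)).1
    have h3 := hO3 p (hRQ hp) o ho
    have h4 := hO3 q (hRQ hq) o' ho'
    rw [← h2] at h4
    rw [hS2 p (hRQ hp), hS2 q (hRQ hq)] at h1
    have h5 : |p.1 - q.1| ≤ |P.E o - p.1| + |P.E o - q.1| := by
      have := abs_sub_le p.1 (P.E o) q.1
      rwa [abs_sub_comm p.1 (P.E o)] at this
    linarith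
  have hdisj : (R : Set (ℝ × ℝ)).PairwiseDisjoint O := by
    intro p hp q hq hne
    rw [Function.onFun, Finset.disjoint_left]
    intro o ho ho'
    exact hne (hsep p hp q hq o ho o ho' rfl)
  have h1 := F.pck (R.biUnion O) (by
    intro o ho
    obtain ⟨p, hp, hop⟩ := Finset.mem_biUnion.1 ho
    exact hO1 p (hRQ hp) o hop) (by
    intro o ho o' ho' e
    obtain ⟨p, hp, hop⟩ := Finset.mem_biUnion.1 ho
    obtain ⟨q, hq, hoq⟩ := Finset.mem_biUnion.1 ho'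
    obtain rfl := hsep p hp q hq o hop o' hoq e
    exact hO2 p (hRQ hp) o hop o' hoq e)
  rw [Finset.sum_biUnion hdisj] at h1
  have h2 : ∑ p ∈ R, 500 * p.2 ≤ 4 := by
    refine le_trans (Finset.sum_le_sum fun p hp => ?_) h1
    have := hO4 p (hRQ hp)
    rw [hS2 p (hRQ hp)]
    linarith
  rw [← Finset.mul_sum] at h2
  refine ⟨R.image (fun p => (p.1, 3 * p.2)), ?_, ?_, ?_⟩
  · intro p hp
    obtain ⟨q, hq, rfl⟩ := Finset.mem_image.1 hp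
    have := hS0 q (hRQ hq)
    have h3 := hS2 q (hRQ hq)
    show 0 ≤ 3 * q.2
    rw [h3]
    positivity
  · rintro t ⟨p, hp, hpt⟩
    obtain ⟨q, hq, hqp⟩ := hR2 p hp
    refine ⟨_, Finset.mem_image.2 ⟨q, hq, rfl⟩, ?_⟩
    show |t - q.1| ≤ 3 * q.2
    have := abs_sub_le t p.1 q.1
    linarith
  · rw [Finset.sum_image (fun p _ q _ e => by
      have e1 := congrArg Prod.fst e
      have e2 := congrArg Prod.snd e
      refine Prod.ext e1 ?_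
      simpa using e2)]
    show ∑ p ∈ R, 2 * (3 * p.2) ≤ 6 / 100
    have h3 : ∑ p ∈ R, 2 * (3 * p.2) = 6 * ∑ p ∈ R, p.2 := by
      rw [Finset.mul_sum]
      exact Finset.sum_congr rfl fun p _ => by ring
    rw [h3]
    linarith

end Pool.Agent.H42.EM
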