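/-
HAT : existence, uniqueness and size of the value `Hat`.

PROOFS.
* exists_hat: if there is an ancestor, exists_par, let_pos (b < x a < b + r), exists_dep.
* hat_unique: no ancestors: both are E y (Par y z contains Anc y z).  Otherwise par_unique: z a = z' a, so rp z = rp z' (F.congr),
  dep_unique.
* hat_one: anc_one, E_one.
* hat_far: without ancestors e = E y.  Otherwise x := (rp z)⁻¹ y, x₀ := (f^n)⁻¹ x, dep_up: x₀ a < b + r, b ≤ x₀ a, x = f^n x₀,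
  x₀ b ≤ b + 2r (x₀ b - x₀ a = rh x₀ (b-a) ≤ eps r), E_pow': |E x - E x₀| ≤ 36/100, |E y - E x| ≤ 103/100 eps (let_pos, let_rho).
-/
import Pool.Agent.H42.EZ.Par

set_option autoImplicit false

namespace Pool.Agent.H42.EM

open Set

variable {A : Sys} {P : Gp A}

lemma Fd.exists_hat (F : Fd P) {y : Equiv.Perm ℝ} (hy : y ∈ A.G) : ∃ e, F.Hat y e := by
  by_cases h : ∃ z, F.Anc y z
  · obtain ⟨z, hz⟩ := F.exists_par hy h
    obtain ⟨-, h1, h2, -, -⟩ := F.let_pos hy hz.1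
    obtain ⟨n, hn⟩ := F.exists_dep h1 h2
    exact ⟨_, Or.inr ⟨z, n, hz, hn, rfl⟩⟩
  · exact ⟨_, Or.inl ⟨h, rfl⟩⟩

lemma Fd.hat_unique (F : Fd P) {y : Equiv.Perm ℝ} {e e' : ℝ} (hy : y ∈ A.G) (h : F.Hat y e)
    (h' : F.Hat y e') : e = e' := by
  rcases h with ⟨h1, h2⟩ | ⟨z, n, h1, h2, h3⟩
  · rcases h' with ⟨h1', h2'⟩ | ⟨z', n', h1', h2', h3'⟩
    · rw [h2, h2']
    · exact absurd ⟨z', h1'.1⟩ h1
  · rcases h' with ⟨h1', h2'⟩ | ⟨z', n', h1', h2', h3'⟩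
    · exact absurd ⟨z, h1.1⟩ h1'
    · have e1 : F.rp z = F.rp z' := F.congr z h1.1.1 z' h1'.1.1 (F.par_unique h1 h1')
      rw [← e1] at h2' h3'
      have e2 : n = n' := F.dep_unique h2 h2'
      rw [← e2] at h3'
      rw [h3, h3']

lemma Fd.hat_one (F : Fd P) {e : ℝ} (h : F.Hat 1 e) : e ≤ 1 / 1000 := by
  rcases h with ⟨h1, h2⟩ | ⟨z, n, h1, h2, h3⟩
  · rw [h2]
    exact P.E_one
  · exact absurd h1.1 (F.anc_one z)

lemma Fd.hat_far (F : Fd P) {y : Equiv.Perm ℝ} {e : ℝ} (hy : y ∈ A.G) (hE : 99 / 100 ≤ P.E y)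
    (h : F.Hat y e) : 46 / 100 ≤ e := by
  rcases h with ⟨h1, h2⟩ | ⟨z, n, h1, h2, h3⟩
  · rw [h2]
    linarith
  · obtain ⟨hx, hx1, hx2, hx3, hx4⟩ := F.let_pos hy h1.1
    have hx5 := F.let_rho hy h1.1
    obtain ⟨hd1, hd2⟩ := F.dep_up h2
    set x := (F.rp z)⁻¹ * y with hxdef
    set x₀ := (F.f ^ n)⁻¹ * x with hx0
    have hG0 : x₀ ∈ A.G := A.G.mul_mem (A.G.inv_mem (F.fG n)) hx
    have h4 : P.b ≤ x₀ P.a := F.finv_ge n hx1.le
    have h5 : x₀ P.a < P.b + P.r := hd2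
    have hr := P.hr
    have hab := P.gap.1
    have hJ := P.hJ
    have hep : 0 < eps := eps_pos
    have hep1 : eps ≤ 1 / 1000 := by unfold eps; norm_num
    have h6 : x₀ P.b ≤ P.b + 8 * P.r := by
      have h7 := P.rh_mul x₀
      have h8 : P.rh x₀ * (P.b - P.a) ≤ 1 * (P.b - P.a) :=
        mul_le_mul_of_nonneg_right (P.rh_le hG0) (by linarith)
      have h9 : eps * P.r ≤ 1 * P.r := mul_le_mul_of_nonneg_right (by linarith) hr.le
      linarith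
    have h7 := F.E_pow' hG0 h4 h6 n
    have h8 : F.f ^ n * x₀ = x := by rw [hx0, mul_inv_cancel_left]
    rw [h8] at h7
    have h9 : (x₀ P.a - P.b) / P.r ≤ 1 := by
      rw [div_le_one hr]
      linarith
    have h10 := (abs_le.mp h7).2
    have h11 := (abs_le.mp hx4).2
    rw [h3]
    linarith

end Pool.Agent.H42.EM
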