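/-
EMV : the distance E and the cost along the powers of f; loops attached to pairs of elements with the same gap.

PROOFS.
* loop_of: e gives g b = u b (b_congr, k = 0) and (rp u) a = u a, (rp u) b = u b, so (rp u)⁻¹ * g fixes a and b.
  Gp.back with (g := rp u, x := (rp u)⁻¹ * g, κ := 101/100 W, κ' := κ): cost ≤ κ + 101/100 * 1 * (101/100 W) ≤ κ + 103/100 W.
* E_pow: induction, E_comp with (g := f, κ := 21/10 W, x := f^i * x): |E (f x_i) - E x_i| ≤ 101/100 rh x_i * 21/10.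
* E_pow': sum_rho: the sum is ≤ (x a - b) / (6 r), 213/600 ≤ 36/100.
* C_pow: induction, Gp.comp with g := f: the cost grows by 101/100 rh x_i * 21/10 W; sum_rho as above.
* C_pow_inv: y := (f^n)⁻¹ * x.  Induction on i ≤ n for (f^i)⁻¹ * x = f^(n-i) * y, Gp.comp with g := f⁻¹ (Lop.inv):
  the step from f^j y to f^(j-1) y costs 101/100 rh (f^j y) 21/10 W, j = 1..n; sum_rho for y and n + 1.
  (Easiest: show for all j ≤ n: C (f^(n-j) y) (κ + 2121/1000 W ∑_{i ∈ range (n+1), n - j < i} rh (f^i y)), or induction on n.)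
* omega: C_pow for rp u (cost 101/100 W, same positions as u): cost of f^n * rp u ≤ (101/100 + 36/100 * 8) W; it has the same
  gap as f^n * u; loop_of (u := f^n * u): ≤ (1.01 + 2.88 + 1.03) W ≤ 5 W.
* pow_near: |E| for few steps: E_pow and rh (f^i x) ≤ e^(i eps) rh x ≤ 101/100 rh x for i ≤ 20 (Lop.rh_up).
-/
import Pool.Agent.H42.EZ.Sep
import Pool.Agent.H42.EZ.Dst

set_option autoImplicit false

namespace Pool.Agent.H42.EM

open Set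

variable {A : Sys} {P : Gp A}

lemma Rp.loop_of (R : Rp P) {g u : Equiv.Perm ℝ} {κ : ℝ} (hg : P.C g κ) (hu : u ∈ A.G)
    (e : g P.a = u P.a) : P.Lop ((R.rp u)⁻¹ * g) (κ + 103 / 100 * P.W) := by
  have hW := P.hW
  have hr := P.hr
  have hgG : g ∈ A.G := Sys.Cst.mem hg
  have eb : g P.b = u P.b := by
    have := P.b_congr hgG hu (k := 0) (by rw [e]; simp)
    simpa using this
  have hG : (R.rp u)⁻¹ * g ∈ A.G := A.G.mul_mem (A.G.inv_mem (R.mem u hu)) hgG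
  have ha : ((R.rp u)⁻¹ * g) P.a = P.a := by
    rw [Equiv.Perm.mul_apply, Equiv.Perm.inv_eq_iff_eq, R.ha u hu, e]
  have hb : ((R.rp u)⁻¹ * g) P.b = P.b := by
    rw [Equiv.Perm.mul_apply, Equiv.Perm.inv_eq_iff_eq, R.hb u hu, eb]
  have hrh : P.rh ((R.rp u)⁻¹ * g) = 1 := by
    rw [← P.rh_one]
    exact P.rh_congr (by rw [ha]; rfl) (by rw [hb]; rfl)
  have hc : P.C (R.rp u * ((R.rp u)⁻¹ * g)) κ := by
    rw [mul_inv_cancel_left]
    exact hg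
  have h3 := P.back (R.cst u hu) (by linarith) hc (by rw [ha]; linarith) (by rw [hb]; linarith)
  rw [hrh] at h3
  exact ⟨hG, ha, hb, Sys.Cst.mono h3 (by linarith)⟩

lemma Emv_pos (F : Fd P) {x : Equiv.Perm ℝ} (hx : x ∈ A.G) (h1 : P.b ≤ x P.a)
    (h2 : x P.b ≤ P.b + 8 * P.r) (i : ℕ) :
    F.f ^ i * x ∈ A.G ∧ P.b ≤ (F.f ^ i * x) P.a ∧ (F.f ^ i * x) P.b ≤ P.b + 8 * P.r := by
  have hab := P.ab
  have h3 : x P.a < x P.b := (A.good hx).mono hab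
  refine ⟨A.G.mul_mem (F.fG i) hx, ?_, ?_⟩
  · rw [Equiv.Perm.mul_apply]
    exact F.f_ge i h1
  · rw [Equiv.Perm.mul_apply]
    exact (F.f_le i (by linarith) (by linarith [F.hv1])).trans h2

lemma Emv_pos' (F : Fd P) {x : Equiv.Perm ℝ} (hx : x ∈ A.G) (h1 : P.b ≤ x P.a)
    (h2 : x P.b ≤ P.b + 8 * P.r) (i : ℕ) :
    F.f ^ i * x ∈ A.G ∧ P.a - 39 * P.r ≤ (F.f ^ i * x) P.a ∧
      (F.f ^ i * x) P.b ≤ P.b + 39 * P.r := by
  have hab := P.ab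
  have hr := P.hr
  obtain ⟨h3, h4, h5⟩ := Emv_pos F hx h1 h2 i
  exact ⟨h3, by linarith, by linarith⟩

lemma Emv_succ (F : Fd P) (x : Equiv.Perm ℝ) (n : ℕ) :
    F.f ^ (n + 1) * x = F.f * (F.f ^ n * x) := by
  rw [pow_succ', mul_assoc]

lemma Emv_sum (F : Fd P) {x : Equiv.Perm ℝ} (hx : x ∈ A.G) (h1 : P.b ≤ x P.a)
    (h2 : x P.b ≤ P.b + 8 * P.r) (n : ℕ) :
    213 / 100 * ∑ i ∈ Finset.range n, P.rh (F.f ^ i * x) ≤ 36 / 100 * ((x P.a - P.b) / P.r) := by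
  have hr := P.hr
  have h3 := F.sum_rho hx h1 h2 n
  have h4 := (Emv_pos F hx h1 h2 n).2.1
  rw [← mul_div_assoc, le_div_iff₀ hr]
  nlinarith

lemma Fd.E_pow (F : Fd P) {x : Equiv.Perm ℝ} (hx : x ∈ A.G) (h1 : P.b ≤ x P.a)
    (h2 : x P.b ≤ P.b + 8 * P.r) (n : ℕ) :
    |P.E (F.f ^ n * x) - P.E x| ≤ 213 / 100 * ∑ i ∈ Finset.range n, P.rh (F.f ^ i * x) := by
  have hW := P.hW
  induction n with
  | zero => simp
  | succ n ih =>
    obtain ⟨h3, h4, h5⟩ := Emv_pos' F hx h1 h2 n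
    have h6 := P.E_comp F.hf.2.2.2 (by linarith) h3 h4 h5
    have h7 : 101 / 100 * P.rh (F.f ^ n * x) * (21 / 10 * P.W) / P.W =
        2121 / 1000 * P.rh (F.f ^ n * x) := by
      have : P.W ≠ 0 := by linarith
      field_simp
      ring
    rw [h7] at h6
    have h8 := P.rh_pos h3
    rw [Emv_succ, Finset.sum_range_succ]
    have h9 := abs_sub_le (P.E (F.f * (F.f ^ n * x))) (P.E (F.f ^ n * x)) (P.E x)
    linarith

lemma Fd.E_pow' (F : Fd P) {x : Equiv.Perm ℝ} (hx : x ∈ A.G) (h1 : P.b ≤ x P.a)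
    (h2 : x P.b ≤ P.b + 8 * P.r) (n : ℕ) :
    |P.E (F.f ^ n * x) - P.E x| ≤ 36 / 100 * ((x P.a - P.b) / P.r) :=
  (F.E_pow hx h1 h2 n).trans (Emv_sum F hx h1 h2 n)

lemma Emv_C (F : Fd P) {x : Equiv.Perm ℝ} {κ : ℝ} (hx : P.C x κ) (h1 : P.b ≤ x P.a)
    (h2 : x P.b ≤ P.b + 8 * P.r) (n : ℕ) :
    P.C (F.f ^ n * x) (κ + 2121 / 1000 * P.W * ∑ i ∈ Finset.range n, P.rh (F.f ^ i * x)) := by
  have hW := P.hW
  have hxG : x ∈ A.G := Sys.Cst.mem hx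
  induction n with
  | zero => simpa using hx
  | succ n ih =>
    obtain ⟨h3, h4, h5⟩ := Emv_pos' F hxG h1 h2 n
    have h6 := P.comp F.hf.2.2.2 (by linarith) ih h4 h5
    rw [Emv_succ, Finset.sum_range_succ]
    refine Sys.Cst.mono h6 (le_of_eq ?_)
    ring

lemma Emv_le (F : Fd P) {x : Equiv.Perm ℝ} {κ : ℝ} (hx : x ∈ A.G) (h1 : P.b ≤ x P.a)
    (h2 : x P.b ≤ P.b + 8 * P.r) (n : ℕ) :
    κ + 2121 / 1000 * P.W * ∑ i ∈ Finset.range n, P.rh (F.f ^ i * x) ≤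
      κ + 36 / 100 * ((x P.a - P.b) / P.r) * P.W := by
  have hW := P.hW
  have h3 := Emv_sum F hx h1 h2 n
  have h4 : 0 ≤ ∑ i ∈ Finset.range n, P.rh (F.f ^ i * x) :=
    Finset.sum_nonneg fun i _ => (P.rh_pos (Emv_pos F hx h1 h2 i).1).le
  have h5 : 2121 / 1000 * ∑ i ∈ Finset.range n, P.rh (F.f ^ i * x) ≤
      36 / 100 * ((x P.a - P.b) / P.r) := by linarith
  have h6 := mul_le_mul_of_nonneg_right h5 (show 0 ≤ P.W by linarith)
  linarith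

lemma Fd.C_pow (F : Fd P) {x : Equiv.Perm ℝ} {κ : ℝ} (hx : P.C x κ) (h1 : P.b ≤ x P.a)
    (h2 : x P.b ≤ P.b + 8 * P.r) (n : ℕ) :
    P.C (F.f ^ n * x) (κ + 36 / 100 * ((x P.a - P.b) / P.r) * P.W) :=
  Sys.Cst.mono (Emv_C F hx h1 h2 n) (Emv_le F (Sys.Cst.mem hx) h1 h2 n)

lemma Emv_back (F : Fd P) {y : Equiv.Perm ℝ} (hy : y ∈ A.G) (h1 : P.b ≤ y P.a)
    (h2 : y P.b ≤ P.b + 8 * P.r) (n : ℕ) : ∀ κ : ℝ, P.C (F.f ^ n * y) κ →
    P.C y (κ + 2121 / 1000 * P.W * ∑ i ∈ Finset.range n, P.rh (F.f ^ i * y)) := by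
  have hW := P.hW
  induction n with
  | zero =>
    intro κ hκ
    simpa using hκ
  | succ n ih =>
    intro κ hκ
    obtain ⟨h3, h4, h5⟩ := Emv_pos' F hy h1 h2 n
    rw [Emv_succ] at hκ
    have h6 := P.back F.hf.2.2.2 (by linarith) hκ h4 h5
    refine Sys.Cst.mono (ih _ h6) (le_of_eq ?_)
    rw [Finset.sum_range_succ]
    ring

lemma Fd.C_pow_inv (F : Fd P) {x : Equiv.Perm ℝ} {κ : ℝ} {n : ℕ} (hx : P.C x κ) (h1 : P.b ≤ x P.a)
    (h2 : ((F.f ^ n)⁻¹ * x) P.b ≤ P.b + 8 * P.r) :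
    P.C ((F.f ^ n)⁻¹ * x) (κ + 36 / 100 * ((((F.f ^ n)⁻¹ * x) P.a - P.b) / P.r) * P.W) := by
  have hy : (F.f ^ n)⁻¹ * x ∈ A.G := A.G.mul_mem (A.G.inv_mem (F.fG n)) (Sys.Cst.mem hx)
  have h3 : P.b ≤ ((F.f ^ n)⁻¹ * x) P.a := by
    rw [Equiv.Perm.mul_apply]
    exact F.finv_ge n h1
  refine Sys.Cst.mono (Emv_back F hy h3 h2 n κ ?_) (Emv_le F hy h3 h2 n)
  rw [mul_inv_cancel_left]
  exact hx

lemma Fd.omega (F : Fd P) {u : Equiv.Perm ℝ} (hu : u ∈ A.G) (h1 : P.b ≤ u P.a)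
    (h2 : u P.b ≤ P.b + 8 * P.r) (n : ℕ) :
    P.Lop ((F.rp (F.f ^ n * u))⁻¹ * (F.f ^ n * F.rp u)) (5 * P.W) := by
  have hW := P.hW
  have hr := P.hr
  have hab := P.ab
  have ea : F.rp u P.a = u P.a := F.ha u hu
  have eb : F.rp u P.b = u P.b := F.hb u hu
  have h3 : u P.a < u P.b := (A.good hu).mono hab
  have h4 := F.C_pow (F.cst u hu) (by rw [ea]; exact h1) (by rw [eb]; exact h2) n
  have h5 : (F.rp u P.a - P.b) / P.r ≤ 8 := by
    rw [div_le_iff₀ hr, ea]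
    linarith
  have h6 : P.C (F.f ^ n * F.rp u) (389 / 100 * P.W) := by
    refine Sys.Cst.mono h4 ?_
    have h7 : 36 / 100 * ((F.rp u P.a - P.b) / P.r) * P.W ≤ 36 / 100 * 8 * P.W :=
      mul_le_mul_of_nonneg_right (by linarith) (by linarith)
    linarith
  have h8 := F.toRp.loop_of (u := F.f ^ n * u) h6 (A.G.mul_mem (F.fG n) hu) (by
    rw [Equiv.Perm.mul_apply, Equiv.Perm.mul_apply, ea])
  exact h8.mono (by linarith)

lemma Emv_rh (F : Fd P) {x : Equiv.Perm ℝ} (hx : x ∈ A.G) (h1 : P.b ≤ x P.a)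
    (h2 : x P.b ≤ P.b + 8 * P.r) (n : ℕ) :
    Real.exp (-eps) ^ n * P.rh x ≤ P.rh (F.f ^ n * x) ∧
      P.rh (F.f ^ n * x) ≤ Real.exp eps ^ n * P.rh x := by
  have hW := P.hW
  have hr := P.hr
  have hab := P.ab
  induction n with
  | zero => simp
  | succ n ih =>
    obtain ⟨h3, h4, h5⟩ := Emv_pos F hx h1 h2 n
    have h6 := F.hf.rh_lo (by linarith) h3 (by linarith) (by linarith)
    have h7 := F.hf.rh_up (by linarith) h3 (by linarith) (by linarith)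
    rw [Emv_succ]
    constructor
    · calc Real.exp (-eps) ^ (n + 1) * P.rh x
          = Real.exp (-eps) * (Real.exp (-eps) ^ n * P.rh x) := by ring
        _ ≤ Real.exp (-eps) * P.rh (F.f ^ n * x) :=
          mul_le_mul_of_nonneg_left ih.1 (Real.exp_pos _).le
        _ ≤ _ := h6
    · calc P.rh (F.f * (F.f ^ n * x)) ≤ Real.exp eps * P.rh (F.f ^ n * x) := h7
        _ ≤ Real.exp eps * (Real.exp eps ^ n * P.rh x) :=
          mul_le_mul_of_nonneg_left ih.2 (Real.exp_pos _).le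
        _ = _ := by ring

lemma Emv_num {n : ℕ} (hn : n ≤ 20) :
    98 / 100 ≤ Real.exp (-eps) ^ n ∧ Real.exp eps ^ n ≤ 101 / 100 := by
  obtain ⟨e1, e2, e3, e4⟩ := exp_eps
  have hep : eps = 1 / 10 ^ 8 := rfl
  constructor
  · calc (98 / 100 : ℝ) ≤ (1 - 11 / 10 * (1 / 10 ^ 8)) ^ 20 := by norm_num
      _ ≤ Real.exp (-eps) ^ 20 := pow_le_pow_left₀ (by norm_num) (by rw [← hep]; exact e2) 20
      _ ≤ Real.exp (-eps) ^ n := pow_le_pow_of_le_one (Real.exp_pos _).le e3 hn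
  · calc Real.exp eps ^ n ≤ Real.exp eps ^ 20 := pow_le_pow_right₀ e4 hn
      _ ≤ (1 + 11 / 10 * (1 / 10 ^ 8)) ^ 20 :=
        pow_le_pow_left₀ (Real.exp_pos _).le (by rw [← hep]; exact e1) 20
      _ ≤ 101 / 100 := by norm_num

lemma Fd.pow_near (F : Fd P) {x : Equiv.Perm ℝ} (hx : x ∈ A.G) (h1 : P.b ≤ x P.a)
    (h2 : x P.b ≤ P.b + 8 * P.r) {n : ℕ} (hn : n ≤ 20) :
    98 / 100 * P.rh x ≤ P.rh (F.f ^ n * x) ∧ P.rh (F.f ^ n * x) ≤ 101 / 100 * P.rh x ∧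
      |P.E (F.f ^ n * x) - P.E x| ≤ 22 / 10 * n * P.rh x := by
  have hpos := P.rh_pos hx
  have key : ∀ i, i ≤ 20 → 98 / 100 * P.rh x ≤ P.rh (F.f ^ i * x) ∧
      P.rh (F.f ^ i * x) ≤ 101 / 100 * P.rh x := by
    intro i hi
    obtain ⟨h3, h4⟩ := Emv_rh F hx h1 h2 i
    obtain ⟨h5, h6⟩ := Emv_num hi
    exact ⟨(mul_le_mul_of_nonneg_right h5 hpos.le).trans h3,
      h4.trans (mul_le_mul_of_nonneg_right h6 hpos.le)⟩
  refine ⟨(key n hn).1, (key n hn).2, (F.E_pow hx h1 h2 n).trans ?_⟩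
  have h7 : ∑ i ∈ Finset.range n, P.rh (F.f ^ i * x) ≤ n * (101 / 100 * P.rh x) := by
    calc _ ≤ ∑ _i ∈ Finset.range n, 101 / 100 * P.rh x :=
          Finset.sum_le_sum fun i hi => (key i (by have := Finset.mem_range.1 hi; omega)).2
      _ = _ := by rw [Finset.sum_const, Finset.card_range, nsmul_eq_mul]
  have h8 : 0 ≤ (n : ℝ) * P.rh x := by positivity
  linarith

end Pool.Agent.H42.EM
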