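/-
COM : commutators.

PROOFS.  X t := t - f t.
* nine: t - f^9 t = ∑_{i<9} X (f^i t), X (f s) ≤ e^eps X s (Lop.up for [f s, s]), so ≤ 9 e^(9 eps) X t ≤ 91/10 X t.
  (f^9)⁻¹ t ≤ b + 101/100 (t - b) ≤ v (up_le); X (f⁻¹ s) ≤ e^eps X s (Lop.lo).
* nu_bd: t ∈ (b, b + 6r].  F.dsp: f⁴ t < l t and f⁴ s < l⁻¹ s for s ∈ (b, v], l = lp rp s g.  With s := (f⁴)⁻¹ t ≤ v (up_le): t < l⁻¹ ((f^4)⁻¹ t), so
  l t < (f⁴)⁻¹ t.  For 0 ≤ j ≤ 4: (f^j) (l t) > f^j (f⁴ t) ≥ f⁸ t > f⁹ t and f^j (l t) ≤ l t (l t ≤ (f⁴)⁻¹ t ≤ v, f_le) < (f⁴)⁻¹ t ≤ (f⁹)⁻¹ t.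
  For j = -i, i ≤ 4: (f^i)⁻¹ (l t) < (f^i)⁻¹ ((f^4)⁻¹ t) ≤ (f⁹)⁻¹ t and (f^i)⁻¹ (l t) ≥ l t > f⁴ t.
* nu_lop: Lop.mul, Lop.inv: cost ≤ 4 * 21/10 W + 21/10 W ≤ 11 W (1 ≤ W for j = 0).
* com: put s := (f * ν) t... With k := ν⁻¹ f⁻¹ ν f: (f ν) (k t) = ν (f t).  ν (f t) - f (ν t) = [X (ν t) - X t] + [(t - f t) - (ν t - ν (f t))].
  |X (ν t) - X t| ≤ 11/10 eps |ν t - t| ≤ 11/10 eps * 91/10 X t (X_lip, both cases t ≤ ν t, ν t ≤ t);
  |(ν t - ν (f t)) - X t| ≤ 11/10 eps X t (Lop.lo, Lop.up, exp_eps).  Sum ≤ 111/10 eps X t.  f * ν is Lop (15 W), so its inverse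
  expands distances at most by e^eps (Lop.lo for f * ν on the interval between k t and t; both are in [b, b + 40 r], since k is a
  loop (Lop.mul, Lop.inv; cost ≤ 27 W) and Lop.disp).
* kap: combination; k is Lop (50 W).  The hypothesis of com follows from nu_bd and nine (t ≤ b + 3r).
-/
import Pool.Agent.H42.EZ.Emv
import Pool.Agent.H42.EZ.Rps

set_option autoImplicit false

namespace Pool.Agent.H42.EM

open Set

variable {A : Sys} {P : Gp A}

private lemma Com_ia (g : Equiv.Perm ℝ) (x : ℝ) : g⁻¹ (g x) = x := by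
  rw [← Equiv.Perm.mul_apply, inv_mul_cancel]
  rfl

private lemma Com_ai (g : Equiv.Perm ℝ) (x : ℝ) : g (g⁻¹ x) = x := by
  rw [← Equiv.Perm.mul_apply, mul_inv_cancel]
  rfl

private lemma Com_invmono (F : Fd P) (n : ℕ) : StrictMono (⇑(F.f ^ n)⁻¹) :=
  (A.good (A.G.inv_mem (F.fG n))).mono

private lemma Com_ge (F : Fd P) (n : ℕ) {y : ℝ} (h1 : P.b ≤ y) (h2 : y ≤ F.v) : y ≤ (F.f ^ n)⁻¹ y := by
  have h := (Com_invmono F n).monotone (F.f_le n h1 h2)
  rwa [Com_ia] at h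

private lemma Com_invle (F : Fd P) {m n : ℕ} (h : m ≤ n) {y : ℝ} (h1 : P.b ≤ y) (h2 : y ≤ F.v) :
    (F.f ^ m)⁻¹ y ≤ (F.f ^ n)⁻¹ y := by
  obtain ⟨k, rfl⟩ := Nat.exists_eq_add_of_le h
  have h3 := (Com_invmono F m).monotone (Com_ge F k h1 h2)
  rwa [← Equiv.Perm.mul_apply, ← mul_inv_rev, ← pow_add, add_comm k m] at h3

private lemma Com_v (F : Fd P) {n : ℕ} (hn : n ≤ 20) {t : ℝ} (h1 : P.b < t) (h2 : t ≤ P.b + 6 * P.r) :
    P.b < (F.f ^ n)⁻¹ t ∧ (F.f ^ n)⁻¹ t ≤ P.b + 7 * P.r ∧ (F.f ^ n)⁻¹ t ≤ F.v := by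
  have hr := P.hr
  have h3 := F.up_le hn h1.le (by linarith)
  have hv := F.hv1
  exact ⟨F.finv_gt n h1, by linarith, by linarith⟩

private lemma Com_down (F : Fd P) {t : ℝ} (h1 : P.b < t) (h2 : t ≤ P.b + 6 * P.r) (n : ℕ) :
    (F.f ^ n) t - F.f ((F.f ^ n) t) ≤ Real.exp eps ^ n * (t - F.f t) ∧
      t - (F.f ^ n) t ≤ n * Real.exp eps ^ n * (t - F.f t) := by
  obtain ⟨e1, e2, e3, e4⟩ := exp_eps
  have hr := P.hr
  have hv := F.hv1
  have hW := P.hW
  have hab := P.ab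
  have hX : 0 ≤ t - F.f t := by
    have := F.free t ⟨h1, by linarith⟩
    linarith
  induction n with
  | zero => simp
  | succ n ih =>
    obtain ⟨i1, i2⟩ := ih
    have hq : (0 : ℝ) < Real.exp eps ^ n := by positivity
    have hs : (F.f ^ (n + 1)) t = F.f ((F.f ^ n) t) := by rw [pow_succ', Equiv.Perm.mul_apply]
    have hb1 : P.b < (F.f ^ n) t := F.f_gt n h1
    have hb2 : (F.f ^ n) t ≤ t := F.f_le n h1.le (by linarith)
    have hb3 : P.b < F.f ((F.f ^ n) t) := by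
      rw [← hs]
      exact F.f_gt (n + 1) h1
    have hfr := F.free ((F.f ^ n) t) ⟨hb1, by linarith⟩
    have h3 := F.hf.up (by linarith) (u := F.f ((F.f ^ n) t)) (v := (F.f ^ n) t) (by linarith)
      hfr.le (by linarith)
    rw [hs]
    constructor
    · rw [pow_succ']
      calc F.f ((F.f ^ n) t) - F.f (F.f ((F.f ^ n) t))
          ≤ Real.exp eps * ((F.f ^ n) t - F.f ((F.f ^ n) t)) := h3
        _ ≤ Real.exp eps * (Real.exp eps ^ n * (t - F.f t)) :=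
            mul_le_mul_of_nonneg_left i1 (Real.exp_pos _).le
        _ = Real.exp eps * Real.exp eps ^ n * (t - F.f t) := by ring
    · have h4 : ((n : ℝ) + 1) * Real.exp eps ^ n * (t - F.f t) ≤
          ((n : ℝ) + 1) * Real.exp eps ^ (n + 1) * (t - F.f t) := by
        apply mul_le_mul_of_nonneg_right _ hX
        apply mul_le_mul_of_nonneg_left _ (by positivity)
        rw [pow_succ']
        exact le_mul_of_one_le_left hq.le e4
      rw [Nat.cast_add, Nat.cast_one]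
      linarith

private lemma Com_up (F : Fd P) {t : ℝ} (h1 : P.b < t) (h2 : t ≤ P.b + 6 * P.r) (n : ℕ) (hn : n ≤ 20) :
    (F.f ^ n)⁻¹ t - F.f ((F.f ^ n)⁻¹ t) ≤ Real.exp eps ^ n * (t - F.f t) ∧
      (F.f ^ n)⁻¹ t - t ≤ n * Real.exp eps ^ n * (t - F.f t) := by
  obtain ⟨e1, e2, e3, e4⟩ := exp_eps
  have hr := P.hr
  have hv := F.hv1
  have hW := P.hW
  have hab := P.ab
  have hX : 0 ≤ t - F.f t := by
    have := F.free t ⟨h1, by linarith⟩
    linarith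
  induction n with
  | zero => simp
  | succ n ih =>
    obtain ⟨i1, i2⟩ := ih (by omega)
    have hq : (0 : ℝ) < Real.exp eps ^ n := by positivity
    obtain ⟨b1, b2, b3⟩ := Com_v F (show n ≤ 20 by omega) h1 h2
    obtain ⟨c1, c2, c3⟩ := Com_v F hn h1 h2
    have hs : F.f ((F.f ^ (n + 1))⁻¹ t) = (F.f ^ n)⁻¹ t := by
      rw [pow_succ, mul_inv_rev, Equiv.Perm.mul_apply, Com_ai]
    have hfr := F.free _ ⟨c1, c3⟩
    rw [hs] at hfr
    have h3 := F.hf.lo (by linarith) (u := (F.f ^ n)⁻¹ t) (v := (F.f ^ (n + 1))⁻¹ t) (by linarith)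
      hfr.le (by linarith)
    rw [hs] at h3
    have h5 : (F.f ^ (n + 1))⁻¹ t - (F.f ^ n)⁻¹ t ≤ Real.exp eps ^ (n + 1) * (t - F.f t) := by
      have h6 : Real.exp eps * (Real.exp (-eps) * ((F.f ^ (n + 1))⁻¹ t - (F.f ^ n)⁻¹ t)) ≤
          Real.exp eps * (Real.exp eps ^ n * (t - F.f t)) :=
        mul_le_mul_of_nonneg_left (h3.trans i1) (Real.exp_pos _).le
      rw [← mul_assoc, ← Real.exp_add, add_neg_cancel, Real.exp_zero, one_mul] at h6
      rw [pow_succ' (Real.exp eps) n, mul_assoc]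
      exact h6
    rw [hs]
    refine ⟨h5, ?_⟩
    have h4 : (n : ℝ) * Real.exp eps ^ n * (t - F.f t) ≤
        (n : ℝ) * Real.exp eps ^ (n + 1) * (t - F.f t) := by
      apply mul_le_mul_of_nonneg_right _ hX
      apply mul_le_mul_of_nonneg_left _ (by positivity)
      rw [pow_succ']
      exact le_mul_of_one_le_left hq.le e4
    rw [Nat.cast_add, Nat.cast_one]
    linarith

lemma Fd.nine (F : Fd P) {t : ℝ} (h1 : P.b < t) (h2 : t ≤ P.b + 6 * P.r) :
    t - (F.f ^ 9) t ≤ 91 / 10 * (t - F.f t) ∧ (F.f ^ 9)⁻¹ t - t ≤ 91 / 10 * (t - F.f t) := by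
  have hr := P.hr
  have hv := F.hv1
  have hX : 0 ≤ t - F.f t := by
    have := F.free t ⟨h1, by linarith⟩
    linarith
  have h3 := (Com_down F h1 h2 9).2
  have h4 := (Com_up F h1 h2 9 (by norm_num)).2
  have h5 := (Emv_num (n := 9) (by norm_num)).2
  have h6 : (9 : ℝ) * Real.exp eps ^ 9 * (t - F.f t) ≤ 91 / 10 * (t - F.f t) :=
    mul_le_mul_of_nonneg_right (by linarith) hX
  push_cast at h3 h4
  exact ⟨h3.trans h6, h4.trans h6⟩

lemma Fd.nu_bd (F : Fd P) {g s : Equiv.Perm ℝ} (hg : g ∈ A.G) (hs : s ∈ A.S) {j : ℤ}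
    (hj : |j| ≤ 4) {t : ℝ} (h1 : P.b < t) (h2 : t ≤ P.b + 6 * P.r) :
    (F.f ^ 9) t < (F.f ^ j * lp F.rp s g) t ∧ (F.f ^ j * lp F.rp s g) t < (F.f ^ 9)⁻¹ t := by
  have hr := P.hr
  have hv := F.hv1
  have htv : t ≤ F.v := by linarith
  set l := lp F.rp s g with hl
  have hlG : l ∈ A.G := (F.toRp.lop hg hs).1
  have hlm : StrictMono (⇑l) := (A.good hlG).mono
  obtain ⟨b1, b2, b3⟩ := Com_v F (show 4 ≤ 20 by norm_num) h1 h2
  have h3 : (F.f ^ 4) t < l t := (F.dsp g hg s hs t ⟨h1, htv⟩).1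
  have h4 : l t < (F.f ^ 4)⁻¹ t := by
    have h5 := (F.dsp g hg s hs _ ⟨b1, b3⟩).2
    rw [Com_ai] at h5
    have h6 := hlm h5
    rwa [← hl, Com_ai] at h6
  have hlb : P.b < l t := (F.f_gt 4 h1).trans h3
  have hlv : l t ≤ F.v := h4.le.trans b3
  obtain ⟨n, hn | hn⟩ := Int.eq_nat_or_neg j
  · have hn4 : n ≤ 4 := by
      rw [hn, abs_of_nonneg (Int.natCast_nonneg n)] at hj
      exact_mod_cast hj
    rw [hn, zpow_natCast, Equiv.Perm.mul_apply]
    constructor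
    · have h5 := F.fmono n h3
      rw [← Equiv.Perm.mul_apply, ← pow_add] at h5
      exact (F.f_anti (show n + 4 ≤ 9 by omega) h1.le htv).trans_lt h5
    · exact ((F.f_le n hlb.le hlv).trans_lt h4).trans_le (Com_invle F (by norm_num) h1.le htv)
  · have hn4 : n ≤ 4 := by
      rw [hn, abs_neg, abs_of_nonneg (Int.natCast_nonneg n)] at hj
      exact_mod_cast hj
    rw [hn, zpow_neg, zpow_natCast, Equiv.Perm.mul_apply]
    constructor
    · exact ((F.f_anti (show 4 ≤ 9 by norm_num) h1.le htv).trans_lt h3).trans_le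
        (Com_ge F n hlb.le hlv)
    · have h5 := Com_invmono F n h4
      rw [← Equiv.Perm.mul_apply (F.f ^ n)⁻¹ (F.f ^ 4)⁻¹ t, ← mul_inv_rev, ← pow_add] at h5
      exact h5.trans_le (Com_invle F (show 4 + n ≤ 9 by omega) h1.le htv)

lemma Fd.nu_lop (F : Fd P) {g s : Equiv.Perm ℝ} (hg : g ∈ A.G) (hs : s ∈ A.S) {j : ℤ}
    (hj : |j| ≤ 4) : P.Lop (F.f ^ j * lp F.rp s g) (11 * P.W) := by
  have hW := P.hW
  have hl := F.toRp.lop hg hs
  have key1 : ∀ n : ℕ, P.Lop (F.f ^ n * lp F.rp s g) (((n : ℝ) + 1) * (21 / 10 * P.W)) := by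
    intro n
    induction n with
    | zero => simpa using hl
    | succ n ih =>
      have h := F.hf.mul ih
      rw [← mul_assoc, ← pow_succ'] at h
      refine h.mono (le_of_eq ?_)
      push_cast
      ring
  have key2 : ∀ n : ℕ, P.Lop ((F.f ^ n)⁻¹ * lp F.rp s g) (((n : ℝ) + 1) * (21 / 10 * P.W)) := by
    intro n
    induction n with
    | zero => simpa using hl
    | succ n ih =>
      have h := F.hf.inv.mul ih
      rw [← mul_assoc, ← mul_inv_rev, ← pow_succ] at h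
      refine h.mono (le_of_eq ?_)
      push_cast
      ring
  have key3 : ∀ n : ℕ, n ≤ 4 → ((n : ℝ) + 1) * (21 / 10 * P.W) ≤ 11 * P.W := by
    intro n hn
    have h1 : (n : ℝ) ≤ 4 := by exact_mod_cast hn
    nlinarith
  obtain ⟨n, hn | hn⟩ := Int.eq_nat_or_neg j
  · have hn4 : n ≤ 4 := by
      rw [hn, abs_of_nonneg (Int.natCast_nonneg n)] at hj
      exact_mod_cast hj
    rw [hn, zpow_natCast]
    exact (key1 n).mono (key3 n hn4)
  · have hn4 : n ≤ 4 := by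
      rw [hn, abs_neg, abs_of_nonneg (Int.natCast_nonneg n)] at hj
      exact_mod_cast hj
    rw [hn, zpow_neg, zpow_natCast]
    exact (key2 n).mono (key3 n hn4)

private lemma Com_klop (F : Fd P) {ν : Equiv.Perm ℝ} (hν : P.Lop ν (11 * P.W)) :
    P.Lop (ν⁻¹ * (F.f⁻¹ * (ν * F.f))) (50 * P.W) := by
  have hW := P.hW
  exact (hν.inv.mul (F.hf.inv.mul (hν.mul F.hf))).mono (by linarith)

lemma Fd.com (F : Fd P) {ν : Equiv.Perm ℝ} (hν : P.Lop ν (11 * P.W)) {t : ℝ} (h1 : P.b < t)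
    (h2 : t ≤ P.b + 3 * P.r) (h3 : |ν t - t| ≤ 91 / 10 * (t - F.f t)) :
    |(ν⁻¹ * (F.f⁻¹ * (ν * F.f))) t - t| ≤ 13 * eps * (t - F.f t) := by
  obtain ⟨e1, e2, e3, e4⟩ := exp_eps
  have hep : 0 < eps := eps_pos
  have hep1 : eps ≤ 1 / 1000 := by unfold eps; norm_num
  have hr := P.hr
  have hv := F.hv1
  have hW := P.hW
  have hab := P.ab
  set k := ν⁻¹ * (F.f⁻¹ * (ν * F.f)) with hk
  have hX : 0 ≤ t - F.f t := by
    have := F.free t ⟨h1, by linarith⟩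
    linarith
  have hft : P.b < F.f t := by
    have := F.f_gt 1 h1
    rwa [pow_one] at this
  have hkd := (Com_klop F hν).disp (by linarith) h1.le (by linarith)
  rw [← hk] at hkd
  have hνd := hν.disp (by linarith) h1.le (by linarith)
  have hkd' := abs_le.1 hkd
  have hνd' := abs_le.1 hνd
  have hsm : 2 * eps * (t - P.b) ≤ 1 / 2 * (t - P.b) :=
    mul_le_mul_of_nonneg_right (by linarith) (by linarith)
  have hsm2 : 1 / 2 * (t - P.b) ≤ 3 / 2 * P.r := by linarith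
  have a1 : |(ν t - F.f (ν t)) - (t - F.f t)| ≤ 11 / 10 * eps * |ν t - t| := by
    rcases le_total t (ν t) with h | h
    · have := F.X_lip h1.le h (by linarith)
      rwa [abs_of_nonneg (show 0 ≤ ν t - t by linarith)]
    · have := F.X_lip (show P.b ≤ ν t by linarith) h (by linarith)
      rw [abs_sub_comm, abs_sub_comm (ν t) t, abs_of_nonneg (show 0 ≤ t - ν t by linarith)]
      exact this
  have a2 : |(ν t - F.f (ν t)) - (t - F.f t)| ≤ 1001 / 100 * eps * (t - F.f t) := by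
    refine a1.trans ?_
    calc 11 / 10 * eps * |ν t - t| ≤ 11 / 10 * eps * (91 / 10 * (t - F.f t)) :=
          mul_le_mul_of_nonneg_left h3 (by positivity)
      _ = 1001 / 100 * eps * (t - F.f t) := by ring
  have a3 := hν.lo (by linarith) (u := F.f t) (v := t) (by linarith) (by linarith) (by linarith)
  have a4 := hν.up (by linarith) (u := F.f t) (v := t) (by linarith) (by linarith) (by linarith)
  have a5 : (1 - 11 / 10 * eps) * (t - F.f t) ≤ ν t - ν (F.f t) :=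
    (mul_le_mul_of_nonneg_right e2 hX).trans a3
  have a6 : ν t - ν (F.f t) ≤ (1 + 11 / 10 * eps) * (t - F.f t) :=
    a4.trans (mul_le_mul_of_nonneg_right e1 hX)
  have a2' := abs_le.1 a2
  -- positions
  have hkt : F.f (ν (k t)) = ν (F.f t) := by
    rw [hk]
    simp only [Equiv.Perm.mul_apply, Com_ai]
  have a7 : |F.f (ν (k t)) - F.f (ν t)| ≤ 1111 / 100 * eps * (t - F.f t) := by
    rw [hkt, abs_le]
    constructor
    · linarith
    · linarith
  have hh : P.Lop (F.f * ν) (14 * P.W) := (F.hf.mul hν).mono (by linarith)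
  have a8 : Real.exp (-eps) * |k t - t| ≤ |F.f (ν (k t)) - F.f (ν t)| := by
    rcases le_total (k t) t with h | h
    · have h5 := hh.lo (by linarith) (u := k t) (v := t) (by linarith) h (by linarith)
      rw [Equiv.Perm.mul_apply, Equiv.Perm.mul_apply] at h5
      rw [abs_sub_comm, abs_of_nonneg (show 0 ≤ t - k t by linarith), abs_sub_comm]
      exact h5.trans (le_abs_self _)
    · have h5 := hh.lo (by linarith) (u := t) (v := k t) (by linarith) h (by linarith)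
      rw [Equiv.Perm.mul_apply, Equiv.Perm.mul_apply] at h5
      rw [abs_of_nonneg (show 0 ≤ k t - t by linarith)]
      exact h5.trans (le_abs_self _)
  have a9 : (1 - 11 / 10 * eps) * |k t - t| ≤ 1111 / 100 * eps * (t - F.f t) :=
    (mul_le_mul_of_nonneg_right e2 (abs_nonneg _)).trans (a8.trans a7)
  have a10 : 1111 / 100 * eps * (t - F.f t) ≤ (1 - 11 / 10 * eps) * (13 * eps * (t - F.f t)) := by
    have : 0 ≤ eps * (t - F.f t) := by positivity
    nlinarith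
  exact le_of_mul_le_mul_left (a9.trans a10) (by linarith)

/-- all the facts about ν and k -/
theorem Fd.kap (F : Fd P) {g s ν : Equiv.Perm ℝ} (hg : g ∈ A.G) (hs : s ∈ A.S) {j : ℤ}
    (hj : |j| ≤ 4) (hν : ν = F.f ^ j * lp F.rp s g) :
    P.Lop ν (11 * P.W) ∧ P.Lop (ν⁻¹ * (F.f⁻¹ * (ν * F.f))) (50 * P.W) ∧
      (∀ t, P.b < t → t ≤ P.b + 6 * P.r → (F.f ^ 9) t < ν t ∧ ν t < (F.f ^ 9)⁻¹ t) ∧
      (∀ t, P.b < t → t ≤ P.b + 3 * P.r →
        |(ν⁻¹ * (F.f⁻¹ * (ν * F.f))) t - t| ≤ 13 * eps * (t - F.f t)) := by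
  have hlop : P.Lop ν (11 * P.W) := by
    rw [hν]
    exact F.nu_lop hg hs hj
  have hbd : ∀ t, P.b < t → t ≤ P.b + 6 * P.r → (F.f ^ 9) t < ν t ∧ ν t < (F.f ^ 9)⁻¹ t := by
    intro t h1 h2
    rw [hν]
    exact F.nu_bd hg hs hj h1 h2
  refine ⟨hlop, Com_klop F hlop, hbd, ?_⟩
  intro t h1 h2
  have hr := P.hr
  obtain ⟨b1, b2⟩ := hbd t h1 (by linarith)
  obtain ⟨n1, n2⟩ := F.nine h1 (show t ≤ P.b + 6 * P.r by linarith)
  apply F.com hlop h1 h2
  rw [abs_le]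
  constructor <;> linarith

end Pool.Agent.H42.EM
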