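/-
TEL : telescoping.

Notation: x_i := f^i * α, k := ν⁻¹ f⁻¹ ν f, y_i := (f^i)⁻¹ * (ν * x_i), α' := y_n.  b < f (b + r) ≤ α a < b + r.
PROOF.
(1) tel_eq: f * ν * k = ν * f, so if k (x_i a) = x_i a then ν (f (x_i a)) = f (ν (x_i a)), i.e. y_(i+1) a = y_i a.
    By induction, if k fixes x_i a for all l ≤ i < n (l ≤ n), then y_l a = y_n a (and y_l b = y_n b by b_congr).
(2) tel_near: |E y_l - E (f^l α)| for y_l with y_l a < b + 3/2 r:  E (f^l y_l) = E (ν x_l), |E (ν x_l) - E x_l| ≤ 101/100 * 11 * rh x_l (E_comp).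
(3) All k-fixed (l = 0 in (1)): α' a = (ν α) a, E α' = E (ν α) (E_congr, k = 0), |E (ν α) - E α| ≤ 12 rh α.  First alternative.
(4) Otherwise let l < n be the largest index with k (x_l a) ≠ x_l a (Nat.findGreatest or strong induction); then α' a = y_(l+1) a by (1).
    clu_of: Clu e S with e = E (f^l α), S = ∑_{i < l + 10^6} rh (f^i α).   |E α - e| ≤ 213/100 ∑_{i<l} rh (f^i α) ≤ 213/100 S (E_pow).
    Let β := y_(l+1) (same gap as α'; E β = E α').  f^(l+1) β = ν x_(l+1).  Position: hν9 for t = x_(l+1) a (≤ b + r): apply (f^(l+1))⁻¹ (commutes with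
    f^9): (f^9) (α a) < β a < (f^9)⁻¹ (α a) ≤ b + 101/100 r (up_le).   So cmp_down (Dis) applies to (α, β) and (β, α):
    f^10 (β b) ≤ f^9 (β a) < α a (f (β b) ≤ β a by sep_or, as f (β a) < β a), f^10 (α b) ≤ f^9 (α a) < β a.
    rh β / rh α ≤ 1.001 rh (ν x_(l+1)) / rh x_(l+1) ≤ 1.001 e^eps (Lop.rh_up) ≤ 1.002, so rh (f^i β) ≤ 1.001 rh (f^i α) rh β / rh α ≤ 1.004 rh (f^i α).
    |E β - E (f^(l+1) β)| ≤ 213/100 ∑_{i ≤ l} rh (f^i β) ≤ 2.14 S,  |E (ν x_(l+1)) - E x_(l+1)| ≤ 12 rh x_(l+1),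
    |E x_(l+1) - e| ≤ 213/100 rh x_l.  rh x_l, rh x_(l+1) are terms of S (l + 1 < l + 10^6).  Total ≤ (2.14 + 12 + 2.13) S... this is ≤ 10 S only with the
    better bound rh x_l, rh x_(l+1) ≤ S / 100: S ≥ ∑_{l ≤ i < l + 200} rh (f^i α) ≥ 200 * 98/100 * rh x_l (pow_near ten times, or Lop.rh_lo with induction:
    rh (f^i x_l) ≥ (1 - 2 eps)^i rh x_l ≥ (1 - 400 eps) rh x_l), and rh x_(l+1) ≤ 101/100 rh x_l.
-/
import Pool.Agent.H42.EZ.Clc

set_option autoImplicit false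

namespace Pool.Agent.H42.EM

open Set

variable {A : Sys} {P : Gp A}

private lemma Tel_ab (P : Gp A) {x : Equiv.Perm ℝ} (hx : x ∈ A.G) :
    x P.b ≤ x P.a + eps * P.r := by
  have h1 := P.rh_mul x
  have h2 := P.rh_le hx
  have h3 := P.hJ
  have h4 := P.ab
  have h5 : P.rh x * (P.b - P.a) ≤ 1 * (P.b - P.a) :=
    mul_le_mul_of_nonneg_right h2 (by linarith)
  linarith

private lemma Tel_fb (F : Fd P) {x : Equiv.Perm ℝ} (hx : x ∈ A.G) (hb : P.b < x P.a)
    (hv : x P.a ≤ F.v) : F.f (x P.b) ≤ x P.a := by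
  have hlt := F.free (x P.a) ⟨hb, hv⟩
  have hfx : F.f * x ∈ A.G := A.G.mul_mem F.hf.1 hx
  have hxab : x P.a < x P.b := (A.good hx).mono P.ab
  rcases P.sep_or hfx hx with h | h | h
  · have h1 : F.f (x P.a) = x P.a := h.1
    rw [h1] at hlt
    exact absurd hlt (lt_irrefl _)
  · exact h
  · have h1 : x P.b ≤ F.f (x P.a) := h
    linarith

private lemma Tel_step (F : Fd P) {ν : Equiv.Perm ℝ} {t : ℝ}
    (h : (ν⁻¹ * (F.f⁻¹ * (ν * F.f))) t = t) : ν (F.f t) = F.f (ν t) := by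
  have h1 : ν⁻¹ (F.f⁻¹ (ν (F.f t))) = t := h
  rw [Equiv.Perm.inv_eq_iff_eq, Equiv.Perm.inv_eq_iff_eq] at h1
  exact h1

private lemma Tel_Y (F : Fd P) {α ν : Equiv.Perm ℝ} {i : ℕ}
    (h : (ν⁻¹ * (F.f⁻¹ * (ν * F.f))) ((F.f ^ i) (α P.a)) = (F.f ^ i) (α P.a)) :
    ((F.f ^ (i + 1))⁻¹ * (ν * (F.f ^ (i + 1) * α))) P.a =
      ((F.f ^ i)⁻¹ * (ν * (F.f ^ i * α))) P.a := by
  have h1 := Tel_step F h
  simp only [Equiv.Perm.mul_apply]
  rw [ITR_pow_succ_apply', h1, pow_succ', mul_inv_rev, Equiv.Perm.mul_apply]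
  congr 1
  exact Fpw_ia _ _

private lemma Tel_eq (F : Fd P) {α ν : Equiv.Perm ℝ} (l : ℕ) : ∀ m, l ≤ m →
    (∀ i, l ≤ i → i < m →
      (ν⁻¹ * (F.f⁻¹ * (ν * F.f))) ((F.f ^ i) (α P.a)) = (F.f ^ i) (α P.a)) →
    ((F.f ^ m)⁻¹ * (ν * (F.f ^ m * α))) P.a = ((F.f ^ l)⁻¹ * (ν * (F.f ^ l * α))) P.a := by
  intro m hm
  induction m, hm using Nat.le_induction with
  | base => intro _; rfl
  | succ m hm ih =>
    intro h
    rw [Tel_Y F (h m hm (Nat.lt_succ_self m))]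
    exact ih fun i hi hi' => h i hi (Nat.lt_succ_of_lt hi')

private lemma Tel_inv_comm (g : Equiv.Perm ℝ) (i j : ℕ) (t : ℝ) :
    (g ^ i)⁻¹ ((g ^ j) t) = (g ^ j) ((g ^ i)⁻¹ t) := by
  have h : (g ^ i)⁻¹ * g ^ j = g ^ j * (g ^ i)⁻¹ := by
    have h1 : Commute (g ^ i) (g ^ j) := (Commute.refl g).pow_pow i j
    exact h1.inv_left.eq
  exact congrArg (fun σ : Equiv.Perm ℝ => σ t) h

private lemma Tel_inv_comm' (g : Equiv.Perm ℝ) (i j : ℕ) (t : ℝ) :
    (g ^ i)⁻¹ ((g ^ j)⁻¹ t) = (g ^ j)⁻¹ ((g ^ i)⁻¹ t) := by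
  have h : (g ^ i)⁻¹ * (g ^ j)⁻¹ = (g ^ j)⁻¹ * (g ^ i)⁻¹ := by
    have h1 : Commute (g ^ i) (g ^ j) := (Commute.refl g).pow_pow i j
    exact h1.inv_inv.eq
  exact congrArg (fun σ : Equiv.Perm ℝ => σ t) h

private lemma Tel_E (P : Gp A) {ν x : Equiv.Perm ℝ} (hν : P.Lop ν (11 * P.W)) (hx : x ∈ A.G)
    (h1 : P.b ≤ x P.a) (h2 : x P.b ≤ P.b + 8 * P.r) :
    |P.E (ν * x) - P.E x| ≤ 1112 / 100 * P.rh x := by
  have hr := P.hr
  have hab := P.ab
  have hW : 0 < P.W := lt_of_lt_of_le (by norm_num) P.hW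
  have h3 := P.E_comp hν.2.2.2 (by linarith) hx (by linarith) (by linarith)
  have h4 : 101 / 100 * P.rh x * (11 * P.W) / P.W = 1111 / 100 * P.rh x := by
    field_simp
    ring
  rw [h4] at h3
  have h5 := P.rh_pos hx
  linarith

theorem Fd.tel (F : Fd P) {α ν : Equiv.Perm ℝ} (hα : F.Prim (98 / 100) α)
    (h1 : F.f (P.b + P.r) ≤ α P.a) (h2 : α P.a < P.b + P.r) (hν : P.Lop ν (11 * P.W))
    (hk : F.Sd (ν⁻¹ * (F.f⁻¹ * (ν * F.f))))
    (hν9 : ∀ t, P.b < t → t ≤ P.b + 6 * P.r → (F.f ^ 9) t < ν t ∧ ν t < (F.f ^ 9)⁻¹ t) (n : ℕ) :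
    |P.E ((F.f ^ n)⁻¹ * (ν * (F.f ^ n * α))) - P.E α| ≤ 30 * P.rh α ∨
      ∃ e S, F.Clu e S ∧ |P.E α - e| ≤ 10 * S ∧
        |P.E ((F.f ^ n)⁻¹ * (ν * (F.f ^ n * α))) - e| ≤ 10 * S := by
  classical
  have hr := P.hr
  have hab := P.ab
  have hW : 0 < P.W := lt_of_lt_of_le (by norm_num) P.hW
  have hbr := Fpw_br F
  have hαG : α ∈ A.G := hα.1
  have hαb : P.b < α P.a := hα.2.1
  have hαv : α P.a ≤ F.v := by linarith
  have heps : eps ≤ 1 / 1000 := by unfold eps; norm_num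
  have hep0 : 0 < eps := eps_pos
  have her : eps * P.r ≤ P.r := by nlinarith
  have hαb2 : α P.b ≤ P.b + 2 * P.r := by
    have := Tel_ab P hαG
    linarith
  have hpos := fun i => Emv_pos F hαG hαb.le (show α P.b ≤ P.b + 8 * P.r by linarith) i
  have hYG : ∀ i, (F.f ^ i)⁻¹ * (ν * (F.f ^ i * α)) ∈ A.G := fun i =>
    A.G.mul_mem (A.G.inv_mem (F.fG i)) (A.G.mul_mem hν.1 (hpos i).1)
  have hEcongr : ∀ {g h : Equiv.Perm ℝ}, g ∈ A.G → h ∈ A.G → g P.a = h P.a → P.E g = P.E h := by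
    intro g h hg hh e
    exact P.E_congr hg hh (k := 0) (by rw [e]; simp)
  by_cases hall : ∀ i, i < n →
      (ν⁻¹ * (F.f⁻¹ * (ν * F.f))) ((F.f ^ i) (α P.a)) = (F.f ^ i) (α P.a)
  · left
    have h3 := Tel_eq F (α := α) (ν := ν) 0 n (Nat.zero_le n) fun i _ hi => hall i hi
    have h4 : P.E ((F.f ^ n)⁻¹ * (ν * (F.f ^ n * α))) = P.E (ν * α) := by
      refine hEcongr (hYG n) (A.G.mul_mem hν.1 hαG) (h3.trans ?_)
      simp
    rw [h4]
    have h5 := Tel_E P hν hαG hαb.le (by linarith)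
    have h6 := P.rh_pos hαG
    linarith
  · right
    push Not at hall
    obtain ⟨i0, hi0, hi0'⟩ := hall
    set s : Finset ℕ := (Finset.range n).filter fun i =>
      (ν⁻¹ * (F.f⁻¹ * (ν * F.f))) ((F.f ^ i) (α P.a)) ≠ (F.f ^ i) (α P.a) with hs
    have hsne : s.Nonempty := ⟨i0, by
      rw [hs, Finset.mem_filter, Finset.mem_range]
      exact ⟨hi0, hi0'⟩⟩
    obtain ⟨l, hl⟩ : ∃ l, l = s.max' hsne := ⟨_, rfl⟩
    have hls : l ∈ s := by rw [hl]; exact s.max'_mem hsne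
    rw [hs, Finset.mem_filter, Finset.mem_range] at hls
    obtain ⟨hln, hlk⟩ := hls
    have hfix : ∀ i, l + 1 ≤ i → i < n →
        (ν⁻¹ * (F.f⁻¹ * (ν * F.f))) ((F.f ^ i) (α P.a)) = (F.f ^ i) (α P.a) := by
      intro i hi hi'
      by_contra hcon
      have h3 : i ∈ s := by
        rw [hs, Finset.mem_filter, Finset.mem_range]
        exact ⟨hi', hcon⟩
      have h4 := s.le_max' i h3
      rw [← hl] at h4
      omega
    have hYn := Tel_eq F (α := α) (ν := ν) (l + 1) n hln hfix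
    set β : Equiv.Perm ℝ := (F.f ^ (l + 1))⁻¹ * (ν * (F.f ^ (l + 1) * α)) with hβ
    have hβG : β ∈ A.G := hYG (l + 1)
    have hEβ : P.E ((F.f ^ n)⁻¹ * (ν * (F.f ^ n * α))) = P.E β := hEcongr (hYG n) hβG hYn
    have hfβ : F.f ^ (l + 1) * β = ν * (F.f ^ (l + 1) * α) := by
      rw [hβ, mul_inv_cancel_left]
    have hclu := F.clu_of hk hα h2 (l := l) hlk
    set S : ℝ := ∑ i ∈ Finset.range (l + 10 ^ 6), P.rh (F.f ^ i * α) with hS
    have hrh : ∀ i, 0 < P.rh (F.f ^ i * α) := fun i => P.rh_pos (hpos i).1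
    have hSl : ∑ i ∈ Finset.range (l + 1), P.rh (F.f ^ i * α) ≤ S := by
      rw [hS]
      refine Finset.sum_le_sum_of_subset_of_nonneg (Finset.range_mono (by omega)) ?_
      intro i _ _
      exact (hrh i).le
    have hSl' : ∑ i ∈ Finset.range l, P.rh (F.f ^ i * α) ≤ S := by
      rw [hS]
      refine Finset.sum_le_sum_of_subset_of_nonneg (Finset.range_mono (by omega)) ?_
      intro i _ _
      exact (hrh i).le
    have hS2 : P.rh (F.f ^ l * α) + P.rh (F.f ^ (l + 1) * α) ≤ S := by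
      rw [hS, ← Finset.sum_pair (f := fun i => P.rh (F.f ^ i * α)) (Nat.ne_of_lt (Nat.lt_succ_self l))]
      refine Finset.sum_le_sum_of_subset_of_nonneg ?_ ?_
      · intro i hi
        rw [Finset.mem_insert, Finset.mem_singleton] at hi
        rw [Finset.mem_range]
        omega
      · intro i _ _
        exact (hrh i).le
    have hS0 : 0 < S := lt_of_lt_of_le (add_pos (hrh l) (hrh (l + 1))) hS2
    refine ⟨P.E (F.f ^ l * α), S, hclu, ?_, ?_⟩
    · have h3 := F.E_pow hαG hαb.le (show α P.b ≤ P.b + 8 * P.r by linarith) l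
      rw [abs_sub_comm]
      linarith
    · rw [hEβ]
      -- position of β
      have hαup : (F.f ^ 9)⁻¹ (α P.a) ≤ P.b + 101 / 100 * P.r := by
        have h3 := F.up_le (n := 9) (by norm_num) hαb.le (show α P.a ≤ P.b + 7 * P.r by linarith)
        linarith
      have ht0 : P.b < (F.f ^ (l + 1)) (α P.a) := F.f_gt (l + 1) hαb
      have ht1 : (F.f ^ (l + 1)) (α P.a) ≤ α P.a := F.f_le (l + 1) hαb.le hαv
      obtain ⟨hn1, hn2⟩ := hν9 _ ht0 (by linarith)
      have hβa : β P.a = (F.f ^ (l + 1))⁻¹ (ν ((F.f ^ (l + 1)) (α P.a))) := rfl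
      have hlo : (F.f ^ 9) (α P.a) < β P.a := by
        have h3 := Fpw_invmono F (l + 1) hn1
        rw [Tel_inv_comm, Fpw_ia] at h3
        rw [hβa]
        exact h3
      have hup : β P.a < (F.f ^ 9)⁻¹ (α P.a) := by
        have h3 := Fpw_invmono F (l + 1) hn2
        rw [Tel_inv_comm', Fpw_ia] at h3
        rw [hβa]
        exact h3
      have hup' : (F.f ^ 9) (β P.a) < α P.a := by
        have h3 := F.fmono 9 hup
        have h4 : (F.f ^ 9) ((F.f ^ 9)⁻¹ (α P.a)) = α P.a := (F.f ^ 9).apply_symm_apply _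
        rw [h4] at h3
        exact h3
      have hβb : P.b < β P.a := lt_trans (F.f_gt 9 hαb) hlo
      have hβa2 : β P.a ≤ P.b + 101 / 100 * P.r := hup.le.trans hαup
      have hβb2 : β P.b ≤ P.b + 8 * P.r := by
        have := Tel_ab P hβG
        linarith
      have hv : P.b + 8 * P.r < F.v := F.hv1
      have hβv : β P.a ≤ F.v := by linarith
      have c1 : (F.f ^ 10) (β P.b) ≤ α P.a := by
        have h3 := Tel_fb F hβG hβb hβv
        have h4 := (F.fmono 9).monotone h3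
        rw [ITR_pow_succ_apply F.f 9]
        exact h4.trans hup'.le
      have c2 : (F.f ^ 10) (α P.b) ≤ β P.a := by
        have h3 := Tel_fb F hαG hαb hαv
        have h4 := (F.fmono 9).monotone h3
        rw [ITR_pow_succ_apply F.f 9]
        exact h4.trans hlo.le
      have hα8 : α P.b ≤ P.b + 8 * P.r := by linarith
      have d1 := F.cmp_down hβG hαG hβb.le hαb.le hβb2 hα8 c1 c2 (l + 1)
      rw [hfβ] at d1
      have hx1 := hpos (l + 1)
      have d2 := hν.rh_up (by linarith) hx1.1 (by linarith [hx1.2.1]) (by linarith [hx1.2.2])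
      have hα0 := P.rh_pos hαG
      have hβ0 := P.rh_pos hβG
      have hx0 := hrh (l + 1)
      have he := exp_eps.1
      have he2 : Real.exp eps ≤ 1 + 1 / 10000 := by
        refine he.trans ?_
        unfold eps
        norm_num
      have d3 : P.rh β ≤ 1002 / 1000 * P.rh α := by
        have h3 : P.rh (ν * (F.f ^ (l + 1) * α)) ≤ (1 + 1 / 10000) * P.rh (F.f ^ (l + 1) * α) :=
          d2.trans (mul_le_mul_of_nonneg_right he2 hx0.le)
        have h4 : P.rh (ν * (F.f ^ (l + 1) * α)) * P.rh α ≤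
            (1 + 1 / 10000) * P.rh (F.f ^ (l + 1) * α) * P.rh α :=
          mul_le_mul_of_nonneg_right h3 hα0.le
        have h5 : P.rh (F.f ^ (l + 1) * α) * P.rh β ≤
            P.rh (F.f ^ (l + 1) * α) * (1002 / 1000 * P.rh α) := by
          have h6 : P.rh (F.f ^ (l + 1) * α) * P.rh β ≤
              1001 / 1000 * ((1 + 1 / 10000) * P.rh (F.f ^ (l + 1) * α) * P.rh α) :=
            d1.trans (mul_le_mul_of_nonneg_left h4 (by norm_num))
          have h7 : 0 < P.rh (F.f ^ (l + 1) * α) * P.rh α := mul_pos hx0 hα0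
          nlinarith
        exact le_of_mul_le_mul_left h5 hx0
      have d4 : ∀ i, P.rh (F.f ^ i * β) ≤ 1004 / 1000 * P.rh (F.f ^ i * α) := by
        intro i
        have h3 := F.cmp_down hαG hβG hαb.le hβb.le hα8 hβb2 c2 c1 i
        have h4 := hrh i
        have h5 : P.rh (F.f ^ i * α) * P.rh β ≤ P.rh (F.f ^ i * α) * (1002 / 1000 * P.rh α) :=
          mul_le_mul_of_nonneg_left d3 h4.le
        have h6 : P.rh (F.f ^ i * β) * P.rh α ≤ (1004 / 1000 * P.rh (F.f ^ i * α)) * P.rh α := by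
          have h7 : 0 < P.rh (F.f ^ i * α) * P.rh α := mul_pos h4 hα0
          nlinarith
        exact le_of_mul_le_mul_right h6 hα0
      have e1 := F.E_pow hβG hβb.le hβb2 (l + 1)
      rw [hfβ] at e1
      have e2 : ∑ i ∈ Finset.range (l + 1), P.rh (F.f ^ i * β) ≤
          1004 / 1000 * ∑ i ∈ Finset.range (l + 1), P.rh (F.f ^ i * α) := by
        rw [Finset.mul_sum]
        exact Finset.sum_le_sum fun i _ => d4 i
      have e3 := Tel_E P hν hx1.1 hx1.2.1 hx1.2.2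
      have hx := hpos l
      have e4 := F.pow_near hx.1 hx.2.1 hx.2.2 (n := 1) (by norm_num)
      have e5 : F.f ^ 1 * (F.f ^ l * α) = F.f ^ (l + 1) * α := by
        rw [← mul_assoc, ← pow_add, add_comm 1 l]
      rw [e5] at e4
      obtain ⟨e6, e7, e8⟩ := e4
      have hxl := hrh l
      rw [abs_le] at e1 e3 e8 ⊢
      push_cast at e8
      constructor <;> linarith [e1.1, e1.2, e3.1, e3.2, e8.1, e8.2]

end Pool.Agent.H42.EM
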