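/-
TLA : the value Hat along an edge, the parents correspond.

PROOF.  x := (rp z)⁻¹ * y, l := lp rp s z = (rp (s * z))⁻¹ * (s * rp z), (rp (s*z))⁻¹ * (s * y) = l * x.  z ∈ G (Par).
 dep: f^(n+1) (b+r) ≤ x a < f^n (b+r), f^(n'+1) (b+r) ≤ l (x a) < f^n' (b+r).
 F.dsp at t = x a: f⁴ (x a) < l (x a): f^(n+5) (b+r) ≤ f⁴ (x a) < f^n' (b+r), so n' < n + 5 (f_anti).  F.dsp (second part) at t = l (x a): f⁴ (l x a) < x a,
 so n < n' + 5.  (b < l x a < b + r by let_pos.)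
 j := (n : ℤ) - n', |j| ≤ 4, ν := f^j * l, α := (f^n)⁻¹ * x; α' := (f^n')⁻¹ * (l * x) = (f^n)⁻¹ * (ν * (f^n * α)) (zpow arithmetic in the group).
 Fd.kap gives the hypotheses of tel.  α is Prim 98/100: par_prim and prim_finv (dep_up: α a < b + r).  dep_up: f (b + r) ≤ α a.
 Out α: Prim.mono; (f^5) (b + r) ≤ f (b + r) ≤ α a; (f^5) (α a) ≤ α a < b + r.
-/
import Pool.Agent.H42.EZ.Tel
import Pool.Agent.H42.EZ.Com
import Pool.Agent.H42.EZ.Wdf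

set_option autoImplicit false

namespace Pool.Agent.H42.EM

open Set

variable {A : Sys} {P : Gp A}

private lemma Tla_anti (F : Fd P) {m n : ℕ} (h : (F.f ^ m) (P.b + P.r) < (F.f ^ n) (P.b + P.r)) :
    n < m := by
  by_contra hc
  have h1 := F.f_anti (m := m) (n := n) (by omega) (t := P.b + P.r) (by linarith [P.hr])
    (by linarith [P.hr, F.hv1])
  linarith

private lemma Tla_dep (F : Fd P) {l : Equiv.Perm ℝ} {n n' : ℕ} {t : ℝ} (hn : F.Dep t n)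
    (hn' : F.Dep (l t) n') (ht : (F.f ^ 4) t < l t) : n' < n + 5 := by
  apply Tla_anti F
  have h1 := (F.fmono 4).monotone hn.1
  have h2 : (F.f ^ (n + 5)) (P.b + P.r) = (F.f ^ 4) ((F.f ^ (n + 1)) (P.b + P.r)) := by
    rw [← Equiv.Perm.mul_apply, ← pow_add]
    congr 2
    omega
  rw [h2]
  exact (h1.trans_lt ht).trans hn'.2

theorem Fd.tla (F : Fd P) {y z s : Equiv.Perm ℝ} {n n' : ℕ} (hy : y ∈ A.G) (hs : s ∈ A.S)
    (h : F.Par y z) (h' : F.Par (s * y) (s * z)) (hn : F.Dep (((F.rp z)⁻¹ * y) P.a) n)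
    (hn' : F.Dep (((F.rp (s * z))⁻¹ * (s * y)) P.a) n') :
    ∃ c ρ, F.Win c ρ ∧ |P.E ((F.f ^ n)⁻¹ * ((F.rp z)⁻¹ * y)) - c| ≤ ρ ∧
      |P.E ((F.f ^ n')⁻¹ * ((F.rp (s * z))⁻¹ * (s * y))) - c| ≤ ρ := by
  have hr := P.hr
  have hz : z ∈ A.G := h.1.1
  obtain ⟨hxG, hx1, hx2, hx3, -⟩ := F.let_pos hy h.1
  set x := (F.rp z)⁻¹ * y with hx
  set l := lp F.rp s z with hl
  have ex : (F.rp (s * z))⁻¹ * (s * y) = l * x := by
    rw [hl, hx, lp]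
    group
  rw [ex] at hn' ⊢
  have hsy : s * y ∈ A.G := by
    have h1 := h'.1.1
    have h2 : s ∈ A.G := by
      have h3 := mul_mem h1 (inv_mem hz)
      rwa [mul_inv_cancel_right] at h3
    exact mul_mem h2 hy
  obtain ⟨-, hy1, hy2, -, -⟩ := F.let_pos hsy h'.1
  rw [ex] at hy1 hy2
  have hv := F.hv1
  have d1 := (F.dsp z hz s hs (x P.a) ⟨hx1, by linarith⟩).1
  have d2 := (F.dsp z hz s hs ((l * x) P.a) ⟨hy1, by linarith⟩).2
  have e1 : n' < n + 5 := Tla_dep F (l := l) hn hn' d1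
  have e2 : n < n' + 5 := by
    refine Tla_dep F (l := l⁻¹) hn' ?_ d2
    have h3 : l⁻¹ ((l * x) P.a) = x P.a := by
      rw [← Equiv.Perm.mul_apply, inv_mul_cancel_left]
    rw [h3]
    exact hn
  have hj : |(n : ℤ) - n'| ≤ 4 := by
    rw [abs_le]
    omega
  obtain ⟨k1, k2, k3, k4⟩ := F.kap hz hs hj (ν := F.f ^ ((n : ℤ) - n') * l) rfl
  have hup := F.dep_up hn
  have hαa : ((F.f ^ n)⁻¹ * x) P.a = (F.f ^ n)⁻¹ (x P.a) := rfl
  have hprim : F.Prim (98 / 100) ((F.f ^ n)⁻¹ * x) := by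
    have h3 := F.prim_finv (F.par_prim hy h) (by norm_num) (by norm_num) (n := n)
      (by rw [← hx, hαa]; linarith [hup.2])
    exact h3.mono (by norm_num)
  have hαG : (F.f ^ n)⁻¹ * x ∈ A.G := hprim.1
  have eα : (F.f ^ n)⁻¹ * ((F.f ^ ((n : ℤ) - n') * l) * (F.f ^ n * ((F.f ^ n)⁻¹ * x))) =
      (F.f ^ n')⁻¹ * (l * x) := by
    rw [mul_inv_cancel_left, zpow_sub, zpow_natCast, zpow_natCast]
    group
  have hα1 : P.b < ((F.f ^ n)⁻¹ * x) P.a := hprim.2.1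
  have hf1 : F.f (P.b + P.r) = (F.f ^ 1) (P.b + P.r) := by rw [pow_one]
  have ht := F.tel hprim hup.1 hup.2 k1 ⟨k2, k4⟩ k3 n
  rw [eα] at ht
  rcases ht with ht | ⟨e, S, hS, ha, hb⟩
  · refine ⟨P.E ((F.f ^ n)⁻¹ * x), 30 * P.rh ((F.f ^ n)⁻¹ * x), Or.inl ⟨_, ⟨hprim.mono (by norm_num),
      ?_, ?_⟩, rfl, rfl⟩, ?_, ht⟩
    · have h3 := F.f_anti (m := 1) (n := 5) (by norm_num) (t := P.b + P.r) (by linarith)
        (by linarith)
      rw [← hf1] at h3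
      exact h3.trans hup.1
    · have h3 := F.f_le 5 (t := ((F.f ^ n)⁻¹ * x) P.a) hα1.le (by rw [hαa]; linarith [hup.2])
      exact h3.trans_lt hup.2
    · rw [sub_self, abs_zero]
      have := P.rh_pos hαG
      linarith
  · exact ⟨e, 10 * S, Or.inr (Or.inr ⟨S, hS, rfl⟩), ha, hb⟩

end Pool.Agent.H42.EM
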