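/-
WDF : windows.
-/
import Pool.Agent.H42.EZ.Def

set_option autoImplicit false

namespace Pool.Agent.H42.EM

open Set

variable {A : Sys} {P : Gp A}

/-- a window: an interval with centre `c` and radius `ρ` -/
def Fd.Win (F : Fd P) (c ρ : ℝ) : Prop :=
  (∃ o, F.Out o ∧ c = P.E o ∧ ρ = 30 * P.rh o) ∨
  (∃ y ∈ A.G, (¬ ∃ z, F.Anc y z) ∧ c = P.E y ∧ ρ = P.B * P.rh y / P.W) ∨
  (∃ S, F.Clu c S ∧ ρ = 10 * S)

end Pool.Agent.H42.EM
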