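/-
TLB : entering a shadow: s y is in the shadow of z2, but y is not in the shadow of s⁻¹ z2.

Notation: z2' := s⁻¹ * z2, x2 := (rp z2)⁻¹ * (s * y), l := lp rp s⁻¹ z2 = (rp z2')⁻¹ * (s⁻¹ * rp z2).  y = rp z2' * (l * x2).  s⁻¹ ∈ A.S.
PROOFS.
* tlb_l: z2' b ≤ y a (apply s⁻¹ to z2 b ≤ (s y) a), so ¬ Anc gives rp z2' (b + r) ≤ y a = rp z2' (l (x2 a)), b + r ≤ l (x2 a).  F.dsp for l⁻¹ at t = b + r:
  f⁴ (b + r) < l⁻¹ (b + r) ≤ x2 a.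
* tlb_out: par_prim for (s y, z2) and Prim.mono; f⁵ (b+r) ≤ f⁴ (b+r) < x2 a; f⁵ (x2 a) ≤ x2 a < b + r (let_pos, f_le).
* tlb_E: (1) n2 < 4: f⁴ (b + r) < x2 a < f^n2 (b + r).  x0 := (f^n2)⁻¹ * x2 (dep_up: position in [f (b+r), b + r)), x2 = f^n2 * x0, pow_near for x0:
  |E x2 - E x0| ≤ 22/10 * 3 * rh x0 and rh x0 ≤ rh x2 / (98/100).
  (2) y = rp z2' * (l * x2): |E y - E (l x2)| ≤ 101/100 * 101/100 * rh (l x2) (E_comp), |E (l x2) - E x2| ≤ 101/100 * 21/10 * rh x2, rh (l x2) ≤ 1.001 rh x2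
  (Rp.lop, Lop.rh_up).
-/
import Pool.Agent.H42.EZ.Prm
import Pool.Agent.H42.EZ.Wdf
import Pool.Agent.H42.EZ.Rps

set_option autoImplicit false

namespace Pool.Agent.H42.EM

open Set

variable {A : Sys} {P : Gp A}

lemma Tlb_e (rp : Equiv.Perm ℝ → Equiv.Perm ℝ) (y s z2 : Equiv.Perm ℝ) :
    rp (s⁻¹ * z2) * (lp rp s⁻¹ z2 * ((rp z2)⁻¹ * (s * y))) = y := by
  unfold lp
  group

lemma Tlb_b (F : Fd P) {y s z2 : Equiv.Perm ℝ} (_hy : y ∈ A.G) (hs : s ∈ A.S)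
    (h2 : F.Par (s * y) z2) (hna : ¬ F.Anc y (s⁻¹ * z2)) :
    P.b + P.r ≤ lp F.rp s⁻¹ z2 (((F.rp z2)⁻¹ * (s * y)) P.a) := by
  have hsG : s ∈ A.G := A.S_mem hs
  have hz2 : z2 ∈ A.G := h2.1.1
  have hz2' : s⁻¹ * z2 ∈ A.G := A.G.mul_mem (A.G.inv_mem hsG) hz2
  have h3 : (s⁻¹ * z2) P.b ≤ y P.a := by
    have h4 := h2.1.2.1
    have h5 := (A.good (A.G.inv_mem hsG)).mono.monotone h4
    rw [Equiv.Perm.mul_apply] at h5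
    rw [Equiv.Perm.mul_apply]
    simpa using h5
  have h4 : F.rp (s⁻¹ * z2) (P.b + P.r) ≤ y P.a := by
    by_contra hc
    push Not at hc
    exact hna ⟨hz2', h3, hc⟩
  have h5 : F.rp (s⁻¹ * z2) (lp F.rp s⁻¹ z2 (((F.rp z2)⁻¹ * (s * y)) P.a)) = y P.a := by
    have h6 := Tlb_e F.rp y s z2
    have h7 := congrArg (fun g : Equiv.Perm ℝ => g P.a) h6
    simpa only [Equiv.Perm.mul_apply] using h7
  rw [← h5] at h4
  exact ((A.good (F.mem _ hz2')).mono.le_iff_le).mp h4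

lemma Fd.tlb_l (F : Fd P) {y s z2 : Equiv.Perm ℝ} (hy : y ∈ A.G) (hs : s ∈ A.S)
    (h2 : F.Par (s * y) z2) (hna : ¬ F.Anc y (s⁻¹ * z2)) :
    (F.f ^ 4) (P.b + P.r) < ((F.rp z2)⁻¹ * (s * y)) P.a := by
  have hz2 : z2 ∈ A.G := h2.1.1
  have hs' : s⁻¹ ∈ A.S := Cmp_inv_mem hs
  have hb := Tlb_b F hy hs h2 hna
  obtain ⟨hb1, hb2⟩ := Fpw_br F
  have h3 := (F.dsp z2 hz2 s⁻¹ hs' (P.b + P.r) ⟨hb1, hb2⟩).2
  refine h3.trans_le ?_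
  have hl := F.toRp.lop hz2 hs'
  have h4 := (A.good (A.G.inv_mem hl.1)).mono.monotone hb
  refine h4.trans (le_of_eq ?_)
  exact Fpw_ia _ _

lemma Fd.tlb_out (F : Fd P) {y s z2 : Equiv.Perm ℝ} (hy : y ∈ A.G) (hs : s ∈ A.S)
    (h2 : F.Par (s * y) z2) (hna : ¬ F.Anc y (s⁻¹ * z2)) : F.Out ((F.rp z2)⁻¹ * (s * y)) := by
  have hsG : s ∈ A.G := A.S_mem hs
  have hsy : s * y ∈ A.G := A.G.mul_mem hsG hy
  have h3 := F.tlb_l hy hs h2 hna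
  obtain ⟨hb1, hb2⟩ := Fpw_br F
  obtain ⟨hx, h4, h5, -, -⟩ := F.let_pos hsy h2.1
  refine ⟨(F.par_prim hsy h2).mono (by norm_num), ?_, ?_⟩
  · have h6 := F.f_anti (m := 4) (n := 5) (by norm_num) hb1.le hb2
    exact h6.trans h3.le
  · have h6 := F.f_le 5 h4.le (h5.le.trans hb2)
    exact h6.trans_lt h5

lemma Tlb_E1 (F : Fd P) {y s z2 : Equiv.Perm ℝ} {n2 : ℕ} (hy : y ∈ A.G) (hs : s ∈ A.S)
    (h2 : F.Par (s * y) z2) (hna : ¬ F.Anc y (s⁻¹ * z2))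
    (hn2 : F.Dep (((F.rp z2)⁻¹ * (s * y)) P.a) n2) :
    |P.E ((F.f ^ n2)⁻¹ * ((F.rp z2)⁻¹ * (s * y))) - P.E ((F.rp z2)⁻¹ * (s * y))| ≤
        30 * P.rh ((F.rp z2)⁻¹ * (s * y)) := by
  have hsG : s ∈ A.G := A.S_mem hs
  have hsy : s * y ∈ A.G := A.G.mul_mem hsG hy
  have h3 := F.tlb_l hy hs h2 hna
  obtain ⟨hb1, hb2⟩ := Fpw_br F
  obtain ⟨hx, h4, h5, -, -⟩ := F.let_pos hsy h2.1
  generalize (F.rp z2)⁻¹ * (s * y) = x2 at *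
  have hn : n2 ≤ 3 := by
    by_contra hc
    push Not at hc
    have h6 := F.f_anti (m := 4) (n := n2) (by omega) hb1.le hb2
    have h7 := hn2.2
    linarith
  have hx0 : (F.f ^ n2)⁻¹ * x2 ∈ A.G := A.G.mul_mem (A.G.inv_mem (F.fG n2)) hx
  obtain ⟨h6, h7⟩ := F.dep_up hn2
  have h8 : P.b ≤ ((F.f ^ n2)⁻¹ * x2) P.a := by
    rw [Equiv.Perm.mul_apply]
    exact (F.finv_gt n2 h4).le
  have h9 : ((F.f ^ n2)⁻¹ * x2) P.a < P.b + P.r := by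
    rw [Equiv.Perm.mul_apply]
    exact h7
  have h10 : ((F.f ^ n2)⁻¹ * x2) P.b ≤ P.b + 8 * P.r := by
    have h11 := P.rh_mul ((F.f ^ n2)⁻¹ * x2)
    have h12 := P.rh_le hx0
    have hab := P.ab
    have hr := P.hr
    have h13 : P.rh ((F.f ^ n2)⁻¹ * x2) * (P.b - P.a) ≤ 1 * (P.b - P.a) :=
      mul_le_mul_of_nonneg_right h12 (by linarith)
    have h14 := P.hJ
    have h15 : eps * P.r ≤ P.r := by
      have : eps ≤ 1 := by unfold eps; norm_num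
      nlinarith
    linarith
  obtain ⟨g1, g2, g3⟩ := F.pow_near hx0 h8 h10 (n := n2) (by omega)
  have e : F.f ^ n2 * ((F.f ^ n2)⁻¹ * x2) = x2 := mul_inv_cancel_left _ _
  rw [e] at g1 g2 g3
  rw [abs_sub_comm]
  refine g3.trans ?_
  have hpos := P.rh_pos hx0
  have hn' : (n2 : ℝ) ≤ 3 := by exact_mod_cast hn
  have h16 : (n2 : ℝ) * P.rh ((F.f ^ n2)⁻¹ * x2) ≤ 3 * P.rh ((F.f ^ n2)⁻¹ * x2) :=
    mul_le_mul_of_nonneg_right hn' hpos.le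
  have h17 : 22 / 10 * (n2 : ℝ) * P.rh ((F.f ^ n2)⁻¹ * x2) =
      22 / 10 * ((n2 : ℝ) * P.rh ((F.f ^ n2)⁻¹ * x2)) := by ring
  rw [h17]
  linarith

lemma Tlb_E2 (F : Fd P) {y s z2 : Equiv.Perm ℝ} (hy : y ∈ A.G) (hs : s ∈ A.S)
    (h2 : F.Par (s * y) z2) (hna : ¬ F.Anc y (s⁻¹ * z2)) :
    |P.E y - P.E ((F.rp z2)⁻¹ * (s * y))| ≤ 30 * P.rh ((F.rp z2)⁻¹ * (s * y)) := by
  have hsG : s ∈ A.G := A.S_mem hs
  have hsy : s * y ∈ A.G := A.G.mul_mem hsG hy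
  have hz2 : z2 ∈ A.G := h2.1.1
  have hz2' : s⁻¹ * z2 ∈ A.G := A.G.mul_mem (A.G.inv_mem hsG) hz2
  have hs' : s⁻¹ ∈ A.S := Cmp_inv_mem hs
  obtain ⟨hb1, hb2⟩ := Fpw_br F
  obtain ⟨hx, h4, h5, h6, -⟩ := F.let_pos hsy h2.1
  have e := Tlb_e F.rp y s z2
  have hb := Tlb_b F hy hs h2 hna
  have hl := F.toRp.lop hz2 hs'
  generalize (F.rp z2)⁻¹ * (s * y) = x2 at *
  generalize lp F.rp s⁻¹ z2 = l at *
  have hr := P.hr
  have hab := P.ab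
  have hW : 0 < P.W := by have := P.hW; linarith
  have hlx : l * x2 ∈ A.G := A.G.mul_mem hl.1 hx
  have hmx := (A.good hx).mono
  have hxab : x2 P.a < x2 P.b := hmx hab
  have g1 : P.a - 39 * P.r ≤ (l * x2) P.a := by
    rw [Equiv.Perm.mul_apply]
    linarith
  have g2 : (l * x2) P.b ≤ P.b + 39 * P.r := by
    rw [Equiv.Perm.mul_apply]
    have g3 := hl.disp (Fpw_W P) (u := x2 P.b) (by linarith) (by linarith)
    have g4 := (abs_le.mp g3).2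
    have g5 : 2 * eps * (x2 P.b - P.b) ≤ 1 * (x2 P.b - P.b) :=
      mul_le_mul_of_nonneg_right (by unfold eps; norm_num) (by linarith)
    linarith
  have k1 := P.E_comp (F.cst _ hz2') (by linarith) hlx g1 g2
  rw [e] at k1
  have k2 := P.E_comp hl.2.2.2 (by linarith) hx (by linarith) (by linarith)
  have k3 := (P.ratio hl.1 (P.ctl_of hl.2.2.2 (by linarith)) hx (by linarith) (by linarith)).2
  have k4 : P.rh l = 1 := by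
    rw [P.rh_congr (g := l) (h := 1) hl.2.1 hl.2.2.1, P.rh_one]
  rw [k4] at k3
  have hpos := P.rh_pos hx
  have k5 : 101 / 100 * P.rh (l * x2) * (101 / 100 * P.W) / P.W =
      101 / 100 * (101 / 100) * P.rh (l * x2) := by
    field_simp
  have k6 : 101 / 100 * P.rh x2 * (21 / 10 * P.W) / P.W = 101 / 100 * (21 / 10) * P.rh x2 := by
    field_simp
  rw [k5] at k1
  rw [k6] at k2
  have k7 := abs_sub_le (P.E y) (P.E (l * x2)) (P.E x2)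
  linarith

lemma Fd.tlb_E (F : Fd P) {y s z2 : Equiv.Perm ℝ} {n2 : ℕ} (hy : y ∈ A.G) (hs : s ∈ A.S)
    (h2 : F.Par (s * y) z2) (hna : ¬ F.Anc y (s⁻¹ * z2))
    (hn2 : F.Dep (((F.rp z2)⁻¹ * (s * y)) P.a) n2) :
    |P.E ((F.f ^ n2)⁻¹ * ((F.rp z2)⁻¹ * (s * y))) - P.E ((F.rp z2)⁻¹ * (s * y))| ≤
        30 * P.rh ((F.rp z2)⁻¹ * (s * y)) ∧
      |P.E y - P.E ((F.rp z2)⁻¹ * (s * y))| ≤ 30 * P.rh ((F.rp z2)⁻¹ * (s * y)) :=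
  ⟨Tlb_E1 F hy hs h2 hna hn2, Tlb_E2 F hy hs h2 hna⟩

end Pool.Agent.H42.EM
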