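/-
TLC : entering a shadow, when y has a closest ancestor z to the left of s⁻¹ z2.

Notation: z2' := s⁻¹ * z2, x2 := (rp z2)⁻¹ * (s * y), l := lp rp s⁻¹ z2 = (rp z2')⁻¹ * (s⁻¹ * rp z2), y = rp z2' * (l * x2), x := (rp z)⁻¹ * y,
 u := (rp z)⁻¹ * z2', û := (rp z)⁻¹ * rp z2' (same gap as u).  x = û * (l * x2).
PROOF.
 b ≤ u a (z b ≤ z2' a), u b ≤ x a (z2' b ≤ y a: apply s⁻¹ to z2 b ≤ (s y) a) and x a < b + r (let_pos).  let_C: û has cost ≤ 21/10 W.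
 y1 := (f^n)⁻¹ * û: y1 b = (f^n)⁻¹ (u b) ≤ (f^n)⁻¹ (x a) < b + r (dep_up), y1 a ≥ b (finv_ge).  C_pow_inv: y1 has cost ≤ 21/10 W + 36/100 W.
 u1 := (f^n)⁻¹ * u; ω := (rp u1)⁻¹ * y1 is a loop of cost ≤ (2.1 + 0.36 + 1.03) W ≤ 36/10 W (loop_of).
 (f^n)⁻¹ * x = y1 * (l * x2) = rp u1 * (ω * (l * x2)).   x2: b < x2 a < b + r, x2 b ≤ b + 2r (let_pos).  l x2, ω l x2 stay in [b, b + 3r] (Lop.disp).
 E_comp three times: |E (rp u1 * (ω l x2)) - E (ω l x2)| ≤ 101/100 * 101/100 rh (ω l x2), |E (ω l x2) - E (l x2)| ≤ 101/100 * 36/10 rh (l x2),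
 |E (l x2) - E x2| ≤ 101/100 * 21/10 rh x2; rh (l x2), rh (ω l x2) ≤ 1.001 rh x2 (Lop.rh_up).  Sum ≤ 7 rh x2.
-/
import Pool.Agent.H42.EZ.Prm
import Pool.Agent.H42.EZ.Wdf
import Pool.Agent.H42.EZ.Rps

set_option autoImplicit false

namespace Pool.Agent.H42.EM

open Set

variable {A : Sys} {P : Gp A}

lemma Fd.tlc (F : Fd P) {y s z2 z : Equiv.Perm ℝ} {n : ℕ} (hy : y ∈ A.G) (hs : s ∈ A.S)
    (h2 : F.Par (s * y) z2) (h : F.Par y z) (hz : z P.b ≤ (s⁻¹ * z2) P.a)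
    (hn : F.Dep (((F.rp z)⁻¹ * y) P.a) n) :
    |P.E ((F.f ^ n)⁻¹ * ((F.rp z)⁻¹ * y)) - P.E ((F.rp z2)⁻¹ * (s * y))| ≤
      30 * P.rh ((F.rp z2)⁻¹ * (s * y)) := by
  have hr := P.hr
  have hab := P.ab
  have hW : 0 < P.W := lt_of_lt_of_le (by norm_num) P.hW
  have hep := eps_pos
  have hep1 : eps ≤ 1 / 1000 := by unfold eps; norm_num
  have hsi : s⁻¹ ∈ A.S := Cmp_inv_mem hs
  have hsG : s ∈ A.G := A.S_mem hs
  have hzG : z ∈ A.G := h.1.1
  have hz2G : z2 ∈ A.G := h2.1.1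
  have hz2'G : s⁻¹ * z2 ∈ A.G := mul_mem (inv_mem hsG) hz2G
  have hsy : s * y ∈ A.G := mul_mem hsG hy
  obtain ⟨hxG, hx1, hx2, hx3, -⟩ := F.let_pos hy h.1
  obtain ⟨hx2G, hx21, hx22, hx23, -⟩ := F.let_pos hsy h2.1
  set x := (F.rp z)⁻¹ * y with hx
  set x2 := (F.rp z2)⁻¹ * (s * y) with hx2d
  set z2' := s⁻¹ * z2 with hz2'
  set u := (F.rp z)⁻¹ * z2' with hu
  have hl := F.lop hz2G hsi
  have hl' : lp F.rp s⁻¹ z2 = (F.rp z2')⁻¹ * (s⁻¹ * F.rp z2) := rfl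
  set l := lp F.rp s⁻¹ z2 with hld
  have huG : u ∈ A.G := mul_mem (inv_mem (F.mem z hzG)) hz2'G
  have hmi : StrictMono (⇑(F.rp z)⁻¹) := (A.good (inv_mem (F.mem z hzG))).mono
  -- positions of u
  have hu1 : P.b ≤ u P.a := by
    have e1 : (F.rp z)⁻¹ (z P.b) = P.b := by
      rw [Equiv.Perm.inv_eq_iff_eq, F.hb z hzG]
    have h3 := hmi.monotone hz
    rw [e1] at h3
    exact h3
  have hu2 : u P.b ≤ x P.a := by
    have h3 : z2' P.b ≤ y P.a := by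
      have h4 := (A.good (inv_mem hsG)).mono.monotone h2.1.2.1
      have e1 : s⁻¹ ((s * y) P.a) = y P.a := by
        rw [Equiv.Perm.mul_apply, Equiv.Perm.inv_eq_iff_eq]
      rw [e1] at h4
      exact h4
    exact hmi.monotone h3
  have hu3 : u P.a < u P.b := (A.good huG).mono hab
  have hC := F.let_C hzG hz2'G (by rw [← hu]; linarith) (by rw [← hu]; linarith)
  set w := (F.rp z)⁻¹ * F.rp z2' with hw
  have hwa : w P.a = u P.a := by
    rw [hw, hu, Equiv.Perm.mul_apply, Equiv.Perm.mul_apply, F.ha z2' hz2'G]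
  have hwb : w P.b = u P.b := by
    rw [hw, hu, Equiv.Perm.mul_apply, Equiv.Perm.mul_apply, F.hb z2' hz2'G]
  -- y1
  have hfG := F.fG n
  have hfmi : StrictMono (⇑(F.f ^ n)⁻¹) := (A.good (inv_mem hfG)).mono
  have hup := (F.dep_up hn).2
  have hy1b : ((F.f ^ n)⁻¹ * w) P.b < P.b + P.r := by
    rw [Equiv.Perm.mul_apply, hwb]
    exact lt_of_le_of_lt (hfmi.monotone hu2) hup
  have hy1a : P.b ≤ ((F.f ^ n)⁻¹ * w) P.a := by
    rw [Equiv.Perm.mul_apply, hwa]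
    exact F.finv_ge n hu1
  have hC1 := F.C_pow_inv hC (by rw [hwa]; exact hu1) (by linarith)
  set y1 := (F.f ^ n)⁻¹ * w with hy1
  have hy1G : y1 ∈ A.G := hC1.mem
  have hy1ab : y1 P.a < y1 P.b := (A.good hy1G).mono hab
  have hC2 : P.C y1 (246 / 100 * P.W) := by
    refine hC1.mono ?_
    have h3 : (y1 P.a - P.b) / P.r ≤ 1 := by
      rw [div_le_one hr]
      linarith
    have h4 : (y1 P.a - P.b) / P.r * P.W ≤ 1 * P.W := mul_le_mul_of_nonneg_right h3 hW.le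
    linarith
  have hu1G : (F.f ^ n)⁻¹ * u ∈ A.G := mul_mem (inv_mem hfG) huG
  have hω := (F.loop_of hC2 hu1G (by
    show (F.f ^ n)⁻¹ (w P.a) = (F.f ^ n)⁻¹ (u P.a)
    rw [hwa])).mono
    (κ' := 36 / 10 * P.W) (by linarith)
  set u1 := (F.f ^ n)⁻¹ * u with hu1d
  set ω := (F.rp u1)⁻¹ * y1 with hωd
  have hfac : (F.f ^ n)⁻¹ * x = F.rp u1 * (ω * (l * x2)) := by
    rw [hωd, hl', hy1, hw, hx, hx2d]
    group
  -- l * x2
  have hpG : l * x2 ∈ A.G := mul_mem hl.1 hx2G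
  have hmono_l := (A.good hl.1).mono
  have hp1 : P.b ≤ (l * x2) P.a := by
    rw [Equiv.Perm.mul_apply]
    have := hmono_l.monotone hx21.le
    rwa [hl.2.2.1] at this
  have hx2ab : x2 P.a < x2 P.b := (A.good hx2G).mono hab
  have hp2 : (l * x2) P.b ≤ P.b + 2 * P.r + P.r / 100 := by
    rw [Equiv.Perm.mul_apply]
    have h3 := hl.disp (by linarith) (u := x2 P.b) (by linarith) (by linarith)
    have h4 := (abs_le.1 h3).2
    have h5 : eps * (x2 P.b - P.b) ≤ 1 / 1000 * (2 * P.r) :=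
      mul_le_mul hep1 (by linarith) (by linarith) (by norm_num)
    linarith
  have hpab : (l * x2) P.a < (l * x2) P.b := (A.good hpG).mono hab
  -- ω * (l * x2)
  have hqG : ω * (l * x2) ∈ A.G := mul_mem hω.1 hpG
  have hmono_ω := (A.good hω.1).mono
  have hq1 : P.b ≤ (ω * (l * x2)) P.a := by
    rw [Equiv.Perm.mul_apply]
    have := hmono_ω.monotone hp1
    rwa [hω.2.2.1] at this
  have hq2 : (ω * (l * x2)) P.b ≤ P.b + 3 * P.r := by
    rw [Equiv.Perm.mul_apply]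
    have h3 := hω.disp (by linarith) (u := (l * x2) P.b) (by linarith) (by linarith)
    have h4 := (abs_le.1 h3).2
    have h5 : eps * ((l * x2) P.b - P.b) ≤ 1 / 1000 * (3 * P.r) :=
      mul_le_mul hep1 (by linarith) (by linarith) (by norm_num)
    linarith
  -- distances
  have hdiv : ∀ ρ c : ℝ, 101 / 100 * ρ * (c * P.W) / P.W = 101 / 100 * ρ * c := by
    intro ρ c
    field_simp
  have E1 := P.E_comp (F.cst u1 hu1G) (by linarith) hqG (by linarith) (by linarith)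
  have E2 := P.E_comp hω.2.2.2 (by linarith) hpG (by linarith) (by linarith)
  have E3 := P.E_comp hl.2.2.2 (by linarith) hx2G (by linarith) (by linarith)
  rw [hdiv] at E1 E2 E3
  have R1 := hl.rh_up (by linarith) hx2G (by linarith) (by linarith)
  have R2 := hω.rh_up (by linarith) hpG (by linarith) (by linarith)
  have hexp : Real.exp eps ≤ 1001 / 1000 := by
    have h3 := exp_eps.1
    have h4 : 11 / 10 * eps ≤ 1 / 1000 := by unfold eps; norm_num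
    linarith
  have hr2 := P.rh_pos hx2G
  have hrp := P.rh_pos hpG
  have R1' : P.rh (l * x2) ≤ 1001 / 1000 * P.rh x2 :=
    R1.trans (mul_le_mul_of_nonneg_right hexp hr2.le)
  have R2' : P.rh (ω * (l * x2)) ≤ 1001 / 1000 * P.rh (l * x2) :=
    R2.trans (mul_le_mul_of_nonneg_right hexp hrp.le)
  rw [hfac]
  rw [abs_le] at E1 E2 E3 ⊢
  constructor
  · linarith [E1.1, E2.1, E3.1]
  · linarith [E1.2, E2.2, E3.2]

end Pool.Agent.H42.EM
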