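/-
TRA : the values Hat y and Hat (s y) lie in a common window.

PROOF.  Cases according to the definition of Hat.
(a) y and s y have no ancestors: window (E y, B rh y / W), E_step.
(b) y has no ancestor, Par (s y) z2: then ¬ Anc y (s⁻¹ z2); window of x2 (Out, tlb_out), tlb_E.
(c) Par y z, s y has no ancestor: apply (b)'s argument to y' := s * y, s' := s⁻¹ (s' * y' = y, Par (s' y') z, ¬ Anc y' (s'⁻¹ z)).
(d) Par y z, Par (s y) z2, s⁻¹ z2 =: z2'.
  (d1) ¬ Anc y z2'.  z b and z2' b: gaps z, z2' are equal or separated (sep_or).  Equal: Anc y z and anc_congr give Anc y z2', impossible.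
    z b ≤ z2' a: tlc + tlb_E + tlb_out: window of x2.    z2' b ≤ z a: then ¬ Anc (s y) (s z), since otherwise (s z) b ≤ z2 b (Par (s y) z2), but
    z2 b = s (z2' b) ≤ s (z a) < s (z b).  And z2 b ≤ (s z) a.  So the case z b ≤ z2' a applies to y' := s y, s' := s⁻¹ with z2 and z exchanged.
  (d2) Anc y z2' and ¬ Anc (s y) (s z): z2' b ≤ z b (Par y z); not equal (else z2 b = s z b, anc_congr gives Anc (s y) (s z)), so z2' b ≤ z a
    (sep_or), z2 b ≤ (s z) a: as at the end of (d1).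
  (d3) Anc y z2' and Anc (s y) (s z): z2' b ≤ z b and (s z) b ≤ z2 b, so z b ≤ z2' b: equal, z a = z2' a (eq_of_right), par_congr: Par (s y) (s z),
    F.congr: rp z2 = rp (s z).  tla.
Membership: Par contains Anc contains z ∈ A.G.
-/
import Pool.Agent.H42.EZ.Tla
import Pool.Agent.H42.EZ.Tlb
import Pool.Agent.H42.EZ.Tlc
import Pool.Agent.H42.EZ.Hat

set_option autoImplicit false

namespace Pool.Agent.H42.EM

open Set

variable {A : Sys} {P : Gp A}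

/-- the parent of `s y` is new: windows -/
lemma Tra_b (F : Fd P) {y y2 s z2 : Equiv.Perm ℝ} {n2 : ℕ} (e : s * y = y2) (hy : y ∈ A.G)
    (hs : s ∈ A.S) (h2 : F.Par y2 z2) (hna : ¬ F.Anc y (s⁻¹ * z2))
    (hn2 : F.Dep (((F.rp z2)⁻¹ * y2) P.a) n2) :
    F.Win (P.E ((F.rp z2)⁻¹ * y2)) (30 * P.rh ((F.rp z2)⁻¹ * y2)) ∧
      |P.E ((F.f ^ n2)⁻¹ * ((F.rp z2)⁻¹ * y2)) - P.E ((F.rp z2)⁻¹ * y2)| ≤
        30 * P.rh ((F.rp z2)⁻¹ * y2) ∧
      |P.E y - P.E ((F.rp z2)⁻¹ * y2)| ≤ 30 * P.rh ((F.rp z2)⁻¹ * y2) := by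
  subst e
  obtain ⟨h3, h4⟩ := F.tlb_E hy hs h2 hna hn2
  exact ⟨Or.inl ⟨_, F.tlb_out hy hs h2 hna, rfl, rfl⟩, h3, h4⟩

lemma Tra_e (F : Fd P) {y y2 s z z2 : Equiv.Perm ℝ} {n n2 : ℕ} (e : s * y = y2) (hy : y ∈ A.G)
    (hs : s ∈ A.S) (h : F.Par y z) (h2 : F.Par y2 z2) (hna : ¬ F.Anc y (s⁻¹ * z2))
    (hz : z P.b ≤ (s⁻¹ * z2) P.a) (hn : F.Dep (((F.rp z)⁻¹ * y) P.a) n)
    (hn2 : F.Dep (((F.rp z2)⁻¹ * y2) P.a) n2) :
    ∃ c ρ, F.Win c ρ ∧ |P.E ((F.f ^ n)⁻¹ * ((F.rp z)⁻¹ * y)) - c| ≤ ρ ∧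
      |P.E ((F.f ^ n2)⁻¹ * ((F.rp z2)⁻¹ * y2)) - c| ≤ ρ := by
  obtain ⟨h3, h4, -⟩ := Tra_b F e hy hs h2 hna hn2
  refine ⟨_, _, h3, ?_, h4⟩
  subst e
  exact F.tlc hy hs h2 h hz hn

theorem Fd.tra (F : Fd P) {y s : Equiv.Perm ℝ} {e e' : ℝ} (hy : y ∈ A.G) (hs : s ∈ A.S)
    (h : F.Hat y e) (h' : F.Hat (s * y) e') :
    ∃ c ρ, F.Win c ρ ∧ |e - c| ≤ ρ ∧ |e' - c| ≤ ρ := by
  have hW := P.hW
  have hB := P.hB
  have hab := P.ab
  have hsG : s ∈ A.G := A.S_mem hs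
  have hsm : StrictMono (⇑s) := (A.good hsG).mono
  have hsi : s⁻¹ ∈ A.S := Cmp_inv_mem hs
  have hsy : s * y ∈ A.G := A.G.mul_mem hsG hy
  have eb : s⁻¹ * (s * y) = y := inv_mul_cancel_left s y
  rcases h with ⟨hno, rfl⟩ | ⟨z, n, hz, hn, rfl⟩
  · rcases h' with ⟨hno', rfl⟩ | ⟨z2, n2, hz2, hn2, rfl⟩
    · -- (a)
      have hrh := P.rh_pos hy
      refine ⟨P.E y, P.B * P.rh y / P.W, Or.inr (Or.inl ⟨y, hy, hno, rfl, rfl⟩), ?_,
        P.E_step hy hs⟩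
      rw [sub_self, abs_zero]
      exact div_nonneg (mul_nonneg (by linarith) hrh.le) (by linarith)
    · -- (b)
      obtain ⟨h3, h4, h5⟩ := Tra_b F rfl hy hs hz2 (fun hc => hno ⟨_, hc⟩) hn2
      exact ⟨_, _, h3, h5, h4⟩
  · rcases h' with ⟨hno', rfl⟩ | ⟨z2, n2, hz2, hn2, rfl⟩
    · -- (c)
      obtain ⟨h3, h4, h5⟩ := Tra_b F eb hsy hsi hz (fun hc => hno' ⟨_, hc⟩) hn
      exact ⟨_, _, h3, h4, h5⟩
    · -- (d)
      have hzG : z ∈ A.G := hz.1.1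
      have hz2G : z2 ∈ A.G := hz2.1.1
      have hz2' : s⁻¹ * z2 ∈ A.G := A.G.mul_mem (A.G.inv_mem hsG) hz2G
      have hszG : s * z ∈ A.G := A.G.mul_mem hsG hzG
      have hzab : z P.a < z P.b := (A.good hzG).mono hab
      have hz2ab : (s⁻¹ * z2) P.a < (s⁻¹ * z2) P.b := (A.good hz2').mono hab
      have hszab : (s * z) P.a < (s * z) P.b := (A.good hszG).mono hab
      have e1 : ∀ t, s ((s⁻¹ * z2) t) = z2 t := fun t => by simp
      -- the case `z2' b ≤ z a`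
      have key : (s⁻¹ * z2) P.b ≤ z P.a →
          ∃ c ρ, F.Win c ρ ∧ |P.E ((F.f ^ n)⁻¹ * ((F.rp z)⁻¹ * y)) - c| ≤ ρ ∧
            |P.E ((F.f ^ n2)⁻¹ * ((F.rp z2)⁻¹ * (s * y))) - c| ≤ ρ := by
        intro h3
        have h4 : z2 P.b ≤ (s * z) P.a := by
          have := hsm.monotone h3
          rw [e1] at this
          exact this
        have h5 : ¬ F.Anc (s * y) (s * z) := by
          intro hc
          have := hz2.2 _ hc
          linarith
        obtain ⟨c, ρ, h6, h7, h8⟩ := Tra_e F eb hsy hsi hz2 hz (by rw [inv_inv]; exact h5)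
          (by rw [inv_inv]; exact h4) hn2 hn
        exact ⟨c, ρ, h6, h8, h7⟩
      by_cases hA : F.Anc y (s⁻¹ * z2)
      · have h3 := hz.2 _ hA
        rcases P.sep_or hzG hz2' with h4 | h4 | h4
        · -- equal
          have h5 : (s * z) P.a = z2 P.a := by
            rw [Equiv.Perm.mul_apply, h4.1, e1]
          have h6 : F.Par (s * y) (s * z) := F.par_congr hszG h5.symm hz2
          have h7 : F.rp z2 = F.rp (s * z) := F.congr _ hz2G _ hszG h5.symm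
          rw [h7] at hn2 ⊢
          exact F.tla hy hs hz h6 hn hn2
        · linarith
        · exact key h4
      · rcases P.sep_or hzG hz2' with h4 | h4 | h4
        · exact absurd (F.anc_congr hz2' h4.1 hz.1) hA
        · exact Tra_e F rfl hy hs hz hz2 hA h4 hn hn2
        · exact key h4

/-- the windows cover everything between the values at the ends of a path -/
theorem Fd.chain (F : Fd P) {n : ℕ} {w : ℕ → Equiv.Perm ℝ} (hw : A.Path n w) {e0 e1 : ℝ}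
    (h0 : F.Hat (w 0) e0) (h1 : F.Hat (w n) e1) :
    ∃ Q : Finset (ℝ × ℝ), (∀ p ∈ Q, F.Win p.1 p.2) ∧
      ∀ t, e0 < t → t ≤ e1 → ∃ p ∈ Q, |t - p.1| ≤ p.2 := by
  classical
  induction n generalizing e1 with
  | zero =>
    have h2 : w 0 ∈ A.G := hw.mem le_rfl
    have h3 := F.hat_unique h2 h0 h1
    refine ⟨∅, fun p hp => absurd hp (Finset.notMem_empty p), fun t ht1 ht2 => ?_⟩
    linarith
  | succ n ih =>
    have hw' : A.Path n w := ⟨hw.1, fun i hi => hw.2 i (by omega)⟩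
    have hwn : w n ∈ A.G := hw.mem (by omega)
    obtain ⟨e, he⟩ := F.exists_hat hwn
    obtain ⟨Q, hQ1, hQ2⟩ := ih hw' he
    obtain ⟨s, hs, hse⟩ := hw.2 n (by omega)
    rw [hse] at h1
    obtain ⟨c, ρ, h3, h4, h5⟩ := F.tra hwn hs he h1
    refine ⟨insert (c, ρ) Q, ?_, ?_⟩
    · intro p hp
      rcases Finset.mem_insert.1 hp with rfl | hp
      · exact h3
      · exact hQ1 p hp
    · intro t ht1 ht2
      rcases le_or_gt t e with h6 | h6
      · obtain ⟨p, hp, hp2⟩ := hQ2 t ht1 h6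
        exact ⟨p, Finset.mem_insert_of_mem hp, hp2⟩
      · refine ⟨(c, ρ), Finset.mem_insert_self _ _, ?_⟩
        rw [abs_le] at h4 h5 ⊢
        constructor
        · linarith [h4.1]
        · linarith [h5.2]

end Pool.Agent.H42.EM
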