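/-
CNT : the contradiction.

PROOF.  g from far; A.exists_path: g = T^k * w n, E (w n) = E g ≥ 99/100 (E_congr with k or -k).  w 0 = 1.  Hat (w 0) e0, Hat (w n) e1 (exists_hat; w n ∈ G by
 Path.mem), e0 ≤ 1/1000 (hat_one), e1 ≥ 46/100 (hat_far).  chain gives Q.  Split Q (classical, Finset.filter) into the three kinds of windows Q1, Q2, Q3
 (Fd.Win); replace Q3 by Q3' (win_clu).  Q1 ∪ Q2 ∪ Q3' covers (e0, e1]; all radii are ≥ 0 (rh ≥ 0: Out → Prim → o ∈ G; B ≥ 1, W > 0).  cover_len: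
 46/100 - 1/1000 ≤ e1 - e0 ≤ ∑_{Q1 ∪ Q2 ∪ Q3'} 2 p.2 ≤ 1/1000 + 2/100 + 6/100 (sum over a union ≤ sum of the sums, nonnegative terms).  Contradiction.
-/
import Pool.Agent.H42.EZ.Cno
import Pool.Agent.H42.EZ.Tra

set_option autoImplicit false

namespace Pool.Agent.H42.EM

open Set

variable {A : Sys} {P : Gp A}

private lemma Cnt_union (Q R : Finset (ℝ × ℝ)) (hQ : ∀ p ∈ Q, 0 ≤ p.2) [DecidableEq (ℝ × ℝ)] :
    ∑ p ∈ Q ∪ R, 2 * p.2 ≤ ∑ p ∈ Q, 2 * p.2 + ∑ p ∈ R, 2 * p.2 := by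
  rw [← Finset.sum_union_inter]
  have : 0 ≤ ∑ p ∈ Q ∩ R, 2 * p.2 := Finset.sum_nonneg (fun p hp => by
    have := hQ p (Finset.mem_inter.1 hp).1
    linarith)
  linarith

theorem Fd.con (F : Fd P) (far : ∃ g ∈ A.G, 99 / 100 ≤ P.E g)
    (htop : ∀ s : Finset (Equiv.Perm ℝ), (∀ y ∈ s, y ∈ A.G ∧ ¬ ∃ z, F.Anc y z) →
      (∀ y ∈ s, ∀ y' ∈ s, y ≠ y' → ∀ k : ℤ, y P.a ≠ y' P.a + k) →
      ∑ y ∈ s, P.rh y ≤ P.W / (100 * P.B)) : False := by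
  classical
  obtain ⟨g, hg, hE⟩ := far
  obtain ⟨n, w, k, hw, e⟩ := A.exists_path hg
  have hwn : w n ∈ A.G := hw.mem le_rfl
  have hW : 0 < P.W := lt_of_lt_of_le (by norm_num) P.hW
  have hB : 0 < P.B := lt_of_lt_of_le (by norm_num) P.hB
  have e1 : g P.a = (w n) P.a + k := by rw [e, Equiv.Perm.mul_apply, T_zpow]
  have e2 : P.E g = P.E (w n) := P.E_congr hg hwn e1
  have hw0 : w 0 = 1 := hw.1
  obtain ⟨t0, h0⟩ := F.exists_hat (y := w 0) (by rw [hw0]; exact one_mem _)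
  obtain ⟨t1, h1⟩ := F.exists_hat hwn
  have b0 : t0 ≤ 1 / 1000 := by
    have h0' := h0
    rw [hw0] at h0'
    exact F.hat_one h0'
  have b1 : 46 / 100 ≤ t1 := F.hat_far hwn (by rw [← e2]; exact hE) h1
  obtain ⟨Q, hQ1, hQ2⟩ := F.chain hw h0 h1
  have m1 : ∀ p ∈ Q.filter (fun p : ℝ × ℝ => ∃ o, F.Out o ∧ p.1 = P.E o ∧ p.2 = 30 * P.rh o),
      ∃ o, F.Out o ∧ p.1 = P.E o ∧ p.2 = 30 * P.rh o := fun p hp => (Finset.mem_filter.1 hp).2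
  have m2 : ∀ p ∈ Q.filter (fun p : ℝ × ℝ => ∃ y ∈ A.G, (¬ ∃ z, F.Anc y z) ∧ p.1 = P.E y ∧
      p.2 = P.B * P.rh y / P.W), ∃ y ∈ A.G, (¬ ∃ z, F.Anc y z) ∧ p.1 = P.E y ∧
      p.2 = P.B * P.rh y / P.W := fun p hp => (Finset.mem_filter.1 hp).2
  have m3 : ∀ p ∈ Q.filter (fun p : ℝ × ℝ => ∃ S, F.Clu p.1 S ∧ p.2 = 10 * S),
      ∃ S, F.Clu p.1 S ∧ p.2 = 10 * S := fun p hp => (Finset.mem_filter.1 hp).2
  have s1 := F.win_out _ m1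
  have s2 := F.win_top htop _ m2
  obtain ⟨Q3', n3, c3, s3⟩ := F.win_clu _ m3
  have n1 : ∀ p ∈ Q.filter (fun p : ℝ × ℝ => ∃ o, F.Out o ∧ p.1 = P.E o ∧ p.2 = 30 * P.rh o),
      0 ≤ p.2 := by
    intro p hp
    obtain ⟨o, ho, -, ho2⟩ := m1 p hp
    rw [ho2]
    have := P.rh_pos ho.1.1
    positivity
  have n2 : ∀ p ∈ Q.filter (fun p : ℝ × ℝ => ∃ y ∈ A.G, (¬ ∃ z, F.Anc y z) ∧ p.1 = P.E y ∧
      p.2 = P.B * P.rh y / P.W), 0 ≤ p.2 := by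
    intro p hp
    obtain ⟨y, hy, -, -, hy2⟩ := m2 p hp
    rw [hy2]
    have := P.rh_pos hy
    positivity
  generalize hd1 : Q.filter (fun p : ℝ × ℝ => ∃ o, F.Out o ∧ p.1 = P.E o ∧ p.2 = 30 * P.rh o)
    = Q1 at *
  generalize hd2 : Q.filter (fun p : ℝ × ℝ => ∃ y ∈ A.G, (¬ ∃ z, F.Anc y z) ∧ p.1 = P.E y ∧
      p.2 = P.B * P.rh y / P.W) = Q2 at *
  generalize hd3 : Q.filter (fun p : ℝ × ℝ => ∃ S, F.Clu p.1 S ∧ p.2 = 10 * S) = Q3 at *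
  have n12 : ∀ p ∈ Q1 ∪ Q2, 0 ≤ p.2 := by
    intro p hp
    rcases Finset.mem_union.1 hp with hp | hp
    · exact n1 p hp
    · exact n2 p hp
  have key := cover_len (Q := (Q1 ∪ Q2) ∪ Q3') (α := t0) (β := t1) (by linarith) (by
    intro p hp
    rcases Finset.mem_union.1 hp with hp | hp
    · exact n12 p hp
    · exact n3 p hp) (by
    intro t ht0 ht1
    obtain ⟨p, hp, hpt⟩ := hQ2 t ht0 ht1
    rcases hQ1 p hp with hc | hc | hc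
    · refine ⟨p, Finset.mem_union_left _ (Finset.mem_union_left _ ?_), hpt⟩
      rw [← hd1]
      exact Finset.mem_filter.2 ⟨hp, hc⟩
    · refine ⟨p, Finset.mem_union_left _ (Finset.mem_union_right _ ?_), hpt⟩
      rw [← hd2]
      exact Finset.mem_filter.2 ⟨hp, hc⟩
    · obtain ⟨q, hq, hqt⟩ := c3 t ⟨p, by rw [← hd3]; exact Finset.mem_filter.2 ⟨hp, hc⟩, hpt⟩
      exact ⟨q, Finset.mem_union_right _ hq, hqt⟩)
  have u1 := Cnt_union (Q1 ∪ Q2) Q3' n12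
  have u2 := Cnt_union Q1 Q2 n1
  linarith

end Pool.Agent.H42.EM
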