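/-
FRE : a free element of almost maximal displacement at a given point.

PROOF.  This is the proof of `free_elt` (EM/Mxd.lean), which chooses v ∈ L ∩ (x, x + R/4) and finds f; copy that proof
 (put your auxiliary lemmas with prefix Fre_), with v given, and keep in the conclusion that |l v - v| ≤ D ≤ 3/2 (v - f v)
 (there: X = v - f v ≥ (2/3) D, D = sup {|l v - v| : l ∈ Lq}, Lq = Lp ∪ Lp⁻¹).  Only the lemmas of Mxd.lean before
 free_elt are needed (Mxd_up, Mxd_lo, Mxd_exp, Mxd_last, Mxd_first, Mxd_inv, Mxd_sub, Mxd_comp, ...; if one of them is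
 private, copy it).
-/
import Pool.Agent.H42.EZ.Def

set_option autoImplicit false

namespace Pool.Agent.H42.EM

open Set

theorem free_elt' (A : Sys) {x ε β R : ℝ} (Lp : Set (Equiv.Perm ℝ)) (hR : 0 < R) (hε : 0 < ε)
    (hε1 : ε ≤ 1 / 200) (hβ : 0 ≤ β) (hβR : β * R ≤ ε)
    (hLp : ∀ l ∈ Lp, l ∈ A.G ∧ l x = x ∧ NId l (x - R) (x + R) ε β)
    (hmove : ∀ p, x < p → p < x + R → ∃ l ∈ Lp, l p ≠ p) (hacc : AccR A.L x)
    {v : ℝ} (hvL : v ∈ A.L) (hxv : x < v) (hvR : v < x + R / 4) :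
    ∃ f, (f ∈ Lp ∨ f⁻¹ ∈ Lp) ∧ (∀ t ∈ Ioc x v, f t < t) ∧
      ∀ l, (l ∈ Lp ∨ l⁻¹ ∈ Lp) → |l v - v| ≤ 3 / 2 * (v - f v) := by
  obtain ⟨e1, e2, e3⟩ := Mxd_exp hε hε1
  -- the symmetrised family
  set Lq : Set (Equiv.Perm ℝ) := {l | l ∈ Lp ∨ l⁻¹ ∈ Lp} with hLq
  have hLqi : ∀ l ∈ Lq, l⁻¹ ∈ Lq := by
    rintro l (hl | hl)
    · right; simpa using hl
    · left; exact hl
  have hLqP : ∀ l ∈ Lq, l ∈ A.G ∧ l x = x ∧ NId l x (x + R / 2) ε (2 * β) := by
    rintro l (hl | hl)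
    · obtain ⟨h1, h2, h3⟩ := hLp l hl
      exact ⟨h1, h2, Mxd_sub h3 (by linarith) (by linarith) le_rfl (by linarith)⟩
    · obtain ⟨h1, h2, h3⟩ := hLp _ hl
      have h4 : NId l⁻¹⁻¹ x (x + R / 2) ε (2 * β) :=
        Mxd_inv (A.good h1) hR hε hε1 hβ h2 (Mxd_sub h3 (by linarith) le_rfl le_rfl le_rfl)
      rw [inv_inv] at h4
      refine ⟨by simpa using Subgroup.inv_mem _ h1, ?_, h4⟩
      rw [Equiv.Perm.inv_eq_iff_eq] at h2
      exact h2.symm
  have hv : v ∈ Ioo x (x + R / 4) := ⟨hxv, hvR⟩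
  -- displacement at `v`
  have hdisp : ∀ l ∈ Lq, |l v - v| ≤ (1 / 100) * (v - x) := by
    intro l hl
    obtain ⟨h1, h2, h3⟩ := hLqP l hl
    have h4 := Mxd_up (A.good h1) h3.1 le_rfl hv.1.le (by linarith [hv.2])
    have h5 := Mxd_lo (A.good h1) h3.1 le_rfl hv.1.le (by linarith [hv.2])
    rw [h2] at h4 h5
    have : 0 < v - x := by linarith [hv.1]
    rw [abs_le]
    constructor <;> nlinarith
  set DS : Set ℝ := {d | ∃ l ∈ Lq, d = |l v - v|} with hDS
  have hbdd : BddAbove DS := ⟨(1 / 100) * (v - x), by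
    rintro d ⟨l, hl, rfl⟩; exact hdisp l hl⟩
  set D := sSup DS with hD
  obtain ⟨l0, hl0, hl0v⟩ := hmove v hv.1 (by linarith [hv.2])
  have hDpos : 0 < D := by
    have h1 : |l0 v - v| ≤ D := le_csSup hbdd ⟨l0, Or.inl hl0, rfl⟩
    have h2 : 0 < |l0 v - v| := abs_pos.mpr (sub_ne_zero.mpr hl0v)
    linarith
  have hne : DS.Nonempty := ⟨_, l0, Or.inl hl0, rfl⟩
  obtain ⟨_, ⟨l, hl, rfl⟩, hlD⟩ := exists_lt_of_lt_csSup hne (show (3 / 4) * D < D by linarith)
  -- the element `f`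
  obtain ⟨f, hfq, hX⟩ : ∃ f ∈ Lq, (2 / 3) * D ≤ v - f v := by
    rcases lt_or_ge (l v) v with hc | hc
    · refine ⟨l, hl, ?_⟩
      rw [abs_of_neg (by linarith)] at hlD
      linarith
    · refine ⟨l⁻¹, hLqi l hl, ?_⟩
      rw [abs_of_nonneg (by linarith)] at hlD
      obtain ⟨h1, h2, h3⟩ := hLqP l hl
      have hix : l⁻¹ x = x := by rw [Equiv.Perm.inv_eq_iff_eq]; exact h2.symm
      have hmo := (A.good h1).inv.mono
      have h4 : l⁻¹ v ≤ v := by
        have := hmo.monotone hc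
        simpa using this
      have h5 : x ≤ l⁻¹ v := by
        have := hmo.monotone hv.1.le
        rwa [hix] at this
      have h6 := Mxd_up (A.good h1) h3.1 h5 h4 (by linarith [hv.2])
      have h7 : l (l⁻¹ v) = v := by simp
      rw [h7] at h6
      nlinarith
  obtain ⟨hfG, fx, hNf⟩ := hLqP f hfq
  have hfg := A.good hfG
  have hXpos : 0 < v - f v := by linarith
  obtain ⟨p, hxp, hpv, fp, flt⟩ := Mxd_last hfg.cont hv.1.le fx (by linarith)
  rcases hxp.eq_or_lt with hxp | hxp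
  · subst hxp
    refine ⟨f, hfq, flt, fun l' hl' => ?_⟩
    have h1 : |l' v - v| ≤ D := le_csSup hbdd ⟨l', hl', rfl⟩
    linarith
  exfalso
  -- the element `g`
  obtain ⟨g, hgq, hgp⟩ : ∃ g ∈ Lq, p < g p := by
    obtain ⟨l1, hl1, hl1p⟩ := hmove p hxp (by linarith [hv.2])
    rcases lt_or_gt_of_ne hl1p with hc | hc
    · refine ⟨l1⁻¹, hLqi l1 (Or.inl hl1), ?_⟩
      have := (A.good (hLp l1 hl1).1).inv.mono hc
      simpa using this
    · exact ⟨l1, Or.inl hl1, hc⟩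
  obtain ⟨hgG, gx, hNg⟩ := hLqP g hgq
  have hgg := A.good hgG
  have hv4 := hv.2
  have hv3 := hv.1
  by_cases hcase : ∃ t ∈ Icc p v, g t ≤ t
  · -- (3a)
    obtain ⟨q, hpq, hqv, gq, ggt⟩ := Mxd_first hgg.cont hgp hcase
    refine crossing A hfG hgG hpq fp (fun t ht => flt t ⟨ht.1, ht.2.trans hqv⟩) gq ggt hε.le
      (by linarith) (by linarith : 0 ≤ 2 * β) ?_ (Mxd_sub hNf hxp.le (by linarith) le_rfl le_rfl)
      (Mxd_sub hNg hxp.le (by linarith) le_rfl le_rfl) (acc_down A hfG fp hpv flt hvL hpq)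
    have : 2 * β * (q - p) ≤ 2 * β * (R / 4) := mul_le_mul_of_nonneg_left (by linarith) (by linarith)
    nlinarith
  · -- (3b)
    push Not at hcase
    have hgv := hcase v ⟨hpv.le, le_rfl⟩
    have hYD : g v - v ≤ D := by
      have h1 : |g v - v| ≤ D := le_csSup hbdd ⟨g, hgq, rfl⟩
      exact (le_abs_self _).trans h1
    have hYx : g v - v ≤ (1 / 100) * (v - x) := (le_abs_self _).trans (hdisp g hgq)
    set X := v - f v with hXd
    set Y := g v - v with hYd
    have hY0 : 0 < Y := by linarith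
    have hYX : Y ≤ 3 / 2 * X := by linarith
    have hkp : p < (f * f * g) p := by
      have h1 := hfg.mono hgp
      rw [fp] at h1
      have h2 := hfg.mono h1
      rw [fp] at h2
      exact h2
    have hkv : (f * f * g) v < v := by
      show f (f (g v)) < v
      have h1 := Mxd_up hfg hNf.1 hv3.le hgv.le (by linarith)
      have h1' : f (g v) ≤ v - X + 101 / 100 * Y := by
        have : Real.exp ε * (g v - v) ≤ 101 / 100 * (g v - v) :=
          mul_le_mul_of_nonneg_right e2 hY0.le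
        linarith
      rcases le_or_gt (f (g v)) v with hc | hc
      · have := hfg.mono.monotone hc
        linarith
      · have h2 := Mxd_up hfg hNf.1 hv3.le hc.le (by nlinarith)
        have h2' : f (f (g v)) - f v ≤ 101 / 100 * (f (g v) - v) :=
          h2.trans (mul_le_mul_of_nonneg_right e2 (by linarith))
        nlinarith
    have hkG : f * f * g ∈ A.G := Subgroup.mul_mem _ (Subgroup.mul_mem _ hfG hfG) hgG
    have hkg := A.good hkG
    obtain ⟨q, hpq, hqv, kq, kgt⟩ := Mxd_first hkg.cont hkp ⟨v, ⟨hpv.le, le_rfl⟩, hkv.le⟩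
    have hNk := Mxd_comp hfg hgg hR hε hε1 hβ fx gx hNf hNg
    refine crossing A hfG hkG hpq fp (fun t ht => flt t ⟨ht.1, ht.2.trans hqv⟩) kq kgt
      (by linarith : 0 ≤ 3 * ε) (by linarith) (by linarith : 0 ≤ 8 * β) ?_
      (Mxd_sub hNf hxp.le (by linarith) (by linarith) (by linarith))
      (Mxd_sub hNk hxp.le (by linarith) le_rfl le_rfl) (acc_down A hfG fp hpv flt hvL hpq)
    have : 8 * β * (q - p) ≤ 8 * β * (R / 4) := mul_le_mul_of_nonneg_left (by linarith) (by linarith)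
    nlinarith

end Pool.Agent.H42.EM
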