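/-
NID : loops of cost ≤ 100 W are near the identity.

PROOFS.  h fixes a and b, so by the mean value theorem there is ζ ∈ (a, b) with h'(ζ) = 1, log h'(ζ) = 0; h is controlled
(ctl_of), so |log h'(t)| ≤ eps/(100 r) * |t - ζ| ≤ eps/(100 r) * 41 r ≤ eps/2 on K (b - a ≤ eps r ≤ r).  This is nid.
* lo/up: Mxd_lo, Mxd_up.   exp eps ≤ 1 + 11/10 eps etc. (eps = 1e-8; Real.exp bounds: 1 - e^-eps ≤ eps, e^eps - 1 ≤ 2 eps).
* disp: h fixes b, h u - b ∈ [e^-eps (u - b), e^eps (u - b)].   disp_left: same with a.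
* rh: Gp.ratio with rh h = 1 ((h b - h a)/(b - a) = 1).
* rh_lo: h (x b) - h (x a) ≥ exp(-eps) (x b - x a), divided by b - a.   rh_up similarly.
-/
import Pool.Agent.H42.EZ.Cmp

set_option autoImplicit false

namespace Pool.Agent.H42.EM

open Set

variable {A : Sys}

lemma Gp.Lop.nid {P : Gp A} {h : Equiv.Perm ℝ} {κ : ℝ} (hh : P.Lop h κ) (hκ : κ ≤ 100 * P.W) :
    NId h (P.a - 40 * P.r) (P.b + 40 * P.r) eps (eps / (100 * P.r)) := by
  have hctl : Ctl P.a P.b P.r h := P.ctl_of hh.2.2.2 hκ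
  refine ⟨fun t ht => ?_, hctl⟩
  have hr := P.hr
  have hab := P.gap.1
  have hJ := P.hJ
  have hep : 0 < eps := eps_pos
  have hep1 : eps ≤ 1 := by unfold eps; norm_num
  obtain ⟨ζ, hζ, he⟩ := (A.good hh.1).mvt hab
  rw [hh.2.1, hh.2.2.1] at he
  have h1 : deriv (⇑h) ζ = 1 := by
    have h2 : (deriv (⇑h) ζ - 1) * (P.b - P.a) = 0 := by linarith
    rcases mul_eq_zero.mp h2 with h3 | h3
    · linarith
    · linarith
  have hJ' : P.b - P.a ≤ P.r := by nlinarith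
  have h2 := hctl t ht ζ ⟨by linarith [hζ.1], by linarith [hζ.2]⟩
  rw [h1, Real.log_one, sub_zero] at h2
  have h3 : |t - ζ| ≤ 100 * P.r := by
    rw [abs_le]
    constructor
    · linarith [ht.1, hζ.2]
    · linarith [ht.2, hζ.1]
  have h4 : eps / (100 * P.r) * |t - ζ| ≤ eps / (100 * P.r) * (100 * P.r) :=
    mul_le_mul_of_nonneg_left h3 (by positivity)
  have h5 : eps / (100 * P.r) * (100 * P.r) = eps := by field_simp
  linarith

lemma Gp.Lop.lo {P : Gp A} {h : Equiv.Perm ℝ} {κ : ℝ} (hh : P.Lop h κ) (hκ : κ ≤ 100 * P.W) {u v : ℝ}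
    (hu : P.a - 40 * P.r ≤ u) (huv : u ≤ v) (hv : v ≤ P.b + 40 * P.r) :
    Real.exp (-eps) * (v - u) ≤ h v - h u := by
  exact Mxd_lo (A.good hh.1) (hh.nid hκ).1 hu huv hv

lemma Gp.Lop.up {P : Gp A} {h : Equiv.Perm ℝ} {κ : ℝ} (hh : P.Lop h κ) (hκ : κ ≤ 100 * P.W) {u v : ℝ}
    (hu : P.a - 40 * P.r ≤ u) (huv : u ≤ v) (hv : v ≤ P.b + 40 * P.r) :
    h v - h u ≤ Real.exp eps * (v - u) := by
  exact Mxd_up (A.good hh.1) (hh.nid hκ).1 hu huv hv

lemma exp_eps : Real.exp eps ≤ 1 + 11 / 10 * eps ∧ 1 - 11 / 10 * eps ≤ Real.exp (-eps) ∧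
    Real.exp (-eps) ≤ 1 ∧ 1 ≤ Real.exp eps := by
  have hep : 0 < eps := eps_pos
  have hep1 : eps ≤ 1 / 100 := by unfold eps; norm_num
  have h1 := Real.add_one_le_exp (-eps)
  have h2 : Real.exp eps * Real.exp (-eps) = 1 := by rw [← Real.exp_add]; simp
  have h3 := Real.exp_pos eps
  refine ⟨?_, by linarith, ?_, Real.one_le_exp hep.le⟩
  · have h4 : Real.exp eps * (1 - eps) ≤ 1 := by nlinarith
    have h5 : 1 ≤ (1 + 11 / 10 * eps) * (1 - eps) := by nlinarith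
    have h6 : Real.exp eps * (1 - eps) ≤ (1 + 11 / 10 * eps) * (1 - eps) := h4.trans h5
    exact le_of_mul_le_mul_right h6 (by linarith)
  · rw [Real.exp_le_one_iff]
    linarith

lemma Gp.Lop.disp {P : Gp A} {h : Equiv.Perm ℝ} {κ : ℝ} (hh : P.Lop h κ) (hκ : κ ≤ 100 * P.W) {u : ℝ}
    (hu : P.b ≤ u) (hu' : u ≤ P.b + 40 * P.r) : |h u - u| ≤ 2 * eps * (u - P.b) := by
  obtain ⟨he1, he2, he3, he4⟩ := exp_eps
  have hr := P.hr
  have hab := P.gap.1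
  have h1 := hh.lo hκ (u := P.b) (v := u) (by linarith) hu hu'
  have h2 := hh.up hκ (u := P.b) (v := u) (by linarith) hu hu'
  rw [hh.2.2.1] at h1 h2
  have hep : 0 < eps := eps_pos
  have h0 : 0 ≤ u - P.b := by linarith
  have h3 : (1 - 2 * eps) * (u - P.b) ≤ Real.exp (-eps) * (u - P.b) :=
    mul_le_mul_of_nonneg_right (by linarith) h0
  have h4 : Real.exp eps * (u - P.b) ≤ (1 + 2 * eps) * (u - P.b) :=
    mul_le_mul_of_nonneg_right (by linarith) h0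
  rw [abs_le]
  constructor
  · linarith
  · linarith

lemma Gp.Lop.disp_left {P : Gp A} {h : Equiv.Perm ℝ} {κ : ℝ} (hh : P.Lop h κ) (hκ : κ ≤ 100 * P.W)
    {u : ℝ} (hu : u ≤ P.a) (hu' : P.a - 40 * P.r ≤ u) : |h u - u| ≤ 2 * eps * (P.a - u) := by
  obtain ⟨he1, he2, he3, he4⟩ := exp_eps
  have hr := P.hr
  have hab := P.gap.1
  have h1 := hh.lo hκ (u := u) (v := P.a) hu' hu (by linarith)
  have h2 := hh.up hκ (u := u) (v := P.a) hu' hu (by linarith)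
  rw [hh.2.1] at h1 h2
  have hep : 0 < eps := eps_pos
  have h0 : 0 ≤ P.a - u := by linarith
  have h3 : (1 - 2 * eps) * (P.a - u) ≤ Real.exp (-eps) * (P.a - u) :=
    mul_le_mul_of_nonneg_right (by linarith) h0
  have h4 : Real.exp eps * (P.a - u) ≤ (1 + 2 * eps) * (P.a - u) :=
    mul_le_mul_of_nonneg_right (by linarith) h0
  rw [abs_le]
  constructor
  · linarith
  · linarith

lemma Gp.Lop.rh_lo {P : Gp A} {h x : Equiv.Perm ℝ} {κ : ℝ} (hh : P.Lop h κ) (hκ : κ ≤ 100 * P.W)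
    (hx : x ∈ A.G) (h1 : P.a - 40 * P.r ≤ x P.a) (h2 : x P.b ≤ P.b + 40 * P.r) :
    Real.exp (-eps) * P.rh x ≤ P.rh (h * x) := by
  have hab := P.gap.1
  have h3 := hh.lo hκ (u := x P.a) (v := x P.b) h1 ((A.good hx).mono.monotone hab.le) h2
  show Real.exp (-eps) * ((x P.b - x P.a) / (P.b - P.a)) ≤
    (h (x P.b) - h (x P.a)) / (P.b - P.a)
  rw [← mul_div_assoc]
  exact div_le_div_of_nonneg_right h3 (by linarith)

lemma Gp.Lop.rh_up {P : Gp A} {h x : Equiv.Perm ℝ} {κ : ℝ} (hh : P.Lop h κ) (hκ : κ ≤ 100 * P.W)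
    (hx : x ∈ A.G) (h1 : P.a - 40 * P.r ≤ x P.a) (h2 : x P.b ≤ P.b + 40 * P.r) :
    P.rh (h * x) ≤ Real.exp eps * P.rh x := by
  have hab := P.gap.1
  have h3 := hh.up hκ (u := x P.a) (v := x P.b) h1 ((A.good hx).mono.monotone hab.le) h2
  show (h (x P.b) - h (x P.a)) / (P.b - P.a) ≤ Real.exp eps * ((x P.b - x P.a) / (P.b - P.a))
  rw [← mul_div_assoc]
  exact div_le_div_of_nonneg_right h3 (by linarith)

end Pool.Agent.H42.EM
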