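/-
FRB : a free loop on the right of the gap.

PROOF.
(1) L ∩ (b + 8r, b + 9r) ≠ ∅.  Otherwise let (a', b') be the gap containing the midpoint (Sys.exists_gap): a' ≤ b + 8r,
 b + 9r ≤ b' (L does not meet the interval).  b ≤ a' since b ∈ L, and b < a' (if a' = b then L does not accumulate at b from
 the right, against Sys.accR_of_gap P.gap).  By Rp.move some loop l = lp R.rp s g has l a' ≠ a'.  (l a', l b') is a gap,
 different from (a', b'), so l b' ≤ a' or b' ≤ l a' (IsGap.eq_or).  Second case: l a' - a' ≥ r, but |l a' - a'| ≤ 2 eps 8 r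
 (Lop.disp).  First case: l (b + 9r) ≤ l b' ≤ a' ≤ b + 8r, but l (b + 9r) ≥ b + 9r - 18 eps r.
(2) free_elt' with x = b, R = 39 r, ε = eps, β = eps/(100 r), Lp = {l | ∃ g ∈ G, ∃ s ∈ S, l = lp rp s g}: NId on
 [b - 39 r, b + 39 r] ⊆ K since b - a ≤ eps r; hmove = Rp.move; v < b + 9r < b + 39/4 r.
 f ∈ Lp gives Lop f (21/10 W) by Rp.lop; f⁻¹ ∈ Lp: Lop.inv.
-/
import Pool.Agent.H42.EZ.Cfn
import Pool.Agent.H42.EZ.Nid
import Pool.Agent.H42.EZ.Fre

set_option autoImplicit false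

namespace Pool.Agent.H42.EM

open Set

variable {A : Sys}

private lemma Frb_eps : eps ≤ 1 / 10000 := by
  unfold eps
  norm_num

private lemma Frb_pt {P : Gp A} (R : Rp P) :
    ∃ v ∈ A.L, P.b + 8 * P.r < v ∧ v < P.b + 9 * P.r := by
  by_contra hcon
  push Not at hcon
  have hr := P.hr
  have he := eps_pos
  have he1 := Frb_eps
  have her : eps * P.r ≤ 1 / 10000 * P.r := mul_le_mul_of_nonneg_right he1 hr.le
  have her0 : 0 < eps * P.r := mul_pos he hr
  have hW := P.hW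
  have ht : P.b + 17 / 2 * P.r ∉ A.L := by
    intro h
    have := hcon _ h (by linarith)
    linarith
  obtain ⟨a', b', hg', hta, htb⟩ := A.exists_gap ht
  have ha' : a' ≤ P.b + 8 * P.r := by
    by_contra h
    push Not at h
    have := hcon a' hg'.2.1 h
    linarith
  have hb' : P.b + 9 * P.r ≤ b' := hcon b' hg'.2.2.1 (by linarith)
  have hba : P.b ≤ a' := by
    by_contra h
    push Not at h
    exact hg'.2.2.2 P.b ⟨h, by linarith⟩ P.gap.2.2.1
  have hba' : P.b < a' := by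
    rcases hba.lt_or_eq with h | h
    · exact h
    · exfalso
      obtain ⟨t, ht, htL⟩ := A.accR_of_gap P.gap (b' - P.b) (by linarith)
      exact hg'.2.2.2 t ⟨by linarith [ht.1], by linarith [ht.2]⟩ htL
  obtain ⟨g, hg, s, hs, hne⟩ := R.move hba' (by linarith)
  have hl := R.lop hg hs
  have h21 : 21 / 10 * P.W ≤ 100 * P.W := by linarith
  have hlG := hl.1
  rcases hg'.eq_or (hg'.image A hlG) with h | h | h
  · exact hne h.symm
  · have h1 := hl.disp h21 (u := a') hba (by linarith)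
    have h2 := (abs_le.1 h1).2
    have h3 : 2 * eps * (a' - P.b) ≤ 2 * eps * (8 * P.r) :=
      mul_le_mul_of_nonneg_left (by linarith) (by linarith)
    linarith
  · have h1 := hl.disp h21 (u := P.b + 9 * P.r) (by linarith) (by linarith)
    have h2 := (abs_le.1 h1).1
    have h4 := (A.good hlG).mono.monotone hb'
    have h5 : 2 * eps * (P.b + 9 * P.r - P.b) = 18 * (eps * P.r) := by ring
    rw [h5] at h2
    linarith

theorem Rp.right_free {P : Gp A} (R : Rp P) :
    ∃ v ∈ A.L, P.b + 8 * P.r < v ∧ v < P.b + 9 * P.r ∧ ∃ f, P.Lop f (21 / 10 * P.W) ∧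
      (∀ t ∈ Ioc P.b v, f t < t) ∧
      ∀ g ∈ A.G, ∀ s ∈ A.S, |lp R.rp s g v - v| ≤ 3 / 2 * (v - f v) ∧
        |(lp R.rp s g)⁻¹ v - v| ≤ 3 / 2 * (v - f v) := by
  obtain ⟨v, hvL, hv1, hv2⟩ := Frb_pt R
  have hr := P.hr
  have he := eps_pos
  have he1 := Frb_eps
  have hW := P.hW
  have h21 : 21 / 10 * P.W ≤ 100 * P.W := by linarith
  have hβ : 0 ≤ eps / (100 * P.r) := by positivity
  have hβR : eps / (100 * P.r) * (39 * P.r) ≤ eps := by
    have h1 : eps / (100 * P.r) * (39 * P.r) = 39 / 100 * eps := by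
      field_simp
    rw [h1]
    linarith
  have hab := P.gap.1
  obtain ⟨f, hf, hfree, hmax⟩ := free_elt' A (x := P.b) (ε := eps) (β := eps / (100 * P.r))
    (R := 39 * P.r) {l | ∃ g ∈ A.G, ∃ s ∈ A.S, l = lp R.rp s g} (by linarith) he (by linarith)
    hβ hβR (by
      rintro l ⟨g, hg, s, hs, rfl⟩
      have hl := R.lop hg hs
      exact ⟨hl.1, hl.2.2.1, Mxd_sub (hl.nid h21) (by linarith) (by linarith) le_rfl le_rfl⟩)
    (by
      intro p hp hp'
      obtain ⟨g, hg, s, hs, hne⟩ := R.move hp hp'.le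
      exact ⟨lp R.rp s g, ⟨g, hg, s, hs, rfl⟩, hne⟩)
    (A.accR_of_gap P.gap) hvL (by linarith) (by linarith)
  refine ⟨v, hvL, hv1, hv2, f, ?_, hfree, ?_⟩
  · rcases hf with ⟨g, hg, s, hs, rfl⟩ | ⟨g, hg, s, hs, h⟩
    · exact R.lop hg hs
    · have h1 := (R.lop hg hs).inv
      rw [← h, inv_inv] at h1
      exact h1
  · intro g hg s hs
    refine ⟨hmax _ (Or.inl ⟨g, hg, s, hs, rfl⟩), hmax _ (Or.inr ⟨g, hg, s, hs, ?_⟩)⟩
    rw [inv_inv]

end Pool.Agent.H42.EM
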