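/-
RFL : reflection.  (EM/Refl.lean: A.refl, rf g x = - g (-x), Sys.refl_G, refl_gap, rf_mul, rf_inv, deriv_rf, ...)

PROOFS.
* refl_Cst: g ↦ rf g maps paths of A.refl to paths of A (generators to generators: A.refl.S = rf '' A.S, see Refl.lean for
  the definition of A.refl: generators rf (A.f i)); rf (T^k * g) = T^(-k) * rf g; rho (-b) (-a) g = rho a b (rf g):
  g (-a) - g (-b) = rf g b - rf g a.
* Gp.refl: a := -b, b := -a, r W B the same; gap: Sys.refl_gap; longest: g (-a) - g (-b) = rf g b - rf g a;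
  hBs: deriv_rf; ctl: refl_Cst and log (rf g)' (t) = log g'(-t), K is mapped to -K; rep: take rf h.
* left_free: Rp.right_free for P.refl (exists_Rp (P.refl)); v' := -v, fm := rf f, f t < t on (-a, v] gives t < fm t on
  [-v, a).
-/
import Pool.Agent.H42.EM.Refl
import Pool.Agent.H42.EZ.Frb

set_option autoImplicit false

namespace Pool.Agent.H42.EM

open Set

variable {A : Sys}

lemma Rfl_zpow (g : Equiv.Perm ℝ) (k : ℤ) : rf (g ^ k) = rf g ^ k := by
  let φ : Equiv.Perm ℝ →* Equiv.Perm ℝ :=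
    { toFun := rf
      map_one' := rf_one
      map_mul' := rf_mul }
  exact map_zpow φ g k

lemma Rfl_T (k : ℤ) (g : Equiv.Perm ℝ) : rf (T ^ k * g) = T ^ (-k) * rf g := by
  rw [rf_mul, Rfl_zpow, Refl_T, inv_zpow, zpow_neg]

lemma Rfl_rho (a b : ℝ) (g : Equiv.Perm ℝ) : rho (-b) (-a) g = rho a b (rf g) := by
  unfold rho
  rw [rf_apply, rf_apply]
  congr 1 <;> ring

lemma Rfl_S {s : Equiv.Perm ℝ} : s ∈ A.refl.S ↔ rf s ∈ A.S := by
  constructor
  · rintro ⟨i, hi | hi⟩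
    · refine ⟨i, Or.inl ?_⟩
      rw [hi]
      exact rf_rf _
    · refine ⟨i, Or.inr ?_⟩
      rw [hi, rf_inv]
      congr 1
      exact rf_rf _
  · rintro ⟨i, hi | hi⟩
    · refine ⟨i, Or.inl ?_⟩
      rw [← rf_rf s, hi]
      rfl
    · refine ⟨i, Or.inr ?_⟩
      rw [← rf_rf s, hi, rf_inv]
      rfl

lemma Rfl_path {n : ℕ} {w : ℕ → Equiv.Perm ℝ} (h : A.refl.Path n w) :
    A.Path n fun i => rf (w i) := by
  refine ⟨?_, fun i hi => ?_⟩
  · show rf (w 0) = 1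
    rw [h.1, rf_one]
  · obtain ⟨s, hs, hw⟩ := h.2 i hi
    refine ⟨rf s, Rfl_S.1 hs, ?_⟩
    show rf (w (i + 1)) = rf s * rf (w i)
    rw [hw, rf_mul]

lemma Rfl_path' {n : ℕ} {w : ℕ → Equiv.Perm ℝ} (h : A.Path n w) :
    A.refl.Path n fun i => rf (w i) := by
  refine ⟨?_, fun i hi => ?_⟩
  · show rf (w 0) = 1
    rw [h.1, rf_one]
  · obtain ⟨s, hs, hw⟩ := h.2 i hi
    refine ⟨rf s, Rfl_S.2 (by rw [rf_rf]; exact hs), ?_⟩
    show rf (w (i + 1)) = rf s * rf (w i)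
    rw [hw, rf_mul]

lemma refl_Cst (A : Sys) (a b : ℝ) (g : Equiv.Perm ℝ) (κ : ℝ) :
    A.refl.Cst (-b) (-a) g κ ↔ A.Cst a b (rf g) κ := by
  constructor
  · rintro ⟨n, w, k, hw, hn, hs⟩
    refine ⟨n, fun i => rf (w i), -k, Rfl_path hw, ?_, ?_⟩
    · show rf (w n) = _
      rw [hn, Rfl_T]
    · refine le_trans (le_of_eq ?_) hs
      exact Finset.sum_congr rfl fun i _ => (Rfl_rho a b (w i)).symm
  · rintro ⟨n, w, k, hw, hn, hs⟩
    refine ⟨n, fun i => rf (w i), -k, Rfl_path' hw, ?_, ?_⟩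
    · show rf (w n) = _
      rw [hn, Rfl_T, rf_rf]
    · refine le_trans (le_of_eq ?_) hs
      refine Finset.sum_congr rfl fun i _ => ?_
      rw [Rfl_rho, rf_rf]

/-- the reflected gap -/
noncomputable def Gp.refl (P : Gp A) : Gp A.refl where
  a := -P.b
  b := -P.a
  r := P.r
  W := P.W
  B := P.B
  gap := by
    rw [A.refl_gap, neg_neg, neg_neg]
    exact P.gap
  longest := by
    intro g hg
    have h1 := P.longest (rf g) ((A.refl_G g).1 hg)
    rw [rf_apply, rf_apply] at h1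
    linarith
  hr := P.hr
  hr1 := P.hr1
  hJ := by
    have := P.hJ
    linarith
  hW := P.hW
  hB := P.hB
  hBs := by
    intro s hs x
    have h1 := P.hBs (rf s) (Rfl_S.1 hs) (-x)
    rw [deriv_rf, neg_neg] at h1
    exact h1
  ctl := by
    intro g hg hc u hu v hv
    have h1 := P.ctl (rf g) ((A.refl_G g).1 hg) ((refl_Cst A P.a P.b g _).1 hc) (-u)
      ⟨by linarith [hu.2], by linarith [hu.1]⟩ (-v) ⟨by linarith [hv.2], by linarith [hv.1]⟩
    rw [deriv_rf, deriv_rf, neg_neg, neg_neg] at h1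
    have h2 : |-u - -v| = |u - v| := by
      rw [← abs_neg]
      congr 1
      ring
    rw [h2] at h1
    exact h1
  rep := by
    intro g hg
    obtain ⟨h, hG, ha, hb, hc⟩ := P.rep (rf g) ((A.refl_G g).1 hg)
    refine ⟨rf h, (A.refl_G _).2 (by rw [rf_rf]; exact hG), ?_, ?_, ?_⟩
    · rw [rf_apply, neg_neg, hb, rf_apply, neg_neg]
    · rw [rf_apply, neg_neg, ha, rf_apply, neg_neg]
    · rw [refl_Cst, rf_rf]
      exact hc

theorem Gp.left_free (P : Gp A) :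
    ∃ v' ∈ A.L, P.a - 9 * P.r < v' ∧ v' < P.a - 8 * P.r ∧ ∃ fm, P.Lop fm (21 / 10 * P.W) ∧
      ∀ t ∈ Ico v' P.a, t < fm t := by
  obtain ⟨R⟩ := exists_Rp P.refl
  obtain ⟨v, hvL, h1, h2, f, ⟨hfG, hfa, hfb, hfC⟩, hfree, -⟩ := R.right_free
  have h1' : -P.a + 8 * P.r < v := h1
  have h2' : v < -P.a + 9 * P.r := h2
  have hfa' : f (-P.b) = -P.b := hfa
  have hfb' : f (-P.a) = -P.a := hfb
  refine ⟨-v, hvL, by linarith, by linarith, rf f, ⟨?_, ?_, ?_, ?_⟩, ?_⟩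
  · exact (A.refl_G f).1 hfG
  · rw [rf_apply, hfb', neg_neg]
  · rw [rf_apply, hfa', neg_neg]
  · exact (refl_Cst A P.a P.b f _).1 hfC
  · intro t ht
    have h3 : f (-t) < -t := hfree (-t) ⟨by
      show -P.a < -t
      linarith [ht.2], by linarith [ht.1]⟩
    rw [rf_apply]
    linarith

end Pool.Agent.H42.EM
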