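/-
DDL : two gaps of the orbit are never mutually visible.

PROOF.  u := g⁻¹ * g'.  b ≤ u a < b + 7 r (apply g⁻¹).  u a ∈ L... rh u ≤ 1, so u b = u a + rho u (b - a) ≤ b + 8 r.
 g * u = g' has cost ≤ 3 W; back with (g, u): u has cost ≤ 3 W + 101/100 * 3 W ≤ 61/10 W, so it is controlled, aff.
 Suppose g' (a - 7r) ≤ g b, i.e. u (a - 7 r) ≤ b.  From P.left_free: v' < a - 8r, fm.  So u v' ≤ b.
 k := u * fm * u⁻¹ ∈ G, k (u a) = u a, and t < k t for t ∈ [b, u a): u⁻¹ t ∈ [v', a) .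
 b < u a: b ≤ u a and equality is impossible (lt_of_le).  crossing (EM/Crs) for (f, k, p = b, q = u a): f b = b,
 f t < t on (b, u a] (u a ≤ v), L ∩ (b, u a) ≠ ∅ (accR_of_gap).
 NId f b (u a) (1/20) c and NId k b (u a) (1/20) c with c := 1 / (20 (u a - b)):
  for f: Lop.nid (eps/(100 r) ≤ c since u a - b ≤ 7 r).   For k: for t ∈ [b, u a] put s = u⁻¹ t ∈ [v', a] ⊆ K,
  log k'(t) = log u'(fm s) + log fm'(s) - log u'(s) (chain rule: k * u = u * fm, so k'(u s) u'(s) = u'(fm s) fm'(s)),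
  |log k'(t)| ≤ eps + eps (fm s ∈ [v', a]).  Lipschitz: |log k'(t₁) - log k'(t₂)| ≤ eps/(100 r) (|fm s₁ - fm s₂| + |s₁ - s₂| +
  |s₁ - s₂|) ≤ eps/(100 r) * 4 |s₁ - s₂| and |s₁ - s₂| ≤ |t₁ - t₂| / (0.999 rho u) (aff), while
  u a - b ≤ u a - u v' ≤ 1.001 rho u * 10 r; so the constant is ≤ eps/(100 r) * 4.01 / rho u ≤ c.   (cases s₁ ≤ s₂, s₂ ≤ s₁)
-/
import Pool.Agent.H42.EZ.Rfl

set_option autoImplicit false

namespace Pool.Agent.H42.EM

open Set

variable {A : Sys}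

lemma Ddl_log {u m : Equiv.Perm ℝ} (hu : Good u) (hm : Good m) (s : ℝ) :
    Real.log (deriv (⇑(u * m * u⁻¹)) (u s)) =
      Real.log (deriv (⇑u) (m s)) + Real.log (deriv (⇑m) s) - Real.log (deriv (⇑u) s) := by
  have e : u * m * u⁻¹ * u = u * m := by group
  have hk : Good (u * m * u⁻¹) := (hu.mul hm).mul hu.inv
  have h1 : deriv (⇑(u * m * u⁻¹ * u)) s = deriv (⇑(u * m * u⁻¹)) (u s) * deriv (⇑u) s :=
    hk.deriv_mul hu s
  have h2 : deriv (⇑(u * m)) s = deriv (⇑u) (m s) * deriv (⇑m) s := hu.deriv_mul hm s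
  rw [e, h2] at h1
  have h3 := congrArg Real.log h1
  rw [Real.log_mul (hu.pos _).ne' (hm.pos _).ne', Real.log_mul (hk.pos _).ne' (hu.pos _).ne'] at h3
  linarith

lemma Ddl_nid (P : Gp A) {u m : Equiv.Perm ℝ} {κ v' : ℝ} (huG : u ∈ A.G)
    (hu : Ctl P.a P.b P.r u) (hm : P.Lop m κ) (hκ : κ ≤ 100 * P.W) (hv1 : P.a - 9 * P.r < v')
    (hv2 : v' < P.a) (up : ∀ t ∈ Ico v' P.a, t < m t) (hb : P.b < u P.a) (hvb : u v' ≤ P.b) :
    NId (u * m * u⁻¹) P.b (u P.a) (1 / 20) (1 / (20 * (u P.a - P.b))) := by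
  have hr := P.hr
  have hab := P.ab
  have gu := A.good huG
  have gm := A.good hm.1
  have he : (0 : ℝ) < eps := eps_pos
  have he' : eps = 1 / 10 ^ 8 := rfl
  have hnid := hm.nid hκ
  have hrh := P.rh_pos huG
  have hup : ∀ s, v' ≤ s → s ≤ P.a → s ≤ m s ∧ m s ≤ P.a := by
    intro s h1 h2
    have h3 : m s ≤ m P.a := gm.mono.monotone h2
    rw [hm.2.1] at h3
    rcases eq_or_lt_of_le h2 with h | h
    · subst h
      exact ⟨by rw [hm.2.1], h3⟩
    · exact ⟨(up s ⟨h1, h⟩).le, h3⟩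
  have hs : ∀ t ∈ Icc P.b (u P.a), ∃ s, v' ≤ s ∧ s ≤ P.a ∧ t = u s := by
    intro t ht
    refine ⟨u⁻¹ t, ?_, ?_, (u.apply_symm_apply t).symm⟩
    · have h1 : u v' ≤ u (u⁻¹ t) := by
        rw [show u (u⁻¹ t) = t from u.apply_symm_apply t]
        exact hvb.trans ht.1
      exact gu.mono.le_iff_le.1 h1
    · have h1 : u (u⁻¹ t) ≤ u P.a := by
        rw [show u (u⁻¹ t) = t from u.apply_symm_apply t]
        exact ht.2
      exact gu.mono.le_iff_le.1 h1
  have hlen : u P.a - P.b ≤ 1001 / 1000 * P.rh u * (9 * P.r) := by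
    have h1 := (P.aff huG hu (u := v') (v := P.a) (by linarith) hv2.le (by linarith)).2
    have h2 : 1001 / 1000 * P.rh u * (P.a - v') ≤ 1001 / 1000 * P.rh u * (9 * P.r) :=
      mul_le_mul_of_nonneg_left (by linarith) (by positivity)
    linarith
  have hq : 0 < u P.a - P.b := by linarith
  constructor
  · intro t ht
    obtain ⟨s, h1, h2, rfl⟩ := hs t ht
    obtain ⟨h3, h4⟩ := hup s h1 h2
    rw [Ddl_log gu gm]
    have h5 := hu (m s) ⟨by linarith, by linarith⟩ s ⟨by linarith, by linarith⟩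
    have h6 := hnid.1 s ⟨by linarith, by linarith⟩
    have h7 : eps / (100 * P.r) * |m s - s| ≤ eps := by
      rw [abs_of_nonneg (by linarith)]
      have h8 : eps / (100 * P.r) * (m s - s) ≤ eps / (100 * P.r) * (100 * P.r) :=
        mul_le_mul_of_nonneg_left (by linarith) (by positivity)
      rwa [div_mul_cancel₀ _ (by positivity)] at h8
    have h9 : Real.log (deriv (⇑u) (m s)) + Real.log (deriv (⇑m) s) - Real.log (deriv (⇑u) s) =
        (Real.log (deriv (⇑u) (m s)) - Real.log (deriv (⇑u) s)) + Real.log (deriv (⇑m) s) := by ring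
    rw [h9]
    refine (abs_add_le _ _).trans ?_
    have h10 : eps ≤ 1 / 40 := by rw [he']; norm_num
    linarith
  · have key : ∀ s₁ s₂, v' ≤ s₁ → s₁ ≤ s₂ → s₂ ≤ P.a →
        |Real.log (deriv (⇑(u * m * u⁻¹)) (u s₁)) - Real.log (deriv (⇑(u * m * u⁻¹)) (u s₂))| ≤
          1 / (20 * (u P.a - P.b)) * |u s₁ - u s₂| := by
      intro s₁ s₂ h1 h12 h2
      obtain ⟨h3, h4⟩ := hup s₁ h1 (h12.trans h2)
      obtain ⟨h5, h6⟩ := hup s₂ (h1.trans h12) h2
      have hmm : m s₁ ≤ m s₂ := gm.mono.monotone h12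
      rw [Ddl_log gu gm, Ddl_log gu gm]
      have a1 := hu (m s₁) ⟨by linarith, by linarith⟩ (m s₂) ⟨by linarith, by linarith⟩
      have a2 := hnid.2 s₁ ⟨by linarith, by linarith⟩ s₂ ⟨by linarith, by linarith⟩
      have a3 := hu s₂ ⟨by linarith, by linarith⟩ s₁ ⟨by linarith, by linarith⟩
      have a4 : m s₂ - m s₁ ≤ 2 * (s₂ - s₁) := by
        have h := hm.up hκ (u := s₁) (v := s₂) (by linarith) h12 (by linarith)
        have h' : Real.exp eps ≤ 2 := by
          have := exp_eps.1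
          rw [he'] at this ⊢
          linarith
        have h'' : Real.exp eps * (s₂ - s₁) ≤ 2 * (s₂ - s₁) :=
          mul_le_mul_of_nonneg_right h' (by linarith)
        linarith
      rw [abs_of_nonpos (show m s₁ - m s₂ ≤ 0 by linarith)] at a1
      rw [abs_of_nonpos (show s₁ - s₂ ≤ 0 by linarith)] at a2
      rw [abs_of_nonneg (show 0 ≤ s₂ - s₁ by linarith)] at a3
      have hE : 0 < eps / (100 * P.r) := by positivity
      have a5 : eps / (100 * P.r) * -(m s₁ - m s₂) ≤ eps / (100 * P.r) * (2 * (s₂ - s₁)) :=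
        mul_le_mul_of_nonneg_left (by linarith) hE.le
      have e1 : Real.log (deriv (⇑u) (m s₁)) + Real.log (deriv (⇑m) s₁) - Real.log (deriv (⇑u) s₁) -
          (Real.log (deriv (⇑u) (m s₂)) + Real.log (deriv (⇑m) s₂) - Real.log (deriv (⇑u) s₂)) =
          (Real.log (deriv (⇑u) (m s₁)) - Real.log (deriv (⇑u) (m s₂))) +
          (Real.log (deriv (⇑m) s₁) - Real.log (deriv (⇑m) s₂)) +
          (Real.log (deriv (⇑u) s₂) - Real.log (deriv (⇑u) s₁)) := by ring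
      rw [e1]
      have a6 := abs_add_three (Real.log (deriv (⇑u) (m s₁)) - Real.log (deriv (⇑u) (m s₂)))
        (Real.log (deriv (⇑m) s₁) - Real.log (deriv (⇑m) s₂))
        (Real.log (deriv (⇑u) s₂) - Real.log (deriv (⇑u) s₁))
      have a7 := (P.aff huG hu (u := s₁) (v := s₂) (by linarith) h12 (by linarith)).1
      have hus : u s₁ ≤ u s₂ := gu.mono.monotone h12
      rw [abs_of_nonpos (show u s₁ - u s₂ ≤ 0 by linarith)]
      have a8 : eps / (100 * P.r) * (4 * (s₂ - s₁)) ≤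
          1 / (20 * (u P.a - P.b)) * -(u s₁ - u s₂) := by
        rw [div_mul_eq_mul_div, div_mul_eq_mul_div, div_le_div_iff₀ (by positivity) (by positivity)]
        have b1 : eps * (4 * (s₂ - s₁)) * (20 * (u P.a - P.b)) ≤
            eps * (4 * (s₂ - s₁)) * (20 * (1001 / 1000 * P.rh u * (9 * P.r))) := by
          refine mul_le_mul_of_nonneg_left (by linarith) ?_
          have : 0 ≤ s₂ - s₁ := by linarith
          positivity
        have b2 : 999 / 1000 * P.rh u * (s₂ - s₁) * (100 * P.r) ≤ 1 * -(u s₁ - u s₂) * (100 * P.r) :=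
          mul_le_mul_of_nonneg_right (by linarith) (by positivity)
        have b3 : 0 ≤ P.rh u * (s₂ - s₁) * P.r := by
          have : 0 ≤ s₂ - s₁ := by linarith
          positivity
        have b4 : eps * (4 * (s₂ - s₁)) * (20 * (1001 / 1000 * P.rh u * (9 * P.r))) =
            eps * (80 * 1001 / 1000 * 9) * (P.rh u * (s₂ - s₁) * P.r) := by ring
        have b5 : 999 / 1000 * P.rh u * (s₂ - s₁) * (100 * P.r) =
            999 / 10 * (P.rh u * (s₂ - s₁) * P.r) := by ring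
        have b6 : eps * (80 * 1001 / 1000 * 9) * (P.rh u * (s₂ - s₁) * P.r) ≤
            999 / 10 * (P.rh u * (s₂ - s₁) * P.r) :=
          mul_le_mul_of_nonneg_right (by rw [he']; norm_num) b3
        linarith
      linarith
    intro t₁ ht₁ t₂ ht₂
    obtain ⟨s₁, h1, h2, rfl⟩ := hs t₁ ht₁
    obtain ⟨s₂, h3, h4, rfl⟩ := hs t₂ ht₂
    rcases le_total s₁ s₂ with h | h
    · exact key s₁ s₂ h1 h h4
    · rw [abs_sub_comm, abs_sub_comm (u s₁)]
      exact key s₂ s₁ h3 h h2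

theorem Gp.dd_lem (P : Gp A) {f : Equiv.Perm ℝ} {v : ℝ} (hf : P.Lop f (21 / 10 * P.W))
    (hv1 : P.b + 8 * P.r < v) (hv2 : v < P.b + 9 * P.r) (free : ∀ t ∈ Ioc P.b v, f t < t)
    {g g' : Equiv.Perm ℝ} (hg : P.C g (3 * P.W)) (hg' : P.C g' (3 * P.W)) (h1 : g P.b ≤ g' P.a)
    (h2 : g' P.a < g (P.b + 7 * P.r)) : g P.b < g' (P.a - 7 * P.r) := by
  have hr := P.hr
  have hab := P.ab
  have hW := P.hW
  have hJ := P.hJ
  have he : (0 : ℝ) < eps := eps_pos
  have he' : eps = 1 / 10 ^ 8 := rfl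
  have hgG : g ∈ A.G := Sys.Cst.mem hg
  have hg'G : g' ∈ A.G := Sys.Cst.mem hg'
  obtain ⟨u, rfl⟩ : ∃ u, g' = g * u := ⟨g⁻¹ * g', by group⟩
  have huG : u ∈ A.G := by
    have := A.G.mul_mem (A.G.inv_mem hgG) hg'G
    rwa [inv_mul_cancel_left] at this
  have gg := A.good hgG
  have gu := A.good huG
  have c1 : P.b ≤ u P.a := gg.mono.le_iff_le.1 h1
  have c2 : u P.a < P.b + 7 * P.r := gg.mono.lt_iff_lt.1 h2
  have c3 : P.b < u P.a := P.lt_of_le A.G.one_mem huG c1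
  have hJr : P.b - P.a ≤ P.r := by
    have : eps * P.r ≤ 1 * P.r := mul_le_mul_of_nonneg_right (by rw [he']; norm_num) hr.le
    linarith
  have c4 : u P.b - u P.a ≤ P.b - P.a := P.longest u huG
  have hrh1 := P.rh_le huG
  have hrh0 := P.rh_pos huG
  have c5 : P.C u (3 * P.W + 101 / 100 * P.rh u * (3 * P.W)) :=
    P.back hg (by linarith) hg' (by linarith) (by linarith)
  have c6 : 3 * P.W + 101 / 100 * P.rh u * (3 * P.W) ≤ 100 * P.W := by
    have : 101 / 100 * P.rh u * (3 * P.W) ≤ 101 / 100 * 1 * (3 * P.W) := by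
      refine mul_le_mul_of_nonneg_right ?_ (by linarith)
      linarith
    linarith
  have c7 := P.ctl_of c5 c6
  by_contra hcon
  push Not at hcon
  have c8 : u (P.a - 7 * P.r) ≤ P.b := gg.mono.le_iff_le.1 hcon
  obtain ⟨v', -, d1, d2, m, hm, up⟩ := P.left_free
  have d3 : u v' ≤ P.b := (gu.mono (show v' < P.a - 7 * P.r by linarith)).le.trans c8
  have hmG : m ∈ A.G := hm.1
  have gm := A.good hmG
  have hkG : u * m * u⁻¹ ∈ A.G := A.G.mul_mem (A.G.mul_mem huG hmG) (A.G.inv_mem huG)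
  have hq : 0 < u P.a - P.b := by linarith
  refine crossing A hf.1 hkG (p := P.b) (q := u P.a) (ε := 1 / 20)
    (c := 1 / (20 * (u P.a - P.b))) c3 hf.2.2.1 (fun t ht => free t ⟨ht.1, by linarith [ht.2]⟩)
    ?_ ?_ (by norm_num) (le_refl _) (by positivity) ?_ ?_ ?_ ?_
  · change u (m (u⁻¹ (u P.a))) = u P.a
    rw [show u⁻¹ (u P.a) = P.a from u.symm_apply_apply _, hm.2.1]
  · intro t ht
    change t < u (m (u⁻¹ t))
    have e : u (u⁻¹ t) = t := u.apply_symm_apply t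
    have h3 : v' ≤ u⁻¹ t := gu.mono.le_iff_le.1 (by rw [e]; exact d3.trans ht.1)
    have h4 : u⁻¹ t < P.a := gu.mono.lt_iff_lt.1 (by rw [e]; exact ht.2)
    have h5 := gu.mono (up (u⁻¹ t) ⟨h3, h4⟩)
    rwa [e] at h5
  · apply le_of_eq
    field_simp
  · refine Mxd_sub (hf.nid (by linarith)) (by linarith) (by linarith) (by rw [he']; norm_num) ?_
    rw [div_le_div_iff₀ (by positivity) (by positivity)]
    have h3 : eps * (20 * (u P.a - P.b)) ≤ eps * (20 * (7 * P.r)) :=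
      mul_le_mul_of_nonneg_left (by linarith) he.le
    have h4 : eps * (20 * (7 * P.r)) ≤ 1 / 2 * (20 * (7 * P.r)) :=
      mul_le_mul_of_nonneg_right (by rw [he']; norm_num) (by linarith)
    linarith
  · exact Ddl_nid P huG c7 hm (by linarith) d1 (by linarith) up c3 d3
  · obtain ⟨t, ht, htL⟩ := A.accR_of_gap P.gap (u P.a - P.b) hq
    exact ⟨t, ⟨ht.1, by linarith [ht.2]⟩, htL⟩

end Pool.Agent.H42.EM
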