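/-
DSP : every loop moves points at most four times as much as the free loop of maximal displacement.

PROOF.  X t := t - f t > 0 on (b, v].  e^-eps X t ≤ X (f t) ≤ e^eps X t (Lop.lo, Lop.up for [f t, t]).  |X s - X t| ≤
 2 eps |s - t| (exp_eps).  Suppose l t ≤ f⁴ t for some t ∈ (b, v].  h := l⁻¹ * f * f, k := f * h; both are loops of cost
 ≤ 9 W.  All points below are in [b, b + 10 r] (each loop moves points by at most 2 eps 10 r).
 (1) f² t - f⁴ t = X (f² t) + X (f³ t) ≥ (e^-2eps + e^-3eps) X t ≥ 1.99 X t, so h t = l⁻¹ (f² t) ≥ l⁻¹ (f⁴ t) + e^-eps 1.99 X t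
  ≥ t + 1.98 X t  (t ≤ l⁻¹ f⁴ t).  So k t = h t - X (h t) ≥ h t - X t - 2 eps (h t - t) > t.
 (2) l v ≥ v - 3/2 X v and f² v ≤ v - 1.99 X v < l v, so h v < v.   (If t = v this contradicts (1); so t < v.)
 (3) q := first fixed point of h in [t, v] (Mxd_first: t < h t, h v ≤ v): t < q ≤ v, h q = q, s < h s on [t, q).
  k q = f q < q, k t > t: p := last fixed point of k in [t, q] (as Mxd_last, for a function with k t > t: the set
  {s ∈ [t, q] : s ≤ k s} is compact, nonempty; its maximum p is a fixed point, t < p < q, k s < s on (p, q]).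
 (4) L ∩ (p, q) ≠ ∅: otherwise (p, q) lies in a gap (a', b') (Sys.exists_gap of the midpoint; a' ≤ p, q ≤ b').  (f a', f b')
  is another gap (f p < p...: f a' < a' if a' > b, and a' ≥ b, a' ≠ b as L accumulates at b from the right), so f b' ≤ a'
  (IsGap.eq_or and f b' < b'... use monotonicity), so f q ≤ f b' ≤ a' ≤ p.  k p = p means h p = f⁻¹ p ≥ q, but h p < h q = q.
  (If b' > v: still f q ≤ f b' fine; f a' ≠ a' because b < a' ≤ p ≤ v.)
 (5) crossing (EM/Crs) for (k, h, p, q): NId k, NId h on [p, q] ⊆ K (Lop.nid), ε = eps, c = eps/(100 r), c (q - p) ≤ eps.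
-/
import Pool.Agent.H42.EZ.Nid

set_option autoImplicit false

namespace Pool.Agent.H42.EM

open Set

variable {A : Sys}

theorem Gp.dsp_lem (P : Gp A) {f l : Equiv.Perm ℝ} {v : ℝ} (hf : P.Lop f (21 / 10 * P.W))
    (hl : P.Lop l (21 / 10 * P.W)) (hv1 : P.b + 8 * P.r < v) (hv2 : v < P.b + 9 * P.r)
    (free : ∀ t ∈ Ioc P.b v, f t < t) (hlv : v - l v ≤ 3 / 2 * (v - f v)) :
    ∀ t ∈ Ioc P.b v, (f ^ 4) t < l t := by
  intro t ht
  by_contra hcon
  push Not at hcon
  obtain ⟨he1, he2, he3, he4⟩ := exp_eps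
  have hep : 0 < eps := eps_pos
  have hep1 : eps ≤ 1 / 10 ^ 8 := le_refl _
  have hr := P.hr
  have hW := P.hW
  set r := P.r with hrd
  set a := P.a with had
  set b := P.b with hbd
  have hab : a < b := P.gap.1
  set x := Real.exp (-eps) with hx
  have hx1 : 1 - 2 / 10 ^ 8 ≤ x := by linarith
  have hx1' : x ≤ 1 := he3
  have hxp : 0 < x := Real.exp_pos _
  have hfG := A.good hf.1
  have hlG := A.good hl.1
  have hfm := hfG.mono
  have hlm := hlG.mono
  have hlim := hlG.inv.mono
  have hf2 : P.Lop (f * f) (21 / 5 * P.W) := (hf.mul hf).mono (by linarith)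
  have hh : P.Lop (l⁻¹ * (f * f)) (10 * P.W) := (hl.inv.mul hf2).mono (by linarith)
  have hk : P.Lop (f * (l⁻¹ * (f * f))) (20 * P.W) := (hf.mul hh).mono (by linarith)
  have hfc : 21 / 10 * P.W ≤ 100 * P.W := by linarith
  have hhc : 10 * P.W ≤ 100 * P.W := by linarith
  have hkc : 20 * P.W ≤ 100 * P.W := by linarith
  have hhm := (A.good hh.1).mono
  have hkm := (A.good hk.1).mono
  have hhv : ∀ s, (l⁻¹ * (f * f)) s = l⁻¹ (f (f s)) := fun s => rfl
  have hkv : ∀ s, (f * (l⁻¹ * (f * f))) s = f ((l⁻¹ * (f * f)) s) := fun s => rfl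
  set h := l⁻¹ * (f * f) with hhd
  set k := f * h with hkd
  have hfb : f b = b := hf.2.2.1
  have hinv : ∀ s, l⁻¹ (l s) = s := fun s => by simp
  -- `f` preserves `(b, v]`
  have hfi : ∀ s ∈ Ioc b v, f s ∈ Ioc b v := by
    intro s hs
    have h1 := hfm hs.1
    rw [hfb] at h1
    exact ⟨h1, (free s hs).le.trans hs.2⟩
  -- the displacement of `f`
  have hlo : ∀ s ∈ Ioc b v, x * (s - f s) ≤ f s - f (f s) := by
    intro s hs
    have h1 := (hfi s hs).1
    exact hf.lo hfc (by linarith) (free s hs).le (by linarith [hs.2])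
  -- step (1)
  have step1 : ∀ s ∈ Ioc b v, l s ≤ f (f (f (f s))) →
      s + 198 / 100 * (s - f s) ≤ h s ∧ s < k s := by
    intro s hs hls
    have m1 := hfi s hs
    have m2 := hfi _ m1
    have m3 := hfi _ m2
    have m4 := hfi _ m3
    have X0 : 0 < s - f s := by linarith [free s hs]
    have X1 := hlo s hs
    have X2 := hlo _ m1
    have X3 := hlo _ m2
    have e1 : s ≤ l⁻¹ (f (f (f (f s)))) := by
      have h1 := hlim.monotone hls
      rwa [hinv] at h1
    have e2 : x * (f (f s) - f (f (f (f s)))) ≤ l⁻¹ (f (f s)) - l⁻¹ (f (f (f (f s)))) := by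
      refine hl.inv.lo hfc (by linarith [m4.1]) ?_ (by linarith [m2.2])
      linarith [free _ m2, free _ m3]
    have y1 : 99999 / 100000 * (s - f s) ≤ f s - f (f s) := by nlinarith
    have y2 : 9999 / 10000 * (s - f s) ≤ f (f s) - f (f (f s)) := by nlinarith
    have y3 : 999 / 1000 * (s - f s) ≤ f (f (f s)) - f (f (f (f s))) := by nlinarith
    have y4 : 198 / 100 * (s - f s) ≤ x * (f (f s) - f (f (f (f s)))) := by nlinarith
    have e3 : s + 198 / 100 * (s - f s) ≤ h s := by
      rw [hhv]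
      linarith
    refine ⟨e3, ?_⟩
    have e4 : |h s - s| ≤ 2 * eps * (s - b) := hh.disp hhc hs.1.le (by linarith [hs.2])
    have e5 : h s ≤ b + 40 * r := by
      have h1 := (abs_le.mp e4).2
      have h2 : 2 * eps * (s - b) ≤ 1 * (s - b) :=
        mul_le_mul_of_nonneg_right (by linarith) (by linarith [hs.1])
      linarith [hs.2]
    have e6 : x * (h s - s) ≤ f (h s) - f s :=
      hf.lo hfc (by linarith [hs.1]) (by linarith) e5
    rw [hkv]
    have e7 : 99 / 100 * (h s - s) ≤ x * (h s - s) :=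
      mul_le_mul_of_nonneg_right (by linarith) (by linarith)
    linarith
  have h4 : (f ^ 4) t = f (f (f (f t))) := by
    simp [pow_succ, Equiv.Perm.mul_apply]
  rw [h4] at hcon
  obtain ⟨ht1, ht2⟩ := step1 t ht hcon
  have Xt : 0 < t - f t := by linarith [free t ht]
  have hvI : v ∈ Ioc b v := ⟨by linarith, le_rfl⟩
  -- step (2)
  have Xv : 0 < v - f v := by linarith [free v hvI]
  have hhv2 : h v < v := by
    have h1 := hlo v hvI
    have h2 : 99 / 100 * (v - f v) ≤ x * (v - f v) :=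
      mul_le_mul_of_nonneg_right (by linarith) Xv.le
    have h3 : f (f v) < l v := by linarith
    have h5 := hlim h3
    rw [hinv] at h5
    rw [hhv]
    exact h5
  have htv : t < v := by
    refine lt_of_le_of_ne ht.2 ?_
    rintro rfl
    linarith
  -- step (3)
  obtain ⟨q, htq, hqv, hhq, hqlt⟩ := Mxd_first (g := ⇑h) (A.good hh.1).cont (p := t) (v := v)
    (by linarith) ⟨v, ⟨htv.le, le_rfl⟩, hhv2.le⟩
  have hqI : q ∈ Ioc b v := ⟨ht.1.trans htq, hqv⟩
  have hkq : k q < q := by
    rw [hkv, hhq]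
    exact free q hqI
  obtain ⟨q', htq', hq'q, hkq', -⟩ := Mxd_first (g := ⇑k) (A.good hk.1).cont (p := t) (v := q)
    ht2 ⟨q, ⟨htq.le, le_rfl⟩, hkq.le⟩
  obtain ⟨p, hp1, hpq, hkp, hplt⟩ := Mxd_last (f := ⇑k) (A.good hk.1).cont hq'q hkq' hkq
  have htp : t < p := htq'.trans_le hp1
  have hbp : b < p := ht.1.trans htp
  have hqr : q - p ≤ 9 * r := by linarith [ht.1]
  -- step (4)
  have hex : ∃ s ∈ Ioo p q, s ∈ A.L := by
    by_contra hno
    push Not at hno
    have hm : (p + q) / 2 ∉ A.L := hno _ ⟨by linarith, by linarith⟩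
    obtain ⟨a', b', hgap, hm1, hm2⟩ := A.exists_gap hm
    have ha'p : a' ≤ p := by
      by_contra hc
      push Not at hc
      exact hno a' ⟨hc, by linarith⟩ hgap.2.1
    have hqb' : q ≤ b' := by
      by_contra hc
      push Not at hc
      exact hno b' ⟨by linarith, hc⟩ hgap.2.2.1
    have hba' : b ≤ a' := by
      by_contra hc
      push Not at hc
      exact hgap.2.2.2 b ⟨hc, by linarith⟩ P.gap.2.2.1
    have hba : b < a' := by
      refine lt_of_le_of_ne hba' ?_
      intro hc
      obtain ⟨y, hy, hne, hd⟩ := A.perfect P.gap.2.2.1 (ε := min (b - a) (b' - b))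
        (lt_min (by linarith) (by linarith))
      have hd1 := hd.trans_le (min_le_left _ _)
      have hd2 := hd.trans_le (min_le_right _ _)
      rw [abs_lt] at hd1 hd2
      rcases lt_or_gt_of_ne hne with h1 | h1
      · exact P.gap.2.2.2 y ⟨by linarith [hd1.1], h1⟩ hy
      · exact hgap.2.2.2 y ⟨by linarith [h1], by linarith [hd2.2]⟩ hy
    have hfa' : f a' < a' := free a' ⟨hba, by linarith⟩
    have hfb' : f b' ≤ a' := by
      rcases (hgap.image A hf.1).eq_or hgap with h1 | h1 | h1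
      · exact absurd h1 hfa'.ne
      · exact h1
      · linarith [hgap.1]
    have h1 : h p < q := by
      have := hhm hpq
      rwa [hhq] at this
    have h2 := hfm h1
    have h3 := hfm.monotone hqb'
    rw [hkv] at hkp
    linarith
  -- step (5)
  have hc0 : 0 ≤ eps / (100 * r) := by positivity
  refine crossing A hk.1 hh.1 (p := p) (q := q) (ε := eps) (c := eps / (100 * r)) hpq hkp hplt hhq
    (fun s hs => hqlt s ⟨htp.le.trans hs.1, hs.2⟩) hep.le (by linarith) hc0 ?_ ?_ ?_ hex
  · have h1 : eps / (100 * r) * (q - p) ≤ eps / (100 * r) * (100 * r) :=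
      mul_le_mul_of_nonneg_left (by linarith) hc0
    have h2 : eps / (100 * r) * (100 * r) = eps := by field_simp
    linarith
  · exact Mxd_sub (hk.nid hkc) (by linarith) (by linarith) le_rfl le_rfl
  · exact Mxd_sub (hh.nid hhc) (by linarith) (by linarith) le_rfl le_rfl

end Pool.Agent.H42.EM
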