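/-
FDE : assembly of the data `Fd`.
-/
import Pool.Agent.H42.EZ.Dsp
import Pool.Agent.H42.EZ.Ddl

set_option autoImplicit false

namespace Pool.Agent.H42.EM

open Set

variable {A : Sys}

theorem exists_Fd (P : Gp A) : Nonempty (Fd P) := by
  obtain ⟨R⟩ := exists_Rp P
  obtain ⟨v, hvL, hv1, hv2, f, hf, free, hmax⟩ := R.right_free
  refine ⟨{ R with
    f := f
    v := v
    hf := hf
    hvL := hvL
    hv1 := hv1
    hv2 := hv2
    free := free
    dsp := ?_
    dd := ?_ }⟩
  · intro g hg s hs t ht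
    have h := hmax g hg s hs
    exact ⟨P.dsp_lem hf (R.lop hg hs) hv1 hv2 free (by have := (abs_le.1 h.1).1; linarith) t ht,
      P.dsp_lem hf (R.lop hg hs).inv hv1 hv2 free (by have := (abs_le.1 h.2).1; linarith) t ht⟩
  · intro g _ g' _ h1 h2 h3 h4
    exact P.dd_lem hf hv1 hv2 free h1 h2 h3 h4

end Pool.Agent.H42.EM
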