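/-
LNG : the longest gap of an orbit; finiteness of the number of orbits from a finite set of representatives.

PROOFS.
* exists_longest: as (2) in EM/Fgo.lean: V := {v | ∃ g ∈ G, v = g d - g c ∧ d - c ≤ v} is finite (gap_finset for η = d - c), nonempty (g = 1); take g with
  maximal v; then multiply by T^(-⌊g c⌋) (T_zpow) to have g c ∈ [0, 1).   (h (g d) - h (g c) ≤ g d - g c: clear if < d - c, else it is in V.)
* fin_of_reps: as (3) in EM/Fgo.lean: for q ∈ Fs let q' be the right endpoint, S := midpoints.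
-/
import Pool.Agent.H42.EM.Fgo

set_option autoImplicit false

namespace Pool.Agent.H42.EM

open Set

theorem exists_longest (A : Sys) {c d : ℝ} (h : IsGap A.L c d) :
    ∃ g ∈ A.G, g c ∈ Ico (0 : ℝ) 1 ∧ ∀ h ∈ A.G, h (g d) - h (g c) ≤ g d - g c := by
  have hpos : 0 < d - c := by linarith [h.1]
  obtain ⟨F, hF1, hF2⟩ := gap_finset A hpos
  choose! q' hq' using hF1
  set V : Set ℝ := {v | ∃ g ∈ A.G, v = g d - g c ∧ d - c ≤ v} with hV
  have hfin : V.Finite := by
    refine (F.finite_toSet.image (fun q => q' q - q)).subset ?_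
    rintro v ⟨g, hgG, rfl, hv⟩
    have hgap := h.image A hgG
    obtain ⟨q, hq, k, hk⟩ := hF2 (g c) (g d) hgap hv
    refine ⟨q, hq, ?_⟩
    have h3 := (hq' q hq).add_int A k
    rw [hk] at hgap
    have h4 := hgap.eq_of_left h3
    simp only
    rw [hk, h4]
    ring
  have hne : V.Nonempty := ⟨d - c, 1, Subgroup.one_mem _, by simp, le_refl _⟩
  obtain ⟨m, hm, hmax⟩ := Set.exists_max_image V id hfin hne
  obtain ⟨g, hgG, rfl, hv⟩ := hm
  have hmx : ∀ f ∈ A.G, f d - f c ≤ g d - g c := by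
    intro f hf
    by_cases hfd : d - c ≤ f d - f c
    · have h6 := hmax (f d - f c) ⟨f, hf, rfl, hfd⟩
      simpa using h6
    · push Not at hfd
      linarith
  refine ⟨T ^ (-⌊g c⌋) * g, Subgroup.mul_mem _ (A.Tz_mem _) hgG, ?_, ?_⟩
  · rw [Equiv.Perm.mul_apply, T_zpow]
    have h1 := Int.floor_le (g c)
    have h2 := Int.lt_floor_add_one (g c)
    push_cast
    constructor <;> linarith
  · intro f hf
    have h7 := hmx (f * (T ^ (-⌊g c⌋) * g)) (Subgroup.mul_mem _ hf (Subgroup.mul_mem _ (A.Tz_mem _) hgG))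
    rw [Equiv.Perm.mul_apply, Equiv.Perm.mul_apply] at h7
    refine h7.trans ?_
    rw [Equiv.Perm.mul_apply, Equiv.Perm.mul_apply, T_zpow, T_zpow]
    linarith

theorem fin_of_reps (A : Sys) (Fs : Set ℝ) (hF : Fs.Finite) (hq : ∀ q ∈ Fs, ∃ q', IsGap A.L q q')
    (h : ∀ c d, IsGap A.L c d → ∃ g ∈ A.G, ∃ q ∈ Fs, ∃ k : ℤ, g c = q + k) :
    ∃ S : Finset ℝ, (∀ s ∈ S, s ∉ A.L) ∧
      ∀ x : ℝ, x ∉ A.L → ∃ s ∈ S, ∃ g ∈ A.G, x ∈ connectedComponentIn (A.L)ᶜ (g s) := by
  classical
  choose! q' hq' using hq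
  refine ⟨hF.toFinset.image fun q => (q + q' q) / 2, ?_, ?_⟩
  · intro s hs
    obtain ⟨q, hq, rfl⟩ := Finset.mem_image.1 hs
    rw [Set.Finite.mem_toFinset] at hq
    have h3 := hq' q hq
    have h4 := h3.1
    exact h3.2.2.2 _ ⟨by linarith, by linarith⟩
  · intro x hx
    obtain ⟨a, b, hgap, hxab⟩ := A.exists_gap hx
    obtain ⟨g, hgG, q, hq, k, hk⟩ := h a b hgap
    have hgap' := hgap.image A hgG
    have h3 := (hq' q hq).add_int A k
    have h4 : g b = q' q + k := by
      rw [hk] at hgap'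
      exact hgap'.eq_of_left h3
    refine ⟨(q + q' q) / 2, Finset.mem_image_of_mem _ ((Set.Finite.mem_toFinset _).2 hq), g⁻¹ * T ^ k,
      Subgroup.mul_mem _ (Subgroup.inv_mem _ hgG) (A.Tz_mem k), ?_⟩
    have h5 := (hq' q hq).1
    have hmem : (g⁻¹ * T ^ k) ((q + q' q) / 2) ∈ Ioo a b := by
      rw [Equiv.Perm.mul_apply, T_zpow]
      have hmono := (A.good hgG).inv.mono
      have e1 : g⁻¹ (g b) = b := by simp
      have e2 : g⁻¹ (g a) = a := by simp
      constructor
      · rw [← e2]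
        apply hmono
        rw [hk]
        linarith
      · have : g⁻¹ ((q + q' q) / 2 + k) < g⁻¹ (g b) := by
          apply hmono
          rw [h4]
          linarith
        rwa [e1] at this
    have hsub : Ioo a b ⊆ (A.L)ᶜ := fun t ht => hgap.2.2.2 t ht
    exact isPreconnected_Ioo.subset_connectedComponentIn hmem hsub hxab

end Pool.Agent.H42.EM
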