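/-
SPS : two gaps with large scale are not close to each other.

PROOFS.
* no_close: p := P.b, q := P'.a.  p < q (p = q is impossible: accR_of_gap P.gap and P'.gap: P'.a... L accumulates at P.b from the right, but (P'.a, P'.b) ∩ L = ∅).
  exists_Rp P, right_free: f t < t on (P.b, v], v > P.b + 8 r, f P.b = P.b.  P'.left_free: t < fm t on [v', P'.a), v' < P'.a - 8 r', fm P'.a = P'.a.
  q - p < min r r', so [p, q] ⊆ [P.b, v] ∩ [v', P'.a].   `crossing` (EM/Crs) for (f, fm, p, q), ε := eps, c := eps/(100 min r r'): NId f p q eps c and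
  NId fm p q eps c by Lop.nid (K ⊇ [p, q]; the Lipschitz constants eps/(100 r), eps/(100 r') are ≤ c), c (q - p) ≤ eps; L ∩ (p, q) ≠ ∅ by accR_of_gap.
* fin_large: if S is infinite, the map x ↦ ⌊x / r₀⌋ ∈ [0, ⌈1/r₀⌉] takes the same value at two points x < y of S (Set.Infinite.exists_ne_map_eq_of_mapsTo), so
  y - x < r₀.  P.a = x, P'.a = y: P.b ≤ y (two gaps with different left endpoints: IsGap.eq_or) and y < x + r₀ ≤ P.b + min P.r P'.r.  no_close.
-/
import Pool.Agent.H42.EZ.Rfl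

set_option autoImplicit false

namespace Pool.Agent.H42.EM

open Set

lemma Sps_nid {f : Equiv.Perm ℝ} {a b r p q m : ℝ} (h : NId f (a - 40 * r) (b + 40 * r) eps
    (eps / (100 * r))) (hm : 0 < m) (hmr : m ≤ r) (hp : a - 40 * r ≤ p) (hq : q ≤ b + 40 * r) :
    NId f p q eps (eps / (100 * m)) := by
  refine ⟨fun t ht => h.1 t ⟨by linarith [ht.1], by linarith [ht.2]⟩, fun u hu v hv => ?_⟩
  refine (h.2 u ⟨by linarith [hu.1], by linarith [hu.2]⟩ v
    ⟨by linarith [hv.1], by linarith [hv.2]⟩).trans ?_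
  refine mul_le_mul_of_nonneg_right ?_ (abs_nonneg _)
  exact div_le_div_of_nonneg_left eps_pos.le (by linarith) (by linarith)

theorem no_close (A : Sys) (P P' : Gp A) (h1 : P.b ≤ P'.a) (h2 : P'.a < P.b + min P.r P'.r) :
    False := by
  have hr := P.hr
  have hr' := P'.hr
  have hab := P.gap.1
  have hab' := P'.gap.1
  have hW := P.hW
  have hW' := P'.hW
  have he := eps_pos
  have he1 : eps ≤ 1 / 20 := by unfold eps; norm_num
  obtain ⟨m, hm⟩ : ∃ m, m = min P.r P'.r := ⟨_, rfl⟩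
  have hm0 : 0 < m := by rw [hm]; exact lt_min hr hr'
  have hmr : m ≤ P.r := by rw [hm]; exact min_le_left _ _
  have hmr' : m ≤ P'.r := by rw [hm]; exact min_le_right _ _
  rw [← hm] at h2
  have hpq : P.b < P'.a := by
    rcases h1.lt_or_eq with h | h
    · exact h
    · exfalso
      obtain ⟨t, ht, htL⟩ := A.accR_of_gap P.gap (P'.b - P'.a) (by linarith)
      exact P'.gap.2.2.2 t ⟨by linarith [ht.1], by linarith [ht.2]⟩ htL
  obtain ⟨R⟩ := exists_Rp P
  obtain ⟨v, hvL, hv1, hv2, f, hf, hfree, -⟩ := R.right_free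
  obtain ⟨v', hvL', hv1', hv2', fm, hfm, hfree'⟩ := P'.left_free
  have hex : ∃ t ∈ Ioo P.b P'.a, t ∈ A.L := by
    obtain ⟨t, ht, htL⟩ := A.accR_of_gap P.gap (P'.a - P.b) (by linarith)
    exact ⟨t, ⟨ht.1, by linarith [ht.2]⟩, htL⟩
  have hN := Sps_nid (p := P.b) (q := P'.a) (hf.nid (by linarith)) hm0 hmr (by linarith) (by linarith)
  have hN' := Sps_nid (p := P.b) (q := P'.a) (hfm.nid (by linarith)) hm0 hmr' (by linarith)
    (by linarith)
  refine crossing A hf.1 hfm.1 hpq hf.2.2.1 (fun t ht => hfree t ⟨ht.1, by linarith [ht.2]⟩)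
    hfm.2.1 (fun t ht => hfree' t ⟨by linarith [ht.1], ht.2⟩) he.le he1
    (div_nonneg he.le (by linarith)) ?_ hN hN' hex
  have h3 : eps / (100 * m) * (P'.a - P.b) ≤ eps / (100 * m) * m :=
    mul_le_mul_of_nonneg_left (by linarith) (div_nonneg he.le (by linarith))
  have h4 : eps / (100 * m) * m = eps / 100 := by field_simp
  linarith

theorem Sps_key (A : Sys) {r₀ : ℝ} {x y : ℝ} (hxy : x < y) (h : y < x + r₀)
    (hx : ∃ P : Gp A, P.a = x ∧ r₀ ≤ P.r) (hy : ∃ P : Gp A, P.a = y ∧ r₀ ≤ P.r) : False := by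
  obtain ⟨P, hPa, hPr⟩ := hx
  obtain ⟨P', hPa', hPr'⟩ := hy
  have hab := P.gap.1
  have hab' := P'.gap.1
  rcases P.gap.eq_or P'.gap with h1 | h1 | h1
  · linarith
  · refine no_close A P P' h1 ?_
    have h2 : r₀ ≤ min P.r P'.r := le_min hPr hPr'
    linarith
  · linarith

theorem fin_large (A : Sys) {r₀ : ℝ} (h0 : 0 < r₀) (S : Set ℝ) (hS : S ⊆ Ico 0 1)
    (hP : ∀ x ∈ S, ∃ P : Gp A, P.a = x ∧ r₀ ≤ P.r) : S.Finite := by
  by_contra hinf
  have hinf' : S.Infinite := hinf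
  have hmap : MapsTo (fun x : ℝ => ⌊x / r₀⌋) S (Icc 0 ⌈1 / r₀⌉) := by
    intro x hx
    have h1 := hS hx
    refine ⟨Int.floor_nonneg.2 (div_nonneg h1.1 h0.le), ?_⟩
    have h2 : (⌊x / r₀⌋ : ℝ) ≤ x / r₀ := Int.floor_le _
    have h3 : x / r₀ ≤ 1 / r₀ := div_le_div_of_nonneg_right h1.2.le h0.le
    have h4 : (1 / r₀ : ℝ) ≤ ⌈1 / r₀⌉ := Int.le_ceil _
    exact_mod_cast h2.trans (h3.trans h4)
  obtain ⟨x, hx, y, hy, hne, he⟩ := hinf'.exists_ne_map_eq_of_mapsTo hmap (Set.finite_Icc _ _)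
  have he' : ⌊x / r₀⌋ = ⌊y / r₀⌋ := he
  have key : ∀ x y : ℝ, ⌊x / r₀⌋ = ⌊y / r₀⌋ → y < x + r₀ := by
    intro x y h
    have h1 := Int.floor_le (x / r₀)
    have h2 := Int.lt_floor_add_one (y / r₀)
    rw [← h] at h2
    have h3 : y / r₀ < x / r₀ + 1 := by linarith
    have h4 : y / r₀ * r₀ < (x / r₀ + 1) * r₀ := mul_lt_mul_of_pos_right h3 h0
    rw [div_mul_cancel₀ _ h0.ne', add_mul, div_mul_cancel₀ _ h0.ne', one_mul] at h4
    exact h4
  rcases lt_or_gt_of_ne hne with h | h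
  · exact Sps_key A h (key x y he') (hP x hx) (hP y hy)
  · exact Sps_key A h (key y x he'.symm) (hP y hy) (hP x hx)

end Pool.Agent.H42.EM
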