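/-
VSM : measure zero: families of intervals meeting only small gaps are small.

PROOF of vol_small.  Let U := {t | ∃ p q, IsGap L p q ∧ q - p ≤ r0 ∧ t ∈ Ioo p q}.
(1) r0 := the number ρ of gap_tail (EM/Gap) for ε := θ/3 (take also r0 ≤ 1).  Claim: volume (U ∩ Ioo 0 2) ≤ θ.  Let I be the set of pairs (p, q) with IsGap L p q,
  q - p ≤ r0, p ∈ Ico (-1) 2.  U ∩ Ioo 0 2 ⊆ ⋃_{(p,q) ∈ I} Ioo p q (if t ∈ Ioo p q, 0 < t < 2 then p < 2 and p > t - 1 > -1, as q - p ≤ 1).  I is countable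
  (pairwise disjoint nonempty open intervals: Set.PairwiseDisjoint.countable_of_Ioo / countable_of_isOpen; or gap_fin).  For every finite
  subset of I the sum of lengths is ≤ 3 * (θ/3): split it according to ⌊p⌋ ∈ {-1, 0, 1}; two gaps of one part are not congruent mod ℤ
  (p, p' ∈ [j, j+1), p = p' + k imply k = 0, p = p', q = q'), gap_tail with ι = ℝ × ℝ.  So volume (⋃_I Ioo) ≤ ∑' (ofReal lengths) ≤ ofReal θ
  (measure_biUnion_le, ENNReal.tsum_le_of_sum_le).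
(2) Given the family, replace (c i, d i) by (c i - ⌊c i⌋, d i - ⌊c i⌋): all hypotheses are invariant under integer translations (IsGap.add_int).
  So c i ∈ [0, 1), d i ≤ 2.  The intervals Ioo (c i) (d i) are pairwise disjoint (k = 0) and contained in L ∪ (U ∩ Ioo 0 2): if t ∈ Ioo (c i) (d i) and t ∉ L, let
  (p, q) be the gap containing t (A.exists_gap); p < t < d i, c i < t < q, so q - p ≤ r0.   ∑ (d i - c i) = volume of the union ≤ 0 + θ.
-/
import Pool.Agent.H42.EZ.Vit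
import Pool.Agent.H42.EM.Gap
import Pool.Agent.H42.EM.Mini

set_option autoImplicit false

namespace Pool.Agent.H42.EM

open Set MeasureTheory

/-- families of intervals, disjoint mod ℤ, which meet only gaps of length `≤ r0` have total length `≤ θ` -/
def Sys.Vsm (A : Sys) (r0 θ : ℝ) : Prop :=
  ∀ {ι : Type} (s : Finset ι) (c d : ι → ℝ), (∀ i ∈ s, c i < d i) → (∀ i ∈ s, d i - c i ≤ 1) →
    (∀ i ∈ s, ∀ j ∈ s, i ≠ j → ∀ k : ℤ, d i ≤ c j + k ∨ d j + k ≤ c i) →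
    (∀ i ∈ s, ∀ p q, IsGap A.L p q → p < d i → c i < q → q - p ≤ r0) →
    ∑ i ∈ s, (d i - c i) ≤ θ

/-- the small gaps with left end point in `[-1, 2)` -/
def Vsm_I (A : Sys) (r0 : ℝ) : Set (ℝ × ℝ) :=
  {p | IsGap A.L p.1 p.2 ∧ p.2 - p.1 ≤ r0 ∧ p.1 ∈ Ico (-1 : ℝ) 2}

lemma Vsm_disj (A : Sys) (r0 : ℝ) :
    (Vsm_I A r0).PairwiseDisjoint (fun p : ℝ × ℝ => Ioo p.1 p.2) := by
  intro p hp q hq hpq
  rw [Function.onFun, Set.disjoint_left]
  intro t ht ht'
  rcases hp.1.eq_or hq.1 with h | h | h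
  · apply hpq
    have g1 := hp.1
    rw [h] at g1
    exact Prod.ext h (g1.eq_of_left hq.1)
  · linarith [ht.2, ht'.1]
  · linarith [ht.1, ht'.2]

lemma Vsm_count (A : Sys) (r0 : ℝ) : (Vsm_I A r0).Countable := by
  refine (Vsm_disj A r0).countable_of_isOpen (fun p _ => isOpen_Ioo) (fun p hp => ?_)
  exact nonempty_Ioo.2 hp.1.1

lemma Vsm_fin (A : Sys) {r0 θ : ℝ}
    (hr : ∀ (s : Finset (ℝ × ℝ)), (∀ i ∈ s, IsGap A.L i.1 i.2) →
      (∀ i ∈ s, ∀ j ∈ s, i ≠ j → ∀ k : ℤ, i.1 ≠ j.1 + k) →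
      (∀ i ∈ s, i.2 - i.1 ≤ r0) → ∑ i ∈ s, (i.2 - i.1) ≤ θ / 3)
    (F : Finset (ℝ × ℝ)) (hF : ∀ p ∈ F, p ∈ Vsm_I A r0) : ∑ p ∈ F, (p.2 - p.1) ≤ θ := by
  classical
  have h1 : ∀ p ∈ F, ⌊p.1⌋ ∈ Finset.Icc (-1 : ℤ) 1 := by
    intro p hp
    have h2 := (hF p hp).2.2
    rw [Finset.mem_Icc]
    constructor
    · rw [Int.le_floor]
      push_cast
      exact h2.1
    · have h3 : ⌊p.1⌋ < 2 := by
        rw [Int.floor_lt]
        push_cast
        exact h2.2
      omega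
  rw [← Finset.sum_fiberwise_of_maps_to h1]
  have h2 : ∀ j ∈ Finset.Icc (-1 : ℤ) 1, ∑ p ∈ F with ⌊p.1⌋ = j, (p.2 - p.1) ≤ θ / 3 := by
    intro j _
    refine hr _ ?_ ?_ ?_
    · intro p hp
      exact (hF p (Finset.mem_filter.1 hp).1).1
    · intro p hp q hq hpq k hk
      have e1 := (Finset.mem_filter.1 hp).2
      have e2 := (Finset.mem_filter.1 hq).2
      have e3 : ⌊p.1⌋ = ⌊q.1⌋ + k := by rw [hk, Int.floor_add_intCast]
      have hk0 : k = 0 := by omega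
      rw [hk0, Int.cast_zero, add_zero] at hk
      have g1 := (hF p (Finset.mem_filter.1 hp).1).1
      have g2 := (hF q (Finset.mem_filter.1 hq).1).1
      rw [hk] at g1
      exact hpq (Prod.ext hk (g1.eq_of_left g2))
    · intro p hp
      exact (hF p (Finset.mem_filter.1 hp).1).2.1
  have h3 := Finset.sum_le_card_nsmul _ _ _ h2
  have h4 : (Finset.Icc (-1 : ℤ) 1).card = 3 := by decide
  rw [h4, nsmul_eq_mul] at h3
  push_cast at h3
  linarith

lemma Vsm_vol (A : Sys) {r0 θ : ℝ}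
    (hr : ∀ (s : Finset (ℝ × ℝ)), (∀ i ∈ s, IsGap A.L i.1 i.2) →
      (∀ i ∈ s, ∀ j ∈ s, i ≠ j → ∀ k : ℤ, i.1 ≠ j.1 + k) →
      (∀ i ∈ s, i.2 - i.1 ≤ r0) → ∑ i ∈ s, (i.2 - i.1) ≤ θ / 3) :
    volume (⋃ p ∈ Vsm_I A r0, Ioo p.1 p.2) ≤ ENNReal.ofReal θ := by
  classical
  refine (measure_biUnion_le volume (Vsm_count A r0) (fun p => Ioo p.1 p.2)).trans ?_
  rw [ENNReal.tsum_eq_iSup_sum]
  refine iSup_le fun F => ?_
  have h1 : ∑ p ∈ F, volume (Ioo (p : ℝ × ℝ).1 (p : ℝ × ℝ).2) =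
      ENNReal.ofReal (∑ p ∈ F, ((p : ℝ × ℝ).2 - (p : ℝ × ℝ).1)) := by
    rw [ENNReal.ofReal_sum_of_nonneg]
    · refine Finset.sum_congr rfl fun p _ => ?_
      rw [Real.volume_Ioo]
    · intro p _
      have := p.2.1.1
      linarith
  rw [h1]
  apply ENNReal.ofReal_le_ofReal
  have h2 := Vsm_fin A hr (F.image Subtype.val) (by
    intro p hp
    obtain ⟨q, _, rfl⟩ := Finset.mem_image.1 hp
    exact q.2)
  rwa [Finset.sum_image (fun p _ q _ h => Subtype.ext h)] at h2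

theorem vol_small (A : Sys) (h0 : volume A.L = 0) {θ : ℝ} (hθ : 0 < θ) :
    ∃ r0 > 0, A.Vsm r0 θ := by
  classical
  obtain ⟨r0, hr0, hr⟩ := gap_tail A (show (0 : ℝ) < θ / 3 by linarith)
  refine ⟨r0, hr0, ?_⟩
  intro ι s c d hcd hcd1 hdis hgap
  have hvol := Vsm_vol A (r0 := r0) (θ := θ) (fun s h1 h2 h3 => hr s Prod.fst Prod.snd h1 h2 h3)
  set W : Set ℝ := ⋃ i ∈ s, Ioo (c i - ⌊c i⌋) (d i - ⌊c i⌋) with hW
  have hsub : W ⊆ A.L ∪ ⋃ p ∈ Vsm_I A r0, Ioo p.1 p.2 := by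
    intro t ht
    simp only [hW, mem_iUnion] at ht
    obtain ⟨i, hi, ht⟩ := ht
    by_cases htL : t ∈ A.L
    · exact Or.inl htL
    · right
      obtain ⟨p, q, hpq, htp⟩ := A.exists_gap htL
      have h1 := hpq.add_int A ⌊c i⌋
      have h2 := hgap i hi _ _ h1 (by linarith [ht.2, htp.1]) (by linarith [ht.1, htp.2])
      have h3 := hpq.len_le_one A
      have h4 := Int.floor_le (c i)
      have h5 := Int.lt_floor_add_one (c i)
      have h6 := hcd1 i hi
      simp only [mem_iUnion]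
      refine ⟨(p, q), ⟨hpq, by linarith, ?_, ?_⟩, htp⟩
      · show -1 ≤ p
        linarith [htp.2, ht.1]
      · show p < 2
        linarith [htp.1, ht.2]
  have hWv : volume W = ENNReal.ofReal (∑ i ∈ s, (d i - c i)) := by
    rw [hW, measure_biUnion_finset]
    · rw [ENNReal.ofReal_sum_of_nonneg]
      · refine Finset.sum_congr rfl fun i _ => ?_
        rw [Real.volume_Ioo]
        congr 1
        ring
      · intro i hi
        have := hcd i hi
        linarith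
    · intro i hi j hj hij
      rw [Function.onFun, Set.disjoint_left]
      intro t ht ht'
      rcases hdis i hi j hj hij (⌊c i⌋ - ⌊c j⌋) with h | h
      · push_cast at h
        linarith [ht.2, ht'.1]
      · push_cast at h
        linarith [ht.1, ht'.2]
    · intro i _
      exact measurableSet_Ioo
  have hle : volume W ≤ ENNReal.ofReal θ := by
    refine (measure_mono hsub).trans ((measure_union_le _ _).trans ?_)
    rw [h0, zero_add]
    exact hvol
  rw [hWv] at hle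
  exact (ENNReal.ofReal_le_ofReal_iff hθ.le).1 hle

end Pool.Agent.H42.EM
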