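/-
TPM : the vertices without ancestors.

PROOFS.
* top_gap: p' := (rp y)⁻¹ p, q' := (rp y)⁻¹ q: a gap (IsGap.image), p' < b + r, b < q'.  b ≤ p' (b ∈ L is not inside (p', q')), b ≠ p' (accR_of_gap P.gap).
  f p' < p' (free; p' < b + r < v), so (f p', f q') is another gap and f q' ≤ p' (IsGap.eq_or; q' ≤ f p' < p' is impossible).  If v < q' then
  f v < f q' ≤ p' < b + r, but f v ≥ v - 2 eps (v - b) > b + 7r (X_le).  So q' ≤ v < b + 9r and q' - p' ≤ q' - f q' ≤ 18 eps r.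
  q - p = rp y q' - rp y p' ≤ 1.001 rh y (q' - p') ≤ r (aff, rh_le).
* top_disj: y and T^k * y' are in G; y a ≠ (T^k y') a = y' a + k, so (sep_or) y b ≤ y' a + k or y' b + k ≤ y a.  First case: if y' a + k < rp y (b + r), then
  y' a < rp (T^(-k) * y) (b + r) (F.rT, T_zpow) and (T^(-k) * y) b ≤ y' a: Anc y' (T^(-k) * y), contradiction.  So rp y (b + r) ≤ y' a + k ≤ y' b + k.
  Second case: if y a < rp y' (b + r) + k = rp (T^k * y') (b + r) then Anc y (T^k * y').  So rp y' (b + r) + k ≤ y a ≤ y b.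
* top_fam: apply hv with ι = Perm ℝ, c y := y b, d y := rp y (b + r): d y - c y ∈ [0.999 r rh y, 1.001 r rh y] (aff, (rp y) b = y b), ≤ 1; top_disj, top_gap.
-/
import Pool.Agent.H42.EZ.Vsm
import Pool.Agent.H42.EZ.Fpw

set_option autoImplicit false

namespace Pool.Agent.H42.EM

open Set

variable {A : Sys} {P : Gp A}

lemma Fd.top_gap (F : Fd P) {y : Equiv.Perm ℝ} (hy : y ∈ A.G) {p q : ℝ} (h : IsGap A.L p q)
    (h1 : p < F.rp y (P.b + P.r)) (h2 : y P.b < q) : q - p ≤ P.r := by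
  have hr := P.hr
  have hW := P.hW
  have hab := P.ab
  have hg : F.rp y ∈ A.G := F.mem y hy
  have hgb := F.hb y hy
  have hctl : Ctl P.a P.b P.r (F.rp y) := P.ctl_of (F.cst y hy) (by linarith)
  have hrh : P.rh (F.rp y) ≤ 1 := P.rh_le hg
  have hrh0 : 0 < P.rh (F.rp y) := P.rh_pos hg
  obtain ⟨p', rfl⟩ : ∃ p', p = F.rp y p' := ⟨(F.rp y)⁻¹ p, by simp⟩
  obtain ⟨q', rfl⟩ : ∃ q', q = F.rp y q' := ⟨(F.rp y)⁻¹ q, by simp⟩
  have hmono := (A.good hg).mono
  have hgap : IsGap A.L p' q' := by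
    have h3 := h.image A (inv_mem hg)
    simpa using h3
  have hp1 : p' < P.b + P.r := hmono.lt_iff_lt.1 h1
  have hq1 : P.b < q' := by
    rw [← hgb] at h2
    exact hmono.lt_iff_lt.1 h2
  have hp2 : P.b ≤ p' := by
    by_contra h3
    exact hgap.2.2.2 P.b ⟨not_le.1 h3, hq1⟩ P.gap.2.2.1
  have hp3 : P.b < p' := by
    refine lt_of_le_of_ne hp2 fun h3 => ?_
    obtain ⟨t, ht, htL⟩ := A.accR_of_gap P.gap (q' - P.b) (by linarith)
    refine hgap.2.2.2 t ⟨?_, ?_⟩ htL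
    · rw [← h3]
      exact ht.1
    · linarith [ht.2]
  have hv1 := F.hv1
  have hv2 := F.hv2
  have hfree : F.f p' < p' := F.free p' ⟨hp3, by linarith⟩
  have hpq : p' < q' := hgap.1
  have hfq : F.f q' ≤ p' := by
    rcases (hgap.image A F.hf.1).eq_or hgap with h3 | h3 | h3
    · exact absurd h3 hfree.ne
    · exact h3
    · exact absurd h3 (by linarith)
  have heps : eps = 1 / 10 ^ 8 := rfl
  have hqv : q' ≤ F.v := by
    by_contra h3
    have h4 := F.X_le (t := F.v) (by linarith) (by linarith)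
    have h5 : F.f F.v < F.f q' := (A.good F.hf.1).mono (not_le.1 h3)
    have h6 : 2 * eps * (F.v - P.b) ≤ P.r := by
      rw [heps]
      linarith
    linarith
  have h4 := F.X_le (t := q') hq1.le (by linarith)
  have h5 : q' - p' ≤ 18 * eps * P.r := by
    have h6 : 2 * eps * (q' - P.b) ≤ 2 * eps * (9 * P.r) := by
      refine mul_le_mul_of_nonneg_left (by linarith) ?_
      have := eps_pos
      linarith
    linarith
  have h6 := (P.aff hg hctl (u := p') (v := q') (by linarith) hpq.le (by linarith)).2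
  refine h6.trans ?_
  have h7 : 1001 / 1000 * P.rh (F.rp y) * (q' - p') ≤ 1001 / 1000 * (q' - p') := by
    refine mul_le_mul_of_nonneg_right ?_ (by linarith)
    linarith
  refine h7.trans ?_
  rw [heps] at h5
  linarith

lemma Fd.top_disj (F : Fd P) {y y' : Equiv.Perm ℝ} (hy : y ∈ A.G) (hy' : y' ∈ A.G)
    (h : ¬ ∃ z, F.Anc y z) (h' : ¬ ∃ z, F.Anc y' z) {k : ℤ} (hne : y P.a ≠ y' P.a + k) :
    F.rp y (P.b + P.r) ≤ y' P.b + k ∨ F.rp y' (P.b + P.r) + k ≤ y P.b := by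
  have hab := P.ab
  have hTy : ∀ (j : ℤ) (z : Equiv.Perm ℝ) (t : ℝ), (T ^ j * z) t = z t + j := by
    intro j z t
    rw [Equiv.Perm.mul_apply, T_zpow]
  have hzG : T ^ k * y' ∈ A.G := mul_mem (A.Tz_mem k) hy'
  rcases P.sep_or hy hzG with h1 | h1 | h1
  · exact absurd (by rw [h1.1, hTy]) hne
  · left
    rw [hTy] at h1
    have h2 : y' P.a ≤ y' P.b := (A.good hy').mono.monotone hab.le
    by_contra h3
    rw [not_le] at h3
    refine h' ⟨T ^ (-k) * y, mul_mem (A.Tz_mem _) hy, ?_, ?_⟩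
    · rw [hTy]
      push_cast
      linarith
    · rw [F.rT (-k) y hy, hTy]
      push_cast
      linarith
  · right
    rw [hTy] at h1
    have h2 : y P.a ≤ y P.b := (A.good hy).mono.monotone hab.le
    by_contra h3
    rw [not_le] at h3
    refine h ⟨T ^ k * y', hzG, ?_, ?_⟩
    · rw [hTy]
      exact h1
    · rw [F.rT k y' hy', hTy]
      linarith

theorem Fd.top_fam (F : Fd P) {r0 θ : ℝ} (hr : P.r ≤ r0) (hv : A.Vsm r0 θ)
    (s : Finset (Equiv.Perm ℝ)) (h : ∀ y ∈ s, y ∈ A.G ∧ ¬ ∃ z, F.Anc y z)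
    (hne : ∀ y ∈ s, ∀ y' ∈ s, y ≠ y' → ∀ k : ℤ, y P.a ≠ y' P.a + k) :
    P.r * ∑ y ∈ s, P.rh y ≤ 1002 / 1000 * θ := by
  have hr0 := P.hr
  have hr1 := P.hr1
  have hW := P.hW
  have hab := P.ab
  have haff : ∀ y ∈ s, 999 / 1000 * (P.r * P.rh y) ≤ F.rp y (P.b + P.r) - y P.b ∧
      F.rp y (P.b + P.r) - y P.b ≤ 1001 / 1000 * (P.r * P.rh y) := by
    intro y hy
    have hyG := (h y hy).1
    have h1 := P.aff (F.mem y hyG) (P.ctl_of (F.cst y hyG) (by linarith)) (u := P.b)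
      (v := P.b + P.r) (by linarith) (by linarith) (by linarith)
    rw [P.rh_congr (F.ha y hyG) (F.hb y hyG), F.hb y hyG] at h1
    have h2 : P.b + P.r - P.b = P.r := by ring
    rw [h2] at h1
    constructor
    · linarith [h1.1]
    · linarith [h1.2]
  have hpos : ∀ y ∈ s, 0 < P.r * P.rh y := fun y hy => mul_pos hr0 (P.rh_pos (h y hy).1)
  have hle : ∀ y ∈ s, P.r * P.rh y ≤ 1 / 1000 := by
    intro y hy
    have h1 := P.rh_le (h y hy).1
    have h2 : P.r * P.rh y ≤ P.r * 1 := mul_le_mul_of_nonneg_left h1 hr0.le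
    linarith
  have key := hv s (fun y => y P.b) (fun y => F.rp y (P.b + P.r))
    (fun y hy => by
      have h1 := (haff y hy).1
      have h2 := hpos y hy
      linarith)
    (fun y hy => by
      have h1 := (haff y hy).2
      have h2 := hle y hy
      linarith)
    (fun y hy y' hy' hyy k =>
      F.top_disj (h y hy).1 (h y' hy').1 (h y hy).2 (h y' hy').2 (hne y hy y' hy' hyy k))
    (fun y hy p q hpq h1 h2 => (F.top_gap (h y hy).1 hpq h1 h2).trans hr)
  have h1 : 999 / 1000 * (P.r * ∑ y ∈ s, P.rh y) ≤ ∑ y ∈ s, (F.rp y (P.b + P.r) - y P.b) := by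
    rw [Finset.mul_sum, Finset.mul_sum]
    exact Finset.sum_le_sum fun y hy => (haff y hy).1
  have h2 : 0 ≤ P.r * ∑ y ∈ s, P.rh y := by
    rw [Finset.mul_sum]
    exact Finset.sum_nonneg fun y hy => (hpos y hy).le
  linarith

end Pool.Agent.H42.EM
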