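/-
RES : measure zero implies that there are only finitely many orbits of gaps.
-/
import Pool.Agent.H42.EZ.Fde
import Pool.Agent.H42.EZ.Cnt
import Pool.Agent.H42.EZ.Tpm
import Pool.Agent.H42.EZ.Bld
import Pool.Agent.H42.EZ.Sps
import Pool.Agent.H42.EZ.Lng

set_option autoImplicit false

namespace Pool.Agent.H42.EM

open Set MeasureTheory

/-- a gap of small scale gives a contradiction -/
theorem small_false {A : Sys} (P : Gp A) {r0 θ : ℝ} (hr : P.r ≤ r0) (hv : A.Vsm r0 θ)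
    (hθ : θ = P.r * P.W / (300 * P.B)) (far : ∃ g ∈ A.G, 99 / 100 ≤ P.E g) : False := by
  obtain ⟨F⟩ := exists_Fd P
  refine F.con far fun s hs hne => ?_
  have h1 := F.top_fam hr hv s hs hne
  have hr0 := P.hr
  have hB : 0 < P.B := lt_of_lt_of_le one_pos P.hB
  have hW := P.hW
  rw [le_div_iff₀ (mul_pos (by norm_num : (0:ℝ) < 100) hB)]
  have h2 : θ * (300 * P.B) = P.r * P.W := by
    rw [hθ]
    field_simp
  have h3 : (P.r * ∑ y ∈ s, P.rh y) * (300 * P.B) ≤ 1002 / 1000 * (P.r * P.W) := by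
    rw [← h2]
    have h5 := mul_le_mul_of_nonneg_right h1 (mul_nonneg (by norm_num : (0:ℝ) ≤ 300) hB.le)
    linarith
  have h4 : P.r * ((∑ y ∈ s, P.rh y) * (100 * P.B)) ≤ P.r * P.W := by
    nlinarith [mul_pos hr0 (lt_of_lt_of_le (by norm_num : (0:ℝ) < 1000) hW)]
  exact le_of_mul_le_mul_left h4 hr0

/-- a quantitative version -/
theorem main_quant (A : Sys) {M : ℝ} (hM : A.LipS M) (hM1 : 1 ≤ M)
    (h0 : ∃ r0 > 0, A.Vsm r0 (eps / (20000 * M) / (300 * Real.exp M))) :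
    ∃ S : Finset ℝ, (∀ s ∈ S, s ∉ A.L) ∧
      ∀ x : ℝ, x ∉ A.L → ∃ s ∈ S, ∃ g ∈ A.G, x ∈ connectedComponentIn (A.L)ᶜ (g s) := by
  classical
  obtain ⟨ρ0, hρ0, hbld⟩ := exists_Gp A hM hM1
  obtain ⟨r0, hr0, hv⟩ := h0
  have hc0 : 0 < eps / (20000 * M) := div_pos eps_pos (by positivity)
  set c0 := eps / (20000 * M) with hc0d
  set S0 : Set ℝ := {x | x ∈ Ico (0 : ℝ) 1 ∧ ∃ b, IsGap A.L x b ∧
    (∀ g ∈ A.G, g b - g x ≤ b - x) ∧ b - x ≤ ρ0} with hS0
  have hfin : S0.Finite := by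
    refine fin_large A (lt_min hr0 (show 0 < c0 / 2000 by positivity)) S0 (fun x hx => hx.1) ?_
    rintro x ⟨-, b, hg, hl, hb⟩
    obtain ⟨P, rfl, -, hPB, hrW, hfar⟩ := hbld x b hg hl hb
    refine ⟨P, rfl, ?_⟩
    by_contra hcon
    push Not at hcon
    rw [lt_min_iff] at hcon
    rcases hfar with hfar | hfar
    · exact small_false P hcon.1.le hv (by rw [hrW, hPB]) hfar
    · rw [hfar] at hcon
      have := hcon.2
      linarith
  obtain ⟨F, hF1, hF2⟩ := gap_finset A hρ0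
  refine fin_of_reps A (S0 ∪ ↑F) (hfin.union F.finite_toSet) ?_ ?_
  · rintro q (⟨-, b, hg, -⟩ | hq)
    · exact ⟨b, hg⟩
    · exact hF1 q hq
  · intro c d hcd
    obtain ⟨g, hg, hIco, hmax⟩ := exists_longest A hcd
    have hgap := hcd.image A hg
    by_cases hle : g d - g c ≤ ρ0
    · refine ⟨g, hg, g c, Or.inl ⟨hIco, g d, hgap, hmax, hle⟩, 0, by simp⟩
    · obtain ⟨q, hq, k, hk⟩ := hF2 (g c) (g d) hgap (by linarith)
      exact ⟨g, hg, q, Or.inr hq, k, hk⟩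

theorem main_zero (A : Sys) (h0 : volume A.L = 0) :
    ∃ S : Finset ℝ, (∀ s ∈ S, s ∉ A.L) ∧
      ∀ x : ℝ, x ∉ A.L → ∃ s ∈ S, ∃ g ∈ A.G, x ∈ connectedComponentIn (A.L)ᶜ (g s) := by
  obtain ⟨M, hM⟩ := A.exists_lip
  have hM1 : 1 ≤ max M 1 := le_max_right _ _
  have hM' : A.LipS (max M 1) := ⟨by linarith, fun s hs u v => (hM.2 s hs u v).trans
    (mul_le_mul_of_nonneg_right (le_max_left _ _) (abs_nonneg _))⟩
  refine main_quant A hM' hM1 (vol_small A h0 ?_)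
  have := eps_pos
  have : 0 < max M 1 := by linarith
  have := Real.exp_pos (max M 1)
  positivity

end Pool.Agent.H42.EM
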