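/-
QNT : the quantitative version (small measure instead of measure zero).
-/
import Pool.Agent.H42.EZ.Res

set_option autoImplicit false

namespace Pool.Agent.H42.EM

open Set MeasureTheory

lemma Qnt_two (A : Sys) : volume (A.L ∩ Ico (0 : ℝ) 2) ≤ 2 * volume (A.L ∩ Ico (0 : ℝ) 1) := by
  have h1 : A.L ∩ Ico (0 : ℝ) 2 ⊆ (A.L ∩ Ico (0 : ℝ) 1) ∪ ((fun x => x + (-1 : ℝ)) ⁻¹' (A.L ∩ Ico (0 : ℝ) 1)) := by
    rintro t ⟨htL, ht0, ht2⟩
    by_cases h : t < 1
    · exact Or.inl ⟨htL, ht0, h⟩
    · right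
      refine ⟨?_, ?_, ?_⟩
      · have := (A.mem_add_int t (-1)).2 htL
        push_cast at this
        exact this
      · show (0 : ℝ) ≤ t + -1
        linarith [not_lt.1 h]
      · show t + -1 < (1 : ℝ)
        linarith
  refine (measure_mono h1).trans ((measure_union_le _ _).trans ?_)
  rw [measure_preimage_add_right, two_mul]

theorem vol_small' (A : Sys) {θ : ℝ} (hθ : 0 < θ)
    (h0 : volume (A.L ∩ Ico (0 : ℝ) 1) ≤ ENNReal.ofReal (θ / 4)) : ∃ r0 > 0, A.Vsm r0 θ := by
  classical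
  obtain ⟨r0, hr0, hr⟩ := gap_tail A (show (0 : ℝ) < θ / 2 / 3 by linarith)
  refine ⟨r0, hr0, ?_⟩
  intro ι s c d hcd hcd1 hdis hgap
  have hvol := Vsm_vol A (r0 := r0) (θ := θ / 2) (fun s h1 h2 h3 => hr s Prod.fst Prod.snd h1 h2 h3)
  set W : Set ℝ := ⋃ i ∈ s, Ioo (c i - ⌊c i⌋) (d i - ⌊c i⌋) with hW
  have hsub : W ⊆ (A.L ∩ Ico (0 : ℝ) 2) ∪ ⋃ p ∈ Vsm_I A r0, Ioo p.1 p.2 := by
    intro t ht
    simp only [hW, mem_iUnion] at ht
    obtain ⟨i, hi, ht⟩ := ht
    have h4 := Int.floor_le (c i)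
    have h5 := Int.lt_floor_add_one (c i)
    have h6 := hcd1 i hi
    by_cases htL : t ∈ A.L
    · exact Or.inl ⟨htL, by linarith [ht.1], by linarith [ht.2]⟩
    · right
      obtain ⟨p, q, hpq, htp⟩ := A.exists_gap htL
      have h1 := hpq.add_int A ⌊c i⌋
      have h2 := hgap i hi _ _ h1 (by linarith [ht.2, htp.1]) (by linarith [ht.1, htp.2])
      have h3 := hpq.len_le_one A
      simp only [mem_iUnion]
      refine ⟨(p, q), ⟨hpq, by linarith, ?_, ?_⟩, htp⟩
      · show -1 ≤ p
        linarith [htp.2, ht.1]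
      · show p < 2
        linarith [htp.1, ht.2]
  have hWv : volume W = ENNReal.ofReal (∑ i ∈ s, (d i - c i)) := by
    rw [hW, measure_biUnion_finset]
    · rw [ENNReal.ofReal_sum_of_nonneg]
      · refine Finset.sum_congr rfl fun i _ => ?_
        rw [Real.volume_Ioo]
        congr 1
        ring
      · intro i hi
        have := hcd i hi
        linarith
    · intro i hi j hj hij
      rw [Function.onFun, Set.disjoint_left]
      intro t ht ht'
      rcases hdis i hi j hj hij (⌊c i⌋ - ⌊c j⌋) with h | h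
      · push_cast at h
        linarith [ht.2, ht'.1]
      · push_cast at h
        linarith [ht.1, ht'.2]
    · intro i _
      exact measurableSet_Ioo
  have hle : volume W ≤ ENNReal.ofReal θ := by
    refine (measure_mono hsub).trans ((measure_union_le _ _).trans ?_)
    refine (add_le_add ((Qnt_two A).trans (mul_le_mul_right h0 2)) hvol).trans ?_
    rw [show (2 : ENNReal) = ENNReal.ofReal 2 by simp, ← ENNReal.ofReal_mul (by norm_num),
      ← ENNReal.ofReal_add (by linarith) (by linarith)]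
    apply ENNReal.ofReal_le_ofReal
    linarith
  rw [hWv] at hle
  exact (ENNReal.ofReal_le_ofReal_iff hθ.le).1 hle

/-- small measure implies finitely many orbits of gaps -/
theorem main_small (A : Sys) {M : ℝ} (hM : A.LipS M) (hM1 : 1 ≤ M)
    (h0 : volume (A.L ∩ Ico (0 : ℝ) 1) ≤ ENNReal.ofReal (1 / (10 ^ 16 * M * Real.exp M))) :
    ∃ S : Finset ℝ, (∀ s ∈ S, s ∉ A.L) ∧
      ∀ x : ℝ, x ∉ A.L → ∃ s ∈ S, ∃ g ∈ A.G, x ∈ connectedComponentIn (A.L)ᶜ (g s) := by
  have hM0 : 0 < M := by linarith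
  have hE := Real.exp_pos M
  refine main_quant A hM hM1 (vol_small' A ?_ (h0.trans ?_))
  · have := eps_pos
    positivity
  · apply ENNReal.ofReal_le_ofReal
    have h1 : eps / (20000 * M) / (300 * Real.exp M) / 4 = 1 / (24 * 10 ^ 14 * M * Real.exp M) := by
      unfold eps
      field_simp
      norm_num
    rw [h1]
    apply one_div_le_one_div_of_le
    · positivity
    · have : 0 < M * Real.exp M := by positivity
      nlinarith

end Pool.Agent.H42.EM
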